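import Pool.Agent.N138.RF.R6
import Pool.Agent.N138.SV.A1

set_option autoImplicit false
set_option linter.unusedSectionVars false

/-! # Periods of semi-weighted-homogeneous polynomials -/

namespace Pool.Agent.J4H50.IG

open MvPolynomial
open Pool.Agent.N138.SU Pool.Agent.N138.SV
open Pool.Agent.N138.SU.W4b (comp_mul comp_mul_lt comp_pd)
open Pool.Agent.N138.RF.R6 (pd_comp euler)

section Ord

variable {τ A : Type} [CommRing A] {w : τ → ℕ}

/-- all the monomials have weight at least `k` -/
def Ord (w : τ → ℕ) (k : ℕ) (f : MvPolynomial τ A) : Prop :=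
  ∀ m, coeff m f ≠ 0 → k ≤ Finsupp.weight w m

theorem Ord.mono {k l : ℕ} {f : MvPolynomial τ A} (h : Ord w k f) (hl : l ≤ k) : Ord w l f :=
  fun m hm => hl.trans (h m hm)

theorem Ord.zero (f : MvPolynomial τ A) : Ord w 0 f := fun _ _ => Nat.zero_le _

theorem Ord.mul {k l : ℕ} {f g : MvPolynomial τ A} (hf : Ord w k f) (hg : Ord w l g) :
    Ord w (k + l) (f * g) := by
  classical
  intro m hm
  rw [coeff_mul] at hm
  obtain ⟨x, hx, hne⟩ := Finset.exists_ne_zero_of_sum_ne_zero hm
  rw [Finset.HasAntidiagonal.mem_antidiagonal] at hx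
  rw [← hx, map_add]
  exact add_le_add (hf _ (left_ne_zero_of_mul hne)) (hg _ (right_ne_zero_of_mul hne))

theorem Ord.pow {k : ℕ} {f : MvPolynomial τ A} (hf : Ord w k f) (j : ℕ) :
    Ord w (j * k) (f ^ j) := by
  induction j with
  | zero =>
    rw [Nat.zero_mul]
    exact Ord.zero _
  | succ j ih =>
    rw [pow_succ, Nat.succ_mul]
    exact ih.mul hf

theorem Ord.pderiv {k : ℕ} {f : MvPolynomial τ A} (hf : Ord w k f) (i : τ) :
    Ord w (k - w i) (MvPolynomial.pderiv i f) := by
  classical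
  intro m hm
  rw [coeff_pderiv] at hm
  have h1 := hf _ (left_ne_zero_of_mul hm)
  rw [map_add, Finsupp.weight_single, one_smul] at h1
  omega

theorem Ord.comp {k n : ℕ} {f : MvPolynomial τ A} (hf : Ord w k f) (hn : n < k) :
    weightedHomogeneousComponent w n f = 0 := by
  classical
  ext m
  rw [coeff_weightedHomogeneousComponent, coeff_zero]
  split_ifs with h
  · by_contra h1
    have := hf m h1
    omega
  · rfl

end Ord

/-- the coefficients of the exponential series -/
noncomputable def sg (j : ℕ) : ℂ := (-1) ^ j / (Nat.factorial j : ℂ)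

theorem sg_succ (j : ℕ) : sg (j + 1) * ((j : ℂ) + 1) = -sg j := by
  unfold sg
  rw [Nat.factorial_succ, pow_succ]
  push_cast
  have h1 : (Nat.factorial j : ℂ) ≠ 0 := Nat.cast_ne_zero.2 (Nat.factorial_ne_zero j)
  have h2 : ((j : ℂ) + 1) ≠ 0 := Nat.cast_add_one_ne_zero j
  field_simp

theorem sg_tele (a : ℕ → ℂ) (N : ℕ) :
    ∑ j ∈ Finset.range (N + 1), sg j * ((j : ℂ) * a j + a (j + 1)) = sg N * a (N + 1) := by
  induction N with
  | zero => simp
  | succ N ih =>
    rw [Finset.sum_range_succ, ih]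
    push_cast
    linear_combination a (N + 1) * sg_succ N

variable {τ : Type} [Fintype τ]

/-- **The leading period of a semi-weighted-homogeneous polynomial.** -/
theorem per_swh (G0 G1 : MvPolynomial τ ℂ) (w : τ → ℕ) (D : ℕ) (hw : ∀ i, 0 < w i) (hD : 0 < D)
    (hG : G0.IsWeightedHomogeneous w D) (hG1 : Ord w (D + 1) G1)
    (h0 : ∀ i, constantCoeff (pderiv i G0) = 0) (h1 : ∀ i, constantCoeff (pderiv i G1) = 0)
    (hz : ∀ z : τ → ℂ, (∀ i, eval z (pderiv i G0) = 0) → z = 0) :
    Per (G0 + G1) (-(((∑ i, w i : ℕ) : ℂ) / (D : ℂ))) := by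
  obtain ⟨L, hL, hL1⟩ := Pool.Agent.N138.SU.W4b.t Pool.Agent.N138.SU.W4a.t G0 w D hw hD hG h0 hz
  have hD' : (D : ℂ) ≠ 0 := Nat.cast_ne_zero.2 hD.ne'
  have hw0 : ∀ i, w i ≠ 0 := fun i => (hw i).ne'
  have hG0c : constantCoeff G0 = 0 := by
    by_contra hne
    rw [constantCoeff_eq] at hne
    have h2 := hG hne
    rw [map_zero] at h2
    omega
  have hG1c : constantCoeff G1 = 0 := by
    by_contra hne
    rw [constantCoeff_eq] at hne
    have h2 := hG1 0 hne
    rw [map_zero] at h2
    omega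
  -- the terms
  set A : MvPolynomial τ ℂ → ℕ → ℕ → MvPolynomial τ ℂ →ₗ[ℂ] ℂ := fun q m j =>
    L ∘ₗ weightedHomogeneousComponent w (D * (m + j)) ∘ₗ LinearMap.mulLeft ℂ (q * G1 ^ j) with hA
  have hAap : ∀ q m j h, A q m j h =
      L (weightedHomogeneousComponent w (D * (m + j)) (q * G1 ^ j * h)) := fun q m j h => rfl
  have hA0 : ∀ q m j h, D * m < j → A q m j h = 0 := by
    intro q m j h hj
    rw [hAap]
    have h2 : Ord w (0 + j * (D + 1) + 0) (q * G1 ^ j * h) :=
      ((Ord.zero q).mul (hG1.pow j)).mul (Ord.zero h)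
    rw [h2.comp (by nlinarith), map_zero]
  set cc : MvPolynomial τ ℂ → ℕ → MvPolynomial τ ℂ →ₗ[ℂ] ℂ := fun q m =>
    ∑ j ∈ Finset.range (D * m + 1), sg j • A q m j with hcc
  have hcap : ∀ q m h N, D * m + 1 ≤ N → cc q m h = ∑ j ∈ Finset.range N, sg j * A q m j h := by
    intro q m h N hN
    rw [hcc]
    beta_reduce
    rw [LinearMap.sum_apply]
    simp only [LinearMap.smul_apply, smul_eq_mul]
    refine Finset.sum_subset (Finset.range_mono hN) fun j _ hj => ?_
    rw [hA0 q m j h (by rw [Finset.mem_range] at hj; omega), mul_zero]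
  have hzero : ∀ q h, constantCoeff h = 0 → cc q 0 h = 0 := by
    intro q h hh
    rw [hcap q 0 h 1 (by omega), Finset.sum_range_one, hAap, add_zero, mul_zero,
      weightedHomogeneousComponent_zero _ hw0]
    have : coeff 0 (q * G1 ^ 0 * h) = 0 := by
      have h2 : constantCoeff (q * G1 ^ 0 * h) = 0 := by rw [map_mul, hh, mul_zero]
      exact h2
    rw [this, C_0, map_zero, mul_zero]
  refine ⟨Set.range cc, ⟨?_, ?_, ?_, ?_, ?_⟩, _, ⟨1, rfl⟩, ?_⟩
  · rintro _ ⟨q, rfl⟩ h
    exact hzero q _ (by rw [map_mul, map_add, hG0c, hG1c, add_zero, zero_mul])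
  · rintro _ ⟨q, rfl⟩ m h
    set N := D * (m + 1) + 1 with hN
    rw [hcap q (m + 1) _ (N + 1) (by omega), hcap q m h (N + 1) (by
      rw [hN]
      nlinarith)]
    have e1 : ∀ j, A q (m + 1) j ((G0 + G1) * h) =
        ((((∑ i, w i : ℕ) : ℂ) / (D : ℂ)) + m + j) * A q m j h + A q m (j + 1) h := by
      intro j
      have e2 : q * G1 ^ j * ((G0 + G1) * h) =
          G0 * (q * G1 ^ j * h) + q * G1 ^ (j + 1) * h := by ring
      have e3 : D * (m + 1 + j) = D + D * (m + j) := by ring
      have e4 : D * (m + (j + 1)) = D * (m + 1 + j) := by ring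
      rw [hAap, hAap, hAap, e2, map_add, map_add, e4]
      congr 1
      rw [e3, comp_mul hG]
      have h2 := euler hG L hL
        (weightedHomogeneousComponent_isWeightedHomogeneous (w := w) (D * (m + j))
          (q * G1 ^ j * h))
      apply mul_left_cancel₀ hD'
      rw [h2]
      push_cast
      field_simp
      ring
    have e5 := sg_tele (fun j => A q m j h) N
    beta_reduce at e5
    rw [hA0 q m (N + 1) h (by rw [hN]; nlinarith), mul_zero] at e5
    rw [Finset.mul_sum, ← sub_eq_zero, ← Finset.sum_sub_distrib]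
    rw [← e5]
    refine Finset.sum_congr rfl fun j _ => ?_
    rw [e1]
    ring
  · rintro _ ⟨q, rfl⟩ i h
    exact hzero q _ (by rw [map_mul, map_add, map_add, h0, h1, add_zero, zero_mul])
  · rintro _ ⟨q, rfl⟩ i
    refine ⟨_, ⟨-pderiv i q, rfl⟩, fun m h => ?_⟩
    set N := D * (m + 1) + w i + 1 with hN
    rw [hcap q (m + 1) _ (N + 1) (by omega), hcap q m _ (N + 1) (by
      rw [hN]
      nlinarith), hcap _ m _ (N + 1) (by
      rw [hN]
      nlinarith)]
    set a : ℕ → ℂ := fun j => L (weightedHomogeneousComponent w (D * (m + j))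
      (q * (G1 ^ (j - 1) * pderiv i G1) * h)) with ha
    have e1 : ∀ j, A q m j (pderiv i h) - A q (m + 1) j (pderiv i (G0 + G1) * h) =
        A (-pderiv i q) m j h - ((j : ℂ) * a j + a (j + 1)) := by
      intro j
      have e2 : q * G1 ^ j * (pderiv i (G0 + G1) * h) =
          pderiv i G0 * (q * G1 ^ j * h) + q * (G1 ^ (j + 1 - 1) * pderiv i G1) * h := by
        rw [map_add, Nat.add_sub_cancel]
        ring
      have e3 : D * (m + 1 + j) = D * (m + (j + 1)) := by ring
      rw [hAap, hAap, hAap, e2, map_add, map_add]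
      rw [comp_pd hG (N := D * (m + 1 + j)) (M := D * (m + j) + w i) (by ring), ← hL i, pd_comp]
      have e4 : pderiv i (q * G1 ^ j * h) = pderiv i q * G1 ^ j * h +
          (j : ℂ) • (q * (G1 ^ (j - 1) * pderiv i G1) * h) + q * G1 ^ j * pderiv i h := by
        rw [pderiv_mul, pderiv_mul, Derivation.leibniz_pow, smul_eq_mul, add_mul, nsmul_eq_mul,
          smul_eq_C_mul, map_natCast]
        ring
      rw [e4, map_add, map_add, map_add, map_add, map_smul, map_smul, smul_eq_mul, ha]
      beta_reduce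
      rw [e3, neg_mul, neg_mul, map_neg, map_neg]
      ring
    have ha0 : a (N + 1) = 0 := by
      rw [ha]
      beta_reduce
      rw [Nat.add_sub_cancel]
      have h2 : Ord w (0 + (N * (D + 1) + (D + 1 - w i)) + 0)
          (q * (G1 ^ N * pderiv i G1) * h) :=
        ((Ord.zero q).mul ((hG1.pow N).mul (hG1.pderiv i))).mul (Ord.zero h)
      rw [h2.comp, map_zero]
      rw [zero_add, add_zero]
      have h3 : D * m + w i < N := by
        rw [hN]
        nlinarith
      have h4 : D * (m + (N + 1)) = D * m + D * N + D := by ring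
      have h5 : N * (D + 1) = D * N + N := by ring
      omega
    have e5 := sg_tele a N
    rw [ha0, mul_zero] at e5
    rw [← Finset.sum_sub_distrib]
    have e6 : ∀ j, sg j * A q m j (pderiv i h) -
        sg j * A q (m + 1) j (pderiv i (G0 + G1) * h) =
        sg j * A (-pderiv i q) m j h - sg j * ((j : ℂ) * a j + a (j + 1)) := by
      intro j
      rw [← mul_sub, e1, mul_sub]
    rw [Finset.sum_congr rfl fun j _ => e6 j, Finset.sum_sub_distrib, e5, sub_zero]
  · rintro _ ⟨q, rfl⟩ i
    refine ⟨_, ⟨q * X i, rfl⟩, fun m h => ?_⟩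
    rw [hcap q m _ (D * m + 1) le_rfl, hcap _ m _ (D * m + 1) le_rfl]
    refine Finset.sum_congr rfl fun j _ => ?_
    rw [hAap, hAap]
    congr 3
    ring
  · rw [hcap 1 0 1 1 (by omega), Finset.sum_range_one, hAap, add_zero, mul_zero,
      weightedHomogeneousComponent_zero _ hw0]
    have : coeff 0 ((1 : MvPolynomial τ ℂ) * G1 ^ 0 * 1) = 1 := by
      rw [pow_zero, one_mul, one_mul, coeff_zero_one]
    rw [this, C_1, hL1, mul_one]
    unfold sg
    simp

end Pool.Agent.J4H50.IG
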