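import Pool.Agent.J4H50.IG.Bs

set_option autoImplicit false
set_option linter.unusedSectionVars false

/-! # The linear part of a substitution -/

namespace Pool.Agent.J4H50.IG

open MvPolynomial

variable {σ A : Type} [CommRing A]

/-- the terms of order at most one -/
theorem first_order [Fintype σ] (q : MvPolynomial σ A) :
    q - C (constantCoeff q) - ∑ i, C (constantCoeff (pderiv i q)) * X i ∈ mI σ A ^ 2 := by
  classical
  induction q using MvPolynomial.induction_on with
  | C a => simp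
  | add p q hp hq =>
    have : p + q - C (constantCoeff (p + q)) - ∑ i, C (constantCoeff (pderiv i (p + q))) * X i =
        (p - C (constantCoeff p) - ∑ i, C (constantCoeff (pderiv i p)) * X i) +
        (q - C (constantCoeff q) - ∑ i, C (constantCoeff (pderiv i q)) * X i) := by
      simp only [map_add, add_mul, Finset.sum_add_distrib]
      ring
    rw [this]
    exact Ideal.add_mem _ hp hq
  | mul_X p j hp =>
    have e1 : ∀ i, C (constantCoeff (pderiv i (p * X j))) * (X i : MvPolynomial σ A) =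
        if i = j then C (constantCoeff p) * X j else 0 := by
      intro i
      rw [Derivation.leibniz, smul_eq_mul, smul_eq_mul, pderiv_X]
      by_cases hij : i = j
      · subst hij
        rw [if_pos rfl, Pi.single_eq_same, mul_one, map_add, map_mul, constantCoeff_X, zero_mul,
          add_zero]
      · rw [if_neg hij, Pi.single_eq_of_ne (fun h => hij h.symm), mul_zero, zero_add, map_mul,
          constantCoeff_X, zero_mul, map_zero, zero_mul]
    simp only [e1, Finset.sum_ite_eq', Finset.mem_univ, if_true]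
    rw [map_mul, constantCoeff_X, mul_zero, map_zero, sub_zero, ← sub_mul, pow_two]
    refine Ideal.mul_mem_mul ?_ (X_mem j)
    rw [mem_m_iff, map_sub, constantCoeff_C, sub_self]

variable [Fintype σ] [DecidableEq σ]

/-- the linear substitution of a matrix -/
noncomputable def lin (N : Matrix σ σ A) : σ → MvPolynomial σ A :=
  fun j => ∑ i, C (N i j) * X i

theorem lin_cc (N : Matrix σ σ A) (j : σ) : constantCoeff (lin N j) = 0 := by
  unfold lin
  simp

theorem pderiv_lin (N : Matrix σ σ A) (i j : σ) : pderiv i (lin N j) = C (N i j) := by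
  unfold lin
  rw [map_sum, Finset.sum_eq_single i]
  · rw [Derivation.leibniz, pderiv_C, smul_zero, add_zero, pderiv_X_self, smul_eq_mul, mul_one]
  · intro k _ hk
    rw [Derivation.leibniz, pderiv_C, smul_zero, add_zero, pderiv_X_of_ne hk, smul_zero]
  · intro h
    exact absurd (Finset.mem_univ i) h

theorem JM_lin (N : Matrix σ σ A) : (JM (lin N)).det = C N.det := by
  have : JM (lin N) = (C : A →+* MvPolynomial σ A).mapMatrix N := by
    ext1 i j
    unfold JM
    rw [Matrix.of_apply, pderiv_lin]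
    rfl
  rw [this, ← RingHom.map_det]

theorem nonDeg_lin (N : Matrix σ σ A) (h : IsUnit N.det) : NonDeg (lin N) := by
  refine ⟨lin_cc N, ?_⟩
  rw [JM_lin, constantCoeff_C]
  exact h

/-- the matrix of the linear part -/
noncomputable def lp (ψ : σ → MvPolynomial σ A) : Matrix σ σ A :=
  Matrix.of fun i j => constantCoeff (pderiv i (ψ j))

theorem lp_det (ψ : σ → MvPolynomial σ A) : (lp ψ).det = constantCoeff (JM ψ).det := by
  rw [RingHom.map_det]
  rfl

theorem sub_lin (ψ : σ → MvPolynomial σ A) (h : ∀ i, constantCoeff (ψ i) = 0) (j : σ) :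
    ψ j - lin (lp ψ) j ∈ mI σ A ^ 2 := by
  have h1 := first_order (ψ j)
  rw [h j, map_zero, sub_zero] at h1
  exact h1

/-- composition of linear substitutions -/
theorem lin_comp (N L : Matrix σ σ A) (j : σ) : aeval (lin L) (lin N j) = lin (L * N) j := by
  unfold lin
  simp only [map_sum, map_mul, aeval_C, algebraMap_eq, aeval_X, Matrix.mul_apply, Finset.mul_sum,
    Finset.sum_mul]
  rw [Finset.sum_comm]
  refine Finset.sum_congr rfl fun i _ => Finset.sum_congr rfl fun k _ => ?_
  ring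

theorem lin_one (j : σ) : lin (1 : Matrix σ σ A) j = X j := by
  unfold lin
  rw [Finset.sum_eq_single j]
  · simp
  · intro i _ hi
    rw [Matrix.one_apply_ne hi, map_zero, zero_mul]
  · intro h
    exact absurd (Finset.mem_univ j) h

/-- normalization of the linear part -/
theorem normalize {f F : MvPolynomial σ A} {n : ℕ} (h : JEq f F n) :
    ∃ (L : Matrix σ σ A) (q : σ → MvPolynomial σ A), IsUnit L.det ∧ (∀ i, q i ∈ mI σ A ^ 2) ∧
      aeval (fun i => X i + q i) f - aeval (lin L) F ∈ mI σ A ^ n := by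
  obtain ⟨ψ, hψ, h1⟩ := h
  have hu : IsUnit (lp ψ).det := by
    rw [lp_det]
    exact hψ.2
  set L := (lp ψ)⁻¹ with hL
  have hL1 : L * lp ψ = 1 := Matrix.nonsing_inv_mul _ hu
  refine ⟨L, fun i => aeval (lin L) (ψ i) - X i, Matrix.isUnit_nonsing_inv_det _ hu,
    fun i => ?_, ?_⟩
  · have h2 := aeval_mem (lin L) (fun i => (mem_m_iff _).2 (lin_cc L i)) 2 (sub_lin ψ hψ.1 i)
    rw [map_sub, lin_comp, hL1, lin_one] at h2
    exact h2
  · have h3 := aeval_mem (lin L) (fun i => (mem_m_iff _).2 (lin_cc L i)) n h1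
    have e1 : (fun i => X i + (aeval (lin L) (ψ i) - X i)) = fun i => aeval (lin L) (ψ i) := by
      funext i
      ring
    have e2 : aeval (fun i => aeval (lin L) (ψ i)) f = aeval (lin L) (aeval ψ f) := by
      rw [← AlgHom.comp_apply]
      congr 1
      ext i
      simp
    rw [e1, e2, ← map_sub]
    exact h3

/-- isolated critical points and substitutions -/
theorem IsoC.pull {F : MvPolynomial σ A} {M : ℕ} (hF : IsoC F M) {ψ : σ → MvPolynomial σ A}
    (hψ : NonDeg ψ) : IsoC (aeval ψ F) M := by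
  set Ψ : MvPolynomial σ A →ₐ[A] MvPolynomial σ A := aeval ψ with hΨ
  set I : Ideal (MvPolynomial σ A) := Ideal.map Ψ (mI σ A) with hI
  have hIm : I ≤ mI σ A := by
    rw [hI, Ideal.map_span, Ideal.span_le]
    rintro _ ⟨_, ⟨i, rfl⟩, rfl⟩
    rw [hΨ]
    simpa using hψ.mem i
  have hψI : ∀ j, ψ j ∈ I := by
    intro j
    have := Ideal.mem_map_of_mem Ψ (X_mem (A := A) j)
    rwa [hΨ, aeval_X] at this
  have hu : IsUnit (lp ψ).det := by
    rw [lp_det]
    exact hψ.2
  have h1 : mI σ A ≤ I ⊔ mI σ A ^ 2 := by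
    rw [Ideal.span_le]
    rintro _ ⟨i, rfl⟩
    have e1 : (X i : MvPolynomial σ A) = ∑ j, C ((lp ψ)⁻¹ j i) * ψ j -
        ∑ j, C ((lp ψ)⁻¹ j i) * (ψ j - lin (lp ψ) j) := by
      rw [← Finset.sum_sub_distrib]
      have e2 : ∀ j, C ((lp ψ)⁻¹ j i) * ψ j - C ((lp ψ)⁻¹ j i) * (ψ j - lin (lp ψ) j) =
          ∑ k, C (lp ψ k j * (lp ψ)⁻¹ j i) * X k := by
        intro j
        unfold lin
        rw [mul_sub, sub_sub_cancel, Finset.mul_sum]
        refine Finset.sum_congr rfl fun k _ => ?_
        rw [C_mul]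
        ring
      simp only [e2]
      rw [Finset.sum_comm]
      have e3 : ∀ k, ∑ j, C (lp ψ k j * (lp ψ)⁻¹ j i) * (X k : MvPolynomial σ A) =
          C ((lp ψ * (lp ψ)⁻¹) k i) * X k := by
        intro k
        rw [Matrix.mul_apply, map_sum, Finset.sum_mul]
      simp only [e3, Matrix.mul_nonsing_inv _ hu]
      rw [Finset.sum_eq_single i]
      · simp
      · intro k _ hk
        rw [Matrix.one_apply_ne hk, map_zero, zero_mul]
      · intro h
        exact absurd (Finset.mem_univ i) h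
    rw [SetLike.mem_coe, e1]
    refine Ideal.sub_mem _ (Submodule.mem_sup_left (Ideal.sum_mem _ fun j _ =>
      Ideal.mul_mem_left _ _ (hψI j))) (Submodule.mem_sup_right (Ideal.sum_mem _ fun j _ =>
      Ideal.mul_mem_left _ _ (sub_lin ψ hψ.1 j)))
  have h2 : ∀ n : ℕ, mI σ A ^ n ≤ I ^ n ⊔ mI σ A ^ (n + 1) := by
    intro n
    induction n with
    | zero => simp
    | succ n ih =>
      calc mI σ A ^ (n + 1) = mI σ A ^ n * mI σ A := pow_succ _ _
        _ ≤ (I ^ n ⊔ mI σ A ^ (n + 1)) * mI σ A := Ideal.mul_mono_left ih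
        _ = I ^ n * mI σ A ⊔ mI σ A ^ (n + 1) * mI σ A := Ideal.sup_mul _ _ _
        _ ≤ I ^ (n + 1) ⊔ mI σ A ^ (n + 1 + 1) := by
          refine sup_le ?_ ?_
          · calc I ^ n * mI σ A ≤ I ^ n * (I ⊔ mI σ A ^ 2) := Ideal.mul_mono_right h1
              _ = I ^ n * I ⊔ I ^ n * mI σ A ^ 2 := Ideal.mul_sup _ _ _
              _ ≤ I ^ (n + 1) ⊔ mI σ A ^ (n + 1 + 1) := by
                refine sup_le_sup (pow_succ _ _).ge ?_
                calc I ^ n * mI σ A ^ 2 ≤ mI σ A ^ n * mI σ A ^ 2 :=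
                      Ideal.mul_mono_left (Ideal.pow_right_mono hIm n)
                  _ = mI σ A ^ (n + 1 + 1) := by rw [← pow_add]
          · rw [← pow_succ]
            exact le_sup_right
  have h3 : Ideal.map Ψ (Jac F) ≤ Jac (Ψ F) ⊔ mI σ A ^ (M + 1) := by
    unfold Jac
    rw [Ideal.map_span, Ideal.span_le]
    rintro _ ⟨_, ⟨i, rfl⟩, rfl⟩
    obtain ⟨v, hv⟩ := inv_mod (JM ψ).det hψ.2 (M + 1)
    have h4 := adj_chain ψ F i
    have e1 : Ψ (pderiv i F) = v * ((JM ψ).det * Ψ (pderiv i F)) -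
        (v * (JM ψ).det - 1) * Ψ (pderiv i F) := by ring
    rw [SetLike.mem_coe]
    beta_reduce
    rw [e1, h4]
    refine Ideal.sub_mem _ (Submodule.mem_sup_left (Ideal.mul_mem_left _ _ (Ideal.sum_mem _
      fun j _ => Ideal.mul_mem_left _ _ (Ideal.subset_span ⟨j, rfl⟩))))
      (Submodule.mem_sup_right (Ideal.mul_mem_right _ _ hv))
  refine (h2 M).trans (sup_le ?_ le_sup_right)
  calc I ^ M = Ideal.map Ψ (mI σ A ^ M) := by rw [Ideal.map_pow]
    _ ≤ Ideal.map Ψ (Jac F ⊔ mI σ A ^ (M + 1)) := Ideal.map_mono hF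
    _ = Ideal.map Ψ (Jac F) ⊔ Ideal.map Ψ (mI σ A ^ (M + 1)) := Ideal.map_sup _ _ _
    _ ≤ Jac (Ψ F) ⊔ mI σ A ^ (M + 1) := by
      refine sup_le h3 ?_
      rw [Ideal.map_pow]
      exact (Ideal.pow_right_mono hIm (M + 1)).trans le_sup_right

end Pool.Agent.J4H50.IG
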