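import Pool.Agent.J4H50.IG.Lat
import Pool.Agent.N138.RF.S2

set_option autoImplicit false
set_option linter.unusedSectionVars false

/-! # Polynomials with the same distribution -/

namespace Pool.Agent.J4H50.IG

open MeasureTheory MvPolynomial
open Pool.Agent.W427.SMC (msZ bsZ mu)
open Pool.Agent.N138.RF.S1 Pool.Agent.N138.RF.S2

attribute [local instance] msZ bsZ

variable {p : ℕ} [Fact p.Prime] {V : Type} [Fintype V]

/-- the points where the gradient has the norm `p ^ (-m)` -/
def lay (A : MvPolynomial V ℤ_[p]) (m : ℕ) : Set (V → ℤ_[p]) :=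
  {w | (∃ i, ‖eval w (pderiv i A)‖ = ((p : ℝ)⁻¹) ^ m) ∧
    ∀ i, ‖eval w (pderiv i A)‖ ≤ ((p : ℝ)⁻¹) ^ m}

theorem lay_meas (A : MvPolynomial V ℤ_[p]) (m : ℕ) : MeasurableSet (lay A m) := by
  have hc : ∀ i, Continuous fun w : V → ℤ_[p] => ‖eval w (pderiv i A)‖ := fun i =>
    (MvPolynomial.continuous_eval _).norm
  have h1 : lay A m = (⋃ i, {w | ‖eval w (pderiv i A)‖ = ((p : ℝ)⁻¹) ^ m}) ∩
      ⋂ i, {w | ‖eval w (pderiv i A)‖ ≤ ((p : ℝ)⁻¹) ^ m} := by
    ext w
    simp [lay]
  rw [h1]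
  refine MeasurableSet.inter (MeasurableSet.iUnion fun i => ?_) (MeasurableSet.iInter fun i => ?_)
  · exact (isClosed_eq (hc i) continuous_const).measurableSet
  · exact (isClosed_le (hc i) continuous_const).measurableSet

theorem pinv_lt {m n : ℕ} (h : m < n) : ((p : ℝ)⁻¹) ^ n < ((p : ℝ)⁻¹) ^ m :=
  pow_lt_pow_right_of_lt_one₀ inv_pos' inv_lt_one' h

theorem pinv_le {m n : ℕ} (h : m ≤ n) : ((p : ℝ)⁻¹) ^ n ≤ ((p : ℝ)⁻¹) ^ m :=
  pow_le_pow_of_le_one inv_pos'.le inv_lt_one'.le h

theorem lay_disj (A : MvPolynomial V ℤ_[p]) {m n : ℕ} {w : V → ℤ_[p]} (hm : w ∈ lay A m)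
    (hn : w ∈ lay A n) : m = n := by
  by_contra hne
  rcases Nat.lt_or_gt_of_ne hne with h | h
  · obtain ⟨i, hi⟩ := hm.1
    have := hn.2 i
    rw [hi] at this
    exact absurd this (not_le.2 (pinv_lt h))
  · obtain ⟨i, hi⟩ := hn.1
    have := hm.2 i
    rw [hi] at this
    exact absurd this (not_le.2 (pinv_lt h))

/-- the layers consist of balls -/
theorem lay_congr (A : MvPolynomial V ℤ_[p]) {m : ℕ} {y z : V → ℤ_[p]} (hy : y ∈ lay A m)
    (h : ∀ j, PadicInt.toZModPow (m + 1) (z j) = PadicInt.toZModPow (m + 1) (y j)) :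
    z ∈ lay A m := by
  have h1 : ∀ i, ‖eval z (pderiv i A) - eval y (pderiv i A)‖ ≤ ((p : ℝ)⁻¹) ^ (m + 1) := fun i =>
    congr_eval _ _ y z h
  constructor
  · obtain ⟨i, hi⟩ := hy.1
    refine ⟨i, ?_⟩
    rw [← hi]
    refine norm_eq_of _ _ ((h1 i).trans_lt ?_)
    rw [hi]
    exact pinv_lt (Nat.lt_succ_self m)
  · intro i
    have h2 : eval z (pderiv i A) = (eval z (pderiv i A) - eval y (pderiv i A)) +
      eval y (pderiv i A) := by ring
    rw [h2]
    refine (PadicInt.nonarchimedean _ _).trans (max_le ((h1 i).trans (pinv_le (Nat.le_succ m))) ?_)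
    exact hy.2 i

theorem lay_exists (A : MvPolynomial V ℤ_[p]) (w : V → ℤ_[p])
    (h : ∃ i, eval w (pderiv i A) ≠ 0) : ∃ m, w ∈ lay A m := by
  classical
  obtain ⟨i0, hi0⟩ := h
  obtain ⟨i, _, hi⟩ := Finset.exists_max_image Finset.univ (fun i => ‖eval w (pderiv i A)‖)
    ⟨i0, Finset.mem_univ _⟩
  have h0 : eval w (pderiv i A) ≠ 0 := by
    intro h0
    have := hi i0 (Finset.mem_univ _)
    rw [h0, norm_zero] at this
    exact hi0 (norm_le_zero_iff.1 this)
  refine ⟨(eval w (pderiv i A)).valuation, ⟨i, ?_⟩, fun j => ?_⟩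
  · rw [PadicInt.norm_eq_zpow_neg_valuation h0, zpow_neg, zpow_natCast, inv_pow]
  · refine (hi j (Finset.mem_univ _)).trans (le_of_eq ?_)
    rw [PadicInt.norm_eq_zpow_neg_valuation h0, zpow_neg, zpow_natCast, inv_pow]

theorem mv_zero (K : ℕ) (i : V) (z : V → ℤ_[p]) : mv K i 0 z = z := by
  funext j
  unfold mv
  simp

/-- one layer -/
theorem layer [Nonempty V] (A B : MvPolynomial V ℤ_[p]) (m : ℕ)
    (h1 : ∀ w ∈ lay A m, ‖eval w (B - A)‖ ≤ ((p : ℝ)⁻¹) ^ (2 * m + 1))
    (h2 : ∀ w ∈ lay A m, ∀ i, ‖eval w (pderiv i (B - A))‖ ≤ ((p : ℝ)⁻¹) ^ (m + 1))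
    (h : ℤ_[p] → ℂ) (hh : Measurable h) (B0 : ℝ) (hB : ∀ z, ‖h z‖ ≤ B0) :
    ∫ w, (lay A m).indicator (fun w => h (eval w A) - h (eval w B)) w ∂(hm p V) = 0 := by
  classical
  have hAm : Measurable fun w : V → ℤ_[p] => eval w A := (MvPolynomial.continuous_eval A).measurable
  have hBm : Measurable fun w : V → ℤ_[p] => eval w B := (MvPolynomial.continuous_eval B).measurable
  have hmeas : Measurable ((lay A m).indicator (fun w => h (eval w A) - h (eval w B))) :=
    ((hh.comp hAm).sub (hh.comp hBm)).indicator (lay_meas A m)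
  refine avg (m + 1) _ hmeas (B0 + B0) (fun y => ?_) (fun y => ?_)
  · refine (norm_indicator_le_norm_self _ _).trans ((norm_sub_le _ _).trans ?_)
    exact add_le_add (hB _) (hB _)
  by_cases hy : y ∈ lay A m
  swap
  · refine ⟨Classical.arbitrary V, fun z hz => ?_⟩
    have h3 : ∀ t, mv (m + 1) (Classical.arbitrary V) t z ∉ lay A m := by
      intro t ht
      apply hy
      refine lay_congr A ht fun j => ?_
      have h4 := (mv_cl (m + 1) (Classical.arbitrary V) t z
        (fun j => PadicInt.toZModPow (m + 1) (y j))).2 hz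
      exact (h4 j).symm
    simp only [Set.indicator_of_notMem (h3 _), integral_zero]
  obtain ⟨i, hi⟩ := hy.1
  refine ⟨i, fun z hz => ?_⟩
  have hcl : ∀ t j, PadicInt.toZModPow (m + 1) (mv (m + 1) i t z j) =
      PadicInt.toZModPow (m + 1) (y j) := fun t =>
    (mv_cl (m + 1) i t z (fun j => PadicInt.toZModPow (m + 1) (y j))).2 hz
  have hin : ∀ t, mv (m + 1) i t z ∈ lay A m := fun t => lay_congr A hy (hcl t)
  simp only [Set.indicator_of_mem (hin _)]
  have hp1 := inv_pos' (p := p)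
  set c : ℤ_[p] := (p : ℤ_[p]) ^ (2 * m + 1) with hc
  have hc0 : c ≠ 0 := pow_ne_zero _ (by exact_mod_cast (Fact.out : p.Prime).ne_zero)
  have hcn : ‖c‖ = ((p : ℝ)⁻¹) ^ (2 * m + 1) := by
    rw [hc, norm_pow, PadicInt.norm_p]
  have hA : ∀ t t', ‖eval (mv (m + 1) i t z) A - eval (mv (m + 1) i t' z) A‖ =
      ‖c‖ * ‖t - t'‖ := by
    intro t t'
    rw [dil A (m + 1) (m + 1) le_rfl y i (by rw [hi]; exact pinv_lt (Nat.lt_succ_self m)) z hz,
      hi, hcn, ← pow_add]
    congr 2
    omega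
  have hBi : ‖eval y (pderiv i B)‖ = ((p : ℝ)⁻¹) ^ m := by
    rw [← hi]
    refine norm_eq_of _ _ ?_
    have h3 := h2 y hy i
    rw [map_sub, map_sub] at h3
    rw [hi]
    exact h3.trans_lt (pinv_lt (Nat.lt_succ_self m))
  have hB' : ∀ t t', ‖eval (mv (m + 1) i t z) B - eval (mv (m + 1) i t' z) B‖ =
      ‖c‖ * ‖t - t'‖ := by
    intro t t'
    rw [dil B (m + 1) (m + 1) le_rfl y i (by rw [hBi]; exact pinv_lt (Nat.lt_succ_self m)) z hz,
      hBi, hcn, ← pow_add]
    congr 2
    omega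
  have e1 := line (fun t => eval (mv (m + 1) i t z) A) c hc0 hA h hh
  have e2 := line (fun t => eval (mv (m + 1) i t z) B) c hc0 hB' h hh
  beta_reduce at e1 e2
  rw [mv_zero] at e1 e2
  have hz' : z ∈ lay A m := by
    have := hin 0
    rwa [mv_zero] at this
  obtain ⟨u, hu⟩ : c ∣ eval z (B - A) := dvd_of c _ hc0 (by rw [hcn]; exact h1 z hz')
  rw [map_sub] at hu
  have e3 : ∫ t, h (eval z B + c * t) ∂(mu p) = ∫ t, h (eval z A + c * t) ∂(mu p) := by
    rw [← integral_add_left_eq_self (μ := mu p) (fun t => h (eval z A + c * t)) u]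
    refine integral_congr_ae (Filter.Eventually.of_forall fun t => ?_)
    beta_reduce
    congr 1
    linear_combination hu
  have hcont : ∀ Q : MvPolynomial V ℤ_[p], Measurable fun t : ℤ_[p] =>
      h (eval (mv (m + 1) i t z) Q) := by
    intro Q
    refine hh.comp ((MvPolynomial.continuous_eval Q).measurable.comp ?_)
    exact (mv_meas (m + 1) i).comp (measurable_id.prodMk measurable_const)
  have hint : ∀ Q : MvPolynomial V ℤ_[p], Integrable (fun t : ℤ_[p] =>
      h (eval (mv (m + 1) i t z) Q)) (mu p) := fun Q =>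
    Integrable.of_bound (hcont Q).aestronglyMeasurable B0 (Filter.Eventually.of_forall fun t =>
      hB _)
  rw [integral_sub (hint A) (hint B), e1, e2, e3, sub_self]

/-- **Polynomials with the same distribution.** -/
theorem same_dist [Nonempty V] (A B : MvPolynomial V ℤ_[p])
    (h0 : ∀ w, (∀ i, eval w (pderiv i A) = 0) → eval w A = eval w B)
    (h1 : ∀ m, ∀ w ∈ lay A m, ‖eval w (B - A)‖ ≤ ((p : ℝ)⁻¹) ^ (2 * m + 1))
    (h2 : ∀ m, ∀ w ∈ lay A m, ∀ i, ‖eval w (pderiv i (B - A))‖ ≤ ((p : ℝ)⁻¹) ^ (m + 1))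
    (h : ℤ_[p] → ℂ) (hh : Measurable h) (hb : ∃ B0 : ℝ, ∀ z, ‖h z‖ ≤ B0) :
    ∫ w, h (eval w A) ∂(hm p V) = ∫ w, h (eval w B) ∂(hm p V) := by
  classical
  obtain ⟨B0, hB⟩ := hb
  have hAm : Measurable fun w : V → ℤ_[p] => eval w A := (MvPolynomial.continuous_eval A).measurable
  have hBm : Measurable fun w : V → ℤ_[p] => eval w B := (MvPolynomial.continuous_eval B).measurable
  set g : (V → ℤ_[p]) → ℂ := fun w => h (eval w A) - h (eval w B) with hg
  have hgm : Measurable g := (hh.comp hAm).sub (hh.comp hBm)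
  have hgb : ∀ w, ‖g w‖ ≤ B0 + B0 := fun w => (norm_sub_le _ _).trans (add_le_add (hB _) (hB _))
  have hint : ∀ Q : MvPolynomial V ℤ_[p], Integrable (fun w : V → ℤ_[p] => h (eval w Q))
      (hm p V) := fun Q =>
    Integrable.of_bound (hh.comp (MvPolynomial.continuous_eval Q).measurable).aestronglyMeasurable
      B0 (Filter.Eventually.of_forall fun t => hB _)
  rw [← sub_eq_zero, ← integral_sub (hint A) (hint B)]
  change ∫ w, g w ∂(hm p V) = 0
  set F : ℕ → (V → ℤ_[p]) → ℂ := fun M w => ∑ m ∈ Finset.range M, (lay A m).indicator g w with hF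
  have hFint : ∀ M, ∫ w, F M w ∂(hm p V) = 0 := by
    intro M
    rw [hF]
    beta_reduce
    rw [integral_finsetSum]
    · exact Finset.sum_eq_zero fun m _ => layer A B m (h1 m) (h2 m) h hh B0 hB
    · intro m _
      exact (Integrable.of_bound hgm.aestronglyMeasurable _
        (Filter.Eventually.of_forall hgb)).indicator (lay_meas A m)
  have hval : ∀ M w, F M w = 0 ∨ F M w = g w := by
    intro M w
    by_cases hw : ∃ m, m < M ∧ w ∈ lay A m
    · obtain ⟨m, hm1, hm2⟩ := hw
      right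
      rw [hF]
      beta_reduce
      rw [Finset.sum_eq_single m]
      · exact Set.indicator_of_mem hm2 _
      · intro n _ hn
        exact Set.indicator_of_notMem (fun h => hn (lay_disj A h hm2)) _
      · intro h
        exact absurd (Finset.mem_range.2 hm1) h
    · left
      push Not at hw
      exact Finset.sum_eq_zero fun m hm1 => Set.indicator_of_notMem
        (hw m (Finset.mem_range.1 hm1)) _
  have hlim : ∀ w, Filter.Tendsto (fun M => F M w) Filter.atTop (nhds (g w)) := by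
    intro w
    by_cases hw : ∃ i, eval w (pderiv i A) ≠ 0
    · obtain ⟨m, hm⟩ := lay_exists A w hw
      refine tendsto_const_nhds.congr' ?_
      filter_upwards [Filter.eventually_gt_atTop m] with M hM
      rw [hF]
      beta_reduce
      rw [Finset.sum_eq_single m]
      · exact (Set.indicator_of_mem hm _).symm
      · intro n _ hn
        exact Set.indicator_of_notMem (fun h => hn (lay_disj A h hm)) _
      · intro h
        exact absurd (Finset.mem_range.2 hM) h
    · push Not at hw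
      have hgw : g w = 0 := by
        rw [hg]
        beta_reduce
        rw [h0 w hw, sub_self]
      rw [hgw]
      refine tendsto_const_nhds.congr fun M => ?_
      rcases hval M w with h3 | h3
      · exact h3.symm
      · rw [h3, hgw]
  have h3 := tendsto_integral_of_dominated_convergence (μ := hm p V) (F := F) (f := g)
    (fun _ => B0 + B0)
    (fun M => (Finset.measurable_sum _ fun m _ => hgm.indicator (lay_meas A m)).aestronglyMeasurable)
    (integrable_const _)
    (fun M => Filter.Eventually.of_forall fun w => by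
      rcases hval M w with h4 | h4
      · rw [h4, norm_zero]
        exact (norm_nonneg _).trans (hgb w)
      · rw [h4]
        exact hgb w)
    (Filter.Eventually.of_forall hlim)
  simp only [hFint] at h3
  exact (tendsto_nhds_unique h3 tendsto_const_nhds)

end Pool.Agent.J4H50.IG
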