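import Pool.Agent.J4H50.IG.Est
import Pool.Agent.J4H50.IG.Dist

set_option autoImplicit false
set_option linter.unusedSectionVars false

/-! # The distribution of a polynomial near an isolated critical point -/

namespace Pool.Agent.J4H50.IG

open MeasureTheory MvPolynomial
open Pool.Agent.W427.SMC (msZ bsZ mu)
open Pool.Agent.N138.RF.S1 Pool.Agent.N138.RF.S2

attribute [local instance] msZ bsZ

section

variable {σ A : Type} [CommRing A]

/-- the germ at the point `a`, moved to the origin -/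
noncomputable def germ (f : MvPolynomial σ A) (a : σ → A) : MvPolynomial σ A :=
  aeval (fun i => X i + C (a i)) f

theorem aeval_aeval (ψ φ : σ → MvPolynomial σ A) (f : MvPolynomial σ A) :
    aeval φ (aeval ψ f) = aeval (fun i => aeval φ (ψ i)) f := by
  rw [← AlgHom.comp_apply]
  congr 1
  ext i
  simp

theorem map_aeval' {B : Type} [CommRing B] (g : A →+* B) (ψ : σ → MvPolynomial σ A)
    (f : MvPolynomial σ A) : map g (aeval ψ f) = aeval (fun i => map g (ψ i)) (map g f) := by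
  induction f using MvPolynomial.induction_on with
  | C a => simp
  | add p q hp hq => simp only [map_add, hp, hq]
  | mul_X p i hp => simp only [map_mul, hp, aeval_X, map_X]

end

variable {p : ℕ} [Fact p.Prime] {V : Type} [Fintype V]

theorem eval_cz (Q : MvPolynomial V ℤ_[p]) (w : V → ℤ_[p]) :
    cz p (eval w Q) = eval (fun i => cz p (w i)) (map (cz p) Q) := by
  rw [eval_map, MvPolynomial.eval, coe_eval₂Hom, hom_eval₂]
  rfl

theorem norm_eval (Q : MvPolynomial V ℤ_[p]) (w : V → ℤ_[p]) :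
    ‖eval w Q‖ = ‖eval (fun i => cz p (w i)) (map (cz p) Q)‖ := by
  rw [← eval_cz]
  rfl

/-- **The distribution near an isolated critical point.** -/
theorem local_dist [Nonempty V] (f0 : MvPolynomial V ℤ_[p]) (P : V → ℤ_[p])
    (F : MvPolynomial V ℚ_[p]) (M : ℕ) (hF : IsoC F M) (hF0 : F ∈ mI V ℚ_[p])
    (q : V → MvPolynomial V ℚ_[p]) (hq : ∀ i, q i ∈ mI V ℚ_[p] ^ 2)
    (hR : aeval (fun i => X i + q i) (germ (map (cz p) f0) fun i => cz p (P i)) - F ∈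
      mI V ℚ_[p] ^ (2 * M + 3)) :
    ∃ k0 : ℕ, ∀ k : ℕ, k0 ≤ k → ∃ F0 : MvPolynomial V ℤ_[p],
      map (cz p) F0 = scl ((p : ℚ_[p]) ^ k) F ∧
      ∀ h : ℤ_[p] → ℂ, Measurable h → (∃ B : ℝ, ∀ z, ‖h z‖ ≤ B) →
        ∫ y, h (eval (fun i => P i + (p : ℤ_[p]) ^ k * y i) f0) ∂(hm p V) =
          ∫ w, h (eval w F0) ∂(hm p V) := by
  classical
  set R := aeval (fun i => X i + q i) (germ (map (cz p) f0) fun i => cz p (P i)) - F with hRdef
  obtain ⟨s, hs⟩ := scl_lift 0 F (by rwa [zero_add, pow_one])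
  choose t ht using fun i => scl_lift 1 (q i) (hq i)
  obtain ⟨c, hc, ρ, hρ, hgrad⟩ := est_grad hF
  obtain ⟨CR, hCR, hCR'⟩ := est_ord R hR
  choose CD hCD hCD' using fun i => est_ord (n := 2 * M + 2) (pderiv i R)
    (pderiv_mem i (2 * M + 2) hR)
  have hp0 : 0 < ((p : ℝ)⁻¹) := inv_pos'
  have hp1 : ((p : ℝ)⁻¹) < 1 := inv_lt_one'
  set CC : ℝ := CR + ∑ i, CD i with hCC
  have hsum0 : 0 ≤ ∑ i, CD i := Finset.sum_nonneg fun i _ => (hCD i).le
  have hCC0 : 0 < CC := by linarith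
  have hCDi : ∀ i, CD i ≤ CC := fun i => by
    have := Finset.single_le_sum (f := CD) (fun i _ => (hCD i).le) (Finset.mem_univ i)
    linarith
  have hCRC : CR ≤ CC := by linarith
  set ε0 : ℝ := min (min ρ 1) (min ((p : ℝ)⁻¹ * c ^ 2 / CC) ((p : ℝ)⁻¹ * c / CC)) with hε0
  have hε0pos : 0 < ε0 := by positivity
  obtain ⟨k1, hk1⟩ := exists_pow_lt_of_lt_one hε0pos hp1
  refine ⟨s + ∑ i, (t i + 1) + k1, fun k hk => ?_⟩
  have hks : s ≤ k := by omega
  have hkt : ∀ i, t i + 1 ≤ k := fun i => by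
    have := Finset.single_le_sum (f := fun i => t i + 1) (fun i _ => Nat.zero_le _)
      (Finset.mem_univ i)
    beta_reduce at this
    omega
  have hkk : k1 ≤ k := by omega
  set ε : ℝ := ((p : ℝ)⁻¹) ^ k with hε
  have hεpos : 0 < ε := pow_pos hp0 _
  have hεlt : ε ≤ ε0 := (pinv_le hkk).trans hk1.le
  have hερ : ε ≤ ρ := hεlt.trans ((min_le_left _ _).trans (min_le_left _ _))
  have hε1 : ε ≤ 1 := hεlt.trans ((min_le_left _ _).trans (min_le_right _ _))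
  have hε2 : CC * ε ≤ (p : ℝ)⁻¹ * c ^ 2 := by
    have h1 : ε ≤ (p : ℝ)⁻¹ * c ^ 2 / CC :=
      hεlt.trans ((min_le_right _ _).trans (min_le_left _ _))
    rw [le_div_iff₀ hCC0] at h1
    linarith
  have hε3 : CC * ε ≤ (p : ℝ)⁻¹ * c := by
    have h1 : ε ≤ (p : ℝ)⁻¹ * c / CC :=
      hεlt.trans ((min_le_right _ _).trans (min_le_right _ _))
    rw [le_div_iff₀ hCC0] at h1
    linarith
  -- the integral models
  obtain ⟨η0, hη0⟩ := hs k hks
  choose η1 hη1 using fun i => ht i k (by have := hkt i; omega)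
  set F0 : MvPolynomial V ℤ_[p] := C ((p : ℤ_[p]) ^ (k - s)) * η0 with hF0def
  have hF0m : map (cz p) F0 = scl ((p : ℚ_[p]) ^ k) F := by
    rw [hη0, hF0def, map_mul, map_C, zero_mul, pow_zero, one_mul, map_pow, map_natCast]
  set η : V → MvPolynomial V ℤ_[p] := fun i => C ((p : ℤ_[p]) ^ (k - t i - 1)) * η1 i with hη
  have hηm : ∀ i, scl ((p : ℚ_[p]) ^ k) (q i) = C ((p : ℚ_[p]) ^ k) * (C (p : ℚ_[p]) *
      map (cz p) (η i)) := by
    intro i
    have h1 := hkt i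
    have e1 : (p : ℚ_[p]) ^ (1 * k) * (p : ℚ_[p]) ^ (k - t i) =
        (p : ℚ_[p]) ^ k * ((p : ℚ_[p]) * (p : ℚ_[p]) ^ (k - t i - 1)) := by
      rw [one_mul, ← pow_succ']
      congr 2
      omega
    have e2 : map (cz p) (η i) = C ((p : ℚ_[p]) ^ (k - t i - 1)) * map (cz p) (η1 i) := by
      rw [hη]
      beta_reduce
      rw [map_mul (map (cz p)), map_C, map_pow, map_natCast]
    rw [hη1 i, e1, e2, C_mul, C_mul]
    ring
  set B0 : MvPolynomial V ℤ_[p] :=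
    aeval (fun i => C (P i) + C ((p : ℤ_[p]) ^ k) * (X i + C (p : ℤ_[p]) * η i)) f0 with hB0
  have hB0m : map (cz p) B0 = scl ((p : ℚ_[p]) ^ k) (F + R) := by
    have e1 : F + R = aeval (fun i => X i + q i)
        (germ (map (cz p) f0) fun i => cz p (P i)) := by
      rw [hRdef]
      ring
    rw [e1, hB0, map_aeval']
    unfold germ scl
    rw [aeval_aeval, aeval_aeval]
    congr 1
    apply MvPolynomial.algHom_ext
    intro i
    have e2 := hηm i
    unfold scl at e2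
    have ep : cz p ((p : ℤ_[p]) ^ k) = (p : ℚ_[p]) ^ k := by rw [map_pow, map_natCast]
    have ep1 : cz p (p : ℤ_[p]) = (p : ℚ_[p]) := map_natCast _ _
    rw [aeval_X, aeval_X, map_add (map (cz p)), map_mul (map (cz p)), map_add (map (cz p)),
      map_mul (map (cz p)), map_C, map_C, map_C, map_X, ep, ep1, map_add, aeval_X, aeval_C,
      algebraMap_eq, map_add, aeval_X, e2]
    ring
  have hBF : map (cz p) (B0 - F0) = scl ((p : ℚ_[p]) ^ k) R := by
    rw [map_sub, hB0m, hF0m]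
    unfold scl
    rw [map_add]
    ring
  have hBev : ∀ w, eval w B0 = eval (fun i => P i + (p : ℤ_[p]) ^ k * tht η w i) f0 := by
    intro w
    rw [hB0, eval_aeval]
    congr 2
    funext i
    simp only [map_add, map_mul, eval_C, eval_X, tht]
  refine ⟨F0, hF0m, fun h hh hb => ?_⟩
  have hpolm : Measurable fun y : V → ℤ_[p] =>
      h (eval (fun i => P i + (p : ℤ_[p]) ^ k * y i) f0) := by
    refine hh.comp ((MvPolynomial.continuous_eval f0).measurable.comp ?_)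
    exact (continuous_pi fun i =>
      continuous_const.add (continuous_const.mul (continuous_apply i))).measurable
  have e3 := int_isom (tht η) (tht_isom η)
    (fun y => h (eval (fun i => P i + (p : ℤ_[p]) ^ k * y i) f0)) hpolm
  rw [← e3]
  have e4 : ∀ w : V → ℤ_[p], h (eval (fun i => P i + (p : ℤ_[p]) ^ k * tht η w i) f0) =
      h (eval w B0) := fun w => by rw [hBev]
  simp only [e4]
  -- comparison of the distributions
  have hz : ∀ w : V → ℤ_[p], ‖(fun i => (p : ℚ_[p]) ^ k * cz p (w i) : V → ℚ_[p])‖ ≤ ε := by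
    intro w
    refine (pi_norm_le_iff_of_nonneg hεpos.le).2 fun i => ?_
    rw [norm_mul, norm_pow, Padic.norm_p]
    refine mul_le_of_le_one_right hεpos.le ?_
    exact PadicInt.norm_le_one (w i)
  have hn1 : ∀ w i, ‖eval w (pderiv i F0)‖ =
      ε * ‖eval (fun i => (p : ℚ_[p]) ^ k * cz p (w i)) (pderiv i F)‖ := by
    intro w i
    rw [norm_eval, ← pderiv_map, hF0m, pderiv_scl, map_mul, eval_C, eval_scl, norm_mul, norm_pow,
      Padic.norm_p]
  have hn2 : ∀ w, ‖eval w (B0 - F0)‖ =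
      ‖eval (fun i => (p : ℚ_[p]) ^ k * cz p (w i)) R‖ := by
    intro w
    rw [norm_eval, hBF, eval_scl]
  have hn3 : ∀ w i, ‖eval w (pderiv i (B0 - F0))‖ =
      ε * ‖eval (fun i => (p : ℚ_[p]) ^ k * cz p (w i)) (pderiv i R)‖ := by
    intro w i
    rw [norm_eval, ← pderiv_map, hBF, pderiv_scl, map_mul, eval_C, eval_scl, norm_mul, norm_pow,
      Padic.norm_p]
  symm
  refine same_dist F0 B0 ?_ ?_ ?_ h hh hb
  · intro w hw
    set z : V → ℚ_[p] := fun i => (p : ℚ_[p]) ^ k * cz p (w i) with hzdef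
    obtain ⟨i, hi⟩ := hgrad z ((hz w).trans hερ)
    have h1 := hn1 w i
    rw [hw i, norm_zero] at h1
    have h2 : ‖eval z (pderiv i F)‖ = 0 := by
      rcases mul_eq_zero.1 h1.symm with h3 | h3
      · exact absurd h3 hεpos.ne'
      · exact h3
    rw [h2] at hi
    have h3 : ‖z‖ ^ M = 0 := le_antisymm (by
      by_contra h4
      push Not at h4
      nlinarith) (pow_nonneg (norm_nonneg _) _)
    have h4 : ‖z‖ = 0 := eq_zero_of_pow_eq_zero h3
    have h5 := hCR' z ((hz w).trans hε1)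
    rw [h4, zero_pow (by omega), mul_zero] at h5
    have h6 : eval w (B0 - F0) = 0 := by
      rw [← norm_le_zero_iff, hn2 w]
      exact h5
    rw [map_sub, sub_eq_zero] at h6
    exact h6.symm
  · intro m w hw
    set z : V → ℚ_[p] := fun i => (p : ℚ_[p]) ^ k * cz p (w i) with hzdef
    have hzε : ‖z‖ ≤ ε := hz w
    obtain ⟨i, hi⟩ := hgrad z (hzε.trans hερ)
    have h1 := hw.2 i
    rw [hn1 w i] at h1
    have h2 : ε * (c * ‖z‖ ^ M) ≤ ((p : ℝ)⁻¹) ^ m :=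
      (mul_le_mul_of_nonneg_left hi hεpos.le).trans h1
    have hz0 : 0 ≤ ‖z‖ := norm_nonneg _
    rw [hn2 w]
    refine (hCR' z (hzε.trans hε1)).trans ?_
    have e5 : CR * ‖z‖ ^ (2 * M + 3) ≤ (CC * ε) * (ε ^ 2 * (‖z‖ ^ M) ^ 2) := by
      have e6 : ‖z‖ ^ (2 * M + 3) = (‖z‖ ^ M) ^ 2 * ‖z‖ ^ 3 := by
        rw [pow_add, mul_comm 2 M, pow_mul]
      have e7 : ‖z‖ ^ 3 ≤ ε ^ 3 := pow_le_pow_left₀ hz0 hzε 3
      rw [e6]
      calc CR * ((‖z‖ ^ M) ^ 2 * ‖z‖ ^ 3) ≤ CC * ((‖z‖ ^ M) ^ 2 * ε ^ 3) := by gcongr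
        _ = _ := by ring
    have e8 : (CC * ε) * (ε ^ 2 * (‖z‖ ^ M) ^ 2) ≤
        ((p : ℝ)⁻¹ * c ^ 2) * (ε ^ 2 * (‖z‖ ^ M) ^ 2) := by gcongr
    have e9 : ((p : ℝ)⁻¹ * c ^ 2) * (ε ^ 2 * (‖z‖ ^ M) ^ 2) =
        (p : ℝ)⁻¹ * (ε * (c * ‖z‖ ^ M)) ^ 2 := by ring
    have e10 : (p : ℝ)⁻¹ * (ε * (c * ‖z‖ ^ M)) ^ 2 ≤ (p : ℝ)⁻¹ * (((p : ℝ)⁻¹) ^ m) ^ 2 := by
      gcongr
    have e11 : (p : ℝ)⁻¹ * (((p : ℝ)⁻¹) ^ m) ^ 2 = ((p : ℝ)⁻¹) ^ (2 * m + 1) := by
      rw [← pow_mul, mul_comm m 2, ← pow_succ']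
    linarith
  · intro m w hw j
    set z : V → ℚ_[p] := fun i => (p : ℚ_[p]) ^ k * cz p (w i) with hzdef
    have hzε : ‖z‖ ≤ ε := hz w
    obtain ⟨i, hi⟩ := hgrad z (hzε.trans hερ)
    have h1 := hw.2 i
    rw [hn1 w i] at h1
    have h2 : ε * (c * ‖z‖ ^ M) ≤ ((p : ℝ)⁻¹) ^ m :=
      (mul_le_mul_of_nonneg_left hi hεpos.le).trans h1
    have hz0 : 0 ≤ ‖z‖ := norm_nonneg _
    rw [hn3 w j]
    have e5 : ‖eval z (pderiv j R)‖ ≤ (CC * ε) * ‖z‖ ^ M := by
      refine (hCD' j z (hzε.trans hε1)).trans ?_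
      have e6 : ‖z‖ ^ (2 * M + 2) = ‖z‖ ^ M * ‖z‖ ^ (M + 2) := by
        rw [← pow_add]
        congr 1
        omega
      have e7 : ‖z‖ ^ (M + 2) ≤ ε := by
        calc ‖z‖ ^ (M + 2) ≤ ‖z‖ ^ 1 := pow_le_pow_of_le_one hz0 (hzε.trans hε1) (by omega)
          _ = ‖z‖ := pow_one _
          _ ≤ ε := hzε
      rw [e6]
      calc CD j * (‖z‖ ^ M * ‖z‖ ^ (M + 2)) ≤ CC * (‖z‖ ^ M * ε) := by
            have := hCDi j
            gcongr
        _ = _ := by ring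
    calc ε * ‖eval z (pderiv j R)‖ ≤ ε * ((CC * ε) * ‖z‖ ^ M) := by gcongr
      _ ≤ ε * (((p : ℝ)⁻¹ * c) * ‖z‖ ^ M) := by gcongr
      _ = (p : ℝ)⁻¹ * (ε * (c * ‖z‖ ^ M)) := by ring
      _ ≤ (p : ℝ)⁻¹ * ((p : ℝ)⁻¹) ^ m := by gcongr
      _ = ((p : ℝ)⁻¹) ^ (m + 1) := by rw [← pow_succ']

end Pool.Agent.J4H50.IG
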