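import Pool.Agent.J4H50.IG.Jet
import Pool.Agent.J4H50.IG.Lin
import Pool.Agent.J4H50.IG.LocD

set_option autoImplicit false
set_option linter.unusedSectionVars false

/-! # The splitting lemma -/

namespace Pool.Agent.J4H50.IG

open MvPolynomial

variable {V K : Type} [Fintype V] [DecidableEq V] [Field K]

/-- finite determinacy, second form -/
theorem jeq_all {f F : MvPolynomial V K} {M k : ℕ} (hM : 1 ≤ M) (hf : IsoC f M)
    (hk : 2 * M + 2 ≤ k) (h : JEq f F k) : IsoC F M ∧ ∀ n, JEq f F n := by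
  obtain ⟨ψ, hψ, h1⟩ := h
  have h2 : IsoC (aeval ψ f) M := hf.pull hψ
  have h3 : IsoC F M := h2.congr (pow_le (by omega) h1)
  refine ⟨h3, fun n => ?_⟩
  have h4 : JEq f (aeval ψ f) n := ⟨ψ, hψ, by rw [sub_self]; exact Ideal.zero_mem _⟩
  have h5 := determined hM h3 (by omega : 2 * M + 1 ≤ k) h1 n
  rw [add_sub_cancel] at h5
  exact h4.trans (h5.mono (by omega))

variable (Y : Finset V)

/-- the restriction to `x_y = 0`, `y ∈ Y` -/
noncomputable def rst : MvPolynomial V K →ₐ[K] MvPolynomial V K :=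
  aeval fun i => if i ∈ Y then 0 else X i

/-- the ideal generated by `x_y`, `y ∈ Y` -/
noncomputable def IY (K : Type) [Field K] : Ideal (MvPolynomial V K) :=
  Ideal.span (Set.range fun i : V => if i ∈ Y then (X i : MvPolynomial V K) else 0)

variable {Y}

theorem rst_mem (n : ℕ) {q : MvPolynomial V K} (hq : q ∈ mI V K ^ n) : rst Y q ∈ mI V K ^ n := by
  refine aeval_mem _ (fun i => ?_) n hq
  split_ifs
  · exact Ideal.zero_mem _
  · exact X_mem i

theorem X_mem_IY {i : V} (hi : i ∈ Y) : (X i : MvPolynomial V K) ∈ IY Y K := by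
  refine Ideal.subset_span ⟨i, ?_⟩
  beta_reduce
  rw [if_pos hi]

theorem sub_rst (q : MvPolynomial V K) : q - rst Y q ∈ IY Y K := by
  have h := aeval_sub_mem (A := K) (IY Y K) X (fun i => if i ∈ Y then 0 else X i) (fun i => by
    split_ifs with hi
    · rw [sub_zero]
      exact X_mem_IY hi
    · rw [sub_self]
      exact Ideal.zero_mem _) q
  rwa [aeval_X_left, AlgHom.id_apply] at h

theorem IY_le : IY Y K ≤ mI V K := by
  unfold IY
  rw [Ideal.span_le]
  rintro _ ⟨i, rfl⟩
  beta_reduce
  split_ifs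
  · exact X_mem i
  · exact Ideal.zero_mem _

theorem sub_rst_mem (k : ℕ) {q : MvPolynomial V K} (hq : q ∈ mI V K ^ (k + 1)) :
    q - rst Y q ∈ IY Y K * mI V K ^ k := by
  induction k generalizing q with
  | zero =>
    rw [pow_zero, Ideal.one_eq_top, Ideal.mul_top]
    exact sub_rst q
  | succ k ih =>
    rw [pow_succ] at hq
    refine Submodule.mul_induction_on hq (fun s hs t ht => ?_) (fun a b ha hb => ?_)
    · have e : s * t - rst Y (s * t) = (s - rst Y s) * t + rst Y s * (t - rst Y t) := by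
        rw [map_mul]
        ring
      rw [e]
      refine Ideal.add_mem _ ?_ ?_
      · rw [pow_succ, ← mul_assoc]
        exact Ideal.mul_mem_mul (ih hs) ht
      · rw [mul_comm]
        exact Ideal.mul_mem_mul (rst_mem _ hs) (sub_rst t)
    · rw [map_add, add_sub_add_comm]
      exact Ideal.add_mem _ ha hb

theorem IY_sum (k : ℕ) {q : MvPolynomial V K} (hq : q ∈ IY Y K * mI V K ^ k) :
    ∃ a : V → MvPolynomial V K, (∀ i, a i ∈ mI V K ^ k) ∧ (∀ i, i ∉ Y → a i = 0) ∧
      ∑ i, a i * X i = q := by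
  unfold IY at hq
  rw [mul_comm, ← smul_eq_mul] at hq
  obtain ⟨c, hc, hs⟩ := (Submodule.mem_ideal_smul_span_iff_exists_sum _ _ _).1 hq
  refine ⟨fun i => if i ∈ Y then c i else 0, fun i => ?_, fun i hi => if_neg hi, ?_⟩
  · beta_reduce
    split_ifs
    · exact hc i
    · exact Ideal.zero_mem _
  · rw [← hs, Finsupp.sum_fintype c
      (fun i (c : MvPolynomial V K) => c • if i ∈ Y then (X i : MvPolynomial V K) else 0)
      (fun i => zero_smul _ _)]
    refine Finset.sum_congr rfl fun i _ => ?_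
    rw [smul_eq_mul]
    by_cases hi : i ∈ Y
    · simp only [if_pos hi]
    · simp only [if_neg hi, zero_mul, mul_zero]

/-- a diagonal quadratic form in the variables of `Y` -/
noncomputable def dq (Y : Finset V) (c : V → K) : MvPolynomial V K := ∑ i ∈ Y, C (c i) * X i ^ 2

/-- the change of a polynomial under a substitution near the identity -/
theorem subst_mem (j k : ℕ) (hk : k + 2 ≤ 2 * j) (h : V → MvPolynomial V K)
    (hh : ∀ i, h i ∈ mI V K ^ j) {r : MvPolynomial V K} (hr : r ∈ mI V K ^ (j + 1)) :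
    aeval (fun i => X i + h i) r - r ∈ mI V K ^ (k + 2) := by
  have h1 := taylor (mI V K ^ j) h hh r
  have h2 : ∑ i, h i * pderiv i r ∈ mI V K ^ (k + 2) := by
    refine Ideal.sum_mem _ fun i _ => ?_
    have := Ideal.mul_mem_mul (hh i) (pderiv_mem i j hr)
    rw [← pow_add] at this
    exact pow_le (by omega) this
  have e : aeval (fun i => X i + h i) r - r =
      (aeval (fun i => X i + h i) r - (r + ∑ i, h i * pderiv i r)) + ∑ i, h i * pderiv i r := by
    ring
  rw [e]
  refine Ideal.add_mem _ ?_ h2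
  rw [← pow_mul] at h1
  exact pow_le (by omega) h1

/-- **One step of the splitting.** -/
theorem split_step (h2 : (2 : K) ≠ 0) (c : V → K) (hc : ∀ y ∈ Y, c y ≠ 0)
    (g r : MvPolynomial V K) (hg : rst Y g = g) (k : ℕ) (hk : 2 ≤ k) (hr : r ∈ mI V K ^ (k + 1)) :
    JEq (dq Y c + g + r) (dq Y c + (g + rst Y r)) (k + 2) := by
  obtain ⟨a, ha, haY, hs⟩ := IY_sum k (sub_rst_mem (Y := Y) k hr)
  set h : V → MvPolynomial V K := fun i => C (-(2 * c i)⁻¹) * a i with hh
  have hhm : ∀ i, h i ∈ mI V K ^ k := fun i => Ideal.mul_mem_left _ _ (ha i)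
  have hh0 : ∀ i, i ∉ Y → h i = 0 := fun i hi => by
    rw [hh]
    beta_reduce
    rw [haY i hi, mul_zero]
  refine ⟨fun i => X i + h i, nonDeg_id h fun i => pow_le hk (hhm i), ?_⟩
  have e1 : aeval (fun i => X i + h i) g = g := by
    conv_lhs => rw [← hg]
    unfold rst
    rw [aeval_aeval]
    conv_rhs => rw [← hg]
    unfold rst
    congr 2
    funext i
    split_ifs with hi
    · rw [map_zero]
    · rw [aeval_X, hh0 i hi, add_zero]
  have e2 : aeval (fun i => X i + h i) (dq Y c) =
      dq Y c - (r - rst Y r) + ∑ i ∈ Y, C (c i) * h i ^ 2 := by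
    have e3 : r - rst Y r = ∑ i ∈ Y, a i * X i := by
      rw [← hs]
      refine (Finset.sum_subset (Finset.subset_univ Y) fun i _ hi => ?_).symm
      rw [haY i hi, zero_mul]
    rw [e3]
    unfold dq
    rw [map_sum, ← Finset.sum_sub_distrib, ← Finset.sum_add_distrib]
    refine Finset.sum_congr rfl fun i hi => ?_
    rw [map_mul, map_pow, aeval_X, aeval_C, algebraMap_eq]
    have e4 : C (c i) * (2 * (X i * h i)) = -(a i * X i) := by
      rw [hh]
      beta_reduce
      have e5 : (C (c i) * (2 * C (-(2 * c i)⁻¹)) : MvPolynomial V K) = -1 := by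
        have e6 : (2 : MvPolynomial V K) = C 2 := (map_ofNat C 2).symm
        rw [e6, ← map_mul, ← map_mul]
        have e7 : c i * (2 * -(2 * c i)⁻¹) = -1 := by
          have := hc i hi
          field_simp
        rw [e7, map_neg, map_one]
      calc C (c i) * (2 * (X i * (C (-(2 * c i)⁻¹) * a i))) =
          (C (c i) * (2 * C (-(2 * c i)⁻¹))) * (X i * a i) := by ring
        _ = _ := by
          rw [e5]
          ring
    have e8 : C (c i) * (X i + h i) ^ 2 = C (c i) * X i ^ 2 + C (c i) * (2 * (X i * h i)) +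
        C (c i) * h i ^ 2 := by ring
    rw [e8, e4]
    ring
  have e3 : aeval (fun i => X i + h i) (dq Y c + g + r) - (dq Y c + (g + rst Y r)) =
      ∑ i ∈ Y, C (c i) * h i ^ 2 + (aeval (fun i => X i + h i) r - r) := by
    rw [map_add, map_add, e1, e2]
    ring
  rw [e3]
  refine Ideal.add_mem _ (Ideal.sum_mem _ fun i _ => Ideal.mul_mem_left _ _ ?_)
    (subst_mem k k (by omega) h hhm hr)
  have := Ideal.pow_mem_pow (hhm i) 2
  rw [← pow_mul] at this
  exact pow_le (by omega) this

/-- **The splitting lemma for jets.** -/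
theorem split_jet (h2 : (2 : K) ≠ 0) (c : V → K) (hc : ∀ y ∈ Y, c y ≠ 0)
    (f g0 : MvPolynomial V K) (hg0 : rst Y g0 = g0) (h3 : JEq f (dq Y c + g0) 3) (n : ℕ) :
    ∃ g : MvPolynomial V K, rst Y g = g ∧ JEq f (dq Y c + g) (n + 3) := by
  induction n with
  | zero => exact ⟨g0, hg0, h3⟩
  | succ n ih =>
    obtain ⟨g, hg, ψ, hψ, h4⟩ := ih
    set r := aeval ψ f - (dq Y c + g) with hr
    have h5 := split_step h2 c hc g r hg (n + 2) (by omega) h4
    refine ⟨g + rst Y r, ?_, ?_⟩
    · rw [map_add, hg]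
      congr 1
      unfold rst
      rw [aeval_aeval]
      congr 2
      funext i
      split_ifs with hi
      · rw [map_zero]
      · rw [aeval_X, if_neg hi]
    · have e : dq Y c + g + r = aeval ψ f := by
        rw [hr]
        ring
      rw [e] at h5
      exact JEq.trans (F := aeval ψ f) ⟨ψ, hψ, by rw [sub_self]; exact Ideal.zero_mem _⟩ h5

end Pool.Agent.J4H50.IG
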