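import Pool.Agent.J4H50.IG.Bf

set_option autoImplicit false
set_option linter.unusedSectionVars false

/-! # Functional equations and right equivalence of germs -/

namespace Pool.Agent.J4H50.IG

open MvPolynomial
open Pool.Agent.H628R4.TP (IsBFunction weylS)

/-- polynomials with invertible constant term are invertible modulo powers of the maximal ideal -/
theorem inv_mod {σ A : Type} [CommRing A] (u : MvPolynomial σ A)
    (hu : IsUnit (constantCoeff u)) (k : ℕ) : ∃ v, v * u - 1 ∈ mI σ A ^ k := by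
  obtain ⟨c, hc⟩ := hu
  set x : MvPolynomial σ A := 1 - C (↑c⁻¹ : A) * u with hx
  have hxm : x ∈ mI σ A := by
    rw [mem_m_iff, hx, map_sub, map_one, map_mul, constantCoeff_C, ← hc, Units.inv_mul, sub_self]
  refine ⟨(∑ i ∈ Finset.range k, x ^ i) * C (↑c⁻¹ : A), ?_⟩
  have h1 : (∑ i ∈ Finset.range k, x ^ i) * (1 - x) = 1 - x ^ k := by
    have := mul_neg_geom_sum x k
    rw [mul_comm] at this
    exact this
  have h2 : (∑ i ∈ Finset.range k, x ^ i) * C (↑c⁻¹ : A) * u - 1 = - x ^ k := by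
    have h3 : C (↑c⁻¹ : A) * u = 1 - x := by
      rw [hx]
      ring
    rw [mul_assoc, h3, h1]
    ring
  rw [h2]
  exact Ideal.neg_mem_iff _ |>.2 (Ideal.pow_mem_pow hxm k)

variable {σ : Type}

theorem lf_aeval (ψ : σ → MvPolynomial σ ℂ) (q : MvPolynomial σ ℂ) :
    aeval (fun i => lf (ψ i)) (lf q) = lf (aeval ψ q) := by
  induction q using MvPolynomial.induction_on with
  | C a =>
    have h1 : lf (σ := σ) (C a) = C (Polynomial.C a) := by
      unfold lf
      rw [map_C]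
    rw [aeval_C, algebraMap_eq, h1, aeval_C, algebraMap_eq]
  | add p q hp hq => rw [map_add, map_add, map_add, map_add, hp, hq]
  | mul_X p i hp =>
    have h1 : lf (X i : MvPolynomial σ ℂ) = X i := by
      unfold lf
      rw [map_X]
    rw [map_mul, map_mul, map_mul, map_mul, hp, h1, aeval_X, aeval_X]

theorem lf_mem (q : MvPolynomial σ ℂ) (n : ℕ) (hq : q ∈ mI σ ℂ ^ n) :
    lf q ∈ mI σ (Polynomial ℂ) ^ n := by
  rw [mem_pow_idealOfVars_iff'] at hq ⊢
  intro x hx
  unfold lf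
  rw [coeff_map, hq x hx, map_zero]

theorem cc_lf (q : MvPolynomial σ ℂ) : constantCoeff (lf q) = Polynomial.C (constantCoeff q) := by
  unfold lf
  rw [constantCoeff_map]

section

variable [Fintype σ] [DecidableEq σ]

theorem det_lf (ψ : σ → MvPolynomial σ ℂ) :
    (JM fun i => lf (ψ i)).det = lf (JM ψ).det := by
  rw [RingHom.map_det]
  congr 1
  ext1 i j
  unfold JM
  simp only [Matrix.of_apply, RingHom.mapMatrix_apply, Matrix.map_apply]
  exact (lf_pderiv i (ψ j)).symm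

/-- the functional equation in the jets -/
theorem jet_mem {f F : MvPolynomial σ ℂ} (b : Polynomial ℂ) (d : ℕ)
    (hb : C b * lf f ^ d ∈ JI (Polynomial.X : Polynomial ℂ) (lf f) (d + 1))
    (h : ∀ n, JEq f F n) (k : ℕ) :
    C b * lf F ^ d ∈ JI (Polynomial.X : Polynomial ℂ) (lf F) (d + 1) ⊔
      mI σ (Polynomial ℂ) ^ k := by
  obtain ⟨ψ, hψ, h1⟩ := h (k + (d + 1))
  have h2 := JI_pull (Polynomial.X : Polynomial ℂ) (fun i => lf (ψ i)) (lf f) (d + 1) _ hb
  rw [lf_aeval, det_lf, map_mul, map_pow, lf_aeval, aeval_C, algebraMap_eq] at h2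
  set G := aeval ψ f with hG
  set δ := lf (JM ψ).det ^ (2 * (d + 1)) with hδ
  have h3 : lf G - lf F ∈ mI σ (Polynomial ℂ) ^ (k + (d + 1)) := by
    rw [← map_sub]
    exact lf_mem _ _ h1
  have h4 := JI_approx (Polynomial.X : Polynomial ℂ) h3 (d + 1) (by omega) _ h2
  rw [Nat.add_sub_cancel] at h4
  have h5 : lf G ^ d - lf F ^ d ∈ mI σ (Polynomial ℂ) ^ k :=
    pow_le (by omega) (Ideal.mem_of_dvd _ (sub_dvd_pow_sub_pow _ _ d) h3)
  have h6 : δ * (C b * lf F ^ d) ∈ JI (Polynomial.X : Polynomial ℂ) (lf F) (d + 1) ⊔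
      mI σ (Polynomial ℂ) ^ k := by
    have : δ * (C b * lf F ^ d) = δ * (C b * lf G ^ d) - δ * C b * (lf G ^ d - lf F ^ d) := by
      ring
    rw [this]
    exact Ideal.sub_mem _ h4 (Submodule.mem_sup_right (Ideal.mul_mem_left _ _ h5))
  have hu : IsUnit (constantCoeff δ) := by
    rw [hδ, map_pow, cc_lf]
    exact (Polynomial.isUnit_C.2 hψ.2).pow _
  obtain ⟨v, hv⟩ := inv_mod δ hu k
  have : C b * lf F ^ d = v * (δ * (C b * lf F ^ d)) - (C b * lf F ^ d) * (v * δ - 1) := by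
    ring
  rw [this]
  exact Ideal.sub_mem _ (Ideal.mul_mem_left _ _ h6)
    (Submodule.mem_sup_right (Ideal.mul_mem_left _ _ hv))

/-- Krull's intersection theorem -/
theorem krull {B : Type} [CommRing B] [IsNoetherianRing B] (I m : Ideal B) (x : B)
    (h : ∀ k : ℕ, x ∈ I ⊔ m ^ k) : ∃ r ∈ m, (1 - r) * x ∈ I := by
  have h1 : (Ideal.Quotient.mk I x : B ⧸ I) ∈ (⨅ i : ℕ, m ^ i • ⊤ : Submodule B (B ⧸ I)) := by
    rw [Submodule.mem_iInf]
    intro k
    obtain ⟨u, hu, v, hv, huv⟩ := Submodule.mem_sup.1 (h k)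
    have h2 : (Ideal.Quotient.mk I x : B ⧸ I) = v • (1 : B ⧸ I) := by
      rw [← huv, map_add, Ideal.Quotient.eq_zero_iff_mem.2 hu, zero_add, Algebra.smul_def, mul_one]
      rfl
    rw [h2]
    exact Submodule.smul_mem_smul hv trivial
  obtain ⟨r, hr⟩ := (Ideal.mem_iInf_smul_pow_eq_bot_iff m _).1 h1
  refine ⟨r, r.2, ?_⟩
  rw [← Ideal.Quotient.eq_zero_iff_mem, map_mul, map_sub, map_one, sub_mul, one_mul, sub_eq_zero]
  rw [Algebra.smul_def] at hr
  exact hr.symm

/-- the multipliers of a functional equation -/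
noncomputable def LJ (F : MvPolynomial σ ℂ) (b : Polynomial ℂ) : Ideal (RS σ) where
  carrier := {h | Dop F fun t => ev t (h * C b) * F ^ t}
  add_mem' := fun {x y} hx hy => (hx.add hy).congr 0 fun t _ => by
    rw [add_mul, map_add, add_mul]
  zero_mem' := Dop.zero.congr 0 fun t _ => by
    rw [zero_mul, map_zero, zero_mul]
  smul_mem' := fun c x hx => (Dop.mul hx c).congr 0 fun t _ => by
    rw [smul_eq_mul, mul_assoc, map_mul, mul_assoc]

theorem LJ_F (F : MvPolynomial σ ℂ) (b : Polynomial ℂ) : lf F ∈ LJ F b :=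
  (Dop.self.mul (C b)).congr 0 fun t _ => by
    rw [map_mul, ev_lf, pow_succ]
    ring

theorem LJ_D (F : MvPolynomial σ ℂ) (b : Polynomial ℂ) (i : σ) :
    lf (pderiv i F) ∈ LJ F ((Polynomial.X + 1) * b) :=
  ((Dop.self.op 0 (wD i)).mul (C b)).congr 0 fun t _ => by
    have e5 : ((wD i : weylS σ) : Module.End ℂ (MvPolynomial σ ℂ)) (F ^ (t + 1)) =
        pderiv i (F ^ (t + 1)) := rfl
    have e4 : (C ((t : ℂ) + 1) : MvPolynomial σ ℂ) = (t : MvPolynomial σ ℂ) + 1 := by
      rw [map_add, map_one, map_natCast]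
    rw [pow_zero, one_smul, e5, Derivation.leibniz_pow, nsmul_eq_mul, smul_eq_mul,
      Nat.add_sub_cancel, map_mul (ev t), ev_lf, ev_C, ev_C, Polynomial.eval_mul,
      Polynomial.eval_add, Polynomial.eval_X, Polynomial.eval_one, map_mul C, e4]
    push_cast
    ring

/-- **Transfer of functional equations to right equivalent germs with one singular zero.** -/
theorem transfer {f F : MvPolynomial σ ℂ} (hf : f ≠ 0) (b : Polynomial ℂ)
    (hb : IsBFunction f b) (hb1 : (Polynomial.X + 1) ∣ b) (h : ∀ n, JEq f F n)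
    (hF : ∀ x : σ → ℂ, eval x F = 0 → (∀ i, eval x (pderiv i F) = 0) → x = 0) :
    ∃ (P : ℕ →₀ weylS σ) (N : ℕ), ∀ t : ℕ, N ≤ t → C (b.eval (t : ℂ)) * F ^ t =
      P.sum fun m Q => ((t : ℂ) ^ m) • (Q : Module.End ℂ (MvPolynomial σ ℂ)) (F ^ (t + 1)) := by
  obtain ⟨d, hd⟩ := fe_ideal hf b hb
  obtain ⟨r, hr, h1⟩ := krull _ (mI σ (Polynomial ℂ)) _ (jet_mem b d hd h)
  have h2 : 1 - r ∈ LJ F b := by
    refine (ideal_op (d + 1) _ h1).congr d fun t ht => ?_
    have e1 : F ^ t = F ^ d * F ^ (t + 1 - (d + 1)) := by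
      rw [← pow_add]
      congr 1
      omega
    rw [map_mul (ev t), map_mul (ev t), map_mul (ev t), map_pow, ev_lf, e1]
    ring
  have h3 : ∀ i, (X i : MvPolynomial σ ℂ) ∈
      (Ideal.span ({F} ∪ Set.range fun i => pderiv i F)).radical := by
    intro i
    rw [← vanishingIdeal_zeroLocus_eq_radical (K := ℂ), mem_vanishingIdeal_iff]
    intro x hx
    rw [mem_zeroLocus_iff] at hx
    have h4 := hF x (by
      have := hx F (Ideal.subset_span (Or.inl rfl))
      simpa [aeval_eq_eval] using this) (fun j => by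
      have := hx (pderiv j F) (Ideal.subset_span (Or.inr ⟨j, rfl⟩))
      simpa [aeval_eq_eval] using this)
    rw [h4]
    simp
  have h4 : ∀ i, (X i : RS σ) ∈ (LJ F b).radical := by
    intro i
    obtain ⟨n, hn⟩ := h3 i
    refine ⟨n, ?_⟩
    have h5 : Ideal.map lf (Ideal.span ({F} ∪ Set.range fun i => pderiv i F)) ≤ LJ F b := by
      rw [Ideal.map_span, Ideal.span_le]
      rintro _ ⟨_, (h6 | ⟨j, rfl⟩), rfl⟩
      · rw [Set.mem_singleton_iff.1 h6]
        exact LJ_F F b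
      · obtain ⟨b1, rfl⟩ := hb1
        exact LJ_D F b1 j
    have h6 := h5 (Ideal.mem_map_of_mem _ hn)
    have h7 : lf (X i : MvPolynomial σ ℂ) = X i := by
      unfold lf
      rw [map_X]
    rwa [map_pow, h7] at h6
  have h5 : r ∈ (LJ F b).radical := by
    have : mI σ (Polynomial ℂ) ≤ (LJ F b).radical := by
      rw [Ideal.span_le]
      rintro _ ⟨i, rfl⟩
      exact h4 i
    exact this hr
  have h6 : (1 : RS σ) ∈ (LJ F b).radical := by
    have := Ideal.add_mem _ (Ideal.le_radical h2) h5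
    rwa [sub_add_cancel] at this
  have h7 : (1 : RS σ) ∈ LJ F b := by
    obtain ⟨n, hn⟩ := h6
    rwa [one_pow] at hn
  obtain ⟨P, N, hP⟩ := (h7 : Dop F fun t => ev t (1 * C b) * F ^ t)
  refine ⟨P, N, fun t ht => ?_⟩
  rw [← hP t ht]
  beta_reduce
  rw [one_mul, ev_C]

end

end Pool.Agent.J4H50.IG
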