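import Pool.Agent.J4H50.IG.Ts2

set_option autoImplicit false
set_option linter.unusedSectionVars false
set_option linter.unusedVariables false

/-! # The choice of the perturbation -/

namespace Pool.Agent.J4H50.IG

open MvPolynomial MeasureTheory
open Pool.Agent.W427.SMC (msZ bsZ mu)
open Pool.Agent.Y230.PT (msK bsK inc)
open Pool.Agent.N138.SU Pool.Agent.N138.SV Pool.Agent.N138.RF Pool.Agent.N138.BF

attribute [local instance] msK bsK msZ bsZ

variable {p : ℕ} [Fact p.Prime]

/-- nonzero `p`-adic integers avoiding a finite set -/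
theorem exists_t (emb : ℚ_[p] →+* ℂ) (S : Finset ℂ) : ∃ t : ℤ_[p], t ≠ 0 ∧ emb (inc p t) ∉ S := by
  classical
  have hinj : Function.Injective fun t : ℤ_[p] => emb (inc p t) :=
    fun a b h => inc_inj (emb.injective h)
  have hfin : ((S.preimage (fun t : ℤ_[p] => emb (inc p t)) hinj.injOn) ∪ {0} : Finset ℤ_[p]) ≠
      (Set.univ : Set ℤ_[p]) := by
    intro h
    have h1 : (Set.univ : Set ℤ_[p]).Finite := by
      rw [← h]
      exact Finset.finite_toSet _
    have : Infinite ℤ_[p] := inferInstance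
    exact Set.infinite_univ h1
  obtain ⟨t, ht⟩ := (Set.ne_univ_iff_exists_notMem _).1 hfin
  refine ⟨t, ?_, ?_⟩
  · rintro rfl
    exact ht (by simp)
  · intro h
    apply ht
    simp [h]

/-- nonzero multiples of `p ^ c` avoiding a finite set -/
theorem exists_t' (emb : ℚ_[p] →+* ℂ) (S : Finset ℂ) (c : ℕ) :
    ∃ t : ℤ_[p], t ≠ 0 ∧ (p : ℤ_[p]) ^ c ∣ t ∧ emb (inc p t) ∉ S := by
  classical
  have hpz : (p : ℤ_[p]) ^ c ≠ 0 :=
    pow_ne_zero _ (by exact_mod_cast (Fact.out : p.Prime).ne_zero)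
  have hp0 : emb (inc p ((p : ℤ_[p]) ^ c)) ≠ 0 := by
    intro h
    rw [map_eq_zero] at h
    exact hpz (inc_inj (h.trans PadicInt.coe_zero.symm))
  obtain ⟨s, hs, hsS⟩ := exists_t emb (S.image fun z => (emb (inc p ((p : ℤ_[p]) ^ c)))⁻¹ * z)
  refine ⟨(p : ℤ_[p]) ^ c * s, mul_ne_zero hpz hs, Dvd.intro _ rfl, fun h => hsS ?_⟩
  refine Finset.mem_image.2 ⟨_, h, ?_⟩
  have e1 : inc p ((p : ℤ_[p]) ^ c * s) = inc p ((p : ℤ_[p]) ^ c) * inc p s := PadicInt.coe_mul _ _
  rw [e1, map_mul, inv_mul_cancel_left₀ hp0]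

/-- the choice of the coefficients -/
theorem choose_T (emb : ℚ_[p] →+* ℂ) {V : Type} [Fintype V] [DecidableEq V]
    (F0 : MvPolynomial V ℂ) (N : ℕ) (hN : 2 ≤ N) (c : ℕ) (S : Finset V) :
    ∃ T : V → ℤ_[p], (∀ j ∈ S, T j ≠ 0) ∧ (∀ j ∈ S, (p : ℤ_[p]) ^ c ∣ T j) ∧ ∀ x : V → ℂ,
      eval x (F0 + ∑ j ∈ S, C (emb (inc p (T j))) * X j ^ N) = 0 →
      (∀ i, eval x (pderiv i (F0 + ∑ j ∈ S, C (emb (inc p (T j))) * X j ^ N)) = 0) →
      ∀ j ∈ S, x j = 0 := by
  induction S using Finset.induction_on with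
  | empty => exact ⟨0, fun j hj => by simp at hj, fun j hj => by simp at hj,
      fun x _ _ j hj => by simp at hj⟩
  | insert j S hj ih =>
    obtain ⟨T, hT, hTd, hx⟩ := ih
    obtain ⟨S', hS'⟩ := pencil (F0 + ∑ j ∈ S, C (emb (inc p (T j))) * X j ^ N) (X j ^ N)
    obtain ⟨t, ht, htd, htS⟩ := exists_t' emb S' c
    refine ⟨Function.update T j t, ?_, ?_, ?_⟩
    · intro i hi
      rcases Finset.mem_insert.1 hi with rfl | hi
      · rw [Function.update_self]
        exact ht
      · have : i ≠ j := fun h => hj (h ▸ hi)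
        rw [Function.update_of_ne this]
        exact hT i hi
    · intro i hi
      rcases Finset.mem_insert.1 hi with rfl | hi
      · rw [Function.update_self]
        exact htd
      · have : i ≠ j := fun h => hj (h ▸ hi)
        rw [Function.update_of_ne this]
        exact hTd i hi
    · have e1 : ∑ i ∈ insert j S, C (emb (inc p (Function.update T j t i))) *
          (X i : MvPolynomial V ℂ) ^ N = C (emb (inc p t)) * X j ^ N +
          ∑ i ∈ S, C (emb (inc p (T i))) * X i ^ N := by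
        rw [Finset.sum_insert hj, Function.update_self]
        congr 1
        refine Finset.sum_congr rfl fun i hi => ?_
        have h0 : i ≠ j := fun h => hj (h ▸ hi)
        rw [Function.update_of_ne h0]
      rw [e1]
      have e2 : F0 + (C (emb (inc p t)) * X j ^ N + ∑ i ∈ S, C (emb (inc p (T i))) * X i ^ N) =
          (F0 + ∑ i ∈ S, C (emb (inc p (T i))) * X i ^ N) + C (emb (inc p t)) * X j ^ N := by
        ring
      rw [e2]
      intro x h1 h2
      have h3 := hS' _ htS x h1 h2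
      have h4 : x j = 0 := by
        rw [map_pow, eval_X] at h3
        exact eq_zero_of_pow_eq_zero h3
      have h5 : eval x (C (emb (inc p t)) * (X j : MvPolynomial V ℂ) ^ N) = 0 := by
        rw [map_mul, map_pow, eval_X, h4, zero_pow (by omega), mul_zero]
      have h6 : ∀ i, eval x (pderiv i (C (emb (inc p t)) * (X j : MvPolynomial V ℂ) ^ N)) = 0 := by
        intro i
        rw [pderiv_C_mul, Derivation.leibniz_pow, map_mul, smul_eq_mul, map_nsmul, map_mul,
          map_pow, eval_X, h4, zero_pow (by omega : N - 1 ≠ 0)]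
        simp
      have h7 := hx x (by rw [map_add, h5, add_zero] at h1; exact h1) (fun i => by
        have := h2 i
        rw [map_add, map_add, h6, add_zero] at this
        exact this)
      intro i hi
      rcases Finset.mem_insert.1 hi with rfl | hi
      · exact h4
      · exact h7 i hi

theorem mono_smul {K : Type} [CommRing K] {V : Type} (S : Finset V) (c : V → K) (N : ℕ) :
    ∑ j ∈ S, C (c j) * (X j : MvPolynomial V K) ^ N ∈ mI V K ^ N :=
  Ideal.sum_mem _ fun j _ => Ideal.mul_mem_left _ _ (Ideal.pow_mem_pow (X_mem j) N)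

theorem dsc_lin {V K : Type} [Field K] [Fintype V] [DecidableEq V] (l : V → K)
    (F : MvPolynomial V K) : dsc l F = aeval (lin (Matrix.diagonal l)) F := by
  unfold dsc
  congr 2
  funext j
  unfold lin
  rw [Finset.sum_eq_single j]
  · rw [Matrix.diagonal_apply_eq]
  · intro i _ hi
    rw [Matrix.diagonal_apply_ne _ hi, map_zero, zero_mul]
  · intro h
    exact absurd (Finset.mem_univ j) h

theorem nonDeg_diag {V K : Type} [Field K] [Fintype V] [DecidableEq V] (l : V → K)
    (hl : ∀ i, l i ≠ 0) : NonDeg (lin (Matrix.diagonal l)) := by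
  refine nonDeg_lin _ ?_
  rw [Matrix.det_diagonal]
  exact isUnit_iff_ne_zero.2 (Finset.prod_ne_zero_iff.2 fun i _ => hl i)

/-- **Every Thom-Sebastiani sum with an isolated critical point has a good model** -/
theorem model (emb : ℚ_[p] →+* ℂ) {V : Type} [Fintype V] [DecidableEq V]
    {F : MvPolynomial V ℚ_[p]} (hF : TS ℚ_[p] F) {M : ℕ} (hM1 : 1 ≤ M) (hM : IsoC F M)
    (hF2 : F ∈ mI V ℚ_[p] ^ 2) :
    ∃ (κ : ℕ) (F' : MvPolynomial V ℚ_[p]), GB emb F' ∧ IsoC F' M ∧ F' ∈ mI V ℚ_[p] ∧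
      (∀ n, JEq (C ((p : ℚ_[p]) ^ κ) * F) F' n) ∧
      ∀ x : V → ℂ, eval x (map emb F') = 0 → (∀ i, eval x (pderiv i (map emb F')) = 0) → x = 0 := by
  have hcr : ∀ i, constantCoeff (pderiv i F) = 0 := by
    intro i
    have := pderiv_mem i 1 hF2
    rwa [pow_one, mem_m_iff] at this
  obtain ⟨κ, h⟩ := Gs_of emb hF inferInstance M hM hcr
  obtain ⟨l, hl, S, N0, c, h⟩ := h κ le_rfl
  set N := max N0 (2 * M + 1) with hN
  obtain ⟨T, hT, hTd, hx⟩ := choose_T emb (map emb (dsc l (C ((p : ℚ_[p]) ^ κ) * F))) N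
    (le_trans (by omega) (le_max_right _ _)) c S
  obtain ⟨h1, h2⟩ := h N (le_max_left _ _) T hT hTd
  have hpk : (p : ℚ_[p]) ^ κ ≠ 0 :=
    pow_ne_zero _ (by exact_mod_cast (Fact.out : p.Prime).ne_zero)
  have hnd := nonDeg_diag l hl
  have e1 : map emb (pert l κ N S T F) = map emb (dsc l (C ((p : ℚ_[p]) ^ κ) * F)) +
      ∑ j ∈ S, C (emb (inc p (T j))) * X j ^ N := by
    unfold pert
    rw [map_add, map_sum]
    congr 1
    exact Finset.sum_congr rfl fun j _ => by rw [map_mul, map_pow, map_C, map_X]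
  have e2 : dsc l (C ((p : ℚ_[p]) ^ κ) * F) = pert l κ N S T F +
      -∑ j ∈ S, C (inc p (T j)) * X j ^ N := by
    unfold pert
    ring
  have hmem : ∑ j ∈ S, C (inc p (T j)) * (X j : MvPolynomial V ℚ_[p]) ^ N ∈ mI V ℚ_[p] ^ N :=
    mono_smul S _ N
  have hiso0 : IsoC (dsc l (C ((p : ℚ_[p]) ^ κ) * F)) M := by
    rw [dsc_lin]
    exact (hM.smul (IsUnit.mk0 _ hpk)).pull hnd
  have hiso : IsoC (pert l κ N S T F) M := by
    refine hiso0.congr ?_
    rw [e2, add_sub_cancel_left]
    exact Ideal.neg_mem_iff _ |>.2 (pow_le (le_trans (by omega) (le_max_right _ _)) hmem)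
  refine ⟨κ, pert l κ N S T F, h1, hiso, ?_, ?_, ?_⟩
  · unfold pert
    refine Ideal.add_mem _ ?_ ?_
    · rw [dsc_lin]
      have := aeval_mem _ hnd.mem 2 (Ideal.mul_mem_left _ (C ((p : ℚ_[p]) ^ κ)) hF2)
      exact Ideal.pow_le_self two_ne_zero this
    · exact Ideal.pow_le_self (by omega) hmem
  · intro n
    refine JEq.trans (F := dsc l (C ((p : ℚ_[p]) ^ κ) * F)) ?_ ?_
    · refine ⟨lin (Matrix.diagonal l), hnd, ?_⟩
      rw [← dsc_lin, sub_self]
      exact Ideal.zero_mem _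
    · rw [e2]
      exact (determined hM1 hiso (le_max_right N0 _)
        (Ideal.neg_mem_iff _ |>.2 hmem) n).mono (by omega)
  · intro x hx1 hx2
    refine h2 x ?_ hx2
    rw [e1] at hx1 hx2
    exact hx x hx1 hx2

end Pool.Agent.J4H50.IG
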