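import Pool.Agent.J4H50.IG.LocE
import Pool.Agent.J4H50.IG.Ts3
import Pool.Agent.J4H50.IG.Bs

set_option autoImplicit false
set_option linter.unusedSectionVars false
set_option linter.unusedVariables false

/-! # The exponential sums: assembly -/

namespace Pool.Agent.J4H50.IG

open MvPolynomial MeasureTheory
open Pool.Agent.W427.SMC (msZ bsZ mu)
open Pool.Agent.Y230.PT (msK bsK inc)
open Pool.Agent.Y230.PS (EP N0 N0_EP mem_N0)
open Pool.Agent.N138.SU Pool.Agent.N138.SV Pool.Agent.N138.RF Pool.Agent.N138.BF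

attribute [local instance] msK bsK msZ bsZ

variable {p : ℕ} [Fact p.Prime] {V : Type} [Fintype V]

/-- the function of `f` on the ball with the centre `P` -/
noncomputable def fb (f : MvPolynomial V ℤ_[p]) (P : V → ℤ_[p]) (k : ℕ) (y : V → ℤ_[p]) : ℤ_[p] :=
  eval (fun i => P i + (p : ℤ_[p]) ^ k * y i) f

theorem fb_meas (f : MvPolynomial V ℤ_[p]) (P : V → ℤ_[p]) (k : ℕ) : Measurable (fb f P k) := by
  refine (MvPolynomial.continuous_eval f).measurable.comp ?_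
  exact (continuous_pi fun i =>
    continuous_const.add (continuous_const.mul (continuous_apply i))).measurable

/-- the exponential sums on the small balls around `P` -/
def LocOK (f : MvPolynomial V ℤ_[p]) (P : V → ℤ_[p]) (m : ℂ → ℕ∞) : Prop :=
  ∃ k0 : ℕ, ∀ k : ℕ, k0 ≤ k → ∀ χ : UC p, (fun e : ℕ => Eh (hm p V) (fb f P k) χ e) ∈ EP m

theorem ball_near (f : MvPolynomial V ℤ_[p]) (P : V → ℤ_[p]) (k : ℕ) (y : V → ℤ_[p]) :
    ‖eval (fun i => P i + (p : ℤ_[p]) ^ k * y i) f - eval P f‖ ≤ ((p : ℝ)⁻¹) ^ k := by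
  refine (lip f _ _).trans ?_
  have h0 : (0 : ℝ) ≤ ((p : ℝ)⁻¹) ^ k := pow_nonneg (inv_nonneg.2 (Nat.cast_nonneg _)) _
  refine (pi_norm_le_iff_of_nonneg h0).2 fun i => ?_
  rw [Pi.sub_apply, add_sub_cancel_left, norm_mul, norm_pow, PadicInt.norm_p]
  exact mul_le_of_le_one_right h0 (PadicInt.norm_le_one _)

theorem ball_norm (f : MvPolynomial V ℤ_[p]) (P : V → ℤ_[p]) (hP : eval P f ≠ 0) :
    ∃ k0 : ℕ, ∀ k : ℕ, k0 ≤ k → ∀ y : V → ℤ_[p],
      ‖eval (fun i => P i + (p : ℤ_[p]) ^ k * y i) f‖ = ‖eval P f‖ := by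
  have hp0 : 0 < ((p : ℝ)⁻¹) := inv_pos.2 (by exact_mod_cast (Fact.out : p.Prime).pos)
  have hp1 : ((p : ℝ)⁻¹) < 1 := inv_lt_one_of_one_lt₀ (by
    exact_mod_cast (Fact.out : p.Prime).one_lt)
  obtain ⟨k0, hk0⟩ := exists_pow_lt_of_lt_one (norm_pos_iff.2 hP) hp1
  refine ⟨k0, fun k hk y => ?_⟩
  have h1 : ‖eval (fun i => P i + (p : ℤ_[p]) ^ k * y i) f - eval P f‖ < ‖eval P f‖ :=
    ((ball_near f P k y).trans (pow_le_pow_of_le_one hp0.le hp1.le hk)).trans_lt hk0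
  have h2 : eval (fun i => P i + (p : ℤ_[p]) ^ k * y i) f =
      (eval (fun i => P i + (p : ℤ_[p]) ^ k * y i) f - eval P f) + eval P f := by ring
  rw [h2, PadicInt.norm_add_eq_max_of_ne h1.ne, max_eq_right h1.le]

/-- the points with `f(P) ≠ 0` -/
theorem loc_ne (f : MvPolynomial V ℤ_[p]) (P : V → ℤ_[p]) (hP : eval P f ≠ 0) (m : ℂ → ℕ∞) :
    LocOK f P m := by
  obtain ⟨k0, hk0⟩ := ball_norm f P hP
  refine ⟨k0, fun k hk χ => N0_EP _ ?_⟩
  obtain ⟨l, hl⟩ := Pool.Agent.N138.SU.B1.norm_eq_pow _ hP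
  refine (mem_N0 _).2 ⟨l + χ.c + 1, fun e he => ?_⟩
  rw [Pool.Agent.N138.SU.B1.fub _ _ (fb_meas f P k)]
  obtain ⟨n, hn⟩ : ∃ n, e = l + n + 1 := ⟨e - l - 1, by omega⟩
  have h1 : ∀ y, Pool.Agent.N138.SU.B1.G χ e (fb f P k y) = 0 := by
    intro y
    rw [hn]
    refine Pool.Agent.N138.SU.B1.G_large χ χ.c χ.hc (Pool.Agent.N316.SU.X_near χ) l n
      (by omega) _ ?_
    rw [← hl]
    exact hk0 k hk y
  simp only [h1, integral_zero]

/-- the points which are not critical -/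
theorem loc_nc (f : MvPolynomial V ℤ_[p]) (P : V → ℤ_[p]) (i : V) (hP : eval P (pderiv i f) ≠ 0)
    (m : ℂ → ℕ∞) : LocOK f P m := by
  obtain ⟨k0, hk0⟩ := ball_norm (pderiv i f) P hP
  refine ⟨k0, fun k hk χ => ?_⟩
  have hpk : (p : ℚ_[p]) ^ k ≠ 0 :=
    pow_ne_zero _ (by exact_mod_cast (Fact.out : p.Prime).ne_zero)
  have h1 := Pool.Agent.N138.RF.S.t p (Pool.Agent.N138.RF.G5.sub ((p : ℚ_[p]) ^ k)
    (fun i => inc p (P i)) (map (PadicInt.Coe.ringHom (p := p)) f)) (fb f P k) ?_ ?_ 0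
  · simp only [sub_zero] at h1
    exact Pool.Agent.Y230.TH.EP_mono (fun T _ => bot_le) (h1.2 χ)
  · intro x
    rw [Pool.Agent.N138.RF.G5.eval_sub]
    unfold fb
    rw [Pool.Agent.N138.RF.G5.inc_eval]
    congr 2
  · intro x
    refine ⟨i, ?_⟩
    rw [Pool.Agent.N138.RF.G5.pderiv_sub, map_mul, eval_C, Pool.Agent.N138.RF.G5.eval_sub]
    refine mul_ne_zero hpk ?_
    have h2 : eval (fun j => inc p (P j) + (p : ℚ_[p]) ^ k * inc p (x j))
        (pderiv i (map (PadicInt.Coe.ringHom (p := p)) f)) =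
        inc p (eval (fun j => P j + (p : ℤ_[p]) ^ k * x j) (pderiv i f)) := by
      rw [Pool.Agent.N138.RF.G5.inc_eval, pderiv_map]
      congr 2
    rw [h2]
    intro h3
    have h4 : eval (fun j => P j + (p : ℤ_[p]) ^ k * x j) (pderiv i f) = 0 :=
      inc_inj (h3.trans PadicInt.coe_zero.symm)
    have h5 := hk0 k hk x
    rw [h4, norm_zero] at h5
    exact hP (norm_eq_zero.1 h5.symm)

/-- the assembly of the balls -/
theorem glue (f : MvPolynomial V ℤ_[p]) (m : ℂ → ℕ∞) (h : ∀ P, LocOK f P m) (χ : UC p) :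
    (fun e : ℕ => Eh (hm p V) (fun y => eval y f) χ e) ∈ EP m := by
  choose k0 hk0 using h
  obtain ⟨S, hS1, hS2⟩ := Pool.Agent.N138.RF.D.t p k0
  have hfm : Measurable fun y : V → ℤ_[p] => eval y f :=
    (MvPolynomial.continuous_eval f).measurable
  have h1 : ∀ (e : ℕ) (u : ℤ_[p]), Es (hm p V) (fun y => eval y f) e u =
      ∑ a ∈ S, ((p : ℂ)⁻¹) ^ (Fintype.card V * a.2) * Es (hm p V) (fb f a.1 a.2) e u := by
    intro e u
    exact hS2 (fun x => psi p e (u * eval x f))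
      ((Pool.Agent.N138.SU.B3.psi_meas e).comp (measurable_const.mul hfm))
      ⟨1, fun z => (Pool.Agent.N138.SU.B3.psi_norm e _).le⟩
  have h2 : (fun e : ℕ => Eh (hm p V) (fun y => eval y f) χ e) =
      ∑ a ∈ S, ((p : ℂ)⁻¹) ^ (Fintype.card V * a.2) •
        (fun e : ℕ => Eh (hm p V) (fb f a.1 a.2) χ e) := by
    funext e
    have h3 := hat_sum S (fun a => ((p : ℂ)⁻¹) ^ (Fintype.card V * a.2))
      (fun a e u => Es (hm p V) (fb f a.1 a.2) e u) e
      (fun a ha => Es_meas (hm p V) (fb f a.1 a.2) (fb_meas f a.1 a.2) e)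
      (fun a _ u => Es_norm (hm p V) (fb f a.1 a.2) e u) χ
    have h4 : Eh (hm p V) (fun y => eval y f) χ e = hat (fun e u => ∑ a ∈ S,
        ((p : ℂ)⁻¹) ^ (Fintype.card V * a.2) * Es (hm p V) (fb f a.1 a.2) e u) χ e := by
      unfold Eh hat
      simp only [h1]
    rw [h4, h3, Finset.sum_apply]
    rfl
  rw [h2]
  exact Submodule.sum_mem _ fun a ha => Submodule.smul_mem _ _ (hk0 a.1 a.2 (hS1 a ha) χ)

theorem JEq.map [DecidableEq V] {A B : Type} [CommRing A] [CommRing B] (φ : A →+* B)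
    {f F : MvPolynomial V A} {n : ℕ} (h : JEq f F n) :
    JEq (MvPolynomial.map φ f) (MvPolynomial.map φ F) n := by
  obtain ⟨ψ, ⟨h1, h2⟩, h3⟩ := h
  refine ⟨fun i => MvPolynomial.map φ (ψ i), ⟨fun i => ?_, ?_⟩, ?_⟩
  · rw [constantCoeff_map, h1, map_zero]
  · have e1 : (JM fun i => MvPolynomial.map φ (ψ i)).det = MvPolynomial.map φ (JM ψ).det := by
      rw [RingHom.map_det]
      congr 1
      ext1 i j
      unfold JM
      simp [pderiv_map]
    rw [e1, constantCoeff_map]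
    exact h2.map φ
  · rw [← map_aeval', ← map_sub]
    have : Ideal.map (MvPolynomial.map φ) (mI V A ^ n) ≤ mI V B ^ n := by
      rw [Ideal.map_pow]
      refine Ideal.pow_right_mono ?_ n
      rw [Ideal.map_span, Ideal.span_le]
      rintro _ ⟨_, ⟨i, rfl⟩, rfl⟩
      rw [map_X]
      exact X_mem i
    exact this (Ideal.mem_map_of_mem _ h3)

theorem germ_smul {A : Type} [CommRing A] (c : A) (f : MvPolynomial V A) (a : V → A) :
    germ (C c * f) a = C c * germ f a := by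
  unfold germ
  rw [map_mul, aeval_C, algebraMap_eq]

/-- **The critical points which are right equivalent to Thom-Sebastiani sums.** -/
theorem loc_ts [Nonempty V] [DecidableEq V] (emb : ℚ_[p] →+* ℂ) (f : MvPolynomial V ℤ_[p])
    (P : V → ℤ_[p]) {F : MvPolynomial V ℚ_[p]} (hF : TS ℚ_[p] F) {M : ℕ} (hM1 : 1 ≤ M)
    (hM : IsoC F M) (hF2 : F ∈ mI V ℚ_[p] ^ 2)
    (hJ : ∀ n, JEq (germ (map (cz p) f) fun i => cz p (P i)) F n) :
    ∃ (κ : ℕ) (F' : MvPolynomial V ℚ_[p]),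
      (∀ n, JEq (C ((p : ℚ_[p]) ^ κ) * germ (map (cz p) f) fun i => cz p (P i)) F' n) ∧
      (∀ x : V → ℂ, eval x (map emb F') = 0 → (∀ i, eval x (pderiv i (map emb F')) = 0) →
        x = 0) ∧ LocOK f P (mB p (map emb F')) := by
  obtain ⟨κ, F', h1, h2, h3, h4, h5⟩ := model emb hF hM1 hM hF2
  have h6 : ∀ n, JEq (C ((p : ℚ_[p]) ^ κ) * germ (map (cz p) f) fun i => cz p (P i)) F' n :=
    fun n => ((hJ n).smul _).trans (h4 n)
  refine ⟨κ, F', h6, h5, ?_⟩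
  have e1 : germ (map (cz p) (C ((p : ℤ_[p]) ^ κ) * f)) (fun i => cz p (P i)) =
      C ((p : ℚ_[p]) ^ κ) * germ (map (cz p) f) fun i => cz p (P i) := by
    rw [map_mul, map_C, map_pow, map_natCast, germ_smul]
  obtain ⟨k0, hk0⟩ := local_gd emb (C ((p : ℤ_[p]) ^ κ) * f) P F' h1 h3 M h2 (by
    rw [e1]
    exact h6 _)
  refine ⟨k0, fun k hk χ => ?_⟩
  have h7 := (hk0 k hk).2 χ
  have h8 := EP_shift _ κ _ h7
  refine (congrArg (· ∈ EP (mB p (map emb F'))) (funext fun e => ?_)).mp h8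
  have h9 := Eh_scale (hm p V) (fb f P k) κ χ e
  rw [← h9]
  congr 1
  funext y
  unfold fb
  rw [map_mul, eval_C]

end Pool.Agent.J4H50.IG
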