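import Pool.Agent.J4H50.IG.Op
import Pool.Agent.H628R4.TP.Defs

set_option autoImplicit false
set_option linter.unusedSectionVars false

/-! # Functional equations in different coordinates -/

namespace Pool.Agent.J4H50.IG

open MvPolynomial
open Pool.Agent.H628R4.TP (IsBFunction weylS)

variable {σ : Type}

/-- `ℂ[s][x]` -/
abbrev RS (σ : Type) := MvPolynomial σ (Polynomial ℂ)

/-- the value at `s = k` -/
noncomputable def ev (k : ℕ) : RS σ →+* MvPolynomial σ ℂ :=
  MvPolynomial.map (Polynomial.evalRingHom (k : ℂ))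

/-- the inclusion of `ℂ[x]` -/
noncomputable def lf : MvPolynomial σ ℂ →+* RS σ := MvPolynomial.map Polynomial.C

theorem ev_lf (k : ℕ) (q : MvPolynomial σ ℂ) : ev k (lf q) = q := by
  unfold ev lf
  rw [MvPolynomial.map_map]
  have : (Polynomial.evalRingHom (k : ℂ)).comp Polynomial.C = RingHom.id ℂ := by
    ext1 x
    simp
  rw [this, MvPolynomial.map_id]

theorem ev_pderiv (k : ℕ) (i : σ) (q : RS σ) : ev k (pderiv i q) = pderiv i (ev k q) := by
  unfold ev
  exact (pderiv_map ..).symm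

theorem lf_pderiv (i : σ) (q : MvPolynomial σ ℂ) : lf (pderiv i q) = pderiv i (lf q) := by
  unfold lf
  exact (pderiv_map ..).symm

theorem ev_C (k : ℕ) (a : Polynomial ℂ) : ev (σ := σ) k (C a) = C (a.eval (k : ℂ)) := by
  unfold ev
  rw [map_C]
  rfl

/-- an element of `ℂ[s][x]` is determined by its values at large natural numbers -/
theorem ev_inj (q : RS σ) (N : ℕ) (h : ∀ k : ℕ, N ≤ k → ev k q = 0) : q = 0 := by
  ext1 m
  rw [coeff_zero]
  apply Polynomial.eq_zero_of_infinite_isRoot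
  have hinf : (Set.range fun k : ℕ => ((N + k : ℕ) : ℂ)).Infinite := by
    apply Set.infinite_range_of_injective
    intro a b hab
    have : (N + a : ℕ) = N + b := Nat.cast_injective (R := ℂ) hab
    omega
  refine hinf.mono ?_
  rintro _ ⟨k, rfl⟩
  have h1 := congrArg (coeff m) (h (N + k) (by omega))
  unfold ev at h1
  rw [coeff_map, coeff_zero] at h1
  exact h1

/-! ## From operators to the ideals -/

variable {f : MvPolynomial σ ℂ}

theorem op_ideal (Q : Module.End ℂ (MvPolynomial σ ℂ)) (hQ : Q ∈ weylS σ) :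
    ∃ d : ℕ, ∀ k : ℕ, ∀ q ∈ JI (Polynomial.X : Polynomial ℂ) (lf f) k,
      ∃ q' ∈ JI (Polynomial.X : Polynomial ℂ) (lf f) (k + d), ∀ t : ℕ, k + d ≤ t + 1 →
        Q (ev t q * f ^ (t + 1 - k)) = ev t q' * f ^ (t + 1 - (k + d)) := by
  unfold weylS at hQ
  induction hQ using Algebra.adjoin_induction with
  | mem x hx =>
    rcases hx with ⟨i, rfl⟩ | ⟨i, rfl⟩
    · refine ⟨0, fun k q hq => ⟨X i * q, Ideal.mul_mem_left _ _ hq, fun t _ => ?_⟩⟩
      rw [LinearMap.mulLeft_apply, map_mul]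
      have : ev t (X i : RS σ) = X i := by
        unfold ev
        rw [map_X]
      rw [this, add_zero]
      ring
    · refine ⟨1, fun k q hq => ⟨TT Polynomial.X (lf f) k i q, JI_TT _ i hq, fun t ht => ?_⟩⟩
      obtain ⟨m, hm⟩ : ∃ m, t + 1 = k + 1 + m := ⟨t - k, by omega⟩
      have e1 : t + 1 - k = m + 1 := by omega
      have e2 : t + 1 - (k + 1) = m := by omega
      have e3 : (Polynomial.X + 1 - (k : Polynomial ℂ)).eval (t : ℂ) = (m : ℂ) + 1 := by
        have : (t : ℂ) + 1 = k + 1 + m := by exact_mod_cast hm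
        simp only [Polynomial.eval_sub, Polynomial.eval_add, Polynomial.eval_X,
          Polynomial.eval_one, Polynomial.eval_natCast]
        linear_combination this
      have e4 : (C ((m : ℂ) + 1) : MvPolynomial σ ℂ) = (m : MvPolynomial σ ℂ) + 1 := by
        rw [map_add, map_one, map_natCast]
      have e5 : ((pderiv i : Derivation ℂ (MvPolynomial σ ℂ) (MvPolynomial σ ℂ)) :
          MvPolynomial σ ℂ →ₗ[ℂ] MvPolynomial σ ℂ) (ev t q * f ^ (m + 1)) =
          pderiv i (ev t q * f ^ (m + 1)) := rfl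
      beta_reduce
      unfold TT
      rw [e1, e2, e5, Derivation.leibniz, Derivation.leibniz_pow, smul_eq_mul, smul_eq_mul,
        nsmul_eq_mul, smul_eq_mul, Nat.add_sub_cancel, map_add (ev t), map_mul (ev t),
        map_mul (ev t), map_mul (ev t), ev_C, e3, ev_pderiv, ev_pderiv, ev_lf, e4]
      push_cast
      ring
  | algebraMap r =>
    refine ⟨0, fun k q hq => ⟨C (Polynomial.C r) * q, Ideal.mul_mem_left _ _ hq, fun t _ => ?_⟩⟩
    rw [Module.algebraMap_end_apply, map_mul, ev_C, Polynomial.eval_C, add_zero, smul_eq_C_mul]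
    ring
  | add x y _ _ hx hy =>
    obtain ⟨d1, h1⟩ := hx
    obtain ⟨d2, h2⟩ := hy
    refine ⟨d1 + d2, fun k q hq => ?_⟩
    obtain ⟨q1, hq1, h1'⟩ := h1 k q hq
    obtain ⟨q2, hq2, h2'⟩ := h2 k q hq
    refine ⟨lf f ^ d2 * q1 + lf f ^ d1 * q2, Ideal.add_mem _ ?_ ?_, fun t ht => ?_⟩
    · have := JI_pow _ hq1 d2
      rwa [add_assoc] at this
    · have := JI_pow _ hq2 d1
      rwa [add_assoc, add_comm d2] at this
    · obtain ⟨m, hm⟩ : ∃ m, t + 1 = k + (d1 + d2) + m := ⟨t + 1 - (k + (d1 + d2)), by omega⟩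
      have e1 : t + 1 - (k + d1) = d2 + m := by omega
      have e2 : t + 1 - (k + d2) = d1 + m := by omega
      have e3 : t + 1 - (k + (d1 + d2)) = m := by omega
      rw [LinearMap.add_apply, h1' t (by omega), h2' t (by omega), map_add, map_mul, map_mul,
        map_pow, map_pow, ev_lf, e1, e2, e3, pow_add, pow_add]
      ring
  | mul x y _ _ hx hy =>
    obtain ⟨d1, h1⟩ := hx
    obtain ⟨d2, h2⟩ := hy
    refine ⟨d2 + d1, fun k q hq => ?_⟩
    obtain ⟨q2, hq2, h2'⟩ := h2 k q hq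
    obtain ⟨q1, hq1, h1'⟩ := h1 (k + d2) q2 hq2
    rw [← add_assoc]
    refine ⟨q1, hq1, fun t ht => ?_⟩
    rw [Module.End.mul_apply, h2' t (by omega), h1' t ht]

/-- a functional equation puts `b(s) f ^ (d - 1)` in the ideal -/
theorem fe_ideal (hf : f ≠ 0) (b : Polynomial ℂ) (hb : IsBFunction f b) :
    ∃ d : ℕ, C b * lf f ^ d ∈ JI (Polynomial.X : Polynomial ℂ) (lf f) (d + 1) := by
  obtain ⟨P, hP⟩ := hb
  choose D hD using fun m : ℕ => op_ideal (f := f) (P m).1 (P m).2
  choose q hq hq' using fun m : ℕ => hD m 0 1 trivial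
  simp only [zero_add] at hq hq'
  obtain ⟨d, hd⟩ : ∃ d : ℕ, ∀ m ∈ P.support, D m ≤ d + 1 :=
    ⟨∑ m ∈ P.support, D m, fun m hm =>
      (Finset.single_le_sum (f := D) (fun _ _ => Nat.zero_le _) hm).trans (Nat.le_succ _)⟩
  refine ⟨d, ?_⟩
  set q' : RS σ := ∑ m ∈ P.support, C (Polynomial.X ^ m) * (lf f ^ (d + 1 - D m) * q m) with hq0
  have hmem : q' ∈ JI (Polynomial.X : Polynomial ℂ) (lf f) (d + 1) := by
    refine Ideal.sum_mem _ fun m hm => Ideal.mul_mem_left _ _ ?_
    have := JI_pow _ (hq m) (d + 1 - D m)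
    rwa [Nat.add_sub_cancel' (hd m hm)] at this
  have heq : C b * lf f ^ d - q' = 0 := by
    refine ev_inj _ d fun t ht => ?_
    have h1 := hP t
    have h2 : (P.sum fun m Q => ((t : ℂ) ^ m) • (Q : Module.End ℂ (MvPolynomial σ ℂ))
        (f ^ (t + 1))) = ev t q' * f ^ (t - d) := by
      rw [hq0, map_sum, Finset.sum_mul]
      unfold Finsupp.sum
      refine Finset.sum_congr rfl fun m hm => ?_
      have h3 := hq' m t (by have := hd m hm; omega)
      rw [map_one, one_mul, Nat.sub_zero] at h3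
      have h4 := hd m hm
      obtain ⟨u, hu⟩ : ∃ u, t = d + u := ⟨t - d, by omega⟩
      have e1 : t + 1 - D m = (d + 1 - D m) + (t - d) := by omega
      beta_reduce
      rw [h3, map_mul, map_mul, ev_C, map_pow (ev t) (lf f), ev_lf, Polynomial.eval_pow,
        Polynomial.eval_X, smul_eq_C_mul, e1, pow_add]
      ring
    rw [h2] at h1
    have h5 : (C (b.eval (t : ℂ)) * f ^ d - ev t q') * f ^ (t - d) = 0 := by
      have e2 : f ^ t = f ^ d * f ^ (t - d) := by
        rw [← pow_add]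
        congr 1
        omega
      rw [e2] at h1
      linear_combination h1
    rw [map_sub, map_mul, map_pow, ev_lf, ev_C]
    exact (mul_eq_zero.1 h5).resolve_right (pow_ne_zero _ hf)
  rw [sub_eq_zero.1 heq]
  exact hmem

/-! ## From the ideals to operators -/

/-- functions of `s`, with values in `ℂ[x]`, given by operators applied to `f ^ (s + 1)` -/
def Dop (f : MvPolynomial σ ℂ) (u : ℕ → MvPolynomial σ ℂ) : Prop :=
  ∃ P : ℕ →₀ weylS σ, ∃ N : ℕ, ∀ t : ℕ, N ≤ t → u t =
    P.sum fun m Q => ((t : ℂ) ^ m) • (Q : Module.End ℂ (MvPolynomial σ ℂ)) (f ^ (t + 1))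

theorem Dop.congr {u v : ℕ → MvPolynomial σ ℂ} (h : Dop f u) (N : ℕ)
    (huv : ∀ t, N ≤ t → v t = u t) : Dop f v := by
  obtain ⟨P, M, hP⟩ := h
  exact ⟨P, M + N, fun t ht => by rw [huv t (by omega), hP t (by omega)]⟩

theorem Dop.add {u v : ℕ → MvPolynomial σ ℂ} (hu : Dop f u) (hv : Dop f v) :
    Dop f fun t => u t + v t := by
  obtain ⟨P, M, hP⟩ := hu
  obtain ⟨Q, N, hQ⟩ := hv
  refine ⟨P + Q, M + N, fun t ht => ?_⟩
  beta_reduce
  rw [hP t (by omega), hQ t (by omega), Finsupp.sum_add_index']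
  · intro m
    simp
  · intro m x y
    rw [← smul_add]
    rfl

theorem Dop.zero : Dop f fun _ => 0 := ⟨0, 0, fun t _ => by simp⟩

/-- a term of an operator -/
noncomputable def opv (f : MvPolynomial σ ℂ) (t m : ℕ) (Q : weylS σ) : MvPolynomial σ ℂ :=
  ((t : ℂ) ^ m) • (Q : Module.End ℂ (MvPolynomial σ ℂ)) (f ^ (t + 1))

theorem opv_zero (t m : ℕ) : opv f t m 0 = 0 := by
  unfold opv
  simp

theorem opv_add (t m : ℕ) (x y : weylS σ) : opv f t m (x + y) = opv f t m x + opv f t m y := by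
  unfold opv
  rw [← smul_add]
  rfl

/-- multiplication by `s ^ j` and application of an operator -/
theorem Dop.op {u : ℕ → MvPolynomial σ ℂ} (hu : Dop f u) (j : ℕ) (Q : weylS σ) :
    Dop f fun t => ((t : ℂ) ^ j) • (Q : Module.End ℂ (MvPolynomial σ ℂ)) (u t) := by
  obtain ⟨P, N, hP⟩ := hu
  refine ⟨P.sum fun m R => Finsupp.single (m + j) (Q * R), N, fun t ht => ?_⟩
  beta_reduce
  have h2 : (Finsupp.sum (P.sum fun m R => Finsupp.single (m + j) (Q * R)) fun m Q =>
      ((t : ℂ) ^ m) • (Q : Module.End ℂ (MvPolynomial σ ℂ)) (f ^ (t + 1))) =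
      P.sum fun m R => Finsupp.sum (Finsupp.single (m + j) (Q * R)) (opv f t) :=
    Finsupp.sum_sum_index (h := opv f t) (opv_zero t) (opv_add t)
  rw [hP t ht, h2]
  unfold Finsupp.sum
  rw [map_sum, Finset.smul_sum]
  refine Finset.sum_congr rfl fun m _ => ?_
  have h1 := Finsupp.sum_single_index (a := m + j) (b := Q * P m) (h := opv f t)
    (opv_zero t _)
  unfold Finsupp.sum at h1
  beta_reduce
  rw [h1, map_smul, smul_smul, ← pow_add, add_comm j m]
  rfl

/-- the multiplication by a variable -/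
noncomputable def wX (i : σ) : weylS σ :=
  ⟨LinearMap.mulLeft ℂ (X i : MvPolynomial σ ℂ), Algebra.subset_adjoin (Or.inl ⟨i, rfl⟩)⟩

/-- the partial derivative -/
noncomputable def wD (i : σ) : weylS σ :=
  ⟨((pderiv i : Derivation ℂ (MvPolynomial σ ℂ) (MvPolynomial σ ℂ)) :
    MvPolynomial σ ℂ →ₗ[ℂ] MvPolynomial σ ℂ), Algebra.subset_adjoin (Or.inr ⟨i, rfl⟩)⟩

theorem Dop.smul {u : ℕ → MvPolynomial σ ℂ} (hu : Dop f u) (c : ℂ) : Dop f fun t => c • u t :=
  (hu.op 0 (c • 1)).congr 0 fun t _ => by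
    rw [pow_zero, one_smul]
    rfl

/-- multiplication by an element of `ℂ[s][x]` -/
theorem Dop.mul {u : ℕ → MvPolynomial σ ℂ} (hu : Dop f u) (h : RS σ) :
    Dop f fun t => ev t h * u t := by
  induction h using MvPolynomial.induction_on generalizing u with
  | C a =>
    induction a using Polynomial.induction_on' with
    | add p q hp hq =>
      refine (hp.add hq).congr 0 fun t _ => ?_
      rw [map_add, map_add, add_mul]
    | monomial n c =>
      refine ((hu.op n 1).smul c).congr 0 fun t _ => ?_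
      rw [ev_C, Polynomial.eval_monomial, ← smul_eq_C_mul, ← smul_smul]
      rfl
  | add p q hp hq =>
    refine ((hp hu).add (hq hu)).congr 0 fun t _ => ?_
    rw [map_add, add_mul]
  | mul_X p i hp =>
    refine (hp (hu.op 0 (wX i))).congr 0 fun t _ => ?_
    have e1 : ev t (X i : RS σ) = X i := by
      unfold ev
      rw [map_X]
    have e2 : ((wX i : weylS σ) : Module.End ℂ (MvPolynomial σ ℂ)) (u t) = X i * u t := rfl
    rw [map_mul, e1, pow_zero, one_smul, e2]
    ring

theorem Dop.self : Dop f fun t => f ^ (t + 1) :=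
  ⟨Finsupp.single 0 1, 0, fun t _ => by
    rw [Finsupp.sum_single_index]
    · simp
    · simp⟩

theorem ideal_op (k : ℕ) : ∀ q ∈ JI (Polynomial.X : Polynomial ℂ) (lf f) k,
    Dop f fun t => ev t q * f ^ (t + 1 - k) := by
  refine JI_ind _ (fun k q => Dop f fun t => ev t q * f ^ (t + 1 - k)) (fun q => ?_)
    (fun k a b ha hb => ?_) (fun k a q hq => ?_) (fun k q _ hq => ?_) (fun k i q _ hq => ?_) k
  · exact (Dop.self.mul q).congr 0 fun t _ => rfl
  · refine (ha.add hb).congr 0 fun t _ => ?_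
    rw [map_add, add_mul]
  · refine (hq.mul a).congr 0 fun t _ => ?_
    rw [map_mul, mul_assoc]
  · refine hq.congr k fun t ht => ?_
    have e1 : t + 1 - k = (t + 1 - (k + 1)) + 1 := by omega
    rw [map_mul, ev_lf, e1, pow_succ]
    ring
  · refine (hq.op 0 (wD i)).congr k fun t ht => ?_
    obtain ⟨m, hm⟩ : ∃ m, t + 1 = k + 1 + m := ⟨t - k, by omega⟩
    have e1 : t + 1 - k = m + 1 := by omega
    have e2 : t + 1 - (k + 1) = m := by omega
    have e3 : (Polynomial.X + 1 - (k : Polynomial ℂ)).eval (t : ℂ) = (m : ℂ) + 1 := by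
      have : (t : ℂ) + 1 = k + 1 + m := by exact_mod_cast hm
      simp only [Polynomial.eval_sub, Polynomial.eval_add, Polynomial.eval_X,
        Polynomial.eval_one, Polynomial.eval_natCast]
      linear_combination this
    have e4 : (C ((m : ℂ) + 1) : MvPolynomial σ ℂ) = (m : MvPolynomial σ ℂ) + 1 := by
      rw [map_add, map_one, map_natCast]
    have e5 : ((wD i : weylS σ) : Module.End ℂ (MvPolynomial σ ℂ)) (ev t q * f ^ (m + 1)) =
        pderiv i (ev t q * f ^ (m + 1)) := rfl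
    unfold TT
    rw [e1, e2, map_add, map_mul, map_mul, map_mul, ev_C, e3, ev_pderiv, ev_pderiv, ev_lf, e4,
      pow_zero, one_smul, e5, Derivation.leibniz, Derivation.leibniz_pow, smul_eq_mul,
      smul_eq_mul, nsmul_eq_mul, smul_eq_mul, Nat.add_sub_cancel]
    push_cast
    ring

end Pool.Agent.J4H50.IG
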