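import Pool.Agent.J4H50.IG.Split2

set_option autoImplicit false
set_option linter.unusedSectionVars false

/-! # Extension of the field of coefficients -/

namespace Pool.Agent.J4H50.IG

open MvPolynomial

variable {V K L : Type} [Fintype V] [DecidableEq V] [Field K] [Field L]

/-- a retraction of the coefficients -/
theorem exists_retr (emb : K →+* L) : ∃ R : MvPolynomial V L → MvPolynomial V K,
    (∀ a b, R (a + b) = R a + R b) ∧ (∀ a g, R (a * map emb g) = R a * g) ∧
    (∀ g, R (map emb g) = g) ∧ ∀ n a, a ∈ mI V L ^ n → R a ∈ mI V K ^ n := by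
  let _ : Algebra K L := emb.toAlgebra
  obtain ⟨ρ, hρ⟩ := LinearMap.exists_leftInverse_of_injective (Algebra.linearMap K L)
    (LinearMap.ker_eq_bot.2 (algebraMap K L).injective)
  have h1 : ∀ c : K, ρ (emb c) = c := fun c => by
    have := congrArg (fun g => g c) hρ
    exact this
  have h2 : ∀ (c : K) (x : L), ρ (x * emb c) = ρ x * c := by
    intro c x
    have h3 : x * emb c = c • x := by
      rw [Algebra.smul_def, mul_comm]
      rfl
    rw [h3, map_smul, smul_eq_mul, mul_comm]
  set R : MvPolynomial V L → MvPolynomial V K :=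
    fun q => ∑ m ∈ q.support, monomial m (ρ (coeff m q)) with hR
  have hc : ∀ m q, coeff m (R q) = ρ (coeff m q) := by
    intro m q
    rw [hR]
    beta_reduce
    rw [coeff_sum]
    simp only [coeff_monomial]
    rw [Finset.sum_ite_eq']
    split_ifs with h
    · rfl
    · rw [notMem_support_iff.1 h, map_zero]
  refine ⟨R, fun a b => ?_, fun a g => ?_, fun g => ?_, fun n a ha => ?_⟩
  · ext m
    rw [coeff_add, hc, hc, hc, coeff_add, map_add]
  · ext m
    rw [hc, coeff_mul, coeff_mul, map_sum]
    refine Finset.sum_congr rfl fun x _ => ?_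
    rw [coeff_map, h2, hc]
  · ext m
    rw [hc, coeff_map, h1]
  · rw [mem_pow_idealOfVars_iff'] at ha ⊢
    intro m hm
    rw [hc, ha m hm, map_zero]

/-- isolated critical points and extensions of fields -/
theorem iso_descend (emb : K →+* L) {f : MvPolynomial V K} {M : ℕ} (h : IsoC (map emb f) M) :
    IsoC f M := by
  obtain ⟨R, h1, h2, h3, h4⟩ := exists_retr (V := V) emb
  have h0 : R 0 = 0 := by
    have := h3 0
    rwa [map_zero] at this
  have hsum : ∀ (S : Finset V) (A g : V → MvPolynomial V K) (B : V → MvPolynomial V L),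
      R (∑ i ∈ S, B i * map emb (g i)) = ∑ i ∈ S, R (B i) * g i := by
    intro S A g B
    induction S using Finset.induction_on with
    | empty => rw [Finset.sum_empty, Finset.sum_empty, h0]
    | insert i S hi ih => rw [Finset.sum_insert hi, Finset.sum_insert hi, h1, ih, h2]
  intro q hq
  have h5 : map emb q ∈ mI V L ^ M := by
    rw [mem_pow_idealOfVars_iff'] at hq ⊢
    intro m hm
    rw [coeff_map, hq m hm, map_zero]
  obtain ⟨u, hu, r, hr, hur⟩ := Submodule.mem_sup.1 (h h5)
  unfold Jac at hu
  obtain ⟨B, hB⟩ := (Submodule.mem_span_range_iff_exists_fun _).1 hu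
  have h6 : q = ∑ i, R (B i) * pderiv i f + R r := by
    rw [← h3 q, ← hur, h1, ← hB, ← hsum Finset.univ (fun _ => 0)]
    congr 2
    refine Finset.sum_congr rfl fun i _ => ?_
    rw [smul_eq_mul, pderiv_map]
  rw [h6]
  refine Submodule.add_mem_sup (Ideal.sum_mem _ fun i _ => Ideal.mul_mem_left _ _
    (Ideal.subset_span ⟨i, rfl⟩)) (h4 _ _ hr)

/-- ranks and extensions of fields -/
theorem rank_ext (h2 : (2 : K) ≠ 0) (emb : K →+* L) (S : Matrix V V K) (hS : S.IsSymm) :
    (S.map emb).rank = S.rank := by
  classical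
  obtain ⟨P, d, hP, hd⟩ := diagonalize h2 S hS
  have h1 : S.rank = Fintype.card {i // d i ≠ 0} := by
    rw [← Matrix.rank_diagonal, ← hd, Matrix.rank_mul_eq_left_of_isUnit_det _ _
      (by rwa [Matrix.det_transpose]), Matrix.rank_mul_eq_right_of_isUnit_det _ _ hP]
  have hP' : IsUnit (P.map emb).det := by
    have : (P.map emb).det = emb P.det := (RingHom.map_det emb P).symm
    rw [this]
    exact hP.map emb
  have hd' : P.map emb * S.map emb * (P.map emb).transpose =
      Matrix.diagonal fun i => emb (d i) := by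
    have := congrArg (fun A : Matrix V V K => A.map emb) hd
    beta_reduce at this
    rw [Matrix.map_mul, Matrix.map_mul, Matrix.transpose_map, Matrix.diagonal_map (map_zero _)]
      at this
    exact this
  have h3 : (S.map emb).rank = Fintype.card {i // emb (d i) ≠ 0} := by
    rw [← Matrix.rank_diagonal, ← hd', Matrix.rank_mul_eq_left_of_isUnit_det _ _
      (by rwa [Matrix.det_transpose]), Matrix.rank_mul_eq_right_of_isUnit_det _ _ hP']
  rw [h1, h3]
  refine Fintype.card_congr (Equiv.subtypeEquivRight fun i => ?_)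
  rw [Ne, map_eq_zero emb]

end Pool.Agent.J4H50.IG
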