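import Pool.Agent.W427.SMC.Pa1

set_option autoImplicit false
set_option linter.unusedSectionVars false

/-! # Measure preserving maps of `ℤ_p ^ n`, and sublattices -/

namespace Pool.Agent.J4H50.IG

open MeasureTheory
open Pool.Agent.W427.SMC (msZ bsZ mu)

attribute [local instance] msZ bsZ

variable {p : ℕ} [Fact p.Prime] {V : Type} [Fintype V]

/-- the Haar measure of `ℤ_p ^ V` -/
noncomputable abbrev hm (p : ℕ) [Fact p.Prime] (V : Type) [Fintype V] : Measure (V → ℤ_[p]) :=
  Measure.pi fun _ : V => mu p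

/-- isometries of a compact metric space are onto (as in `N138/RF/S1.lean`) -/
theorem isom_onto {X : Type*} [MetricSpace X] [CompactSpace X] (f : X → X) (hf : Isometry f) :
    Function.Surjective f := by
  by_contra hns
  rw [Function.Surjective] at hns
  push Not at hns
  obtain ⟨x, hx⟩ := hns
  have hcl : IsClosed (Set.range f) := (isCompact_range hf.continuous).isClosed
  have hxn : x ∉ Set.range f := by
    rintro ⟨a, ha⟩
    exact hx a ha
  obtain ⟨ε, hε, hb⟩ := Metric.isOpen_iff.1 hcl.isOpen_compl x hxn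
  have hit : ∀ n : ℕ, Isometry (f^[n]) := fun n => by
    induction n with
    | zero => exact isometry_id
    | succ n ih => rw [Function.iterate_succ]; exact ih.comp hf
  have hfar : ∀ m n : ℕ, m < n → ε ≤ dist (f^[n] x) (f^[m] x) := by
    intro m n hmn
    obtain ⟨k, rfl⟩ := Nat.exists_eq_add_of_lt hmn
    have e1 : f^[m + k + 1] x = f^[m] (f (f^[k] x)) := by
      rw [← Function.iterate_succ_apply' f k x, ← Function.iterate_add_apply]
      rfl
    rw [e1, (hit m).dist_eq]
    by_contra hlt
    push Not at hlt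
    exact hb (Metric.mem_ball.2 hlt) ⟨_, rfl⟩
  obtain ⟨a, φ, hφ, hlim⟩ := CompactSpace.tendsto_subseq (fun n => f^[n] x)
  have hc := hlim.cauchySeq
  obtain ⟨N, hN⟩ := Metric.cauchySeq_iff'.1 hc ε hε
  have := hN (N + 1) (Nat.le_succ N)
  have h2 := hfar (φ N) (φ (N + 1)) (hφ (Nat.lt_succ_self N))
  simp only [Function.comp] at this
  linarith

theorem cb_eq' {a b : V → ℤ_[p]} {r : ℝ} (h : b ∈ Metric.closedBall a r) :
    Metric.closedBall a r = Metric.closedBall b r :=
  IsUltrametricDist.closedBall_eq_of_mem h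

theorem mu_cb' (a b : V → ℤ_[p]) (r : ℝ) :
    hm p V (Metric.closedBall a r) = hm p V (Metric.closedBall b r) := by
  have h := measure_preimage_add (hm p V) (b - a) (Metric.closedBall b r)
  rw [← h]
  congr 1
  ext z
  simp only [Set.mem_preimage, Metric.mem_closedBall, dist_eq_norm]
  rw [show b - a + z - b = z - a by ring]

theorem gen' : (MeasurableSpace.pi : MeasurableSpace (V → ℤ_[p])) =
    MeasurableSpace.generateFrom
      {S : Set (V → ℤ_[p]) | ∃ (c : V → ℤ_[p]) (r : ℝ), 0 < r ∧ S = Metric.closedBall c r} := by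
  have hB : TopologicalSpace.IsTopologicalBasis
      {S : Set (V → ℤ_[p]) | ∃ (c : V → ℤ_[p]) (r : ℝ), 0 < r ∧ S = Metric.closedBall c r} := by
    refine TopologicalSpace.isTopologicalBasis_of_isOpen_of_nhds ?_ ?_
    · rintro S ⟨c, r, hr, rfl⟩
      exact IsUltrametricDist.isOpen_closedBall c hr.ne'
    · intro a U ha hU
      obtain ⟨ε, hε, hε2⟩ := Metric.isOpen_iff.1 hU a ha
      refine ⟨_, ⟨a, ε / 2, half_pos hε, rfl⟩, ?_, ?_⟩
      · exact Metric.mem_closedBall_self (half_pos hε).le
      · exact (Metric.closedBall_subset_ball (half_lt_self hε)).trans hε2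
  rw [← hB.borel_eq_generateFrom]
  exact BorelSpace.measurable_eq

/-- isometries preserve the measure -/
theorem map_isom (ψ : (V → ℤ_[p]) → (V → ℤ_[p])) (hψ : Isometry ψ) : (hm p V).map ψ = hm p V := by
  have hM : Measurable ψ := hψ.continuous.measurable
  have hf : IsFiniteMeasure ((hm p V).map ψ) := inferInstance
  refine ext_of_generate_finite _ gen' ?_ ?_ ?_
  · rintro S ⟨c, r, hr, rfl⟩ T ⟨c', r', hr', rfl⟩ ⟨x, hx, hx'⟩
    refine ⟨x, min r r', lt_min hr hr', ?_⟩
    rw [cb_eq' hx, cb_eq' hx']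
    rcases le_total r r' with h | h
    · rw [min_eq_left h]
      exact Set.inter_eq_self_of_subset_left (Metric.closedBall_subset_closedBall h)
    · rw [min_eq_right h]
      exact Set.inter_eq_self_of_subset_right (Metric.closedBall_subset_closedBall h)
  · rintro S ⟨c, r, hr, rfl⟩
    obtain ⟨b, rfl⟩ := isom_onto ψ hψ c
    rw [Measure.map_apply hM Metric.isClosed_closedBall.measurableSet, hψ.preimage_closedBall]
    exact mu_cb' _ _ _
  · rw [Measure.map_apply hM MeasurableSet.univ, Set.preimage_univ]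

theorem int_isom (ψ : (V → ℤ_[p]) → (V → ℤ_[p])) (hψ : Isometry ψ) (H : (V → ℤ_[p]) → ℂ)
    (hH : Measurable H) : ∫ t, H (ψ t) ∂(hm p V) = ∫ t, H t ∂(hm p V) := by
  conv_rhs => rw [← map_isom ψ hψ]
  rw [integral_map hψ.continuous.measurable.aemeasurable hH.aestronglyMeasurable]

/-- the Haar measure is unique -/
theorem pi_unique (ν : Measure (V → ℤ_[p])) [IsProbabilityMeasure ν] [ν.IsAddLeftInvariant] :
    ν = hm p V := by
  have h := Measure.addHaarMeasure_unique ν (⊤ : TopologicalSpace.PositiveCompacts (V → ℤ_[p]))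
  have h' := Measure.addHaarMeasure_unique (hm p V)
    (⊤ : TopologicalSpace.PositiveCompacts (V → ℤ_[p]))
  have e1 : ν ((⊤ : TopologicalSpace.PositiveCompacts (V → ℤ_[p])) : Set (V → ℤ_[p])) = 1 :=
    measure_univ
  have e2 : hm p V ((⊤ : TopologicalSpace.PositiveCompacts (V → ℤ_[p])) : Set (V → ℤ_[p])) = 1 :=
    measure_univ
  rw [e1, one_smul] at h
  rw [e2, one_smul] at h'
  rw [h]
  exact h'.symm

/-- **Sublattices of finite index.** -/
theorem lattice (M : (V → ℤ_[p]) →+ (V → ℤ_[p])) (hMc : Continuous M)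
    (hfin : Finite ((V → ℤ_[p]) ⧸ M.range)) :
    ∃ (S : Finset (V → ℤ_[p])) (c : ℂ), ∀ h : (V → ℤ_[p]) → ℂ, Measurable h →
      (∃ B : ℝ, ∀ z, ‖h z‖ ≤ B) →
      ∫ w, h w ∂(hm p V) = ∑ a ∈ S, c * ∫ y, h (a + M y) ∂(hm p V) := by
  classical
  have i0 := Fintype.ofFinite ((V → ℤ_[p]) ⧸ M.range)
  let Q := (V → ℤ_[p]) ⧸ M.range
  let rep : Q → (V → ℤ_[p]) := Quotient.out
  have hrep : ∀ q : Q, (QuotientAddGroup.mk (rep q) : Q) = q := fun q => Quotient.out_eq' q
  have hcm : ∀ a : V → ℤ_[p], Measurable fun y => a + M y := fun a =>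
    (continuous_const.add hMc).measurable
  set N : ENNReal := (Fintype.card Q : ENNReal) with hN
  have hN0 : N ≠ 0 := by
    rw [hN]
    exact_mod_cast Fintype.card_ne_zero
  have hN1 : N ≠ ⊤ := ENNReal.natCast_ne_top _
  set ν : Measure (V → ℤ_[p]) := ∑ q : Q, N⁻¹ • (hm p V).map (fun y => rep q + M y) with hν
  have hfm : ∀ q : Q, IsProbabilityMeasure ((hm p V).map (fun y => rep q + M y)) := fun q =>
    Measure.isProbabilityMeasure_map (hcm _).aemeasurable
  have h1 : IsProbabilityMeasure ν := by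
    refine ⟨?_⟩
    rw [hν, Measure.finsetSum_apply]
    simp only [Measure.smul_apply, measure_univ, smul_eq_mul, mul_one]
    rw [Finset.sum_const, Finset.card_univ, nsmul_eq_mul]
    exact ENNReal.mul_inv_cancel hN0 hN1
  have h2 : ν.IsAddLeftInvariant := by
    refine ⟨fun v => ?_⟩
    have e0 : ∀ q : Q, ∃ y0 : V → ℤ_[p], v + rep q =
        rep (QuotientAddGroup.mk v + q) + M y0 := by
      intro q
      have e1 : (QuotientAddGroup.mk (rep (QuotientAddGroup.mk v + q)) : Q) =
          QuotientAddGroup.mk (v + rep q) := by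
        rw [hrep, QuotientAddGroup.mk_add, hrep]
      rw [QuotientAddGroup.eq] at e1
      obtain ⟨y0, hy0⟩ := e1
      exact ⟨y0, by rw [hy0]; abel⟩
    choose y0 hy0 using e0
    have e2 : ∀ q : Q, ((hm p V).map (fun y => rep q + M y)).map (fun z => v + z) =
        (hm p V).map (fun y => rep (QuotientAddGroup.mk v + q) + M y) := by
      intro q
      rw [Measure.map_map (measurable_const_add v) (hcm _)]
      have e3 : (fun z => v + z) ∘ (fun y => rep q + M y) =
          (fun y => rep (QuotientAddGroup.mk v + q) + M y) ∘ (fun y => y0 q + y) := by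
        funext y
        simp only [Function.comp]
        rw [map_add, ← add_assoc, ← add_assoc, hy0]
      rw [e3, ← Measure.map_map (hcm _) (measurable_const_add _)]
      congr 1
      exact map_add_left_eq_self (hm p V) (y0 q)
    have e4 : ν.map (fun z => v + z) =
        ∑ q : Q, (N⁻¹ • (hm p V).map (fun y => rep q + M y)).map (fun z => v + z) := by
      rw [← Measure.mapₗ_apply_of_measurable (measurable_const_add v), hν, map_sum]
      exact Finset.sum_congr rfl fun q _ =>
        Measure.mapₗ_apply_of_measurable (measurable_const_add v) _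
    rw [e4]
    simp only [Measure.map_smul, e2]
    exact Fintype.sum_equiv (Equiv.addLeft (QuotientAddGroup.mk v : Q)) _ _ fun q => rfl
  have h3 := pi_unique ν
  refine ⟨Finset.univ.image rep, ((Fintype.card Q : ℂ))⁻¹, fun h hh hb => ?_⟩
  obtain ⟨B, hB⟩ := hb
  have hinj : Set.InjOn rep (Finset.univ : Finset Q) := by
    intro a _ b _ hab
    rw [← hrep a, ← hrep b, hab]
  have h4 : ∫ w, h w ∂(hm p V) = ∫ w, h w ∂ν := by rw [h3]
  rw [Finset.sum_image hinj, h4, hν, integral_finsetSum_measure]
  · refine Finset.sum_congr rfl fun q _ => ?_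
    rw [integral_smul_measure, integral_map (hcm _).aemeasurable hh.aestronglyMeasurable]
    have e1 : (N⁻¹).toReal = ((Fintype.card Q : ℝ))⁻¹ := by
      rw [hN, ENNReal.toReal_inv, ENNReal.toReal_natCast]
    rw [e1, Complex.real_smul]
    push_cast
    rfl
  · intro q _
    refine Integrable.smul_measure ?_ (ENNReal.inv_ne_top.2 hN0)
    exact Integrable.of_bound hh.aestronglyMeasurable B (Filter.Eventually.of_forall hB)

end Pool.Agent.J4H50.IG
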