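import Pool.Agent.J4H50.IG.Jet
import Pool.Agent.J4H50.IG.Lat

set_option autoImplicit false
set_option linter.unusedSectionVars false

/-! # Estimates for polynomials near the origin -/

namespace Pool.Agent.J4H50.IG

open MvPolynomial

variable {p : ℕ} [Fact p.Prime] {V : Type} [Fintype V]

theorem prod_le (z : V → ℚ_[p]) (m : V →₀ ℕ) : ‖∏ i, z i ^ m i‖ ≤ ‖z‖ ^ Finsupp.degree m := by
  rw [norm_prod, Finsupp.degree_eq_sum, ← Finset.prod_pow_eq_pow_sum]
  refine Finset.prod_le_prod (fun i _ => norm_nonneg _) fun i _ => ?_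
  rw [norm_pow]
  exact pow_le_pow_left₀ (norm_nonneg _) (norm_le_pi_norm z i) _

/-- polynomials of order at least `n` -/
theorem est_ord {n : ℕ} (q : MvPolynomial V ℚ_[p]) (hq : q ∈ mI V ℚ_[p] ^ n) :
    ∃ C : ℝ, 0 < C ∧ ∀ z : V → ℚ_[p], ‖z‖ ≤ 1 → ‖eval z q‖ ≤ C * ‖z‖ ^ n := by
  rw [mem_pow_idealOfVars_iff] at hq
  refine ⟨∑ m ∈ q.support, ‖coeff m q‖ + 1, by positivity, fun z hz => ?_⟩
  rw [eval_eq']
  refine (norm_sum_le _ _).trans ?_
  have h1 : ∑ m ∈ q.support, ‖coeff m q * ∏ i, z i ^ m i‖ ≤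
      ∑ m ∈ q.support, ‖coeff m q‖ * ‖z‖ ^ n := by
    refine Finset.sum_le_sum fun m hm => ?_
    rw [norm_mul]
    refine mul_le_mul_of_nonneg_left ((prod_le z m).trans ?_) (norm_nonneg _)
    exact pow_le_pow_of_le_one (norm_nonneg _) hz (hq m hm)
  refine h1.trans ?_
  rw [← Finset.sum_mul]
  exact mul_le_mul_of_nonneg_right (by linarith) (pow_nonneg (norm_nonneg _) _)

/-- the gradient near an isolated critical point -/
theorem est_grad [Nonempty V] {F : MvPolynomial V ℚ_[p]} {M : ℕ} (hF : IsoC F M) :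
    ∃ c : ℝ, 0 < c ∧ ∃ ρ : ℝ, 0 < ρ ∧ ∀ z : V → ℚ_[p], ‖z‖ ≤ ρ →
      ∃ i, c * ‖z‖ ^ M ≤ ‖eval z (pderiv i F)‖ := by
  classical
  have h1 : ∀ i : V, ∃ (a : V → MvPolynomial V ℚ_[p]) (e : MvPolynomial V ℚ_[p]),
      e ∈ mI V ℚ_[p] ^ (M + 1) ∧ X i ^ M = ∑ j, a j * pderiv j F + e := by
    intro i
    obtain ⟨u, hu, e, he, hue⟩ := Submodule.mem_sup.1 (hF (Ideal.pow_mem_pow (X_mem i) M))
    obtain ⟨a, ha⟩ := (Submodule.mem_span_range_iff_exists_fun _).1 hu
    exact ⟨a, e, he, by rw [← hue, ← ha]; rfl⟩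
  choose a e he hX using h1
  have h2 : ∀ i j, ∃ C : ℝ, 0 < C ∧ ∀ z : V → ℚ_[p], ‖z‖ ≤ 1 → ‖eval z (a i j)‖ ≤ C := by
    intro i j
    obtain ⟨C, hC, h⟩ := est_ord (n := 0) (a i j) (by simp)
    exact ⟨C, hC, fun z hz => by simpa using h z hz⟩
  choose Ca hCa hCa' using h2
  choose Ce hCe hCe' using fun i => est_ord (n := M + 1) (e i) (he i)
  set A : ℝ := ∑ i, ∑ j, Ca i j with hA
  set E : ℝ := ∑ i, Ce i with hE
  have hA0 : 0 ≤ A := Finset.sum_nonneg fun i _ => Finset.sum_nonneg fun j _ => (hCa i j).le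
  have hE0 : 0 ≤ E := Finset.sum_nonneg fun i _ => (hCe i).le
  refine ⟨1 / (2 * (A + 1)), by positivity, min 1 (1 / (2 * (E + 1))),
    lt_min one_pos (by positivity), fun z hz => ?_⟩
  have hz1 : ‖z‖ ≤ 1 := hz.trans (min_le_left _ _)
  have hz2 : ‖z‖ ≤ 1 / (2 * (E + 1)) := hz.trans (min_le_right _ _)
  obtain ⟨i, _, hi⟩ := Finset.exists_max_image Finset.univ (fun i => ‖z i‖)
    ⟨Classical.arbitrary V, Finset.mem_univ _⟩
  obtain ⟨k, _, hk⟩ := Finset.exists_max_image Finset.univ (fun i => ‖eval z (pderiv i F)‖)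
    ⟨Classical.arbitrary V, Finset.mem_univ _⟩
  have hzi : ‖z‖ = ‖z i‖ :=
    le_antisymm ((pi_norm_le_iff_of_nonneg (norm_nonneg _)).2 fun j => hi j (Finset.mem_univ _))
      (norm_le_pi_norm z i)
  refine ⟨k, ?_⟩
  set G := ‖eval z (pderiv k F)‖ with hG
  have h3 : ‖z‖ ^ M ≤ A * G + E * ‖z‖ ^ (M + 1) := by
    have e1 : ‖z‖ ^ M = ‖eval z ((X i : MvPolynomial V ℚ_[p]) ^ M)‖ := by
      rw [map_pow, eval_X, norm_pow, hzi]
    rw [e1, hX i, map_add, map_sum]
    refine (norm_add_le _ _).trans (add_le_add ((norm_sum_le _ _).trans ?_) ?_)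
    · have h4 : ∑ j, ‖eval z (a i j * pderiv j F)‖ ≤ ∑ j, Ca i j * G := by
        refine Finset.sum_le_sum fun j _ => ?_
        rw [map_mul, norm_mul]
        exact mul_le_mul (hCa' i j z hz1) (hk j (Finset.mem_univ _)) (norm_nonneg _) (hCa i j).le
      refine h4.trans ?_
      rw [← Finset.sum_mul]
      refine mul_le_mul_of_nonneg_right ?_ (norm_nonneg _)
      exact Finset.single_le_sum (f := fun i => ∑ j, Ca i j)
        (fun i _ => Finset.sum_nonneg fun j _ => (hCa i j).le) (Finset.mem_univ i)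
    · refine (hCe' i z hz1).trans (mul_le_mul_of_nonneg_right ?_ (pow_nonneg (norm_nonneg _) _))
      exact Finset.single_le_sum (f := Ce) (fun i _ => (hCe i).le) (Finset.mem_univ i)
  have h5 : E * ‖z‖ ^ (M + 1) ≤ 1 / 2 * ‖z‖ ^ M := by
    rw [pow_succ, mul_comm (‖z‖ ^ M), ← mul_assoc]
    refine mul_le_mul_of_nonneg_right ?_ (pow_nonneg (norm_nonneg _) _)
    calc E * ‖z‖ ≤ E * (1 / (2 * (E + 1))) := mul_le_mul_of_nonneg_left hz2 hE0
      _ ≤ 1 / 2 := by
        rw [mul_one_div, div_le_div_iff₀ (by positivity) (by positivity)]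
        linarith
  have h6 : ‖z‖ ^ M ≤ 2 * A * G := by linarith
  have hG0 : 0 ≤ G := norm_nonneg _
  rw [div_mul_eq_mul_div, one_mul, div_le_iff₀ (by positivity)]
  nlinarith

/-! ## Dilations -/

/-- the substitution `x ↦ c x` -/
noncomputable def scl {A : Type} [CommRing A] (c : A) (q : MvPolynomial V A) : MvPolynomial V A :=
  aeval (fun i => C c * X i) q

theorem eval_aeval {A : Type} [CommRing A] (ψ : V → MvPolynomial V A) (q : MvPolynomial V A)
    (w : V → A) : eval w (aeval ψ q) = eval (fun i => eval w (ψ i)) q := by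
  induction q using MvPolynomial.induction_on with
  | C a => simp
  | add p q hp hq => simp only [map_add, hp, hq]
  | mul_X p i hp => simp only [map_mul, hp, aeval_X, eval_X]

theorem eval_scl {A : Type} [CommRing A] (c : A) (q : MvPolynomial V A) (w : V → A) :
    eval w (scl c q) = eval (fun i => c * w i) q := by
  unfold scl
  rw [eval_aeval]
  simp only [map_mul, eval_C, eval_X]

theorem pderiv_scl {A : Type} [CommRing A] (c : A) (q : MvPolynomial V A) (i : V) :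
    pderiv i (scl c q) = C c * scl c (pderiv i q) := by
  classical
  unfold scl
  rw [chain, Finset.sum_eq_single i]
  · rw [Derivation.leibniz, pderiv_C, smul_zero, add_zero, pderiv_X_self, smul_eq_mul, mul_one,
      mul_comm]
  · intro j _ hj
    rw [Derivation.leibniz, pderiv_C, smul_zero, add_zero, pderiv_X_of_ne hj, smul_zero, mul_zero]
  · intro h
    exact absurd (Finset.mem_univ i) h

theorem scl_monomial {A : Type} [CommRing A] (c a : A) (m : V →₀ ℕ) :
    scl c (monomial m a) = monomial m (c ^ Finsupp.degree m * a) := by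
  unfold scl
  rw [aeval_monomial, monomial_eq, Finsupp.prod_fintype _ _ (fun i => pow_zero _),
    Finsupp.prod_fintype _ _ (fun i => pow_zero _), algebraMap_eq, map_mul, map_pow,
    Finsupp.degree_eq_sum, ← Finset.prod_pow_eq_pow_sum]
  simp only [mul_pow, Finset.prod_mul_distrib]
  ring

/-- the coercion -/
noncomputable abbrev cz (p : ℕ) [Fact p.Prime] : ℤ_[p] →+* ℚ_[p] := PadicInt.Coe.ringHom

theorem exists_pow_mul_le (x : ℚ_[p]) : ∃ s : ℕ, ‖(p : ℚ_[p]) ^ s * x‖ ≤ 1 := by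
  have hp0 : 0 < ((p : ℝ)⁻¹) := inv_pos.2 (by exact_mod_cast (Fact.out : p.Prime).pos)
  have hp1 : ((p : ℝ)⁻¹) < 1 := inv_lt_one_of_one_lt₀ (by
    exact_mod_cast (Fact.out : p.Prime).one_lt)
  obtain ⟨s, hs⟩ := exists_pow_lt_of_lt_one (show 0 < 1 / (‖x‖ + 1) by positivity) hp1
  refine ⟨s, ?_⟩
  rw [norm_mul, norm_pow, Padic.norm_p]
  rw [lt_div_iff₀ (by positivity)] at hs
  have h3 : (0 : ℝ) < ((p : ℝ)⁻¹) ^ s := pow_pos hp0 _
  nlinarith

theorem norm_p_pow_le (k : ℕ) : ‖(p : ℚ_[p]) ^ k‖ ≤ 1 := by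
  rw [norm_pow, Padic.norm_p]
  have hp0 : 0 < ((p : ℝ)⁻¹) := inv_pos.2 (by exact_mod_cast (Fact.out : p.Prime).pos)
  have hp1 : ((p : ℝ)⁻¹) < 1 := inv_lt_one_of_one_lt₀ (by
    exact_mod_cast (Fact.out : p.Prime).one_lt)
  exact pow_le_one₀ hp0.le hp1.le

/-- dilations make the coefficients integral -/
theorem scl_lift (j : ℕ) (q : MvPolynomial V ℚ_[p]) (hq : q ∈ mI V ℚ_[p] ^ (j + 1)) :
    ∃ s : ℕ, ∀ k : ℕ, s ≤ k → ∃ η : MvPolynomial V ℤ_[p],
      scl ((p : ℚ_[p]) ^ k) q = C ((p : ℚ_[p]) ^ (j * k) * (p : ℚ_[p]) ^ (k - s)) *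
        map (cz p) η := by
  classical
  rw [mem_pow_idealOfVars_iff] at hq
  choose t ht using fun m : V →₀ ℕ => exists_pow_mul_le (coeff m q)
  set s := ∑ m ∈ q.support, t m with hs
  have hst : ∀ m ∈ q.support, ‖(p : ℚ_[p]) ^ s * coeff m q‖ ≤ 1 := by
    intro m hm
    have h1 : t m ≤ s := Finset.single_le_sum (f := t) (fun _ _ => Nat.zero_le _) hm
    have h2 : (p : ℚ_[p]) ^ s = (p : ℚ_[p]) ^ (s - t m) * (p : ℚ_[p]) ^ t m := by
      rw [← pow_add, Nat.sub_add_cancel h1]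
    rw [h2, mul_assoc, norm_mul]
    exact mul_le_one₀ (norm_p_pow_le _) (norm_nonneg _) (ht m)
  refine ⟨s, fun k hk => ?_⟩
  have h3 : ∀ m ∈ q.support, ∃ a : ℤ_[p], (p : ℚ_[p]) ^ (j * k) * (p : ℚ_[p]) ^ (k - s) *
      cz p a = ((p : ℚ_[p]) ^ k) ^ Finsupp.degree m * coeff m q := by
    intro m hm
    obtain ⟨u, hu⟩ := Nat.exists_eq_add_of_le (hq m hm)
    refine ⟨⟨(p : ℚ_[p]) ^ (k * u) * ((p : ℚ_[p]) ^ s * coeff m q), ?_⟩, ?_⟩
    · rw [norm_mul]
      exact mul_le_one₀ (norm_p_pow_le _) (norm_nonneg _) (hst m hm)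
    · have e1 : cz p ⟨(p : ℚ_[p]) ^ (k * u) * ((p : ℚ_[p]) ^ s * coeff m q), by
          rw [norm_mul]
          exact mul_le_one₀ (norm_p_pow_le _) (norm_nonneg _) (hst m hm)⟩ =
          (p : ℚ_[p]) ^ (k * u) * ((p : ℚ_[p]) ^ s * coeff m q) := rfl
      rw [e1, hu, ← mul_assoc, ← mul_assoc, ← pow_add, ← pow_add, ← pow_add, ← pow_mul]
      congr 2
      obtain ⟨v, hv⟩ := Nat.exists_eq_add_of_le hk
      subst hv
      rw [Nat.add_sub_cancel_left]
      ring
  choose! a ha using h3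
  refine ⟨∑ m ∈ q.support, monomial m (a m), ?_⟩
  conv_lhs => rw [← support_sum_monomial_coeff q]
  unfold scl
  rw [map_sum, map_sum, Finset.mul_sum]
  refine Finset.sum_congr rfl fun m hm => ?_
  have e2 := scl_monomial ((p : ℚ_[p]) ^ k) (coeff m q) m
  unfold scl at e2
  rw [e2, map_monomial, C_mul_monomial, ha m hm]

/-! ## Isometries -/

theorem lip (η : MvPolynomial V ℤ_[p]) (x y : V → ℤ_[p]) :
    ‖eval x η - eval y η‖ ≤ ‖x - y‖ := by
  induction η using MvPolynomial.induction_on with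
  | C a => simp
  | add f g hf hg =>
    have : eval x (f + g) - eval y (f + g) = (eval x f - eval y f) + (eval x g - eval y g) := by
      rw [map_add, map_add]
      ring
    rw [this]
    exact (PadicInt.nonarchimedean _ _).trans (max_le hf hg)
  | mul_X f i hf =>
    have : eval x (f * X i) - eval y (f * X i) = (eval x f - eval y f) * x i +
        eval y f * (x i - y i) := by
      rw [map_mul, map_mul, eval_X, eval_X]
      ring
    rw [this]
    refine (PadicInt.nonarchimedean _ _).trans (max_le ?_ ?_)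
    · rw [norm_mul]
      exact (mul_le_of_le_one_right (norm_nonneg _) (PadicInt.norm_le_one _)).trans hf
    · rw [norm_mul]
      refine (mul_le_of_le_one_left (norm_nonneg _) (PadicInt.norm_le_one _)).trans ?_
      exact norm_le_pi_norm (x - y) i

/-- the map `w ↦ w + p η(w)` -/
noncomputable def tht (η : V → MvPolynomial V ℤ_[p]) (w : V → ℤ_[p]) : V → ℤ_[p] :=
  fun i => w i + (p : ℤ_[p]) * eval w (η i)

theorem tht_isom (η : V → MvPolynomial V ℤ_[p]) : Isometry (tht η) := by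
  refine Isometry.of_dist_eq fun x y => ?_
  rw [dist_eq_norm, dist_eq_norm]
  set d : V → ℤ_[p] := fun i => (p : ℤ_[p]) * (eval x (η i) - eval y (η i)) with hd
  have h1 : tht η x - tht η y = (x - y) + d := by
    funext i
    simp only [tht, hd, Pi.sub_apply, Pi.add_apply]
    ring
  have hp0 : 0 < ((p : ℝ)⁻¹) := inv_pos.2 (by exact_mod_cast (Fact.out : p.Prime).pos)
  have hp1 : ((p : ℝ)⁻¹) < 1 := inv_lt_one_of_one_lt₀ (by
    exact_mod_cast (Fact.out : p.Prime).one_lt)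
  have h2 : ‖d‖ ≤ ((p : ℝ)⁻¹) * ‖x - y‖ := by
    refine (pi_norm_le_iff_of_nonneg (mul_nonneg hp0.le (norm_nonneg _))).2 fun i => ?_
    rw [hd]
    beta_reduce
    rw [norm_mul, PadicInt.norm_p]
    exact mul_le_mul_of_nonneg_left (lip _ _ _) hp0.le
  rw [h1]
  by_cases h0 : x - y = 0
  · have h3 : ‖d‖ ≤ 0 := by
      rw [h0, norm_zero, mul_zero] at h2
      exact h2
    rw [norm_le_zero_iff.1 h3, add_zero]
  · have h4 : ‖d‖ < ‖x - y‖ := by
      have := norm_pos_iff.2 h0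
      nlinarith
    rw [IsUltrametricDist.norm_add_eq_max_of_norm_ne_norm h4.ne', max_eq_left h4.le]

end Pool.Agent.J4H50.IG
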