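import Pool.Agent.J4H50.IG.Jet
import Pool.Agent.H585R2.DiffC

set_option autoImplicit false
set_option linter.unusedSectionVars false

/-! # Singular points of the members of a pencil -/

namespace Pool.Agent.J4H50.IG

open MvPolynomial
open Pool.Agent.H585R2.DiffC (ddt ddt_X)

/-- the field of rational functions of the parameter -/
abbrev FT := RatFunc ℂ

/-- additive maps with the Leibniz rule -/
structure IsDer {K : Type} [CommRing K] (D : K → K) : Prop where
  add : ∀ a b, D (a + b) = D a + D b
  mul : ∀ a b, D (a * b) = a * D b + b * D a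

theorem IsDer.zero {K : Type} [CommRing K] {D : K → K} (h : IsDer D) : D 0 = 0 := by
  have := h.add 0 0
  rw [add_zero] at this
  exact left_eq_add.1 this

/-- a differential ring -/
@[reducible] noncomputable def mkDiff {K : Type} [CommRing K] (D : K → K) (h : IsDer D) :
    Differential K :=
  ⟨Derivation.mk' (AddMonoidHom.toIntLinearMap ⟨⟨D, h.zero⟩, h.add⟩) fun a b => by
    rw [smul_eq_mul, smul_eq_mul]
    exact h.mul a b⟩

theorem isDer_deriv {K : Type} [CommRing K] (i : Differential K) : IsDer fun a => i.deriv a :=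
  ⟨fun a b => map_add _ a b, fun a b => i.deriv.leibniz a b⟩

/-- derivations of finite extensions -/
theorem ext_der (F K : Type) [Field F] [CharZero F] [Field K] [Algebra F K]
    [FiniteDimensional F K] (d : F → F) (hd : IsDer d) :
    ∃ D : K → K, IsDer D ∧ ∀ a : F, D (algebraMap F K a) = algebraMap F K (d a) := by
  let i0 : Differential F := mkDiff d hd
  let i1 : Differential K := Differential.differentialFiniteDimensional F K
  have i2 : DifferentialAlgebra F K := Differential.differentialAlgebraFiniteDimensional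
  exact ⟨fun a => i1.deriv a, isDer_deriv i1, fun a => i2.deriv_algebraMap a⟩

/-- derivations of finite extensions of the field of rational functions -/
theorem exists_der (K : Type) [Field K] [Algebra FT K] [FiniteDimensional FT K] :
    ∃ D : K → K, IsDer D ∧ ∀ a : FT, D (algebraMap FT K a) = algebraMap FT K (ddt a) :=
  ext_der FT K (fun a => ddt a) ⟨fun a b => map_add _ a b, fun a b => (ddt (k := ℂ)).leibniz a b⟩

/-- the chain rule for a derivation which kills the constants -/
theorem der_aeval {V K : Type} [Fintype V] [Field K] [Algebra ℂ K] (D : K → K) (hD : IsDer D)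
    (h0 : ∀ c : ℂ, D (algebraMap ℂ K c) = 0) (x : V → K) (G : MvPolynomial V ℂ) :
    D (aeval x G) = ∑ i, aeval x (pderiv i G) * D (x i) := by
  classical
  induction G using MvPolynomial.induction_on with
  | C a => simp [h0]
  | add p q hp hq => simp only [map_add, hD.add, hp, hq, add_mul, Finset.sum_add_distrib]
  | mul_X p k hp =>
    rw [map_mul, aeval_X, hD.mul, hp, Finset.mul_sum]
    have : ∀ i, aeval x (pderiv i (p * X k)) * D (x i) =
        x k * (aeval x (pderiv i p) * D (x i)) +
          (if i = k then aeval x p * D (x k) else 0) := by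
      intro i
      rw [Derivation.leibniz, smul_eq_mul, smul_eq_mul, pderiv_X]
      by_cases hik : i = k
      · subst hik
        rw [if_pos rfl, Pi.single_eq_same, mul_one, map_add, map_mul, aeval_X]
        ring
      · rw [if_neg hik, Pi.single_eq_of_ne (fun h => hik h.symm), mul_zero, zero_add, map_mul,
          aeval_X]
        ring
    simp only [this, Finset.sum_add_distrib, Finset.sum_ite_eq', Finset.mem_univ, if_true]
    ring

variable {V : Type} [Fintype V]

/-- the generic member of the pencil -/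
noncomputable def pen (G H : MvPolynomial V ℂ) : MvPolynomial V FT :=
  map (algebraMap ℂ FT) G + C RatFunc.X * map (algebraMap ℂ FT) H

theorem pen_radical (G H : MvPolynomial V ℂ) : map (algebraMap ℂ FT) H ∈
    (Ideal.span ({pen G H} ∪ Set.range fun i => pderiv i (pen G H))).radical := by
  rw [Ideal.radical_eq_jacobson]
  refine Submodule.mem_sInf.2 ?_
  rintro J ⟨hJI, hJ⟩
  let K := MvPolynomial V FT ⧸ J
  let i1 : Field K := Ideal.Quotient.field J
  have i2 : Algebra.FiniteType FT K := inferInstance
  have i3 : FiniteDimensional FT K := finite_of_finite_type_of_isJacobsonRing FT K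
  obtain ⟨D, hDD, hD⟩ := exists_der K
  let i4 : Algebra ℂ K := ((algebraMap FT K).comp (algebraMap ℂ FT)).toAlgebra
  have hcK : ∀ c : ℂ, algebraMap ℂ K c = algebraMap FT K (algebraMap ℂ FT c) := fun c => rfl
  have h0 : ∀ c : ℂ, D (algebraMap ℂ K c) = 0 := by
    intro c
    rw [hcK, hD, Derivation.map_algebraMap, map_zero]
  set x : V → K := fun i => Ideal.Quotient.mk J (X i) with hx
  have hmk : ∀ G : MvPolynomial V ℂ, Ideal.Quotient.mk J (map (algebraMap ℂ FT) G) = aeval x G := by
    intro G
    induction G using MvPolynomial.induction_on with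
    | C a =>
      rw [map_C, aeval_C, hcK]
      rfl
    | add p q hp hq => rw [map_add, map_add, map_add, hp, hq]
    | mul_X p i hp => rw [map_mul, map_mul, map_mul, map_X, aeval_X, hp]
  set t : K := algebraMap FT K RatFunc.X with ht
  have hDt : D t = 1 := by
    rw [ht, hD, ddt_X, map_one]
  have hpen : Ideal.Quotient.mk J (pen G H) = aeval x G + t * aeval x H := by
    unfold pen
    rw [map_add, map_mul, hmk, hmk]
    rfl
  have hpd : ∀ i, Ideal.Quotient.mk J (pderiv i (pen G H)) =
      aeval x (pderiv i G) + t * aeval x (pderiv i H) := by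
    intro i
    unfold pen
    rw [map_add, Derivation.leibniz, pderiv_C, smul_zero, add_zero, smul_eq_mul, pderiv_map,
      pderiv_map, map_add, map_mul, hmk, hmk]
    rfl
  have h1 : aeval x G + t * aeval x H = 0 := by
    rw [← hpen, Ideal.Quotient.eq_zero_iff_mem]
    exact hJI (Ideal.subset_span (Or.inl rfl))
  have h2 : ∀ i, aeval x (pderiv i G) + t * aeval x (pderiv i H) = 0 := by
    intro i
    rw [← hpd, Ideal.Quotient.eq_zero_iff_mem]
    exact hJI (Ideal.subset_span (Or.inr ⟨i, rfl⟩))
  have h3 := congrArg D h1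
  rw [hDD.add, hDD.mul, hDt, mul_one, der_aeval D hDD h0, der_aeval D hDD h0, hDD.zero,
    Finset.mul_sum, ← add_assoc, ← Finset.sum_add_distrib] at h3
  have h4 : ∑ i, (aeval x (pderiv i G) * D (x i) + t * (aeval x (pderiv i H) * D (x i))) = 0 := by
    refine Finset.sum_eq_zero fun i _ => ?_
    have := h2 i
    linear_combination (D (x i)) * this
  rw [h4, zero_add] at h3
  rw [← Ideal.Quotient.eq_zero_iff_mem, hmk]
  exact h3

/-- common denominators -/
theorem exists_den (q : MvPolynomial V FT) : ∃ d : Polynomial ℂ, d ≠ 0 ∧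
    ∃ q' : MvPolynomial V (Polynomial ℂ), map (algebraMap (Polynomial ℂ) FT) q' =
      C (algebraMap (Polynomial ℂ) FT d) * q := by
  induction q using MvPolynomial.induction_on with
  | C a =>
    refine ⟨a.denom, RatFunc.denom_ne_zero a, C a.num, ?_⟩
    rw [map_C, ← map_mul]
    congr 1
    have h := RatFunc.num_div_denom a
    have h2 : algebraMap (Polynomial ℂ) FT a.denom ≠ 0 :=
      RatFunc.algebraMap_ne_zero (RatFunc.denom_ne_zero a)
    rw [div_eq_iff h2] at h
    rw [h, mul_comm]
  | add p q hp hq =>
    obtain ⟨d1, h1, p', hp'⟩ := hp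
    obtain ⟨d2, h2, q', hq'⟩ := hq
    refine ⟨d1 * d2, mul_ne_zero h1 h2, C d2 * p' + C d1 * q', ?_⟩
    rw [map_add, map_mul, map_mul, map_C, map_C, hp', hq', map_mul, map_mul]
    ring
  | mul_X p i hp =>
    obtain ⟨d1, h1, p', hp'⟩ := hp
    refine ⟨d1, h1, p' * X i, ?_⟩
    rw [map_mul, hp', map_X]
    ring

theorem exists_dens {ι : Type} (S : Finset ι) (q : ι → MvPolynomial V FT) :
    ∃ d : Polynomial ℂ, d ≠ 0 ∧ ∀ i ∈ S, ∃ q' : MvPolynomial V (Polynomial ℂ),
      map (algebraMap (Polynomial ℂ) FT) q' = C (algebraMap (Polynomial ℂ) FT d) * q i := by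
  classical
  choose d hd q' hq' using fun i => exists_den (q i)
  refine ⟨∏ i ∈ S, d i, Finset.prod_ne_zero_iff.2 fun i _ => hd i, fun i hi => ?_⟩
  refine ⟨C (∏ j ∈ S.erase i, d j) * q' i, ?_⟩
  rw [map_mul, map_C, hq', ← mul_assoc, ← map_mul, ← map_mul, Finset.prod_erase_mul _ _ hi]

/-- **The singular points of all but finitely many members of a pencil `G + t H` lie on `H = 0`.** -/
theorem pencil (G H : MvPolynomial V ℂ) : ∃ S : Finset ℂ, ∀ t ∉ S, ∀ x : V → ℂ,
    eval x (G + C t * H) = 0 → (∀ i, eval x (pderiv i (G + C t * H)) = 0) → eval x H = 0 := by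
  classical
  obtain ⟨m, hm⟩ := pen_radical G H
  have h1 : ∃ (A : MvPolynomial V FT) (B : V → MvPolynomial V FT),
      (map (algebraMap ℂ FT) H) ^ m = A * pen G H + ∑ i, B i * pderiv i (pen G H) := by
    rw [Ideal.span_union] at hm
    obtain ⟨u, hu, v, hv, huv⟩ := Submodule.mem_sup.1 hm
    obtain ⟨A, rfl⟩ := Ideal.mem_span_singleton'.1 hu
    obtain ⟨B, hB⟩ := (Submodule.mem_span_range_iff_exists_fun _).1 hv
    refine ⟨A, B, ?_⟩
    rw [← huv, ← hB]
    rfl
  obtain ⟨A, B, hAB⟩ := h1
  obtain ⟨d, hd, hq⟩ := exists_dens (Finset.univ : Finset (Option V)) (fun o => o.elim A B)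
  obtain ⟨A', hA'⟩ := hq none (Finset.mem_univ _)
  choose B' hB' using fun i : V => hq (some i) (Finset.mem_univ _)
  simp only [Option.elim] at hA' hB'
  set Ψ : MvPolynomial V (Polynomial ℂ) := map Polynomial.C G + C Polynomial.X * map Polynomial.C H
    with hΨ
  have hcomp : (algebraMap (Polynomial ℂ) FT).comp Polynomial.C = algebraMap ℂ FT := by
    ext1 c
    rw [RingHom.comp_apply]
    exact (Pool.Agent.H585R2.DiffC.algebraMap_C c).symm
  have hΨ1 : map (algebraMap (Polynomial ℂ) FT) Ψ = pen G H := by
    rw [hΨ, map_add, map_mul, map_map, map_map, map_C, hcomp, RatFunc.algebraMap_X]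
    rfl
  have h2 : C d * (map Polynomial.C H) ^ m = A' * Ψ + ∑ i, B' i * pderiv i Ψ := by
    apply MvPolynomial.map_injective (algebraMap (Polynomial ℂ) FT)
      (RatFunc.algebraMap_injective ℂ)
    rw [map_mul, map_pow, map_map, map_C, hcomp, hAB, map_add, map_mul, hA', hΨ1, map_sum,
      mul_add, Finset.mul_sum]
    congr 1
    · ring
    · refine Finset.sum_congr rfl fun i _ => ?_
      rw [map_mul, hB', ← pderiv_map, hΨ1]
      ring
  refine ⟨d.roots.toFinset, fun t ht x hx0 hx1 => ?_⟩
  have hdt : d.eval t ≠ 0 := by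
    intro h
    exact ht (by rw [Multiset.mem_toFinset, Polynomial.mem_roots hd]; exact h)
  have hcomp2 : (Polynomial.evalRingHom t).comp Polynomial.C = RingHom.id ℂ := by
    ext1 c
    simp
  have hΨ2 : map (Polynomial.evalRingHom t) Ψ = G + C t * H := by
    rw [hΨ, map_add, map_mul, map_map, map_map, map_C, hcomp2, MvPolynomial.map_id,
      MvPolynomial.map_id]
    simp
  have h3 := congrArg (fun q => eval x (map (Polynomial.evalRingHom t) q)) h2
  have e1 : eval x (map (Polynomial.evalRingHom t) (C d * (map Polynomial.C H) ^ m)) =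
      d.eval t * eval x H ^ m := by
    rw [map_mul, map_mul, map_C, map_pow, map_pow, map_map, hcomp2, MvPolynomial.map_id, eval_C]
    rfl
  have e2 : eval x (map (Polynomial.evalRingHom t) (A' * Ψ + ∑ i, B' i * pderiv i Ψ)) = 0 := by
    rw [map_add, map_add, map_mul, map_mul, hΨ2, hx0, mul_zero, zero_add, map_sum, map_sum]
    refine Finset.sum_eq_zero fun i _ => ?_
    rw [map_mul, map_mul, ← pderiv_map, hΨ2, hx1, mul_zero]
  beta_reduce at h3
  rw [e1, e2] at h3
  exact eq_zero_of_pow_eq_zero ((mul_eq_zero.1 h3).resolve_left hdt)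

end Pool.Agent.J4H50.IG
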