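import Pool.Agent.J4H50.IG.Gen

set_option autoImplicit false
set_option linter.unusedSectionVars false

/-! # Isolated singular points are isolated critical points -/

namespace Pool.Agent.J4H50.IG

open MvPolynomial

variable {V : Type} [Fintype V]

/-- **Algebraic Sard theorem.** -/
theorem sard (f : MvPolynomial V ℂ) :
    ∃ d : Polynomial ℂ, d ≠ 0 ∧ Polynomial.aeval (-f) d ∈ Jac f := by
  classical
  obtain ⟨m, hm⟩ := pen_radical f 1
  rw [map_one, one_pow] at hm
  have h1 : ∃ (A : MvPolynomial V FT) (B : V → MvPolynomial V FT),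
      (1 : MvPolynomial V FT) = A * pen f 1 + ∑ i, B i * pderiv i (pen f 1) := by
    rw [Ideal.span_union] at hm
    obtain ⟨u, hu, v, hv, huv⟩ := Submodule.mem_sup.1 hm
    obtain ⟨A, rfl⟩ := Ideal.mem_span_singleton'.1 hu
    obtain ⟨B, hB⟩ := (Submodule.mem_span_range_iff_exists_fun _).1 hv
    refine ⟨A, B, ?_⟩
    rw [← huv, ← hB]
    rfl
  obtain ⟨A, B, hAB⟩ := h1
  obtain ⟨d, hd, hq⟩ := exists_dens (Finset.univ : Finset (Option V)) (fun o => o.elim A B)
  obtain ⟨A', hA'⟩ := hq none (Finset.mem_univ _)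
  choose B' hB' using fun i : V => hq (some i) (Finset.mem_univ _)
  simp only [Option.elim] at hA' hB'
  set Ψ : MvPolynomial V (Polynomial ℂ) := map Polynomial.C f + C Polynomial.X with hΨ
  have hcomp : (algebraMap (Polynomial ℂ) FT).comp Polynomial.C = algebraMap ℂ FT := by
    ext1 c
    rw [RingHom.comp_apply]
    exact (Pool.Agent.H585R2.DiffC.algebraMap_C c).symm
  have hΨ1 : map (algebraMap (Polynomial ℂ) FT) Ψ = pen f 1 := by
    rw [hΨ, map_add, map_map, map_C, hcomp, RatFunc.algebraMap_X]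
    unfold pen
    rw [map_one, mul_one]
  have h2 : C d = A' * Ψ + ∑ i, B' i * pderiv i Ψ := by
    apply MvPolynomial.map_injective (algebraMap (Polynomial ℂ) FT)
      (RatFunc.algebraMap_injective ℂ)
    have h3 : map (algebraMap (Polynomial ℂ) FT) (C d : MvPolynomial V (Polynomial ℂ)) =
        C (algebraMap (Polynomial ℂ) FT d) * 1 := by rw [map_C, mul_one]
    rw [h3, hAB, map_add, map_mul, hA', hΨ1, map_sum, mul_add, Finset.mul_sum]
    congr 1
    · ring
    · refine Finset.sum_congr rfl fun i _ => ?_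
      rw [map_mul, hB', ← pderiv_map, hΨ1]
      ring
  set θ : MvPolynomial V (Polynomial ℂ) →+* MvPolynomial V ℂ :=
    eval₂Hom ((Polynomial.aeval (-f) : Polynomial ℂ →ₐ[ℂ] MvPolynomial V ℂ) :
      Polynomial ℂ →+* MvPolynomial V ℂ) X with hθ
  have hθC : ∀ q : Polynomial ℂ, θ (C q) = Polynomial.aeval (-f) q := fun q => by
    rw [hθ, eval₂Hom_C]
    rfl
  have hθm : ∀ q : MvPolynomial V ℂ, θ (map Polynomial.C q) = q := by
    intro q
    induction q using MvPolynomial.induction_on with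
    | C a =>
      rw [map_C, hθC, Polynomial.aeval_C, algebraMap_eq]
    | add p q hp hq => rw [map_add, map_add, hp, hq]
    | mul_X p i hp =>
      rw [map_mul, map_mul, hp, map_X]
      congr 1
      rw [hθ, eval₂Hom_X']
  refine ⟨d, hd, ?_⟩
  rw [← hθC, h2, map_add, map_mul, map_sum]
  have h3 : θ Ψ = 0 := by
    rw [hΨ, map_add, hθm, hθC, Polynomial.aeval_X, add_neg_cancel]
  rw [h3, mul_zero, zero_add]
  refine Ideal.sum_mem _ fun i _ => ?_
  rw [map_mul]
  refine Ideal.mul_mem_left _ _ ?_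
  have h4 : pderiv i Ψ = map Polynomial.C (pderiv i f) := by
    rw [hΨ, map_add, pderiv_C, add_zero, pderiv_map]
  rw [h4, hθm]
  exact Ideal.subset_span ⟨i, rfl⟩

theorem cc_aeval_poly (f : MvPolynomial V ℂ) (h0 : constantCoeff f = 0) (u : Polynomial ℂ) :
    constantCoeff (Polynomial.aeval (-f) u) = u.eval 0 := by
  rw [Polynomial.aeval_def, Polynomial.hom_eval₂, map_neg, h0, neg_zero]
  have : (constantCoeff : MvPolynomial V ℂ →+* ℂ).comp (algebraMap ℂ (MvPolynomial V ℂ)) =
      RingHom.id ℂ := by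
    ext c
    simp
  rw [this]
  rfl

/-- **A hypersurface with finitely many singular points has isolated critical points there.** -/
theorem iso_of_finite (f : MvPolynomial V ℂ) (h0 : constantCoeff f = 0)
    (hfin : {x : V → ℂ | eval x f = 0 ∧ ∀ i, eval x (pderiv i f) = 0}.Finite) :
    ∃ M, IsoC f M := by
  classical
  obtain ⟨d, hd, hdJ⟩ := sard f
  obtain ⟨u, hu, hu0⟩ := Polynomial.exists_eq_pow_rootMultiplicity_mul_and_not_dvd d hd 0
  set k := d.rootMultiplicity 0 with hk
  rw [map_zero, sub_zero] at hu hu0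
  set s0 : MvPolynomial V ℂ := Polynomial.aeval (-f) u with hs0
  have hs0c : constantCoeff s0 ≠ 0 := by
    rw [hs0, cc_aeval_poly f h0]
    intro h
    exact hu0 (Polynomial.X_dvd_iff.2 (by rwa [Polynomial.coeff_zero_eq_eval_zero]))
  have hsf : f ^ k * s0 ∈ Jac f := by
    have h1 := hdJ
    rw [hu, map_mul, map_pow, Polynomial.aeval_X] at h1
    have h2 : f ^ k * s0 = (-1) ^ k * ((-f) ^ k * s0) := by
      rw [neg_pow f k, ← mul_assoc, ← mul_assoc, ← mul_pow]
      norm_num
    rw [h2]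
    exact Ideal.mul_mem_left _ _ h1
  -- a polynomial which vanishes at the other singular points
  obtain ⟨g, hg0, hg⟩ : ∃ g : MvPolynomial V ℂ, constantCoeff g ≠ 0 ∧ ∀ x : V → ℂ, x ≠ 0 →
      eval x f = 0 → (∀ i, eval x (pderiv i f) = 0) → eval x g = 0 := by
    have h1 : ∀ x : V → ℂ, ∃ l : MvPolynomial V ℂ, x ≠ 0 → constantCoeff l ≠ 0 ∧
        eval x l = 0 := by
      intro x
      by_cases hx : x = 0
      · exact ⟨0, fun h => absurd hx h⟩
      · obtain ⟨i, hi⟩ := Function.ne_iff.1 hx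
        refine ⟨X i - C (x i), fun _ => ⟨?_, ?_⟩⟩
        · rw [map_sub, constantCoeff_X, constantCoeff_C, zero_sub]
          exact neg_ne_zero.2 hi
        · rw [map_sub, eval_X, eval_C, sub_self]
    choose l hl using h1
    refine ⟨∏ x ∈ hfin.toFinset.erase 0, l x, ?_, ?_⟩
    · rw [map_prod]
      exact Finset.prod_ne_zero_iff.2 fun x hx => (hl x (Finset.ne_of_mem_erase hx)).1
    · intro x hx h1 h2
      rw [map_prod]
      exact Finset.prod_eq_zero (Finset.mem_erase.2 ⟨hx, hfin.mem_toFinset.2 ⟨h1, h2⟩⟩)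
        (hl x hx).2
  have hrad : ∀ i, ∃ n : ℕ, (g * X i) ^ n ∈
      Ideal.span ({f} ∪ Set.range fun i => pderiv i f) := by
    intro i
    have h1 : g * X i ∈ (Ideal.span ({f} ∪ Set.range fun i => pderiv i f)).radical := by
      rw [← vanishingIdeal_zeroLocus_eq_radical (K := ℂ), mem_vanishingIdeal_iff]
      intro x hx
      rw [mem_zeroLocus_iff] at hx
      have h2 : eval x f = 0 := by
        have := hx f (Ideal.subset_span (Or.inl rfl))
        simpa [aeval_eq_eval] using this
      have h3 : ∀ j, eval x (pderiv j f) = 0 := fun j => by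
        have := hx (pderiv j f) (Ideal.subset_span (Or.inr ⟨j, rfl⟩))
        simpa [aeval_eq_eval] using this
      have h4 : eval x (g * X i) = 0 := by
        rw [map_mul, eval_X]
        by_cases hx0 : x = 0
        · rw [hx0, Pi.zero_apply, mul_zero]
        · rw [hg x hx0 h2 h3, zero_mul]
      simpa [aeval_eq_eval] using h4
    exact h1
  choose n hn using hrad
  -- powers of `g x_i`
  have hpow : ∀ i, s0 * (g * X i) ^ (n i * k) ∈ Jac f := by
    intro i
    rw [Ideal.span_union] at hn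
    obtain ⟨a, ha, j, hj, haj⟩ := Submodule.mem_sup.1 (hn i)
    obtain ⟨a, rfl⟩ := Ideal.mem_span_singleton'.1 ha
    rw [← Ideal.Quotient.eq_zero_iff_mem] at hsf ⊢
    have hj' : Ideal.Quotient.mk (Jac f) j = 0 := Ideal.Quotient.eq_zero_iff_mem.2 hj
    rw [map_mul, pow_mul, map_pow, ← haj, map_add, hj', add_zero, map_mul, mul_pow]
    rw [map_mul, map_pow] at hsf
    rw [mul_comm, mul_assoc, hsf, mul_zero]
  set N := ∑ i, n i * k with hN
  set τ : MvPolynomial V ℂ := s0 * g ^ N with hτ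
  have hτc : constantCoeff τ ≠ 0 := by
    rw [hτ, map_mul, map_pow]
    exact mul_ne_zero hs0c (pow_ne_zero _ hg0)
  have hX : ∀ i, τ * X i ^ N ∈ Jac f := by
    intro i
    have h1 : n i * k ≤ N := Finset.single_le_sum (f := fun i => n i * k)
      (fun _ _ => Nat.zero_le _) (Finset.mem_univ i)
    have h2 : τ * X i ^ N = (g * X i) ^ (N - n i * k) * (s0 * (g * X i) ^ (n i * k)) := by
      have h3 : (g * X i) ^ N = (g * X i) ^ (N - n i * k) * (g * X i) ^ (n i * k) := by
        rw [← pow_add, Nat.sub_add_cancel h1]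
      calc τ * X i ^ N = s0 * (g * X i) ^ N := by rw [hτ, mul_pow]; ring
        _ = _ := by rw [h3]; ring
    rw [h2]
    exact Ideal.mul_mem_left _ _ (hpow i)
  set I2 : Ideal (MvPolynomial V ℂ) :=
    Submodule.comap (LinearMap.mulLeft (MvPolynomial V ℂ) τ) (Jac f) with hI2
  have hmI : mI V ℂ ≤ I2.radical := by
    unfold mI idealOfVars
    rw [Ideal.span_le]
    rintro _ ⟨i, rfl⟩
    exact ⟨N, hX i⟩
  obtain ⟨M, hM⟩ := Ideal.exists_pow_le_of_le_radical_of_fg hmI
    (IsNoetherian.noetherian (mI V ℂ))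
  refine ⟨M, fun q hq => ?_⟩
  have h1 : τ * q ∈ Jac f := hM hq
  have h2 : q = C (constantCoeff τ)⁻¹ * (τ * q) +
      (-(C (constantCoeff τ)⁻¹ * ((τ - C (constantCoeff τ)) * q))) := by
    have h3 : C (constantCoeff τ)⁻¹ * C (constantCoeff τ) = (1 : MvPolynomial V ℂ) := by
      rw [← map_mul, inv_mul_cancel₀ hτc, map_one]
    linear_combination (-q) * h3
  rw [h2]
  refine Submodule.add_mem_sup (Ideal.mul_mem_left _ _ h1) ((Ideal.neg_mem_iff _).2
    (Ideal.mul_mem_left _ _ ?_))
  rw [pow_succ']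
  exact Ideal.mul_mem_mul ((mem_m_iff _).2 (by
    rw [map_sub, constantCoeff_C, sub_self])) hq

end Pool.Agent.J4H50.IG
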