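import Pool.Agent.J4H50.IG.Main
import Pool.Agent.J4H50.IG.Desc
import Pool.Agent.J4H50.IG.Sing

set_option autoImplicit false
set_option linter.unusedSectionVars false

/-! # Hypersurfaces with isolated singular points of corank at most two -/

namespace Pool.Agent.J4H50.IG

open MvPolynomial
open Pool.Agent.Y230.PT (exists_emb)

variable {V : Type} [Fintype V]

/-- the complex singular points of `f = 0` -/
def SingC (f : MvPolynomial V ℤ) : Set (V → ℂ) :=
  {x | aeval x f = 0 ∧ ∀ i, aeval x (pderiv i f) = 0}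

theorem germ_germ {A : Type} [CommRing A] (f : MvPolynomial V A) (a x : V → A) :
    eval x (germ f a) = eval (fun i => x i + a i) f := by
  unfold germ
  rw [eval_aeval]
  congr 2
  funext i
  simp

theorem pderiv_germ {A : Type} [CommRing A] (f : MvPolynomial V A) (a : V → A) (i : V) :
    pderiv i (germ f a) = germ (pderiv i f) a := by
  classical
  unfold germ
  rw [chain, Finset.sum_eq_single i]
  · rw [map_add, pderiv_X_self, pderiv_C, add_zero, mul_one]
  · intro j _ hj
    rw [map_add, pderiv_X_of_ne hj, pderiv_C, add_zero, mul_zero]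
  · intro hi
    exact absurd (Finset.mem_univ _) hi

theorem cc_germ {A : Type} [CommRing A] (f : MvPolynomial V A) (a : V → A) :
    constantCoeff (germ f a) = eval a f := by
  rw [← eval_zero, germ_germ]
  congr 2
  funext i
  simp

theorem map_germ {A B : Type} [CommRing A] [CommRing B] (φ : A →+* B) (f : MvPolynomial V A)
    (a : V → A) : map φ (germ f a) = germ (map φ f) fun i => φ (a i) := by
  unfold germ
  rw [map_aeval']
  congr 2
  funext i
  simp

variable {p : ℕ} [Fact p.Prime]

theorem aeval_emb (emb : ℚ_[p] →+* ℂ) (f : MvPolynomial V ℤ) (a : V → ℤ_[p]) :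
    aeval (fun i => emb (a i : ℚ_[p])) f = emb ((aeval a f : ℤ_[p]) : ℚ_[p]) := by
  have h1 : ((aeval a f : ℤ_[p]) : ℚ_[p]) = (cz p) (aeval a f) := rfl
  rw [h1, aeval_def, aeval_def, hom_eval₂, hom_eval₂]
  congr 1
  exact RingHom.ext_int _ _

theorem eval_castQ (f : MvPolynomial V ℤ) (a : V → ℤ_[p]) :
    eval (fun i => (a i : ℚ_[p])) (map (Int.castRingHom ℚ_[p]) f) =
      ((aeval a f : ℤ_[p]) : ℚ_[p]) := by
  have h1 : ((aeval a f : ℤ_[p]) : ℚ_[p]) = (cz p) (aeval a f) := rfl
  rw [h1, aeval_def, hom_eval₂, eval_map]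
  congr 1

/-- Reduction to the germs at the `p`-adic singular points. -/
theorem geo_core [DecidableEq V] (f : MvPolynomial V ℤ) (hfin : (SingC f).Finite)
    (H : ∀ (emb : ℚ_[p] →+* ℂ) (g : MvPolynomial V ℚ_[p]), ∀ x ∈ SingC f,
      (∀ i, ∃ c, emb c = x i) → map emb g = germ (map (Int.castRingHom ℂ) f) x → g ∈ mI V ℚ_[p] ^ 2 → ∀ M, 1 ≤ M →
      IsoC g M → ∃ F : MvPolynomial V ℚ_[p], TS ℚ_[p] F ∧ (∃ M, IsoC F M) ∧ ∀ n, JEq g F n) :
    GermTS p f := by
  intro a ha hca
  obtain ⟨emb⟩ := exists_emb p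
  set g : MvPolynomial V ℚ_[p] :=
    germ (map (Int.castRingHom ℚ_[p]) f) fun i => (a i : ℚ_[p]) with hg
  set x : V → ℂ := fun i => emb (a i : ℚ_[p]) with hx
  have hev : ∀ q : MvPolynomial V ℤ, aeval x q = emb ((aeval a q : ℤ_[p]) : ℚ_[p]) :=
    fun q => aeval_emb emb q a
  have hxS : x ∈ SingC f := by
    refine ⟨?_, fun i => ?_⟩
    · rw [hev, ha, PadicInt.coe_zero, map_zero]
    · rw [hev, hca, PadicInt.coe_zero, map_zero]
  have hg0 : constantCoeff g = 0 := by
    rw [hg, cc_germ, eval_castQ, ha, PadicInt.coe_zero]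
  have hg1 : ∀ i, constantCoeff (pderiv i g) = 0 := by
    intro i
    rw [hg, pderiv_germ, cc_germ, pderiv_map, eval_castQ, hca, PadicInt.coe_zero]
  have hmg : map emb g = germ (map (Int.castRingHom ℂ) f) x := by
    rw [hg, map_germ, map_map]
    have : emb.comp (Int.castRingHom ℚ_[p]) = Int.castRingHom ℂ := RingHom.ext_int _ _
    rw [this]
  have hae : ∀ (q : MvPolynomial V ℤ) (y : V → ℂ), eval y (map (Int.castRingHom ℂ) q) =
      aeval y q := by
    intro q y
    rw [eval_map]
    rfl
  have hiso : ∃ M, IsoC (map emb g) M := by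
    refine iso_of_finite (map emb g) ?_ ?_
    · rw [constantCoeff_map, hg0, map_zero]
    · have h1 : Set.InjOn (fun (y : V → ℂ) i => y i + x i)
          {y | eval y (map emb g) = 0 ∧ ∀ i, eval y (pderiv i (map emb g)) = 0} := by
        intro y _ z _ h
        funext i
        exact add_right_cancel (congrFun h i)
      refine Set.Finite.of_finite_image (hfin.subset ?_) h1
      rintro _ ⟨y, ⟨h2, h3⟩, rfl⟩
      refine ⟨?_, fun i => ?_⟩
      · rw [hmg, germ_germ, hae] at h2
        exact h2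
      · have := h3 i
        rw [hmg, pderiv_germ, germ_germ, pderiv_map, hae] at this
        exact this
  obtain ⟨M, hM⟩ := hiso
  exact H emb g x hxS (fun i => ⟨_, rfl⟩) hmg (mem_sq g hg0 hg1) (M + 1) (Nat.le_add_left 1 M)
    ((iso_descend emb hM).mono (Nat.le_succ M))

end Pool.Agent.J4H50.IG
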