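import Mathlib

set_option autoImplicit false
set_option linter.unusedSectionVars false

/-! # Jets of polynomials at the origin -/

namespace Pool.Agent.J4H50.IG

open MvPolynomial

variable {σ : Type} {A : Type} [CommRing A]

/-- the ideal generated by the partial derivatives of `F` -/
noncomputable def Jac (F : MvPolynomial σ A) : Ideal (MvPolynomial σ A) :=
  Ideal.span (Set.range fun i => pderiv i F)

/-- the ideal of the origin -/
noncomputable abbrev mI (σ A : Type) [CommRing A] : Ideal (MvPolynomial σ A) := idealOfVars σ A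

theorem X_mem (i : σ) : (X i : MvPolynomial σ A) ∈ mI σ A :=
  Ideal.subset_span ⟨i, rfl⟩

theorem mem_m_iff (q : MvPolynomial σ A) : q ∈ mI σ A ↔ constantCoeff q = 0 := by
  have h := mem_pow_idealOfVars_iff' (R := A) 1 q
  rw [pow_one] at h
  rw [h]
  constructor
  · intro h
    exact h 0 (by simp)
  · intro h x hx
    have : x = 0 := by
      have h1 : Finsupp.degree x = 0 := by omega
      rwa [Finsupp.degree_eq_zero_iff] at h1
    rw [this]
    exact h

theorem pow_le {m n : ℕ} (h : m ≤ n) : mI σ A ^ n ≤ mI σ A ^ m := Ideal.pow_le_pow_right h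

theorem pderiv_mem (i : σ) (n : ℕ) {q : MvPolynomial σ A} (hq : q ∈ mI σ A ^ (n + 1)) :
    pderiv i q ∈ mI σ A ^ n := by
  induction n generalizing q with
  | zero => simp
  | succ n ih =>
    rw [pow_succ] at hq
    refine Submodule.mul_induction_on hq (fun a ha b hb => ?_) (fun a b ha hb => ?_)
    · rw [Derivation.leibniz, smul_eq_mul, smul_eq_mul]
      refine Ideal.add_mem _ (Ideal.mul_mem_right _ _ ha) ?_
      rw [pow_succ, mul_comm (mI σ A ^ n)]
      exact Ideal.mul_mem_mul hb (ih ha)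
    · rw [map_add]
      exact Ideal.add_mem _ ha hb

/-- substitution of polynomials without constant term -/
theorem aeval_mem {τ : Type} (ψ : σ → MvPolynomial τ A) (hψ : ∀ i, ψ i ∈ mI τ A) (n : ℕ)
    {q : MvPolynomial σ A} (hq : q ∈ mI σ A ^ n) : aeval ψ q ∈ mI τ A ^ n := by
  have h1 : Ideal.map (aeval ψ : MvPolynomial σ A →ₐ[A] MvPolynomial τ A) (mI σ A) ≤ mI τ A := by
    rw [Ideal.map_span, Ideal.span_le]
    rintro _ ⟨_, ⟨i, rfl⟩, rfl⟩
    simpa using hψ i
  have h2 := Ideal.mem_map_of_mem (aeval ψ : MvPolynomial σ A →ₐ[A] MvPolynomial τ A) hq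
  rw [Ideal.map_pow] at h2
  exact Ideal.pow_right_mono h1 n h2

/-- substitutions which agree modulo an ideal -/
theorem aeval_sub_mem {B : Type} [CommRing B] [Algebra A B] (I : Ideal B) (ψ φ : σ → B)
    (h : ∀ i, ψ i - φ i ∈ I) (q : MvPolynomial σ A) : aeval ψ q - aeval φ q ∈ I := by
  induction q using MvPolynomial.induction_on with
  | C a => simp
  | add p q hp hq =>
    rw [map_add, map_add, add_sub_add_comm]
    exact Ideal.add_mem _ hp hq
  | mul_X p i hp =>
    rw [map_mul, map_mul, aeval_X, aeval_X]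
    have : aeval ψ p * ψ i - aeval φ p * φ i = (aeval ψ p - aeval φ p) * ψ i +
      aeval φ p * (ψ i - φ i) := by ring
    rw [this]
    exact Ideal.add_mem _ (Ideal.mul_mem_right _ _ hp) (Ideal.mul_mem_left _ _ (h i))

/-- Taylor formula of order two -/
theorem taylor [Fintype σ] (I : Ideal (MvPolynomial σ A)) (h : σ → MvPolynomial σ A)
    (hh : ∀ i, h i ∈ I) (q : MvPolynomial σ A) :
    aeval (fun i => X i + h i) q - (q + ∑ i, h i * pderiv i q) ∈ I ^ 2 := by
  classical
  induction q using MvPolynomial.induction_on with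
  | C a => simp
  | add p q hp hq =>
    have : aeval (fun i => X i + h i) (p + q) - (p + q + ∑ i, h i * pderiv i (p + q)) =
        (aeval (fun i => X i + h i) p - (p + ∑ i, h i * pderiv i p)) +
        (aeval (fun i => X i + h i) q - (q + ∑ i, h i * pderiv i q)) := by
      simp only [map_add, mul_add, Finset.sum_add_distrib]
      ring
    rw [this]
    exact Ideal.add_mem _ hp hq
  | mul_X p j hp =>
    have hD : ∑ i, h i * pderiv i p ∈ I :=
      Ideal.sum_mem _ fun i _ => Ideal.mul_mem_right _ _ (hh i)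
    have e1 : ∑ i, h i * pderiv i (p * X j) = (∑ i, h i * pderiv i p) * X j + p * h j := by
      have : ∀ i, h i * pderiv i (p * X j) = h i * pderiv i p * X j +
          (if i = j then p * h j else 0) := by
        intro i
        rw [Derivation.leibniz, smul_eq_mul, smul_eq_mul, pderiv_X]
        by_cases hij : i = j
        · subst hij
          rw [if_pos rfl, Pi.single_eq_same]
          ring
        · rw [if_neg hij, Pi.single_eq_of_ne (fun h => hij h.symm)]
          ring
      simp only [this, Finset.sum_add_distrib, Finset.sum_ite_eq', Finset.mem_univ, if_true,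
        Finset.sum_mul]
    have e2 : aeval (fun i => X i + h i) (p * X j) - (p * X j + ∑ i, h i * pderiv i (p * X j)) =
        (aeval (fun i => X i + h i) p - (p + ∑ i, h i * pderiv i p)) * (X j + h j) +
        (∑ i, h i * pderiv i p) * h j := by
      rw [e1, map_mul, aeval_X]
      ring
    rw [e2]
    refine Ideal.add_mem _ (Ideal.mul_mem_right _ _ hp) ?_
    rw [pow_two]
    exact Ideal.mul_mem_mul hD (hh j)

/-- the chain rule -/
theorem chain {τ : Type} [Fintype σ] (ψ : σ → MvPolynomial τ A) (j : τ) (q : MvPolynomial σ A) :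
    pderiv j (aeval ψ q) = ∑ i, aeval ψ (pderiv i q) * pderiv j (ψ i) := by
  classical
  induction q using MvPolynomial.induction_on with
  | C a => simp
  | add p q hp hq => simp only [map_add, hp, hq, add_mul, Finset.sum_add_distrib]
  | mul_X p k hp =>
    rw [map_mul, aeval_X, Derivation.leibniz, smul_eq_mul, smul_eq_mul, hp, Finset.mul_sum]
    have : ∀ i, aeval ψ (pderiv i (p * X k)) * pderiv j (ψ i) =
        ψ k * (aeval ψ (pderiv i p) * pderiv j (ψ i)) +
          (if i = k then aeval ψ p * pderiv j (ψ k) else 0) := by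
      intro i
      rw [Derivation.leibniz, smul_eq_mul, smul_eq_mul, pderiv_X]
      by_cases hik : i = k
      · subst hik
        rw [if_pos rfl, Pi.single_eq_same, mul_one, map_add, map_mul, aeval_X]
        ring
      · rw [if_neg hik, Pi.single_eq_of_ne (fun h => hik h.symm), mul_zero, zero_add, map_mul,
          aeval_X]
        ring
    simp only [this, Finset.sum_add_distrib, Finset.sum_ite_eq', Finset.mem_univ, if_true]
    ring

section Jm

variable [Fintype σ] [DecidableEq σ]

/-- the Jacobian matrix of a polynomial map -/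
noncomputable def JM (ψ : σ → MvPolynomial σ A) : Matrix σ σ (MvPolynomial σ A) :=
  Matrix.of fun i j => pderiv i (ψ j)

/-- the transformation of the partial derivatives -/
theorem adj_chain (ψ : σ → MvPolynomial σ A) (q : MvPolynomial σ A) (i : σ) :
    (JM ψ).det * aeval ψ (pderiv i q) =
      ∑ j, (JM ψ).adjugate i j * pderiv j (aeval ψ q) := by
  have h1 : (JM ψ).mulVec (fun i => aeval ψ (pderiv i q)) = fun j => pderiv j (aeval ψ q) := by
    funext j
    rw [chain]
    unfold Matrix.mulVec dotProduct JM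
    exact Finset.sum_congr rfl fun i _ => mul_comm _ _
  have h2 := congrArg ((JM ψ).adjugate.mulVec) h1
  rw [Matrix.mulVec_mulVec, Matrix.adjugate_mul, Matrix.smul_mulVec, Matrix.one_mulVec] at h2
  have h3 := congrFun h2 i
  simp only [Pi.smul_apply, smul_eq_mul] at h3
  rw [h3]
  rfl

/-- the value at the origin of the Jacobian determinant is a unit -/
def NonDeg (ψ : σ → MvPolynomial σ A) : Prop :=
  (∀ i, constantCoeff (ψ i) = 0) ∧ IsUnit (constantCoeff (JM ψ).det)

/-- `f` becomes `F` modulo `m ^ n` by a substitution which is invertible at the origin -/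
def JEq (f F : MvPolynomial σ A) (n : ℕ) : Prop :=
  ∃ ψ : σ → MvPolynomial σ A, NonDeg ψ ∧ aeval ψ f - F ∈ mI σ A ^ n

theorem NonDeg.mem {ψ : σ → MvPolynomial σ A} (h : NonDeg ψ) (i : σ) : ψ i ∈ mI σ A :=
  (mem_m_iff _).2 (h.1 i)

theorem cc_aeval (ψ : σ → MvPolynomial σ A) (h : ∀ i, constantCoeff (ψ i) = 0)
    (q : MvPolynomial σ A) : constantCoeff (aeval ψ q) = constantCoeff q := by
  have h1 : q - C (constantCoeff q) ∈ mI σ A := by
    rw [mem_m_iff, map_sub, constantCoeff_C, sub_self]
  have h2 := aeval_mem ψ (fun i => (mem_m_iff _).2 (h i)) 1 (by rwa [pow_one])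
  rw [pow_one, mem_m_iff, map_sub, map_sub, sub_eq_zero] at h2
  rw [h2, aeval_C, algebraMap_eq, constantCoeff_C]

theorem JM_comp (ψ φ : σ → MvPolynomial σ A) :
    JM (fun i => aeval φ (ψ i)) = JM φ * (JM ψ).map (aeval φ) := by
  ext1 i j
  rw [Matrix.mul_apply]
  unfold JM
  simp only [Matrix.of_apply, Matrix.map_apply]
  rw [chain]
  exact Finset.sum_congr rfl fun k _ => mul_comm _ _

theorem NonDeg.comp {ψ φ : σ → MvPolynomial σ A} (hψ : NonDeg ψ) (hφ : NonDeg φ) :
    NonDeg fun i => aeval φ (ψ i) := by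
  refine ⟨fun i => by rw [cc_aeval φ hφ.1, hψ.1], ?_⟩
  have h1 : ((JM ψ).map (aeval φ)).det = aeval φ (JM ψ).det := by
    rw [AlgHom.map_det]
    rfl
  rw [JM_comp, Matrix.det_mul, map_mul, h1, cc_aeval φ hφ.1]
  exact hφ.2.mul hψ.2

theorem JEq.trans {f F G : MvPolynomial σ A} {n : ℕ} (h1 : JEq f F n) (h2 : JEq F G n) :
    JEq f G n := by
  obtain ⟨ψ, hψ, h3⟩ := h1
  obtain ⟨φ, hφ, h4⟩ := h2
  refine ⟨fun i => aeval φ (ψ i), hψ.comp hφ, ?_⟩
  have e1 : aeval (fun i => aeval φ (ψ i)) f = aeval φ (aeval ψ f) := by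
    rw [← AlgHom.comp_apply]
    congr 1
    ext i
    simp
  have h5 := aeval_mem φ hφ.mem n h3
  rw [map_sub] at h5
  have : aeval (fun i => aeval φ (ψ i)) f - G = (aeval φ (aeval ψ f) - aeval φ F) +
      (aeval φ F - G) := by
    rw [e1]
    ring
  rw [this]
  exact Ideal.add_mem _ h5 h4

theorem JEq.mono {f F : MvPolynomial σ A} {m n : ℕ} (h : JEq f F n) (hmn : m ≤ n) :
    JEq f F m := by
  obtain ⟨ψ, h1, h2⟩ := h
  exact ⟨ψ, h1, pow_le hmn h2⟩

/-- substitutions which are the identity up to terms of order two -/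
theorem nonDeg_id (h : σ → MvPolynomial σ A) (hh : ∀ i, h i ∈ mI σ A ^ 2) :
    NonDeg fun i => X i + h i := by
  constructor
  · intro i
    rw [map_add, constantCoeff_X, zero_add]
    exact (mem_m_iff _).1 (Ideal.pow_le_self two_ne_zero (hh i))
  · have h1 : constantCoeff (JM fun i => X i + h i).det =
        ((constantCoeff : MvPolynomial σ A →+* A).mapMatrix (JM fun i => X i + h i)).det :=
      RingHom.map_det _ _
    have h2 : (constantCoeff : MvPolynomial σ A →+* A).mapMatrix (JM fun i => X i + h i) = 1 := by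
      ext i j
      have h3 : constantCoeff (pderiv i (h j)) = 0 := by
        have := pderiv_mem i 1 (hh j)
        rw [pow_one] at this
        exact (mem_m_iff _).1 this
      simp only [RingHom.mapMatrix_apply, Matrix.map_apply, JM, Matrix.of_apply, map_add, h3,
        add_zero, pderiv_X]
      by_cases hij : i = j
      · subst hij
        simp
      · rw [Matrix.one_apply_ne hij, Pi.single_eq_of_ne (fun h => hij h.symm), map_zero]
    rw [h1, h2, Matrix.det_one]
    exact isUnit_one

end Jm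

/-- the origin is at most an isolated critical point of `F` -/
def IsoC (F : MvPolynomial σ A) (M : ℕ) : Prop := mI σ A ^ M ≤ Jac F ⊔ mI σ A ^ (M + 1)

theorem IsoC.succ {F : MvPolynomial σ A} {M : ℕ} (h : IsoC F M) : IsoC F (M + 1) := by
  unfold IsoC at h ⊢
  calc mI σ A ^ (M + 1) = mI σ A ^ M * mI σ A := pow_succ _ _
    _ ≤ (Jac F ⊔ mI σ A ^ (M + 1)) * mI σ A := Ideal.mul_mono_left h
    _ = Jac F * mI σ A ⊔ mI σ A ^ (M + 1) * mI σ A := Ideal.sup_mul _ _ _
    _ ≤ Jac F ⊔ mI σ A ^ (M + 1 + 1) := sup_le_sup Ideal.mul_le_left (pow_succ _ _).ge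

theorem IsoC.mono {F : MvPolynomial σ A} {M M' : ℕ} (h : IsoC F M) (hM : M ≤ M') : IsoC F M' := by
  induction M', hM using Nat.le_induction with
  | base => exact h
  | succ n _ ih => exact ih.succ

theorem IsoC.le {F : MvPolynomial σ A} {M : ℕ} (h : IsoC F M) (n : ℕ) :
    mI σ A ^ M ≤ Jac F ⊔ mI σ A ^ (M + n) := by
  induction n with
  | zero => exact le_sup_right
  | succ n ih =>
    refine ih.trans (sup_le le_sup_left ?_)
    exact (h.mono (Nat.le_add_right M n)).trans (by rw [Nat.add_assoc])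

theorem Jac_congr {F G : MvPolynomial σ A} {n : ℕ} (h : F - G ∈ mI σ A ^ (n + 1)) :
    Jac F ≤ Jac G ⊔ mI σ A ^ n := by
  unfold Jac
  rw [Ideal.span_le]
  rintro _ ⟨i, rfl⟩
  have h1 := pderiv_mem i n h
  rw [map_sub] at h1
  have : pderiv i F = pderiv i G + (pderiv i F - pderiv i G) := by ring
  beta_reduce
  rw [this]
  exact Submodule.add_mem_sup (Ideal.subset_span ⟨i, rfl⟩) h1

theorem IsoC.congr {F G : MvPolynomial σ A} {M : ℕ} (h : IsoC F M)
    (hFG : F - G ∈ mI σ A ^ (M + 2)) : IsoC G M :=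
  h.trans (sup_le (Jac_congr hFG) le_sup_right)

theorem neg_mem' {I : Ideal (MvPolynomial σ A)} {x y : MvPolynomial σ A} (h : x - y ∈ I) :
    y - x ∈ I := by
  rw [← neg_sub]
  exact I.neg_mem h

/-- one step of the finite determinacy -/
theorem step [Fintype σ] [DecidableEq σ] {F r : MvPolynomial σ A} {M k : ℕ} (hM : 1 ≤ M)
    (hF : IsoC F M) (hk : 2 * M + 1 ≤ k) (hr : r ∈ mI σ A ^ k) :
    JEq (F + r) F (k + 1) := by
  have h1 : r ∈ mI σ A ^ (k - M) * Jac F ⊔ mI σ A ^ (k + 1) := by
    have h2 : mI σ A ^ k ≤ mI σ A ^ (k - M) * Jac F ⊔ mI σ A ^ (k + 1) := by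
      calc mI σ A ^ k = mI σ A ^ (k - M) * mI σ A ^ M := by
            rw [← pow_add]
            congr 1
            omega
        _ ≤ mI σ A ^ (k - M) * (Jac F ⊔ mI σ A ^ (M + (k + 1))) := Ideal.mul_mono_right (hF.le _)
        _ = mI σ A ^ (k - M) * Jac F ⊔ mI σ A ^ (k - M) * mI σ A ^ (M + (k + 1)) :=
            Ideal.mul_sup _ _ _
        _ ≤ _ := sup_le_sup le_rfl (by
            rw [← pow_add]
            exact pow_le (by omega))
    exact h2 hr
  obtain ⟨u, hu, e, he, hue⟩ := Submodule.mem_sup.1 h1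
  have h3 : ∃ h : σ → MvPolynomial σ A, (∀ i, h i ∈ mI σ A ^ (k - M)) ∧
      ∑ i, h i * pderiv i F = u := by
    unfold Jac at hu
    rw [← smul_eq_mul] at hu
    obtain ⟨c, hc, hs⟩ := (Submodule.mem_ideal_smul_span_iff_exists_sum _ _ _).1 hu
    refine ⟨fun i => c i, hc, ?_⟩
    rw [← hs, Finsupp.sum_fintype c (fun i c => c • (pderiv i) F) (fun i => zero_smul _ _)]
    rfl
  obtain ⟨h, hh, hu'⟩ := h3
  refine ⟨fun i => X i + (- h i), nonDeg_id _ fun i => ?_, ?_⟩
  · exact (mI σ A ^ 2).neg_mem (pow_le (by omega) (hh i))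
  have h4 := taylor (mI σ A ^ (k - M)) (fun i => - h i) (fun i => (mI σ A ^ (k - M)).neg_mem (hh i)) (F + r)
  have h5 : (∑ i, h i * pderiv i r) ∈ mI σ A ^ (k + 1) := by
    refine Ideal.sum_mem _ fun i _ => ?_
    have h6 := pderiv_mem (A := A) i (k - 1) (q := r) (by
      rwa [Nat.sub_add_cancel (by omega)])
    have h7 := Ideal.mul_mem_mul (hh i) h6
    rw [← pow_add] at h7
    exact pow_le (by omega) h7
  have h8 : aeval (fun i => X i + (- h i)) (F + r) - F =
      (aeval (fun i => X i + (- h i)) (F + r) - (F + r + ∑ i, (- h i) * pderiv i (F + r))) +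
        e - ∑ i, h i * pderiv i r := by
    have e1 : ∑ i, (- h i) * pderiv i (F + r) = - u - ∑ i, h i * pderiv i r := by
      rw [← hu', ← Finset.sum_neg_distrib, ← Finset.sum_sub_distrib]
      refine Finset.sum_congr rfl fun i _ => ?_
      rw [map_add]
      ring
    rw [e1, ← hue]
    ring
  rw [h8]
  refine Ideal.sub_mem _ (Ideal.add_mem _ ?_ he) h5
  rw [← pow_mul] at h4
  exact pow_le (by omega) h4

/-- **Finite determinacy.** -/
theorem determined [Fintype σ] [DecidableEq σ] {F r : MvPolynomial σ A} {M k : ℕ} (hM : 1 ≤ M)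
    (hF : IsoC F M) (hk : 2 * M + 1 ≤ k) (hr : r ∈ mI σ A ^ k) (n : ℕ) :
    JEq (F + r) F (k + n) := by
  induction n with
  | zero =>
    refine ⟨fun i => X i + 0, nonDeg_id _ fun i => Ideal.zero_mem _, ?_⟩
    have : aeval (fun i => X i + (0 : MvPolynomial σ A)) (F + r) - F = r := by
      simp only [add_zero]
      rw [aeval_X_left_apply]
      ring
    rw [this]
    exact hr
  | succ n ih =>
    obtain ⟨ψ, h1, h2⟩ := ih
    have h3 := step hM hF (k := k + n) (by omega) h2
    rw [add_sub_cancel] at h3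
    exact JEq.trans (F := aeval ψ (F + r)) ⟨ψ, h1, by rw [sub_self]; exact Ideal.zero_mem _⟩ h3

end Pool.Agent.J4H50.IG
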