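import Pool.Agent.J4H50.IG.LocD
import Pool.Agent.J4H50.IG.Lin
import Pool.Agent.N138.BF.Defs
import Pool.Agent.N138.RF.L5
import Pool.Agent.N138.RF.E1

set_option autoImplicit false
set_option linter.unusedSectionVars false

/-! # The local theorem -/

namespace Pool.Agent.J4H50.IG

open MeasureTheory MvPolynomial
open Pool.Agent.W427.SMC (msZ bsZ mu)
open Pool.Agent.N138.RF.S1 Pool.Agent.N138.RF.S2
open Pool.Agent.N138.RF (Gd IsM bal)
open Pool.Agent.N138.BF (GB mB)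
open Pool.Agent.Y230.PT (inc)

attribute [local instance] msZ bsZ

variable {p : ℕ} [Fact p.Prime] {V : Type} [Fintype V] [DecidableEq V]

theorem cz_inj : Function.Injective (cz p) := fun _ _ h => Subtype.ext h

/-- matrices become integral -/
theorem mat_lift (L : Matrix V V ℚ_[p]) : ∃ (κ : ℕ) (L1 : Matrix V V ℤ_[p]),
    ∀ i j, cz p (L1 i j) = (p : ℚ_[p]) ^ κ * L i j := by
  choose s hs using fun ij : V × V => exists_pow_mul_le (L ij.1 ij.2)
  have h : ∀ i j, ‖(p : ℚ_[p]) ^ (∑ ij : V × V, s ij) * L i j‖ ≤ 1 := by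
    intro i j
    have h1 : s (i, j) ≤ ∑ ij : V × V, s ij :=
      Finset.single_le_sum (f := s) (fun _ _ => Nat.zero_le _) (Finset.mem_univ _)
    have h2 : (p : ℚ_[p]) ^ (∑ ij : V × V, s ij) =
        (p : ℚ_[p]) ^ ((∑ ij : V × V, s ij) - s (i, j)) * (p : ℚ_[p]) ^ s (i, j) := by
      rw [← pow_add, Nat.sub_add_cancel h1]
    rw [h2, mul_assoc, norm_mul]
    exact mul_le_one₀ (norm_p_pow_le _) (norm_nonneg _) (hs (i, j))
  exact ⟨∑ ij : V × V, s ij, Matrix.of fun i j => ⟨_, h i j⟩, fun i j => rfl⟩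

/-- the additive map of a matrix -/
noncomputable def vm (N : Matrix V V ℤ_[p]) : (V → ℤ_[p]) →+ (V → ℤ_[p]) where
  toFun := fun y => Matrix.vecMul y N
  map_zero' := Matrix.zero_vecMul N
  map_add' := fun x y => Matrix.add_vecMul N x y

theorem vm_cont (N : Matrix V V ℤ_[p]) : Continuous (vm N) := by
  refine continuous_pi fun j => ?_
  have : (fun y : V → ℤ_[p] => vm N y j) = fun y => ∑ i, y i * N i j := by
    funext y
    rfl
  rw [this]
  exact continuous_finsetSum _ fun i _ => (continuous_apply i).mul continuous_const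

theorem vm_fin (N L1 : Matrix V V ℤ_[p]) (κ : ℕ)
    (h : L1 * N = ((p : ℤ_[p]) ^ κ) • (1 : Matrix V V ℤ_[p])) :
    Finite ((V → ℤ_[p]) ⧸ (vm N).range) := by
  refine AddSubgroup.quotient_finite_of_isOpen _ ?_
  refine AddSubgroup.isOpen_of_mem_nhds (g := 0) _ ?_
  have hp0 : 0 < ((p : ℝ)⁻¹) ^ κ := pow_pos inv_pos' _
  refine Filter.mem_of_superset (Metric.closedBall_mem_nhds (0 : V → ℤ_[p]) hp0) ?_
  intro x hx
  rw [mem_closedBall_zero_iff] at hx
  have h1 : ∀ i, (p : ℤ_[p]) ^ κ ∣ x i := fun i => by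
    refine dvd_of _ _ (pow_ne_zero _ (by exact_mod_cast (Fact.out : p.Prime).ne_zero)) ?_
    rw [norm_pow, PadicInt.norm_p]
    exact (norm_le_pi_norm x i).trans hx
  choose u hu using h1
  refine ⟨Matrix.vecMul u L1, ?_⟩
  change Matrix.vecMul (Matrix.vecMul u L1) N = x
  rw [Matrix.vecMul_vecMul, h, Matrix.vecMul_smul, Matrix.vecMul_one]
  funext i
  rw [Pi.smul_apply, smul_eq_mul, hu i]

theorem eval_lin (L : Matrix V V ℚ_[p]) (z : V → ℚ_[p]) (j : V) :
    eval z (lin L j) = Matrix.vecMul z L j := by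
  unfold lin Matrix.vecMul dotProduct
  simp only [map_sum, map_mul, eval_C, eval_X]
  exact Finset.sum_congr rfl fun i _ => mul_comm _ _

/-- a polynomial in linear coordinates, on balls in the old coordinates -/
theorem lattice_dist (F : MvPolynomial V ℚ_[p]) (φ : (V → ℤ_[p]) → ℤ_[p]) (hφ : IsM F φ)
    (L : Matrix V V ℚ_[p]) (hL : IsUnit L.det) (k0' : ℕ) :
    ∃ k1 : ℕ, ∀ k : ℕ, k1 ≤ k → ∀ F0 : MvPolynomial V ℤ_[p],
      map (cz p) F0 = scl ((p : ℚ_[p]) ^ k) (aeval (lin L) F) →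
      ∃ (S : Finset (V → ℤ_[p])) (a : (V → ℤ_[p]) → (V → ℤ_[p])) (c : ℂ) (k' : ℕ), k0' ≤ k' ∧
        (∀ x i, ‖a x i‖ ≤ ((p : ℝ)⁻¹) ^ k0') ∧
        ∀ h : ℤ_[p] → ℂ, Measurable h → (∃ B : ℝ, ∀ z, ‖h z‖ ≤ B) →
          ∫ w, h (eval w F0) ∂(hm p V) =
            ∑ x ∈ S, c * ∫ y, h (bal φ (a x) k' y) ∂(hm p V) := by
  obtain ⟨κ1, L1, hL1⟩ := mat_lift L
  obtain ⟨κ2, N1, hN1⟩ := mat_lift L⁻¹
  have hLL : L⁻¹ * L = 1 := Matrix.nonsing_inv_mul _ hL
  have hLL' : L * L⁻¹ = 1 := Matrix.mul_nonsing_inv _ hL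
  have hinj : Function.Injective (cz p) := cz_inj
  have hprod : L1 * N1 = ((p : ℤ_[p]) ^ (κ1 + κ2)) • (1 : Matrix V V ℤ_[p]) := by
    ext i j
    apply hinj
    have h1 := congrFun (congrFun hLL' i) j
    rw [Matrix.mul_apply] at h1
    rw [Matrix.mul_apply, map_sum, Matrix.smul_apply, smul_eq_mul, map_mul, map_pow, map_natCast]
    have h2 : ∀ k, cz p (L1 i k * N1 k j) = (p : ℚ_[p]) ^ (κ1 + κ2) * (L i k * L⁻¹ k j) := by
      intro k
      rw [map_mul, hL1, hN1, pow_add]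
      ring
    simp only [h2]
    rw [← Finset.mul_sum, h1]
    congr 1
    by_cases hij : i = j
    · subst hij
      simp
    · rw [Matrix.one_apply_ne hij, Matrix.one_apply_ne hij, map_zero]
  refine ⟨k0' + κ1, fun k hk F0 hF0 => ?_⟩
  obtain ⟨S, c, hS⟩ := lattice (vm N1) (vm_cont N1) (vm_fin N1 L1 (κ1 + κ2) hprod)
  set a : (V → ℤ_[p]) → (V → ℤ_[p]) := fun x i => (p : ℤ_[p]) ^ (k - κ1) * vm L1 x i with ha
  have key : ∀ x y : V → ℤ_[p], eval (x + vm N1 y) F0 = bal φ (a x) (k + κ2) y := by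
    intro x y
    apply hinj
    rw [eval_cz, hF0, eval_scl, eval_aeval]
    have e1 : cz p (bal φ (a x) (k + κ2) y) =
        eval (fun i => cz p (a x i + (p : ℤ_[p]) ^ (k + κ2) * y i)) F := hφ _
    rw [e1]
    congr 2
    funext j
    rw [eval_lin]
    unfold Matrix.vecMul dotProduct
    have e2 : ∀ i, (p : ℚ_[p]) ^ k * cz p ((x + vm N1 y) i) * L i j =
        (p : ℚ_[p]) ^ k * (cz p (x i) * L i j) +
          (p : ℚ_[p]) ^ k * ∑ l, cz p (y l) * ((p : ℚ_[p]) ^ κ2 * (L⁻¹ l i * L i j)) := by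
      intro i
      have e3 : cz p ((x + vm N1 y) i) = cz p (x i) +
          ∑ l, cz p (y l) * ((p : ℚ_[p]) ^ κ2 * L⁻¹ l i) := by
        rw [Pi.add_apply, map_add]
        congr 1
        have : vm N1 y i = ∑ l, y l * N1 l i := rfl
        rw [this, map_sum]
        exact Finset.sum_congr rfl fun l _ => by rw [map_mul, hN1]
      rw [e3, mul_add, add_mul, mul_assoc, mul_assoc, Finset.sum_mul]
      congr 2
      exact Finset.sum_congr rfl fun l _ => by ring
    simp only [e2]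
    rw [Finset.sum_add_distrib, ← Finset.mul_sum, ← Finset.mul_sum, Finset.sum_comm]
    have e4 : ∀ l, ∑ i, cz p (y l) * ((p : ℚ_[p]) ^ κ2 * (L⁻¹ l i * L i j)) =
        if l = j then cz p (y l) * (p : ℚ_[p]) ^ κ2 else 0 := by
      intro l
      have h1 := congrFun (congrFun hLL l) j
      rw [Matrix.mul_apply] at h1
      rw [← Finset.mul_sum, ← Finset.mul_sum, h1]
      by_cases hlj : l = j
      · subst hlj
        rw [if_pos rfl, Matrix.one_apply_eq, mul_one]
      · rw [if_neg hlj, Matrix.one_apply_ne hlj, mul_zero, mul_zero]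
    simp only [e4, Finset.sum_ite_eq', Finset.mem_univ, if_true]
    have e5 : cz p (a x j) = (p : ℚ_[p]) ^ k * ∑ i, cz p (x i) * L i j := by
      have e6 : a x j = (p : ℤ_[p]) ^ (k - κ1) * ∑ i, x i * L1 i j := rfl
      rw [e6, map_mul, map_pow, map_natCast, map_sum]
      have e7 : ∀ i, cz p (x i * L1 i j) = (p : ℚ_[p]) ^ κ1 * (cz p (x i) * L i j) := by
        intro i
        rw [map_mul, hL1]
        ring
      simp only [e7]
      rw [← Finset.mul_sum, ← mul_assoc, ← pow_add, Nat.sub_add_cancel (by omega)]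
    have e8 : cz p (a x j + (p : ℤ_[p]) ^ (k + κ2) * y j) =
        cz p (a x j) + (p : ℚ_[p]) ^ (k + κ2) * cz p (y j) := by
      have e9 : cz p ((p : ℤ_[p]) ^ (k + κ2) * y j) = (p : ℚ_[p]) ^ (k + κ2) * cz p (y j) := by
        rw [map_mul, map_pow, map_natCast]
      exact (map_add (cz p) (a x j) _).trans (congrArg _ e9)
    rw [e8, e5, pow_add]
    ring
  have hnorm : ∀ x i, ‖a x i‖ ≤ ((p : ℝ)⁻¹) ^ k0' := by
    intro x i
    rw [ha]
    beta_reduce
    rw [norm_mul, norm_pow, PadicInt.norm_p]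
    exact (mul_le_of_le_one_right (pow_pos inv_pos' _).le (PadicInt.norm_le_one _)).trans
      (pinv_le (by omega))
  refine ⟨S, a, c, k + κ2, by omega, hnorm, fun h hh hb => ?_⟩
  have hm1 : Measurable fun w : V → ℤ_[p] => h (eval w F0) :=
    hh.comp (MvPolynomial.continuous_eval F0).measurable
  rw [hS _ hm1 (by
    obtain ⟨B, hB⟩ := hb
    exact ⟨B, fun z => hB _⟩)]
  simp only [key]

/-- **The local theorem.** The distribution of a polynomial near an isolated critical point is good,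
if the polynomial is right equivalent to a good polynomial. -/
theorem local_gd [Nonempty V] (emb : ℚ_[p] →+* ℂ) (f0 : MvPolynomial V ℤ_[p]) (P : V → ℤ_[p])
    (F : MvPolynomial V ℚ_[p]) (hGB : GB emb F) (hF0 : F ∈ mI V ℚ_[p]) (M : ℕ) (hF : IsoC F M)
    (hJ : JEq (germ (map (cz p) f0) fun i => cz p (P i)) F (2 * M + 3)) :
    ∃ k0 : ℕ, ∀ k : ℕ, k0 ≤ k →
      Gd (hm p V) (fun y => eval (fun i => P i + (p : ℤ_[p]) ^ k * y i) f0)
        (mB p (map emb F)) := by
  obtain ⟨L, q, hL, hq, hR⟩ := normalize hJ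
  obtain ⟨φ, hφ, hloc⟩ := hGB
  obtain ⟨k0', hk0'⟩ := hloc 0
  have hnd := nonDeg_lin L hL
  have hFL0 : aeval (lin L) F ∈ mI V ℚ_[p] := by
    have := aeval_mem (lin L) hnd.mem 1 (by rwa [pow_one])
    rwa [pow_one] at this
  obtain ⟨k1, hk1⟩ := local_dist f0 P (aeval (lin L) F) M (hF.pull hnd) hFL0 q hq hR
  obtain ⟨k2, hk2⟩ := lattice_dist F φ hφ L hL k0'
  have hφ0 : φ 0 = 0 := by
    apply cz_inj
    have h1 : ((φ 0 : ℤ_[p]) : ℚ_[p]) = eval (fun i => inc p ((0 : V → ℤ_[p]) i)) F := hφ 0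
    have h2 : (fun i => inc p ((0 : V → ℤ_[p]) i)) = (0 : V → ℚ_[p]) := by
      funext i
      exact PadicInt.coe_zero
    have h3 : eval (0 : V → ℚ_[p]) F = constantCoeff F := by
      rw [MvPolynomial.eval_zero]
    change ((φ 0 : ℤ_[p]) : ℚ_[p]) = ((0 : ℤ_[p]) : ℚ_[p])
    rw [h1, h2, h3, (mem_m_iff _).1 hF0, PadicInt.coe_zero]
  have hFC : map emb F - C (emb (inc p (φ 0))) = map emb F := by
    rw [hφ0]
    have : inc p (0 : ℤ_[p]) = 0 := PadicInt.coe_zero
    rw [this, map_zero, map_zero, sub_zero]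
  refine ⟨k1 + k2, fun k hk => ?_⟩
  obtain ⟨F0, hF0m, hd1⟩ := hk1 k (by omega)
  obtain ⟨S, a, c, k', hk', ha, hd2⟩ := hk2 k (by omega) F0 hF0m
  have hgd : ∀ x ∈ S, Gd (hm p V) (fun y => bal φ (a x) k' y) (mB p (map emb F)) := by
    intro x _
    have h1 := hk0' (a x) k' hk' (fun i => by
      have := ha x i
      rwa [Pi.zero_apply, sub_zero])
    rw [hFC, hφ0] at h1
    simp only [sub_zero] at h1
    exact h1
  have hφm : Measurable φ := Pool.Agent.N138.RF.E1.IsM_meas hφ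
  have hpol : Measurable fun y : V → ℤ_[p] =>
      eval (fun i => P i + (p : ℤ_[p]) ^ k * y i) f0 := by
    refine (MvPolynomial.continuous_eval f0).measurable.comp ?_
    exact (continuous_pi fun i =>
      continuous_const.add (continuous_const.mul (continuous_apply i))).measurable
  refine Pool.Agent.N138.RF.L5.t p (hm p V) _ hpol (hm p V) S (fun _ => c)
    (fun x y => bal φ (a x) k' y) (fun x _ => by
      have := Pool.Agent.N138.RF.E1.bal_meas hφm (a x) k' 0
      simpa only [sub_zero] using this) ?_ _ hgd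
  intro h hh hb
  rw [hd1 h hh hb, hd2 h hh hb]

end Pool.Agent.J4H50.IG
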