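import Pool.Agent.J4H50.IG.Asm

set_option autoImplicit false
set_option linter.unusedSectionVars false
set_option linter.unusedVariables false

/-! # The zeta functions of polynomials whose critical zeros are Thom-Sebastiani sums -/

namespace Pool.Agent.J4H50.IG

open MvPolynomial MeasureTheory
open Pool.Agent.W427.SMC
open Pool.Agent.Y230.PT (msK bsK inc rr exists_emb)
open Pool.Agent.Y230.PS (EP N0 N0_EP mem_N0 hyp mult_of_tr FF_hyp)
open Pool.Agent.Y230.PT Pool.Agent.Y230.PS Pool.Agent.Y230.TH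
open Pool.Agent.R852.PP Pool.Agent.N138.SU Pool.Agent.N138.SV
open Pool.Agent.N138.RF Pool.Agent.N138.BF
open Pool.Agent.H628R4.TP (IsBFunction)
open Pool.Agent.Y230.RE Pool.Agent.W574.SM Pool.Agent.W574.RO Pool.Agent.W574.CN

attribute [local instance] msZ bsZ

variable {p : ℕ} [Fact p.Prime] {V : Type} [Fintype V]

/-- Every critical zero of `f` in `ℤ_p ^ n` is right equivalent over `ℚ_p` to a polynomial with an
isolated critical point at the origin which is a Thom-Sebastiani sum. -/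
def GermTS (p : ℕ) [Fact p.Prime] {V : Type} [Fintype V] [DecidableEq V]
    (f : MvPolynomial V ℤ) : Prop :=
  ∀ a : V → ℤ_[p], aeval a f = 0 → (∀ i, aeval a (pderiv i f) = 0) →
    ∃ F : MvPolynomial V ℚ_[p], TS ℚ_[p] F ∧ (∃ M, IsoC F M) ∧
      ∀ n, JEq (germ (map (Int.castRingHom ℚ_[p]) f) fun i => (a i : ℚ_[p])) F n

theorem mem_sq {A : Type} [CommRing A] (q : MvPolynomial V A) (h0 : constantCoeff q = 0)
    (h1 : ∀ i, constantCoeff (pderiv i q) = 0) : q ∈ mI V A ^ 2 := by
  classical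
  have h2 := (mem_m_iff q).2 h0
  obtain ⟨g, hg⟩ := (Submodule.mem_span_range_iff_exists_fun _).1 h2
  rw [← hg, pow_two]
  refine Ideal.sum_mem _ fun i _ => ?_
  rw [smul_eq_mul]
  refine Ideal.mul_mem_mul ?_ (X_mem i)
  rw [mem_m_iff]
  have h3 := h1 i
  rw [← hg, map_sum, map_sum, Finset.sum_eq_single i] at h3
  · rw [smul_eq_mul, Derivation.leibniz, map_add, smul_eq_mul, smul_eq_mul, map_mul, map_mul,
      pderiv_X_self, map_one, mul_one, constantCoeff_X, zero_mul, add_zero] at h3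
    exact h3
  · intro j _ hj
    rw [smul_eq_mul, Derivation.leibniz, map_add, smul_eq_mul, smul_eq_mul, map_mul, map_mul,
      pderiv_X_of_ne hj, map_zero, mul_zero, constantCoeff_X, zero_mul, add_zero]
  · intro hi
    exact absurd (Finset.mem_univ _) hi

theorem nonempty_of_nc (f : MvPolynomial V ℤ) (h : ∀ c, f ≠ C c) : Nonempty V := by
  by_contra hn
  rw [not_nonempty_iff] at hn
  exact h _ (eq_C_of_isEmpty f)

theorem mB_le [DecidableEq V] [Nonempty V] (emb : ℚ_[p] →+* ℂ) (f : MvPolynomial V ℤ)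
    (hf : ∀ c, f ≠ C c) (P : V → ℤ_[p]) (κ : ℕ) (F' : MvPolynomial V ℚ_[p])
    (hJ : ∀ n, JEq (C ((p : ℚ_[p]) ^ κ) *
      germ (map (cz p) (map (Int.castRingHom ℤ_[p]) f)) fun i => cz p (P i)) F' n)
    (hx : ∀ x : V → ℂ, eval x (map emb F') = 0 → (∀ i, eval x (pderiv i (map emb F')) = 0) →
        x = 0) (T : ℂ) :
    mB p (map emb F') T ≤
      Pool.Agent.Y230.PS.tr (mW w1 p (hyp (map (Int.castRingHom ℚ) f))) T := by
  have hQ : ∀ c, map (Int.castRingHom ℚ) f ≠ C c := by
    intro c hc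
    have h1 : ∀ m, m ≠ 0 → coeff m f = 0 := by
      intro m hm
      have h2 := congrArg (coeff m) hc
      rw [coeff_map, coeff_C, if_neg (Ne.symm hm), eq_intCast] at h2
      exact_mod_cast h2
    apply hf (coeff 0 f)
    ext m
    rw [coeff_C]
    split_ifs with h
    · rw [h]
    · exact h1 m (Ne.symm h)
  refine mB_le_of fun h6 k h7 => ?_
  have hpK : (p : ℚ_[p]) ^ κ ≠ 0 :=
    pow_ne_zero _ (by exact_mod_cast (Fact.out : p.Prime).ne_zero)
  have h11 : FK (hyp (map (Int.castRingHom ℚ) f)) ((rr p T : ℝ) : ℂ)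
      (k + dl ((rr p T : ℝ) : ℂ)) := by
    intro b hb
    refine h7 b ?_
    have hdvd : (Polynomial.X + 1 : Polynomial ℂ) ∣ b := by
      have h1 := Pool.Agent.N138.SV.FK_nc _ hQ b hb
      rw [pow_one, map_neg, sub_neg_eq_add, map_one] at h1
      exact h1
    have hb2 : IsBFunction (map (Int.castRingHom ℂ) f) b := by
      have h1 : IsBFunction (map (algebraMap ℚ ℂ) (map (Int.castRingHom ℚ) f)) b :=
        Pool.Agent.Y229.isB_of_single _ b hb
      rw [map_map] at h1
      have e : (algebraMap ℚ ℂ).comp (Int.castRingHom ℚ) = Int.castRingHom ℂ :=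
        RingHom.ext_int _ _
      rwa [e] at h1
    set g : MvPolynomial V ℂ := map emb (C ((p : ℚ_[p]) ^ κ) *
      germ (map (cz p) (map (Int.castRingHom ℤ_[p]) f)) fun i => cz p (P i)) with hg
    have hb3 : IsBFunction g b := by
      have h8 := VW.v _ (emb ((p : ℚ_[p]) ^ κ)) 1 (fun i => emb (cz p (P i))) b
        (fun h0 => hpK ((map_eq_zero emb).1 h0)) one_ne_zero hb2
      have e1 : (fun i : V => C (1 : ℂ) * X i + C (emb (cz p (P i)))) =
          fun i => map emb (X i + C (cz p (P i))) := by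
        funext i
        rw [map_one, one_mul, map_add, map_X, map_C]
      have e2 : map (Int.castRingHom ℂ) f =
          map emb (map (cz p) (map (Int.castRingHom ℤ_[p]) f)) := by
        rw [map_map, map_map]
        exact congrArg (fun g => map g f) (RingHom.ext_int _ _)
      rw [e1, e2, ← map_aeval', ← map_C, ← map_mul] at h8
      exact h8
    have hg0 : g ≠ 0 := by
      intro h0
      rw [hg, map_mul, map_C, mul_eq_zero] at h0
      have h1 := h0.resolve_left fun h => hpK ((map_eq_zero emb).1 (C_eq_zero.1 h))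
      have h2 := map_injective emb emb.injective (h1.trans (map_zero _).symm)
      have h3 : map (cz p) (map (Int.castRingHom ℤ_[p]) f) = 0 := by
        have h4 := congrArg (fun q => germ q fun i => - cz p (P i)) h2
        beta_reduce at h4
        unfold germ at h4
        rw [aeval_aeval, map_zero] at h4
        have e3 : (fun i : V => aeval (fun i => X i + C (-cz p (P i)))
            (X i + C (cz p (P i)) : MvPolynomial V ℚ_[p])) = X := by
          funext i
          rw [map_add, aeval_X, aeval_C, algebraMap_eq, map_neg]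
          ring
        rw [e3, aeval_X_left, AlgHom.id_apply] at h4
        exact h4
      rw [map_map] at h3
      refine hf 0 ?_
      rw [map_zero]
      have hinj : Function.Injective ((cz p).comp (Int.castRingHom ℤ_[p])) := by
        have : (cz p).comp (Int.castRingHom ℤ_[p]) = Int.castRingHom ℚ_[p] :=
          RingHom.ext_int _ _
        rw [this]
        exact Int.cast_injective
      exact map_injective _ hinj (h3.trans (map_zero _).symm)
    have hF0 : map emb F' ≠ 0 := by
      intro h0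
      have h1 := hx (fun _ => 1) (by rw [h0, map_zero]) (fun i => by rw [h0]; simp)
      obtain ⟨i⟩ := (inferInstance : Nonempty V)
      exact one_ne_zero (congrFun h1 i)
    obtain ⟨Q, N, hQN⟩ := transfer hg0 b hb3 hdvd (fun n => (hJ n).map emb) hx
    exact I.t (map emb F') b Q hF0 fun M => ⟨max M N, le_max_left _ _, hQN _ (le_max_right _ _)⟩
  unfold Pool.Agent.Y230.PS.tr
  rw [if_neg (not_le.2 h6)]
  exact le_mW (w := w1) h11

/-- the exponential sums -/
theorem germTS_XW [DecidableEq V] (f : MvPolynomial V ℤ) (hf : ∀ c, f ≠ C c)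
    (h : GermTS p f) : XW w1 p (map (Int.castRingHom ℚ) f) := by
  have hV := nonempty_of_nc f hf
  obtain ⟨emb⟩ := exists_emb p
  set fp : MvPolynomial V ℤ_[p] := map (Int.castRingHom ℤ_[p]) f with hfp
  have h0 : IsV (map (Int.castRingHom ℚ) f) 0 (fun y : V → ℤ_[p] => eval y fp) := by
    intro x
    rw [pow_zero, one_mul, Pool.Agent.N138.RF.G5.inc_eval, hfp, map_map, map_map]
    congr 2
  refine XW_of 0 _ h0 fun χ => ?_
  refine glue fp _ (fun P => ?_) χ
  have ev : ∀ q : MvPolynomial V ℤ, eval P (map (Int.castRingHom ℤ_[p]) q) = aeval P q := by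
    intro q
    rw [eval_map]
    rfl
  by_cases hP : eval P fp = 0
  swap
  · exact loc_ne fp P hP _
  by_cases hc : ∀ i, eval P (pderiv i fp) = 0
  swap
  · push Not at hc
    obtain ⟨i, hi⟩ := hc
    exact loc_nc fp P i hi _
  obtain ⟨F, hF, ⟨M, hM⟩, hJ⟩ := h P (by rw [← ev]; exact hP) (fun i => by
    rw [← ev, ← pderiv_map]
    exact hc i)
  have e1 : germ (map (Int.castRingHom ℚ_[p]) f) (fun i => (P i : ℚ_[p])) =
      germ (map (cz p) fp) fun i => cz p (P i) := by
    rw [hfp, map_map]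
    congr 1
  rw [e1] at hJ
  have hgm : germ (map (cz p) fp) (fun i => cz p (P i)) ∈ mI V ℚ_[p] ^ 2 := by
    have e2 : ∀ q : MvPolynomial V ℚ_[p], constantCoeff (germ q fun i => cz p (P i)) =
        eval (fun i => cz p (P i)) q := by
      intro q
      unfold germ
      rw [← eval_zero, eval_aeval]
      congr 2
      funext i
      simp
    refine mem_sq _ ?_ fun i => ?_
    · rw [e2, ← eval_cz, hP, map_zero]
    · have e4 : pderiv i (germ (map (cz p) fp) fun i => cz p (P i)) =
          germ (pderiv i (map (cz p) fp)) fun i => cz p (P i) := by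
        unfold germ
        rw [chain]
        rw [Finset.sum_eq_single i]
        · rw [map_add, pderiv_X_self, pderiv_C, add_zero, mul_one]
        · intro j _ hj
          rw [map_add, pderiv_X_of_ne hj, pderiv_C, add_zero, mul_zero]
        · intro hi
          exact absurd (Finset.mem_univ _) hi
      rw [e4, e2, pderiv_map, ← eval_cz, hc i, map_zero]
  have hF2 : F ∈ mI V ℚ_[p] ^ 2 := by
    obtain ⟨ψ, hψ, h2⟩ := hJ 2
    have h3 := aeval_mem ψ hψ.mem 2 hgm
    have h4 := Ideal.sub_mem _ h3 h2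
    rwa [sub_sub_cancel] at h4
  obtain ⟨κ, F', h1, h2, h3⟩ := loc_ts emb fp P hF (Nat.le_add_left 1 M) (hM.mono (Nat.le_succ M))
    hF2 hJ
  obtain ⟨k0, hk0⟩ := h3
  exact ⟨k0, fun k hk χ => Pool.Agent.Y230.TH.EP_mono
    (fun T _ => mB_le emb f hf P κ F' h1 h2 T) (hk0 k hk χ)⟩

theorem germTS_nc (f : MvPolynomial V ℤ) (hf : ∀ c, f ≠ C c) (c : ℚ) :
    map (Int.castRingHom ℚ) f ≠ C c := by
  classical
  intro hc
  have h1 : ∀ m, m ≠ 0 → coeff m f = 0 := by
    intro m hm
    have h2 := congrArg (coeff m) hc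
    rw [coeff_map, coeff_C, if_neg (Ne.symm hm), eq_intCast] at h2
    exact_mod_cast h2
  apply hf (coeff 0 f)
  ext m
  rw [coeff_C]
  split_ifs with h
  · rw [h]
  · exact h1 m (Ne.symm h)

/-- the zeta function -/
theorem germTS_core [DecidableEq V] (f : MvPolynomial V ℤ) (hf : ∀ c, f ≠ C c)
    (h : GermTS p f) :
    ∃ D P : Polynomial ℂ, D ≠ 0 ∧ (∀ s : ℝ, 0 ≤ s →
      D.eval ((tr' p s : ℝ) : ℂ) * ((∫⁻ x : V → ℤ_[p], N p s (eval₂ (algebraMap ℚ ℚ_[p])
        (fun i => inc p (x i)) (map (Int.castRingHom ℚ) f))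
          ∂(Measure.pi fun _ : V => mu p)).toReal : ℂ) =
          P.eval ((tr' p s : ℝ) : ℂ)) ∧
      ∀ T0, T0 ≠ 0 → (D.rootMultiplicity T0 : ℕ∞) ≤
        Pool.Agent.Y230.PS.tr (mM p (hyp (map (Int.castRingHom ℚ) f))) T0 := by
  have h1 := germTS_XW f hf h
  have h2 := FR_of_XW (FK_nc _ (germTS_nc f hf)) h1
  obtain ⟨D, P, hD, h3, h4⟩ := ((h2.mono (isMltW_1.base.hyp _)).mono
    fun T _ => le_of_eq (mI_1 _ T)).rat
  refine ⟨D, P, hD, fun s hs => ?_, h4⟩
  rw [← FF_hyp]
  exact h3 s hs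

/-- **The orders of the poles of the zeta function.** -/
theorem germTS_orders [DecidableEq V] (f : MvPolynomial V ℤ) (hf : ∀ c, f ≠ C c)
    (h : GermTS p f) (b : Polynomial ℂ) (hb0 : b ≠ 0)
    (hb : IsBFunction (map (Int.castRingHom ℂ) f) b)
    (Z : ℂ → ℂ) (hZ : MeromorphicOn Z Set.univ)
    (hZp : ∀ s : ℂ, 0 < s.re → Z s = igusaZeta p f s) (s₀ : ℂ) :
    ((-(b.rootMultiplicity (s₀.re : ℂ) : ℤ) : ℤ) : WithTop ℤ) ≤ meromorphicOrderAt Z s₀ := by
  obtain ⟨D, P, hD0, h1', h2⟩ := germTS_core (p := p) f hf h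
  have h1 : ∀ s : ℝ, 0 ≤ s →
      D.eval ((tr' p s : ℝ) : ℂ) * ((∫⁻ x : V → ℤ_[p], tau p s (aeval x f)
        ∂(Measure.pi fun _ : V => mu p)).toReal : ℂ) = P.eval ((tr' p s : ℝ) : ℂ) := by
    intro s hs
    rw [← h1' s hs]
    simp only [tau_N]
  have h3 := mero_bound p D P hD0 Z hZ (fun s hs => by
    rw [pw_real, hZp s (by simpa using hs), igusaZeta_eq, h1 s hs.le]) s₀
  refine le_trans ?_ h3
  have h4 := mult_of_tr (p := p) (map (Int.castRingHom ℚ) f) b hb0 (by
    rw [map_map]
    exact hb) _ _ (h2 (pw p s₀) (pw_ne_zero p s₀))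
  have h5 : rr p (pw p s₀) = s₀.re := pw_norm p s₀
  rw [h5] at h4
  exact_mod_cast neg_le_neg (Int.ofNat_le.2 h4)

end Pool.Agent.J4H50.IG
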