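import Pool.Agent.J4H50.IG.Geo

set_option autoImplicit false
set_option linter.unusedSectionVars false

/-! # Critical points which are nondegenerate to higher order -/

namespace Pool.Agent.J4H50.IG

open MvPolynomial

variable {V : Type} [Fintype V] [DecidableEq V]

section Hom

variable {A : Type} [CommRing A]

theorem lin_hom (L : Matrix V V A) (j : V) : (lin L j).IsHomogeneous 1 := by
  unfold lin
  refine IsHomogeneous.sum _ _ _ fun i _ => ?_
  have := (isHomogeneous_C V (L i j)).mul (isHomogeneous_X A i)
  rwa [zero_add] at this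

theorem hc_lin (L : Matrix V V A) (n : ℕ) (g : MvPolynomial V A) :
    homogeneousComponent n (aeval (lin L) g) = aeval (lin L) (homogeneousComponent n g) := by
  have h1 : ∀ i, (aeval (lin L) (homogeneousComponent i g) : MvPolynomial V A).IsHomogeneous i := by
    intro i
    have := (homogeneousComponent_isHomogeneous i g).aeval (lin L) (lin_hom L)
    rwa [one_mul] at this
  conv_lhs => rw [← sum_homogeneousComponent g, map_sum, map_sum]
  rw [Finset.sum_congr rfl fun i _ => homogeneousComponent_of_mem (h1 i) (m := n)]
  rw [Finset.sum_ite_eq]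
  split_ifs with h
  · rfl
  · rw [Finset.mem_range, not_lt] at h
    rw [homogeneousComponent_eq_zero n g (by omega), map_zero]

theorem hc_map {B : Type} [CommRing B] (φ : A →+* B) (n : ℕ) (g : MvPolynomial V A) :
    homogeneousComponent n (map φ g) = map φ (homogeneousComponent n g) := by
  ext m
  rw [coeff_homogeneousComponent, coeff_map, coeff_map, coeff_homogeneousComponent]
  split_ifs
  · rfl
  · rw [map_zero]

theorem hc_zero_of_mem (n k : ℕ) (hk : k < n) {g : MvPolynomial V A} (hg : g ∈ mI V A ^ n) :
    homogeneousComponent k g = 0 := by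
  ext m
  rw [coeff_homogeneousComponent, coeff_zero]
  split_ifs with h
  · exact (mem_pow_idealOfVars_iff' n g).1 hg m (by omega)
  · rfl

end Hom

section Rst

variable {K : Type} [Field K] (Y : Finset V)

theorem coeff_rst (q : MvPolynomial V K) (m : V →₀ ℕ) :
    coeff m (rst Y q) = if ∀ i ∈ Y, m i = 0 then coeff m q else 0 := by
  induction q using MvPolynomial.induction_on' with
  | monomial s c =>
    have h1 : rst Y (monomial s c) = if ∀ i ∈ Y, s i = 0 then monomial s c else 0 := by
      unfold rst
      rw [aeval_monomial, algebraMap_eq]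
      split_ifs with h
      · rw [monomial_eq]
        congr 1
        refine Finsupp.prod_congr fun i hi => ?_
        by_cases hiY : i ∈ Y
        · exact absurd (h i hiY) (Finsupp.mem_support_iff.1 hi)
        · rw [if_neg hiY]
      · push Not at h
        obtain ⟨i, hi, hsi⟩ := h
        have : (s.prod fun i k => (if i ∈ Y then (0 : MvPolynomial V K) else X i) ^ k) = 0 := by
          refine Finset.prod_eq_zero (Finsupp.mem_support_iff.2 hsi) ?_
          beta_reduce
          rw [if_pos hi, zero_pow hsi]
        rw [this, mul_zero]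
    rw [h1]
    by_cases hs : ∀ i ∈ Y, s i = 0
    · rw [if_pos hs]
      split_ifs with hm
      · rfl
      · rw [coeff_monomial, if_neg]
        rintro rfl
        exact hm hs
    · rw [if_neg hs, coeff_zero]
      split_ifs with hm
      · rw [coeff_monomial, if_neg]
        rintro rfl
        exact hs hm
      · rfl
  | add p q hp hq =>
    rw [map_add, coeff_add, hp, hq, coeff_add]
    split_ifs
    · rfl
    · rw [add_zero]

theorem weight_ge (Y : Finset V) (m : ℕ) (hm : 3 ≤ m) (s : V →₀ ℕ) :
    2 * s.degree ≤ Finsupp.weight (fun i => if i ∈ Y then m else 2) s ∧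
    ((∃ i ∈ Y, s i ≠ 0) → 2 * s.degree < Finsupp.weight (fun i => if i ∈ Y then m else 2) s) ∧
    ((∀ i ∈ Y, s i = 0) → Finsupp.weight (fun i => if i ∈ Y then m else 2) s = 2 * s.degree) := by
  have e1 : Finsupp.weight (fun i => if i ∈ Y then m else 2) s =
      ∑ i, s i * (if i ∈ Y then m else 2) := by
    rw [Finsupp.weight_apply, Finsupp.sum_fintype _ _ (fun i => by simp)]
    rfl
  have e2 : 2 * s.degree = ∑ i, s i * 2 := by
    rw [Finsupp.degree_eq_sum, Finset.mul_sum]
    exact Finset.sum_congr rfl fun i _ => mul_comm _ _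
  rw [e1, e2]
  have h0 : ∀ i ∈ (Finset.univ : Finset V), s i * 2 ≤ s i * (if i ∈ Y then m else 2) := by
    intro i _
    refine Nat.mul_le_mul_left _ ?_
    split_ifs
    · omega
    · exact le_rfl
  refine ⟨Finset.sum_le_sum h0, ?_, ?_⟩
  · rintro ⟨i, hi, hsi⟩
    refine Finset.sum_lt_sum h0 ⟨i, Finset.mem_univ _, ?_⟩
    rw [if_pos hi]
    exact Nat.mul_lt_mul_of_pos_left (by omega) (Nat.pos_of_ne_zero hsi)
  · intro h
    refine Finset.sum_congr rfl fun i _ => ?_
    split_ifs with hi
    · rw [h i hi, zero_mul, zero_mul]
    · rfl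

end Rst

/-- the critical point of `g` at the origin has corank at most two, or for some `m ≥ 3` the Taylor
expansion of `g` has no terms of the degrees `3, ..., m - 1` and the restriction of its part of
degree `m` to the kernel of the Hessian matrix has no critical point besides the origin -/
def Mild (g : MvPolynomial V ℂ) : Prop :=
  Fintype.card V ≤ (hes g).rank + 2 ∨
  ∃ m, 3 ≤ m ∧ (∀ d, 2 < d → d < m → homogeneousComponent d g = 0) ∧
    ∀ v : V → ℂ, (hes g).mulVec v = 0 →
      (∀ u : V → ℂ, (hes g).mulVec u = 0 →
        ∑ i, u i * eval v (pderiv i (homogeneousComponent m g)) = 0) → v = 0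

theorem hes_map {K : Type} [Field K] (emb : K →+* ℂ) (g : MvPolynomial V K) :
    hes (map emb g) = (hes g).map emb := by
  ext i j
  unfold hes
  rw [Matrix.map_apply, Matrix.of_apply, Matrix.of_apply, pderiv_map, pderiv_map, constantCoeff_map]

/-- weighted homogeneous polynomials with one critical point -/
theorem iso_of_crit {K : Type} [Field K] (emb : K →+* ℂ) (G : MvPolynomial V K)
    (h0 : constantCoeff G = 0)
    (h : ∀ v : V → ℂ, (∀ i, eval v (pderiv i (map emb G)) = 0) → v = 0) : ∃ M, IsoC G M := by
  obtain ⟨M, hM⟩ := iso_of_finite (map emb G) (by rw [constantCoeff_map, h0, map_zero])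
    ((Set.finite_singleton (0 : V → ℂ)).subset fun x hx => h x hx.2)
  exact ⟨M, iso_descend emb hM⟩

theorem mild_ts {K : Type} [Field K] (h2 : (2 : K) ≠ 0) (emb : K →+* ℂ) (g : MvPolynomial V K)
    (hg : g ∈ mI V K ^ 2) {M : ℕ} (hM1 : 1 ≤ M) (hM : IsoC g M) (hV : 2 ≤ Fintype.card V)
    (h : Mild (map emb g)) : ∃ F : MvPolynomial V K, TS K F ∧ (∃ M, IsoC F M) ∧ ∀ n, JEq g F n := by
  classical
  rcases h with h | ⟨m, hm, hgap, hcr⟩
  · refine corank_two h2 g hg hM1 hM hV ?_
    rwa [hes_map, rank_ext h2 emb (hes g) (hes_symm g)] at h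
  obtain ⟨L, d, hL, hd⟩ := diagonalize h2 ((2 : K)⁻¹ • hes g) ((hes_symm g).smul _)
  have hnd := nonDeg_lin L hL
  set h := aeval (lin L) g with hh
  have hh2 : h ∈ mI V K ^ 2 := aeval_mem _ hnd.mem 2 hg
  set q := qf (Matrix.diagonal d) with hq
  have hhq : h - q ∈ mI V K ^ 3 := by
    rw [hq, ← hd, ← aeval_qf, ← map_sub]
    exact aeval_mem _ hnd.mem 3 (second_order h2 g hg)
  set Y : Finset V := Finset.univ.filter fun i => d i ≠ 0 with hY
  have hYd : ∀ i, i ∉ Y → d i = 0 := by
    intro i hi
    by_contra h0
    exact hi (Finset.mem_filter.2 ⟨Finset.mem_univ i, h0⟩)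
  have hYd' : ∀ i, i ∈ Y → d i ≠ 0 := fun i hi => (Finset.mem_filter.1 hi).2
  set w : V → ℕ := fun i => if i ∈ Y then m else 2 with hw
  set c := rst Y (homogeneousComponent m h) with hc
  have hqc : ∀ s, coeff s q ≠ 0 → ∃ i ∈ Y, s = Finsupp.single i 2 := by
    intro s hs
    rw [hq, qf_diagonal, coeff_sum] at hs
    obtain ⟨i, _, hi⟩ := Finset.exists_ne_zero_of_sum_ne_zero hs
    rw [coeff_C_mul, coeff_X_pow] at hi
    refine ⟨i, ?_, ?_⟩
    · by_contra h0
      rw [hYd i h0, zero_mul] at hi
      exact hi rfl
    · by_contra h0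
      rw [if_neg fun h => h0 h.symm, mul_zero] at hi
      exact hi rfl
  have hcc : ∀ s, coeff s c = if (∀ i ∈ Y, s i = 0) ∧ s.degree = m then coeff s h else 0 := by
    intro s
    rw [hc, coeff_rst, coeff_homogeneousComponent]
    by_cases h3 : ∀ i ∈ Y, s i = 0
    · rw [if_pos h3]
      by_cases h4 : s.degree = m
      · rw [if_pos h4, if_pos ⟨h3, h4⟩]
      · rw [if_neg h4, if_neg fun h => h4 h.2]
    · rw [if_neg h3, if_neg fun h => h3 h.1]
  have hgap' : ∀ k, 2 < k → k < m → homogeneousComponent k h = 0 := by
    intro k h3 h4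
    rw [hh, hc_lin]
    have h5 : homogeneousComponent k g = 0 := by
      have h6 := hgap k h3 h4
      rw [hc_map] at h6
      exact map_injective emb emb.injective (by rw [h6, map_zero])
    rw [h5, map_zero]
  have hG0 : (q + c).IsWeightedHomogeneous w (2 * m) := by
    intro s hs
    rw [coeff_add] at hs
    by_cases h3 : coeff s q = 0
    · rw [h3, zero_add, hcc] at hs
      split_ifs at hs with h4
      · rw [(weight_ge Y m hm s).2.2 h4.1, h4.2]
      · exact absurd rfl hs
    · obtain ⟨i, hi, rfl⟩ := hqc s h3
      rw [hw, Finsupp.weight_single, if_pos hi, smul_eq_mul]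
  have hG1 : ∀ s, coeff s (h - (q + c)) ≠ 0 → 2 * m < Finsupp.weight w s := by
    intro s hs
    rw [← sub_sub, coeff_sub, hcc] at hs
    obtain ⟨w1, w2, w3⟩ := weight_ge Y m hm s
    have hs3 : 3 ≤ s.degree := by
      by_contra h3
      have h4 := (mem_pow_idealOfVars_iff' 3 (h - q)).1 hhq s (by omega)
      rw [h4, if_neg fun h5 => by omega, sub_zero] at hs
      exact hs rfl
    have hq0 : coeff s q = 0 := by
      by_contra h3
      obtain ⟨i, hi, h4⟩ := hqc s h3
      rw [h4, Finsupp.degree_single] at hs3
      omega
    rw [coeff_sub, hq0, sub_zero] at hs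
    rcases lt_trichotomy s.degree m with h3 | h3 | h3
    · exfalso
      have h4 : coeff s h = 0 := by
        have := congrArg (coeff s) (hgap' s.degree (by omega) h3)
        rwa [coeff_homogeneousComponent, if_pos rfl, coeff_zero] at this
      rw [h4, if_neg fun h5 => by omega, sub_zero] at hs
      exact hs rfl
    · by_cases h4 : ∀ i ∈ Y, s i = 0
      · rw [if_pos ⟨h4, h3⟩, sub_self] at hs
        exact absurd rfl hs
      · push Not at h4
        have := w2 h4
        rw [h3] at this
        exact this
    · calc 2 * m < 2 * s.degree := by omega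
        _ ≤ _ := w1
  have hiso : ∃ M, IsoC (q + c) M := by
    refine iso_of_crit emb (q + c) ?_ ?_
    · rw [constantCoeff_eq, coeff_add, hcc, if_neg fun h5 => by
        have := h5.2
        rw [map_zero] at this
        omega, add_zero]
      by_contra h3
      obtain ⟨i, hi, h4⟩ := hqc 0 h3
      have := congrArg (fun s => s i) h4
      simp at this
    · intro v hv
      -- the partial derivatives
      have hpq : ∀ i, pderiv i q = C (2 * d i) * X i := by
        intro i
        rw [hq, qf_diagonal, map_sum, Finset.sum_eq_single i]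
        · rw [pderiv_C_mul, Derivation.leibniz_pow, pderiv_X_self, smul_eq_mul, mul_one, pow_one,
            nsmul_eq_mul, map_mul]
          push_cast
          rw [map_ofNat]
          ring
        · intro j _ hj
          rw [pderiv_C_mul, Derivation.leibniz_pow, pderiv_X_of_ne hj, smul_zero, smul_zero,
            mul_zero]
        · intro h3
          exact absurd (Finset.mem_univ _) h3
      have hpc : ∀ i ∈ Y, pderiv i c = 0 := by
        intro i hi
        ext s
        rw [coeff_pderiv, hcc, if_neg, zero_mul, coeff_zero]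
        intro h3
        have := h3.1 i hi
        simp at this
      have hpc' : ∀ i, i ∉ Y → pderiv i c = rst Y (pderiv i (homogeneousComponent m h)) := by
        intro i hi
        ext s
        rw [coeff_pderiv, coeff_rst Y (pderiv i (homogeneousComponent m h)), coeff_pderiv, hc,
          coeff_rst]
        by_cases h3 : ∀ j ∈ Y, s j = 0
        · rw [if_pos h3, if_pos]
          intro j hj
          rw [Finsupp.add_apply, h3 j hj, zero_add, Finsupp.single_apply, if_neg]
          rintro rfl
          exact hi hj
        · rw [if_neg h3, if_neg, zero_mul]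
          intro h4
          apply h3
          intro j hj
          have := h4 j hj
          rw [Finsupp.add_apply] at this
          omega
      have hvY : ∀ i ∈ Y, v i = 0 := by
        intro i hi
        have h3 := hv i
        rw [pderiv_map, map_add, hpq, hpc i hi, add_zero, map_mul, map_C, map_X, map_mul, eval_C,
          eval_X, map_mul] at h3
        rcases mul_eq_zero.1 h3 with h4 | h4
        · rcases mul_eq_zero.1 h4 with h5 | h5
          · exact absurd ((map_eq_zero emb).1 h5) h2
          · exact absurd ((map_eq_zero emb).1 h5) (hYd' i hi)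
        · exact h4
      have hvZ : ∀ i, i ∉ Y → eval v (pderiv i (map emb (homogeneousComponent m h))) = 0 := by
        intro i hi
        have h3 := hv i
        rw [pderiv_map, map_add, hpq, hYd i hi, hpc' i hi, mul_zero, map_zero, zero_mul, zero_add]
          at h3
        rw [pderiv_map, ← h3]
        unfold rst
        rw [map_aeval', eval_aeval]
        congr 2
        funext j
        split_ifs with hj
        · rw [map_zero, map_zero, hvY j hj]
        · rw [map_X, eval_X]
      -- the linear change over the complex numbers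
      set Lc : Matrix V V ℂ := L.map emb with hLc
      have hmh : map emb (homogeneousComponent m h) =
          aeval (lin Lc) (homogeneousComponent m (map emb g)) := by
        rw [hh, hc_lin, map_aeval', hc_map]
        congr 2
        funext j
        unfold lin
        rw [map_sum]
        exact Finset.sum_congr rfl fun i _ => by rw [map_mul, map_C, map_X, hLc, Matrix.map_apply]
      set v' : V → ℂ := fun j => ∑ i, Lc i j * v i with hv'
      have hev : ∀ i, eval v (pderiv i (map emb (homogeneousComponent m h))) =
          ∑ j, Lc i j * eval v' (pderiv j (homogeneousComponent m (map emb g))) := by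
        intro i
        rw [hmh, chain, map_sum]
        refine Finset.sum_congr rfl fun j _ => ?_
        rw [pderiv_lin, map_mul, eval_C, mul_comm, eval_aeval]
        congr 3
        funext k
        unfold lin
        rw [map_sum, hv']
        exact Finset.sum_congr rfl fun i _ => by rw [map_mul, eval_C, eval_X]
      have hSc : Lc * ((2 : ℂ)⁻¹ • hes (map emb g)) * Lc.transpose =
          Matrix.diagonal fun i => emb (d i) := by
        have h3 := congrArg (fun N : Matrix V V K => N.map emb) hd
        beta_reduce at h3
        rw [Matrix.map_mul, Matrix.map_mul, Matrix.diagonal_map (map_zero emb)] at h3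
        rw [hes_map, hLc, ← h3, Matrix.transpose_map]
        congr 2
        ext i j
        rw [Matrix.smul_apply, Matrix.map_apply, Matrix.map_apply, Matrix.smul_apply, smul_eq_mul,
          smul_eq_mul, map_mul, map_inv₀, map_ofNat]
      have hLu : IsUnit Lc.det := by
        have : Lc.det = emb L.det := (RingHom.map_det emb L).symm
        rw [this]
        exact hL.map emb
      have hLu' : IsUnit Lc := (Matrix.isUnit_iff_isUnit_det _).2 hLu
      -- vectors in the kernel of the Hessian matrix
      have hker : ∀ u : V → ℂ, (∀ i ∈ Y, u i = 0) →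
          (hes (map emb g)).mulVec (Lc.transpose.mulVec u) = 0 := by
        intro u hu
        have h3 := congrArg (fun N : Matrix V V ℂ => N.mulVec u) hSc
        beta_reduce at h3
        have h4 : (Matrix.diagonal fun i => emb (d i)).mulVec u = 0 := by
          funext i
          rw [Matrix.mulVec_diagonal, Pi.zero_apply]
          by_cases hi : i ∈ Y
          · rw [hu i hi, mul_zero]
          · rw [hYd i hi, map_zero, zero_mul]
        rw [h4, ← Matrix.mulVec_mulVec, ← Matrix.mulVec_mulVec, Matrix.smul_mulVec,
          Matrix.mulVec_smul, smul_eq_zero] at h3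
        have h5 := h3.resolve_left (inv_ne_zero two_ne_zero)
        exact (Matrix.mulVec_injective_iff_isUnit.2 hLu') (by rw [h5, Matrix.mulVec_zero])
      have hker' : ∀ u' : V → ℂ, (hes (map emb g)).mulVec u' = 0 →
          ∃ u : V → ℂ, (∀ i ∈ Y, u i = 0) ∧ Lc.transpose.mulVec u = u' := by
        intro u' hu'
        have hLt : IsUnit Lc.transpose := by
          rw [Matrix.isUnit_iff_isUnit_det, Matrix.det_transpose]
          exact hLu
        obtain ⟨u, hu⟩ := (Matrix.mulVec_surjective_iff_isUnit.2 hLt) u'
        refine ⟨u, fun i hi => ?_, hu⟩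
        have h3 := congrArg (fun N : Matrix V V ℂ => N.mulVec u) hSc
        beta_reduce at h3
        rw [← Matrix.mulVec_mulVec, ← Matrix.mulVec_mulVec, Matrix.smul_mulVec, hu, hu', smul_zero,
          Matrix.mulVec_zero] at h3
        have h4 := congrFun h3 i
        rw [Matrix.mulVec_diagonal, Pi.zero_apply] at h4
        rcases mul_eq_zero.1 h4.symm with h5 | h5
        · exact absurd ((map_eq_zero emb).1 h5) (hYd' i hi)
        · exact h5
      have hv'L : v' = Lc.transpose.mulVec v := by
        funext j
        rw [hv']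
        rfl
      have hv0 : v' = 0 := by
        refine hcr v' (by rw [hv'L]; exact hker v hvY) fun u' hu' => ?_
        obtain ⟨u, hu, rfl⟩ := hker' u' hu'
        have h3 : ∑ j, (Lc.transpose.mulVec u) j *
            eval v' (pderiv j (homogeneousComponent m (map emb g))) =
            ∑ i, u i * eval v (pderiv i (map emb (homogeneousComponent m h))) := by
          simp only [hev, Matrix.mulVec, dotProduct, Matrix.transpose_apply, Finset.sum_mul,
            Finset.mul_sum]
          rw [Finset.sum_comm]
          exact Finset.sum_congr rfl fun i _ => Finset.sum_congr rfl fun j _ => by ring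
        rw [h3]
        refine Finset.sum_eq_zero fun i _ => ?_
        by_cases hi : i ∈ Y
        · rw [hu i hi, zero_mul]
        · rw [hvZ i hi, mul_zero]
      rw [hv'L] at hv0
      have hLt : IsUnit Lc.transpose := by
        rw [Matrix.isUnit_iff_isUnit_det, Matrix.det_transpose]
        exact hLu
      exact (Matrix.mulVec_injective_iff_isUnit.2 hLt) (by rw [hv0, Matrix.mulVec_zero])
  have hne : Nonempty V := Fintype.card_pos_iff.1 (by omega)
  have hTS := TS.swh (q + c) (h - (q + c)) w (2 * m) (fun i => by
    rw [hw]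
    beta_reduce
    split_ifs <;> omega) (by omega) hG0 hG1 hiso
  rw [add_sub_cancel] at hTS
  exact ⟨h, hTS, ⟨M, hM.pull hnd⟩, fun n => ⟨lin L, hnd, by
    rw [sub_self]
    exact Ideal.zero_mem _⟩⟩

section Rat

variable {K L : Type} [Field K] [Field L]

theorem TS.map (φ : K →+* L) {W : Type} {F : MvPolynomial W K} (h : TS K F) :
    TS L (MvPolynomial.map φ F) := by
  have hwh : ∀ {τ : Type} (G : MvPolynomial τ K) (w : τ → ℕ) (D : ℕ),
      G.IsWeightedHomogeneous w D → (MvPolynomial.map φ G).IsWeightedHomogeneous w D := by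
    intro τ G w D hG s hs
    rw [coeff_map] at hs
    exact hG fun h => hs (by rw [h, map_zero])
  induction h with
  | curve F => exact TS.curve _
  | wh G w D hw hD hG => exact TS.wh _ w D hw hD (hwh G w D hG)
  | swh G0 G1 w D hw hD hG0 hG1 hiso =>
    rw [map_add]
    refine TS.swh _ _ w D hw hD (hwh G0 w D hG0) (fun s hs => ?_) ?_
    · rw [coeff_map] at hs
      exact hG1 s fun h => hs (by rw [h, map_zero])
    · obtain ⟨M, hM⟩ := hiso
      exact ⟨M, hM.map φ⟩
  | add F G hF hG ihF ihG =>
    rw [map_add, map_rename, map_rename]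
    exact TS.add _ _ ihF ihG
  | equiv e F hF ih =>
    rw [map_rename]
    exact TS.equiv e _ ih

/-- the field generated by the coordinates of a complex point -/
noncomputable abbrev FP (x : V → ℂ) : Subfield ℂ := Subfield.closure (Set.range x)

/-- the point as a point with coordinates in this field -/
noncomputable def pt (x : V → ℂ) : V → FP x := fun i => ⟨x i, Subfield.subset_closure ⟨i, rfl⟩⟩

/-- the germ of `f` at `x` is right equivalent, over the field generated by the coordinates of `x`,
to a polynomial in the class `TS` -/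
def RatTS (f : MvPolynomial V ℤ) (x : V → ℂ) : Prop :=
  ∃ F : MvPolynomial V (FP x), TS (FP x) F ∧
    ∀ n, JEq (germ (MvPolynomial.map (Int.castRingHom (FP x)) f) (pt x)) F n

theorem exists_phi {p : ℕ} [Fact p.Prime] (emb : ℚ_[p] →+* ℂ) (x : V → ℂ)
    (hx : ∀ i, ∃ c, emb c = x i) : ∃ φ : FP x →+* ℚ_[p], ∀ c : FP x, emb (φ c) = c := by
  have h1 : FP x ≤ emb.fieldRange := by
    rw [Subfield.closure_le]
    rintro _ ⟨i, rfl⟩
    exact hx i
  choose g hg using fun c : FP x => h1 c.2
  refine ⟨{ toFun := g, map_one' := ?_, map_mul' := ?_, map_zero' := ?_, map_add' := ?_ }, hg⟩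
  · apply emb.injective
    rw [hg, map_one]
    rfl
  · intro a b
    apply emb.injective
    rw [hg, map_mul, hg, hg]
    rfl
  · apply emb.injective
    rw [hg, map_zero]
    rfl
  · intro a b
    apply emb.injective
    rw [hg, map_add, hg, hg]
    rfl

theorem rat_ts {p : ℕ} [Fact p.Prime] (emb : ℚ_[p] →+* ℂ) (f : MvPolynomial V ℤ) (x : V → ℂ)
    (hx : ∀ i, ∃ c, emb c = x i) (g : MvPolynomial V ℚ_[p])
    (hg : MvPolynomial.map emb g = germ (MvPolynomial.map (Int.castRingHom ℂ) f) x) {M : ℕ}
    (hM1 : 1 ≤ M) (hM : IsoC g M) (h : RatTS f x) :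
    ∃ F : MvPolynomial V ℚ_[p], TS ℚ_[p] F ∧ (∃ M, IsoC F M) ∧ ∀ n, JEq g F n := by
  obtain ⟨φ, hφ⟩ := exists_phi emb x hx
  obtain ⟨F, hF, hJ⟩ := h
  have hgg : g = MvPolynomial.map φ (germ (MvPolynomial.map (Int.castRingHom (FP x)) f) (pt x)) := by
    apply map_injective emb emb.injective
    have e1 : (emb.comp φ).comp (Int.castRingHom (FP x)) = Int.castRingHom ℂ :=
      RingHom.ext_int _ _
    have e2 : (fun i => (emb.comp φ) (pt x i)) = x := by
      funext i
      rw [RingHom.comp_apply, hφ]
      rfl
    rw [hg, map_map, map_germ, map_map, e1, e2]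
  have hJ' : ∀ n, JEq g (MvPolynomial.map φ F) n := by
    intro n
    rw [hgg]
    exact (hJ n).map φ
  exact ⟨MvPolynomial.map φ F, hF.map φ, ⟨M, (jeq_all hM1 hM le_rfl (hJ' _)).1⟩, hJ'⟩

end Rat

/-- **Hypersurfaces with finitely many singular points, all of them mild or rational
Thom-Sebastiani sums.** -/
theorem geo_all {p : ℕ} [Fact p.Prime] (f : MvPolynomial V ℤ) (hV : 2 ≤ Fintype.card V)
    (hfin : (SingC f).Finite)
    (h : ∀ x ∈ SingC f, Mild (germ (map (Int.castRingHom ℂ) f) x) ∨ RatTS f x) : GermTS p f :=
  geo_core f hfin fun emb g x hx hxe hgx hg M hM1 hM => by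
    rcases h x hx with h1 | h1
    · exact mild_ts two_ne_zero emb g hg hM1 hM hV (by
        rw [hgx]
        exact h1)
    · exact rat_ts emb f x hxe g hgx hM1 hM h1

end Pool.Agent.J4H50.IG
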