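import Pool.Agent.J4H50.IG.Jet

set_option autoImplicit false
set_option linter.unusedSectionVars false

/-! # The ideals of the coefficients of differential operators applied to powers -/

namespace Pool.Agent.J4H50.IG

open MvPolynomial

variable {σ : Type} {A : Type} [CommRing A]

/-- the derivative of `q F ^ (s + 1 - k)`, divided by `F ^ (s - k)` -/
noncomputable def TT (s : A) (F : MvPolynomial σ A) (k : ℕ) (i : σ) (q : MvPolynomial σ A) :
    MvPolynomial σ A :=
  F * pderiv i q + C (s + 1 - (k : A)) * pderiv i F * q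

/-- the `q` such that `q F ^ (s + 1 - k)` is obtained by a differential operator of order at most
`k` from `F ^ (s + 1)` -/
noncomputable def JI (s : A) (F : MvPolynomial σ A) : ℕ → Ideal (MvPolynomial σ A)
  | 0 => ⊤
  | k + 1 => Ideal.span ({x | ∃ q ∈ JI s F k, x = F * q} ∪
      {x | ∃ i, ∃ q ∈ JI s F k, x = TT s F k i q})

variable (s : A)

theorem JI_mul {F q : MvPolynomial σ A} {k : ℕ} (hq : q ∈ JI s F k) : F * q ∈ JI s F (k + 1) :=
  Ideal.subset_span (Or.inl ⟨q, hq, rfl⟩)

theorem JI_TT {F q : MvPolynomial σ A} {k : ℕ} (i : σ) (hq : q ∈ JI s F k) :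
    TT s F k i q ∈ JI s F (k + 1) :=
  Ideal.subset_span (Or.inr ⟨i, q, hq, rfl⟩)

theorem JI_pow {F q : MvPolynomial σ A} {k : ℕ} (hq : q ∈ JI s F k) (n : ℕ) :
    F ^ n * q ∈ JI s F (k + n) := by
  induction n with
  | zero => simpa using hq
  | succ n ih =>
    rw [pow_succ', mul_assoc]
    exact JI_mul s ih

/-- induction over the ideals -/
theorem JI_ind {F : MvPolynomial σ A} (P : ℕ → MvPolynomial σ A → Prop)
    (h0 : ∀ q, P 0 q) (hadd : ∀ k a b, P k a → P k b → P k (a + b))
    (hmul : ∀ k a q, P k q → P k (a * q))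
    (h1 : ∀ k q, q ∈ JI s F k → P k q → P (k + 1) (F * q))
    (h2 : ∀ k i q, q ∈ JI s F k → P k q → P (k + 1) (TT s F k i q)) (k : ℕ) :
    ∀ q ∈ JI s F k, P k q := by
  induction k with
  | zero => exact fun q _ => h0 q
  | succ k ih =>
    intro q hq
    unfold JI at hq
    refine Submodule.span_induction (p := fun x _ => P (k + 1) x) ?_ ?_ ?_ ?_ hq
    · rintro x (⟨q, hq, rfl⟩ | ⟨i, q, hq, rfl⟩)
      · exact h1 k q hq (ih q hq)
      · exact h2 k i q hq (ih q hq)
    · have := hmul (k + 1) 0 _ (h1 k 0 (Ideal.zero_mem _) (ih 0 (Ideal.zero_mem _)))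
      rwa [zero_mul] at this
    · exact fun a b _ _ ha hb => hadd _ a b ha hb
    · exact fun a q _ hq => hmul _ a q hq

/-- substitutions -/
theorem JI_pull [Fintype σ] [DecidableEq σ] (ψ : σ → MvPolynomial σ A) (F : MvPolynomial σ A)
    (k : ℕ) : ∀ q ∈ JI s F k, (JM ψ).det ^ (2 * k) * aeval ψ q ∈ JI s (aeval ψ F) k := by
  set δ := (JM ψ).det with hδ
  refine JI_ind s (fun k q => δ ^ (2 * k) * aeval ψ q ∈ JI s (aeval ψ F) k)
    (fun q => trivial) (fun k a b ha hb => ?_) (fun k a q hq => ?_) (fun k q _ hq => ?_)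
    (fun k i q _ hq => ?_) k
  · rw [map_add, mul_add]
    exact Ideal.add_mem _ ha hb
  · rw [map_mul, mul_left_comm]
    exact Ideal.mul_mem_left _ _ hq
  · have h1 := Ideal.mul_mem_left (JI s (aeval ψ F) (k + 1)) (δ ^ 2) (JI_mul s hq)
    rw [map_mul]
    have : δ ^ (2 * (k + 1)) * (aeval ψ F * aeval ψ q) =
        δ ^ 2 * (aeval ψ F * (δ ^ (2 * k) * aeval ψ q)) := by ring
    rw [this]
    exact h1
  · -- `δ ^ (2k+1) T_j (ψ q)`
    have h3 : ∀ j, δ ^ (2 * k + 1) * TT s (aeval ψ F) k j (aeval ψ q) ∈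
        JI s (aeval ψ F) (k + 1) := by
      intro j
      have h4 := JI_TT s j hq
      have h5 := JI_mul s hq
      have e1 : δ ^ (2 * k + 1) * TT s (aeval ψ F) k j (aeval ψ q) =
          δ * TT s (aeval ψ F) k j (δ ^ (2 * k) * aeval ψ q) -
            ((2 * k : ℕ) : MvPolynomial σ A) * pderiv j δ *
              (aeval ψ F * (δ ^ (2 * k) * aeval ψ q)) := by
        unfold TT
        rw [Derivation.leibniz, Derivation.leibniz_pow, smul_eq_mul, smul_eq_mul, nsmul_eq_mul,
          smul_eq_mul]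
        rcases Nat.eq_zero_or_pos k with hk | hk
        · subst hk
          simp
        · have e2 : δ ^ (2 * k) = δ * δ ^ (2 * k - 1) := by
            rw [← pow_succ']
            congr 1
            omega
          rw [pow_succ, e2]
          ring
      rw [e1]
      exact Ideal.sub_mem _ (Ideal.mul_mem_left _ _ h4) (Ideal.mul_mem_left _ _ h5)
    have e3 : δ ^ (2 * (k + 1)) * aeval ψ (TT s F k i q) =
        ∑ j, (JM ψ).adjugate i j * (δ ^ (2 * k + 1) * TT s (aeval ψ F) k j (aeval ψ q)) := by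
      have h6 := adj_chain ψ q i
      have h7 := adj_chain ψ F i
      rw [← hδ] at h6 h7
      unfold TT
      rw [map_add, map_mul, map_mul, map_mul, aeval_C, algebraMap_eq]
      have e4 : ∀ j, (JM ψ).adjugate i j * (δ ^ (2 * k + 1) * (aeval ψ F * pderiv j (aeval ψ q) +
          C (s + 1 - (k : A)) * pderiv j (aeval ψ F) * aeval ψ q)) =
          δ ^ (2 * k + 1) * aeval ψ F * ((JM ψ).adjugate i j * pderiv j (aeval ψ q)) +
          δ ^ (2 * k + 1) * C (s + 1 - (k : A)) * aeval ψ q *
            ((JM ψ).adjugate i j * pderiv j (aeval ψ F)) := by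
        intro j
        ring
      simp only [e4]
      rw [Finset.sum_add_distrib, ← Finset.mul_sum, ← Finset.mul_sum, ← h6, ← h7]
      ring
    rw [e3]
    exact Ideal.sum_mem _ fun j _ => Ideal.mul_mem_left _ _ (h3 j)

/-- approximations -/
theorem JI_approx {F G : MvPolynomial σ A} {n : ℕ} (h : G - F ∈ mI σ A ^ n) (k : ℕ)
    (hk : k ≤ n) (q : MvPolynomial σ A) (hq : q ∈ JI s G k) :
    q ∈ JI s F k ⊔ mI σ A ^ (n - k) := by
  refine JI_ind s (fun k q => k ≤ n → q ∈ JI s F k ⊔ mI σ A ^ (n - k)) (fun q _ => ?_)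
    (fun k a b ha hb hk => Ideal.add_mem _ (ha hk) (hb hk))
    (fun k a q hq hk => Ideal.mul_mem_left _ _ (hq hk))
    (fun k q _ hq hk => ?_) (fun k i q _ hq hk => ?_) k q hq hk
  · exact Submodule.mem_sup_left trivial
  · obtain ⟨u, hu, v, hv, rfl⟩ := Submodule.mem_sup.1 (hq (by omega))
    have e1 : G * (u + v) = F * u + ((G - F) * u + G * v) := by ring
    rw [e1]
    refine Submodule.add_mem_sup (JI_mul s hu) (Ideal.add_mem _ ?_ ?_)
    · exact Ideal.mul_mem_right _ _ (pow_le (by omega) h)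
    · exact Ideal.mul_mem_left _ _ (pow_le (by omega) hv)
  · obtain ⟨u, hu, v, hv, rfl⟩ := Submodule.mem_sup.1 (hq (by omega))
    have e1 : TT s G k i (u + v) = TT s F k i u + ((G - F) * pderiv i u +
        C (s + 1 - (k : A)) * pderiv i (G - F) * u + TT s G k i v) := by
      unfold TT
      rw [Derivation.map_add, Derivation.map_sub]
      ring
    have h1 := pderiv_mem (A := A) i (n - 1) (q := G - F) (by
      rwa [Nat.sub_add_cancel (by omega)])
    have h2 := pderiv_mem (A := A) i (n - (k + 1)) (q := v) (by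
      have : n - (k + 1) + 1 = n - k := by omega
      rwa [this])
    rw [e1]
    refine Submodule.add_mem_sup (JI_TT s i hu) (Ideal.add_mem _ (Ideal.add_mem _ ?_ ?_) ?_)
    · exact Ideal.mul_mem_right _ _ (pow_le (by omega) h)
    · exact Ideal.mul_mem_right _ _ (Ideal.mul_mem_left _ _ (pow_le (by omega) h1))
    · unfold TT
      refine Ideal.add_mem _ (Ideal.mul_mem_left _ _ h2) (Ideal.mul_mem_left _ _ ?_)
      exact pow_le (by omega) hv

end Pool.Agent.J4H50.IG
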