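import Pool.Agent.J4H50.IG.Jet
import Pool.Agent.J4H50.IG.Gen
import Pool.Agent.N138.BF.Fin

set_option autoImplicit false
set_option linter.unusedSectionVars false

/-! # Thom-Sebastiani sums of plane curve singularities and weighted homogeneous polynomials -/

namespace Pool.Agent.J4H50.IG

open MvPolynomial MeasureTheory
open Pool.Agent.W427.SMC (msZ bsZ mu)
open Pool.Agent.Y230.PT (msK bsK inc)
open Pool.Agent.N138.SU Pool.Agent.N138.SV Pool.Agent.N138.RF Pool.Agent.N138.BF

/-- Sums, in disjoint sets of variables, of polynomials in two variables, of weighted homogeneous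
polynomials and of semi-weighted-homogeneous polynomials. -/
inductive TS (K : Type) [Field K] : {V : Type} → MvPolynomial V K → Prop
  /-- every polynomial in two variables -/
  | curve (F : MvPolynomial (Fin 2) K) : TS K F
  /-- weighted homogeneous polynomials, with positive weights and positive degree -/
  | wh {τ : Type} [Finite τ] [Nonempty τ] (G : MvPolynomial τ K) (w : τ → ℕ) (D : ℕ)
      (hw : ∀ i, 0 < w i) (hD : 0 < D) (hG : G.IsWeightedHomogeneous w D) : TS K G
  /-- semi-weighted-homogeneous polynomials: the weighted homogeneous part `G0` of the lowest degree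
  has an isolated critical point at the origin -/
  | swh {τ : Type} [Finite τ] [Nonempty τ] (G0 G1 : MvPolynomial τ K) (w : τ → ℕ) (D : ℕ)
      (hw : ∀ i, 0 < w i) (hD : 0 < D) (hG0 : G0.IsWeightedHomogeneous w D)
      (hG1 : ∀ m, coeff m G1 ≠ 0 → D < Finsupp.weight w m) (hiso : ∃ M, IsoC G0 M) :
      TS K (G0 + G1)
  /-- sums in disjoint sets of variables -/
  | add {V W : Type} (F : MvPolynomial V K) (G : MvPolynomial W K) (hF : TS K F) (hG : TS K G) :
      TS K (rename Sum.inl F + rename Sum.inr G : MvPolynomial (V ⊕ W) K)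
  /-- names of the variables -/
  | equiv {V W : Type} (e : V ≃ W) (F : MvPolynomial V K) (hF : TS K F) : TS K (rename e F)

section Alg

variable {A : Type} [CommRing A] {V W : Type}

theorem pd_inl (F : MvPolynomial V A) (G : MvPolynomial W A) (i : V) :
    pderiv (Sum.inl i) (rename Sum.inl F + rename Sum.inr G : MvPolynomial (V ⊕ W) A) =
      rename Sum.inl (pderiv i F) := by
  classical
  have h1 : pderiv (Sum.inl i) (rename Sum.inr G : MvPolynomial (V ⊕ W) A) = 0 := by
    apply pderiv_eq_zero_of_notMem_vars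
    intro h
    have h2 := vars_rename _ _ h
    simp at h2
  rw [map_add, pderiv_rename Sum.inl_injective, h1, add_zero]

theorem pd_inr (F : MvPolynomial V A) (G : MvPolynomial W A) (i : W) :
    pderiv (Sum.inr i) (rename Sum.inl F + rename Sum.inr G : MvPolynomial (V ⊕ W) A) =
      rename Sum.inr (pderiv i G) := by
  classical
  have h1 : pderiv (Sum.inr i) (rename Sum.inl F : MvPolynomial (V ⊕ W) A) = 0 := by
    apply pderiv_eq_zero_of_notMem_vars
    intro h
    have h2 := vars_rename _ _ h
    simp at h2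
  rw [map_add, pderiv_rename Sum.inr_injective, h1, zero_add]

/-- the summands of a polynomial with an isolated critical point -/
theorem iso_of {U : Type} (f : MvPolynomial U A) (F : MvPolynomial V A) (s : V → U)
    (κ : U → MvPolynomial V A) (hκ : ∀ i, κ i ∈ mI V A) (hs : ∀ i, κ (s i) = X i)
    (hd : ∀ u, aeval κ (pderiv u f) ∈ Jac F) {M : ℕ} (hf : IsoC f M) : IsoC F M := by
  unfold IsoC at hf ⊢
  intro q hq
  have h1 : rename s q ∈ mI U A ^ M := by
    have h0 := aeval_mem ((X : U → MvPolynomial U A) ∘ s) (fun i => X_mem _) M hq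
    rwa [← rename_eq_aeval] at h0
  have h2 : Jac f ⊔ mI U A ^ (M + 1) ≤
      Ideal.comap (aeval κ : MvPolynomial U A →ₐ[A] MvPolynomial V A)
        (Jac F ⊔ mI V A ^ (M + 1)) := by
    refine sup_le ?_ ?_
    · unfold Jac
      rw [Ideal.span_le]
      rintro _ ⟨u, rfl⟩
      exact Ideal.mem_sup_left (hd u)
    · intro x hx
      exact Ideal.mem_sup_right (aeval_mem κ hκ (M + 1) hx)
  have h3 := h2 (hf h1)
  rw [Ideal.mem_comap] at h3
  have h4 : aeval κ (rename s q) = q := by
    rw [aeval_rename]
    have : (κ ∘ s) = X := funext fun i => hs i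
    rw [this, aeval_X_left, AlgHom.id_apply]
  rwa [h4] at h3

theorem aeval_zero_rename {U : Type} (s : W → U) (κ : U → MvPolynomial V A) (hs : ∀ i, κ (s i) = 0)
    (q : MvPolynomial W A) : aeval κ (rename s q) = C (constantCoeff q) := by
  rw [aeval_rename]
  have : (κ ∘ s) = 0 := funext fun i => hs i
  rw [this, aeval_zero, algebraMap_eq]

theorem iso_inl (F : MvPolynomial V A) (G : MvPolynomial W A) {M : ℕ}
    (hG : ∀ i, constantCoeff (pderiv i G) = 0)
    (h : IsoC (rename Sum.inl F + rename Sum.inr G : MvPolynomial (V ⊕ W) A) M) : IsoC F M := by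
  refine iso_of _ F Sum.inl (Sum.elim X 0) ?_ (fun i => rfl) ?_ h
  · rintro (i | i)
    · exact X_mem i
    · exact Ideal.zero_mem _
  · rintro (i | i)
    · rw [pd_inl, aeval_rename]
      have : ((Sum.elim X 0 : V ⊕ W → MvPolynomial V A) ∘ Sum.inl) = X := rfl
      rw [this, aeval_X_left, AlgHom.id_apply]
      exact Ideal.subset_span ⟨i, rfl⟩
    · rw [pd_inr, aeval_zero_rename Sum.inr _ (fun i => rfl), hG, map_zero]
      exact Ideal.zero_mem _

theorem iso_inr (F : MvPolynomial V A) (G : MvPolynomial W A) {M : ℕ}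
    (hF : ∀ i, constantCoeff (pderiv i F) = 0)
    (h : IsoC (rename Sum.inl F + rename Sum.inr G : MvPolynomial (V ⊕ W) A) M) : IsoC G M := by
  refine iso_of _ G Sum.inr (Sum.elim 0 X) ?_ (fun i => rfl) ?_ h
  · rintro (i | i)
    · exact Ideal.zero_mem _
    · exact X_mem i
  · rintro (i | i)
    · rw [pd_inl, aeval_zero_rename Sum.inl _ (fun i => rfl), hF, map_zero]
      exact Ideal.zero_mem _
    · rw [pd_inr, aeval_rename]
      have : ((Sum.elim 0 X : V ⊕ W → MvPolynomial W A) ∘ Sum.inr) = X := rfl
      rw [this, aeval_X_left, AlgHom.id_apply]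
      exact Ideal.subset_span ⟨i, rfl⟩

theorem cc_rename {U : Type} (s : V → U) (q : MvPolynomial V A) :
    constantCoeff (rename s q) = constantCoeff q := by
  rw [MvPolynomial.constantCoeff_rename]

theorem crit_inl (F : MvPolynomial V A) (G : MvPolynomial W A)
    (h : ∀ i, constantCoeff (pderiv i (rename Sum.inl F + rename Sum.inr G :
      MvPolynomial (V ⊕ W) A)) = 0) (i : V) : constantCoeff (pderiv i F) = 0 := by
  have := h (Sum.inl i)
  rwa [pd_inl, cc_rename] at this

theorem crit_inr (F : MvPolynomial V A) (G : MvPolynomial W A)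
    (h : ∀ i, constantCoeff (pderiv i (rename Sum.inl F + rename Sum.inr G :
      MvPolynomial (V ⊕ W) A)) = 0) (i : W) : constantCoeff (pderiv i G) = 0 := by
  have := h (Sum.inr i)
  rwa [pd_inr, cc_rename] at this

theorem iso_equiv (e : V ≃ W) (F : MvPolynomial V A) {M : ℕ} (h : IsoC (rename e F) M) :
    IsoC F M := by
  refine iso_of _ F e (fun u => X (e.symm u)) (fun u => X_mem _) (fun i => by simp) ?_ h
  intro u
  obtain ⟨i, rfl⟩ := e.surjective u
  rw [pderiv_rename e.injective, aeval_rename]
  have : ((fun u => (X (e.symm u) : MvPolynomial V A)) ∘ e) = X := funext fun i => by simp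
  rw [this, aeval_X_left, AlgHom.id_apply]
  exact Ideal.subset_span ⟨i, rfl⟩

theorem crit_equiv (e : V ≃ W) (F : MvPolynomial V A)
    (h : ∀ i, constantCoeff (pderiv i (rename e F)) = 0) (i : V) :
    constantCoeff (pderiv i F) = 0 := by
  have := h (e i)
  rwa [pderiv_rename e.injective, cc_rename] at this

/-- base change -/
theorem IsoC.map {B : Type} [CommRing B] (φ : A →+* B) {F : MvPolynomial V A} {M : ℕ}
    (h : IsoC F M) : IsoC (MvPolynomial.map φ F) M := by
  have e1 : ∀ n, Ideal.map (MvPolynomial.map φ) (mI V A ^ n) = mI V B ^ n := by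
    intro n
    rw [Ideal.map_pow]
    congr 1
    unfold mI idealOfVars
    rw [Ideal.map_span, ← Set.range_comp]
    congr 2
    funext i
    simp
  have e2 : Ideal.map (MvPolynomial.map φ) (Jac F) = Jac (MvPolynomial.map φ F) := by
    unfold Jac
    rw [Ideal.map_span, ← Set.range_comp]
    congr 2
    funext i
    simp [pderiv_map]
  have h1 := Ideal.map_mono (f := MvPolynomial.map φ) h
  rw [Ideal.map_sup, e1, e1, e2] at h1
  exact h1

/-- constant factors -/
theorem IsoC.smul {c : A} (hc : IsUnit c) {F : MvPolynomial V A} {M : ℕ} (h : IsoC F M) :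
    IsoC (C c * F) M := by
  refine h.trans (sup_le_sup_right ?_ _)
  unfold Jac
  rw [Ideal.span_le]
  rintro _ ⟨i, rfl⟩
  obtain ⟨u, rfl⟩ := hc
  have : pderiv i F = C (↑u⁻¹ : A) * pderiv i (C (u : A) * F) := by
    rw [Derivation.leibniz, pderiv_C, smul_zero, add_zero, smul_eq_mul, ← mul_assoc, ← map_mul,
      Units.inv_mul, map_one, one_mul]
  change pderiv i F ∈ _
  rw [this]
  exact Ideal.mul_mem_left _ _ (Ideal.subset_span ⟨i, rfl⟩)

theorem JEq.smul [Fintype V] [DecidableEq V] (c : A) {f F : MvPolynomial V A} {n : ℕ}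
    (h : JEq f F n) : JEq (C c * f) (C c * F) n := by
  obtain ⟨ψ, h1, h2⟩ := h
  refine ⟨ψ, h1, ?_⟩
  rw [map_mul, aeval_C, algebraMap_eq, ← mul_sub]
  exact Ideal.mul_mem_left _ _ h2

end Alg

/-- the critical points of a weighted homogeneous polynomial with an isolated critical point at the
origin -/
theorem wh_crit {K : Type} [Field K] {τ : Type} (G : MvPolynomial τ K) (w : τ → ℕ) (D : ℕ)
    (hw : ∀ i, 0 < w i) (hG : G.IsWeightedHomogeneous w D) {M : ℕ} (hM : IsoC G M) (z : τ → K)
    (hz : ∀ i, eval z (pderiv i G) = 0) : z = 0 := by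
  classical
  set θ : MvPolynomial τ K →ₐ[K] Polynomial K :=
    aeval fun i => Polynomial.C (z i) * Polynomial.X ^ w i with hθ
  have hmon : ∀ (q : MvPolynomial τ K) (m : ℕ), q.IsWeightedHomogeneous w m →
      θ q = Polynomial.C (eval z q) * Polynomial.X ^ m := by
    intro q m hq
    have e1 : θ q = ∑ s ∈ q.support, Polynomial.C (coeff s q * ∏ i ∈ s.support, z i ^ s i) *
        Polynomial.X ^ m := by
      rw [hθ, aeval_def, eval₂_eq]
      refine Finset.sum_congr rfl fun s hs => ?_
      have e2 : ∏ i ∈ s.support, (Polynomial.C (z i) * Polynomial.X ^ w i) ^ s i =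
          Polynomial.C (∏ i ∈ s.support, z i ^ s i) * (Polynomial.X : Polynomial K) ^ m := by
        have e3 : m = ∑ i ∈ s.support, w i * s i := by
          rw [← hq (mem_support_iff.1 hs), Finsupp.weight_apply, Finsupp.sum]
          exact Finset.sum_congr rfl fun i _ => by rw [smul_eq_mul, mul_comm]
        rw [e3, ← Finset.prod_pow_eq_pow_sum, map_prod, ← Finset.prod_mul_distrib]
        refine Finset.prod_congr rfl fun i _ => ?_
        rw [mul_pow, map_pow, pow_mul]
      rw [e2, Polynomial.algebraMap_apply, Algebra.algebraMap_self, RingHom.id_apply, map_mul]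
      ring
    rw [e1, ← Finset.sum_mul, ← map_sum, eval_eq]
  have hpd : ∀ i, θ (pderiv i G) = 0 := by
    intro i
    by_cases h0 : pderiv i G = 0
    · rw [h0, map_zero]
    · have h1 : w i ≤ D := by
        by_contra hlt
        apply h0
        apply pderiv_eq_zero_of_notMem_vars
        intro hv
        obtain ⟨s, hs, hi⟩ := (mem_vars_iff_mem_support i).1 hv
        have h2 := hG (mem_support_iff.1 hs)
        rw [Finsupp.weight_apply, Finsupp.sum] at h2
        have h3 : w i ≤ ∑ a ∈ s.support, s a • w a := by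
          refine le_trans ?_ (Finset.single_le_sum (f := fun a => s a • w a)
            (fun _ _ => Nat.zero_le _) hi)
          rw [smul_eq_mul]
          exact Nat.le_mul_of_pos_left _ (Nat.pos_of_ne_zero (Finsupp.mem_support_iff.1 hi))
        omega
      rw [hmon _ (D - w i) (hG.pderiv (by omega)), hz, map_zero, zero_mul]
  have hJ : ∀ q ∈ Jac G, θ q = 0 := by
    intro q hq
    have : Jac G ≤ RingHom.ker θ := by
      unfold Jac
      rw [Ideal.span_le]
      rintro _ ⟨i, rfl⟩
      exact hpd i
    exact this hq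
  have hm : ∀ (k : ℕ) (q : MvPolynomial τ K), q ∈ mI τ K ^ k → (Polynomial.X : Polynomial K) ^ k ∣
      θ q := by
    intro k q hq
    have h1 : Ideal.map θ (mI τ K) ≤ Ideal.span {(Polynomial.X : Polynomial K)} := by
      rw [Ideal.map_span, Ideal.span_le]
      rintro _ ⟨_, ⟨i, rfl⟩, rfl⟩
      rw [hθ, SetLike.mem_coe, Ideal.mem_span_singleton]
      have h0 : (aeval fun i => Polynomial.C (z i) * (Polynomial.X : Polynomial K) ^ w i)
        (X i : MvPolynomial τ K) = Polynomial.C (z i) * Polynomial.X ^ w i := aeval_X _ _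
      rw [h0]
      exact Dvd.dvd.mul_left (dvd_pow_self _ (hw i).ne') _
    have h2 := Ideal.mem_map_of_mem θ hq
    rw [Ideal.map_pow] at h2
    have h3 := Ideal.pow_right_mono h1 k h2
    rwa [Ideal.span_singleton_pow, Ideal.mem_span_singleton] at h3
  funext i
  have h1 := hM.le (w i * M + 1) (Ideal.pow_mem_pow (X_mem i) M)
  obtain ⟨a, ha, b, hb, hab⟩ := Submodule.mem_sup.1 h1
  have h2 := hm _ b hb
  have h3 : θ b = Polynomial.C (z i ^ M) * Polynomial.X ^ (w i * M) := by
    have h4 : θ (a + b) = θ b := by rw [map_add, hJ a ha, zero_add]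
    rw [← h4, hab, map_pow, hθ, aeval_X, mul_pow, map_pow, pow_mul]
  rw [h3] at h2
  have h5 := (Polynomial.X_pow_dvd_iff.1 h2) (w i * M) (by omega)
  rw [Polynomial.coeff_C_mul, Polynomial.coeff_X_pow, if_pos rfl, mul_one] at h5
  exact eq_zero_of_pow_eq_zero h5

end Pool.Agent.J4H50.IG
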