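import Pool.Agent.J4H50.IG.Split
import Pool.Agent.J4H50.IG.Ts

set_option autoImplicit false
set_option linter.unusedSectionVars false

/-! # Isolated critical points of corank at most two -/

namespace Pool.Agent.J4H50.IG

open MvPolynomial Module

variable {V K : Type} [Fintype V] [DecidableEq V] [Field K]

/-- the Hessian matrix at the origin -/
noncomputable def hes (f : MvPolynomial V K) : Matrix V V K :=
  Matrix.of fun i j => constantCoeff (pderiv i (pderiv j f))

/-- the quadratic form of a matrix -/
noncomputable def qf (S : Matrix V V K) : MvPolynomial V K := ∑ i, ∑ j, C (S i j) * (X i * X j)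

theorem pd2 (k l i j : V) : constantCoeff (pderiv k (pderiv l (X i * X j : MvPolynomial V K))) =
    (if i = k ∧ j = l then 1 else 0) + (if i = l ∧ j = k then 1 else 0) := by
  rw [Derivation.leibniz, pderiv_X, pderiv_X, map_add, map_add, smul_eq_mul, smul_eq_mul]
  by_cases h1 : j = l <;> by_cases h2 : i = l <;> by_cases h3 : j = k <;> by_cases h4 : i = k <;>
    simp [Pi.single_apply, h1, h2, h3, h4, pderiv_X]
  all_goals aesop

/-- the Hessian matrix of a quadratic form -/
theorem hes_qf (A : Matrix V V K) (k l : V) : hes (qf A) k l = A k l + A l k := by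
  unfold hes qf
  rw [Matrix.of_apply]
  simp only [map_sum, pderiv_C_mul, map_mul, constantCoeff_C, pd2, mul_add, Finset.sum_add_distrib]
  congr 1
  · rw [Finset.sum_eq_single k, Finset.sum_eq_single l]
    · simp
    · intro j _ hj
      simp [hj]
    · intro h
      exact absurd (Finset.mem_univ _) h
    · intro i _ hi
      refine Finset.sum_eq_zero fun j _ => ?_
      simp [hi]
    · intro h
      exact absurd (Finset.mem_univ _) h
  · rw [Finset.sum_eq_single l, Finset.sum_eq_single k]
    · simp
    · intro j _ hj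
      simp [hj]
    · intro h
      exact absurd (Finset.mem_univ _) h
    · intro i _ hi
      refine Finset.sum_eq_zero fun j _ => ?_
      simp [hi]
    · intro h
      exact absurd (Finset.mem_univ _) h

theorem qf_swap (A : Matrix V V K) : qf A.transpose = qf A := by
  unfold qf
  rw [Finset.sum_comm]
  refine Finset.sum_congr rfl fun i _ => Finset.sum_congr rfl fun j _ => ?_
  rw [Matrix.transpose_apply, mul_comm (X j) (X i)]

theorem qf_add (A B : Matrix V V K) : qf (A + B) = qf A + qf B := by
  unfold qf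
  simp only [Matrix.add_apply, map_add, add_mul, Finset.sum_add_distrib]

theorem qf_smul (c : K) (A : Matrix V V K) : qf (c • A) = C c * qf A := by
  unfold qf
  simp only [Matrix.smul_apply, smul_eq_mul, map_mul, mul_assoc, Finset.mul_sum]

/-- a polynomial with a critical point at the origin, modulo terms of order three -/
theorem second_order (h2 : (2 : K) ≠ 0) (f : MvPolynomial V K) (hf : f ∈ mI V K ^ 2) :
    f - qf ((2 : K)⁻¹ • hes f) ∈ mI V K ^ 3 := by
  have h1 : f ∈ mI V K • Ideal.span (Set.range fun i : V => (X i : MvPolynomial V K)) := by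
    rw [smul_eq_mul]
    have : mI V K = Ideal.span (Set.range fun i : V => (X i : MvPolynomial V K)) := rfl
    rw [← this, ← pow_two]
    exact hf
  obtain ⟨c, hc, hs⟩ := (Submodule.mem_ideal_smul_span_iff_exists_sum _ _ _).1 h1
  rw [Finsupp.sum_fintype c (fun i (c : MvPolynomial V K) => c • (X i : MvPolynomial V K))
    (fun i => zero_smul _ _)] at hs
  set A : Matrix V V K := Matrix.of fun i j => constantCoeff (pderiv j (c i)) with hA
  have h3 : ∀ i, c i - ∑ j, C (A i j) * X j ∈ mI V K ^ 2 := by
    intro i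
    have := first_order (c i)
    rw [(mem_m_iff _).1 (hc i), map_zero, sub_zero] at this
    exact this
  have h4 : f - qf A ∈ mI V K ^ 3 := by
    have e : f - qf A = ∑ i, (c i - ∑ j, C (A i j) * X j) * X i := by
      rw [← hs]
      unfold qf
      rw [← Finset.sum_sub_distrib]
      refine Finset.sum_congr rfl fun i _ => ?_
      rw [smul_eq_mul, sub_mul, Finset.sum_mul]
      congr 1
      exact Finset.sum_congr rfl fun j _ => by ring
    rw [e]
    refine Ideal.sum_mem _ fun i _ => ?_
    rw [pow_succ]
    exact Ideal.mul_mem_mul (h3 i) (X_mem i)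
  have h5 : hes f = A + A.transpose := by
    ext k l
    have h6 : constantCoeff (pderiv k (pderiv l (f - qf A))) = 0 := by
      have := pderiv_mem k 1 (pderiv_mem l 2 h4)
      rwa [pow_one, mem_m_iff] at this
    rw [map_sub, map_sub, map_sub, sub_eq_zero] at h6
    exact h6.trans (hes_qf A k l)
  have h6 : qf ((2 : K)⁻¹ • hes f) = qf A := by
    rw [h5, qf_smul, qf_add, qf_swap, ← two_mul]
    have e6 : (2 : MvPolynomial V K) = C 2 := (map_ofNat C 2).symm
    rw [e6, ← mul_assoc, ← map_mul, inv_mul_cancel₀ h2, map_one, one_mul]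
  rw [h6]
  exact h4

theorem pd_comm' (i j : V) (f : MvPolynomial V K) :
    pderiv i (pderiv j f) = pderiv j (pderiv i f) := by
  ext m
  rw [coeff_pderiv, coeff_pderiv, coeff_pderiv, coeff_pderiv]
  by_cases h : i = j
  · subst h; rfl
  · simp only [Finsupp.add_apply, Finsupp.single_apply, h, Ne.symm h, if_false, add_zero]
    rw [add_right_comm]
    ring

theorem hes_symm (f : MvPolynomial V K) : (hes f).IsSymm := by
  ext i j
  unfold hes
  rw [Matrix.transpose_apply, Matrix.of_apply, Matrix.of_apply, pd_comm']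

/-- substitution in a quadratic form -/
theorem aeval_qf (L S : Matrix V V K) : aeval (lin L) (qf S) = qf (L * S * L.transpose) := by
  have h1 : aeval (lin L) (qf S) = ∑ i, ∑ j, C (S i j) * (lin L i * lin L j) := by
    unfold qf
    simp only [map_sum, map_mul, aeval_C, algebraMap_eq, aeval_X]
  have h2 : ∀ i j, C (S i j) * (lin L i * lin L j) =
      ∑ k, ∑ l, C (L k i * S i j * L l j) * (X k * X l) := by
    intro i j
    unfold lin
    rw [Finset.sum_mul_sum, Finset.mul_sum]
    refine Finset.sum_congr rfl fun k _ => ?_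
    rw [Finset.mul_sum]
    refine Finset.sum_congr rfl fun l _ => ?_
    rw [map_mul, map_mul]
    ring
  have h3 : ∀ k l, (L * S * L.transpose) k l = ∑ i, ∑ j, L k i * S i j * L l j := by
    intro k l
    rw [Matrix.mul_apply]
    simp only [Matrix.mul_apply, Matrix.transpose_apply, Finset.sum_mul]
    rw [Finset.sum_comm]
  rw [h1]
  simp only [h2]
  unfold qf
  simp only [h3, map_sum, Finset.sum_mul]
  calc ∑ i, ∑ j, ∑ k, ∑ l, C (L k i * S i j * L l j) * (X k * X l : MvPolynomial V K) =
      ∑ i, ∑ k, ∑ j, ∑ l, C (L k i * S i j * L l j) * (X k * X l) :=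
        Finset.sum_congr rfl fun i _ => Finset.sum_comm
    _ = ∑ k, ∑ i, ∑ j, ∑ l, C (L k i * S i j * L l j) * (X k * X l) := Finset.sum_comm
    _ = ∑ k, ∑ i, ∑ l, ∑ j, C (L k i * S i j * L l j) * (X k * X l) :=
        Finset.sum_congr rfl fun k _ => Finset.sum_congr rfl fun i _ => Finset.sum_comm
    _ = ∑ k, ∑ l, ∑ i, ∑ j, C (L k i * S i j * L l j) * (X k * X l) :=
        Finset.sum_congr rfl fun k _ => Finset.sum_comm

/-- diagonalization of symmetric matrices -/
theorem diagonalize (h2 : (2 : K) ≠ 0) (S : Matrix V V K) (hS : S.IsSymm) :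
    ∃ (L : Matrix V V K) (d : V → K), IsUnit L.det ∧ L * S * L.transpose = Matrix.diagonal d := by
  have : Invertible (2 : K) := invertibleOfNonzero h2
  have hB : (Matrix.toBilin' S).IsSymm := Matrix.isSymm_toBilin'_iff_isSymm.2 hS
  obtain ⟨v0, hv0⟩ := LinearMap.BilinForm.exists_orthogonal_basis (K := K) (V := V → K)
    (B := Matrix.toBilin' S) (LinearMap.BilinForm.isSymm_iff.1 hB)
  have hcard : finrank K (V → K) = Fintype.card V := Module.finrank_fintype_fun_eq_card K
  set e : Fin (finrank K (V → K)) ≃ V := (finCongr hcard).trans (Fintype.equivFin V).symm with he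
  set v := v0.reindex e with hv
  have hort : ∀ i j, i ≠ j → Matrix.toBilin' S (v i) (v j) = 0 := by
    intro i j hij
    rw [hv, Basis.reindex_apply, Basis.reindex_apply]
    exact hv0 fun h => hij (e.symm.injective h)
  refine ⟨Matrix.of fun i j => v i j, fun i => Matrix.toBilin' S (v i) (v i), ?_, ?_⟩
  · have h1 : (Matrix.of fun i j => v i j : Matrix V V K) =
        ((Pi.basisFun K V).toMatrix v).transpose := by
      ext i j
      rw [Matrix.transpose_apply, Basis.toMatrix_apply, Pi.basisFun_repr, Matrix.of_apply]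
    rw [h1, Matrix.det_transpose, ← Basis.det_apply]
    exact (Pi.basisFun K V).isUnit_det v
  · ext i j
    have h3 : ((Matrix.of fun i j => v i j) * S * (Matrix.of fun i j => v i j).transpose :
        Matrix V V K) i j = Matrix.toBilin' S (v i) (v j) := by
      rw [Matrix.toBilin'_apply, Matrix.mul_apply]
      simp only [Matrix.mul_apply, Matrix.transpose_apply, Finset.sum_mul, Matrix.of_apply]
      rw [Finset.sum_comm]
    rw [h3]
    by_cases hij : i = j
    · subst hij
      rw [Matrix.diagonal_apply_eq]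
    · rw [Matrix.diagonal_apply_ne _ hij, hort i j hij]

theorem qf_diagonal (d : V → K) : qf (Matrix.diagonal d) = ∑ i, C (d i) * X i ^ 2 := by
  unfold qf
  refine Finset.sum_congr rfl fun i _ => ?_
  rw [Finset.sum_eq_single i]
  · rw [Matrix.diagonal_apply_eq, pow_two]
  · intro j _ hj
    rw [Matrix.diagonal_apply_ne _ (Ne.symm hj), map_zero, zero_mul]
  · intro h
    exact absurd (Finset.mem_univ _) h

/-- sums of squares and a polynomial in the other two variables are Thom-Sebastiani sums -/
theorem ts_split (Y : Finset V) (hY : (Finset.univ \ Y).card = 2) (c : V → K)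
    (g : MvPolynomial V K) (hg : rst Y g = g) : TS K (dq Y c + g) := by
  have hcard : Fintype.card {i : V // i ∉ Y} = 2 := by
    rw [← hY, Fintype.card_subtype]
    congr 1
    ext i
    simp
  set ε : {i : V // i ∉ Y} ≃ Fin 2 := Fintype.equivFinOfCardEq hcard with hε
  set g' : MvPolynomial (Fin 2) K := aeval (fun i => if h : i ∈ Y then 0 else X (ε ⟨i, h⟩)) g
    with hg'
  have e1 : rename (fun j => ((ε.symm j : {i : V // i ∉ Y}) : V)) g' = g := by
    rw [hg', rename_eq_aeval, ← AlgHom.comp_apply]
    conv_rhs => rw [← hg]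
    unfold rst
    congr 1
    ext i
    rw [AlgHom.comp_apply, aeval_X, aeval_X]
    by_cases h : i ∈ Y
    · rw [dif_pos h, if_pos h, map_zero]
    · rw [dif_neg h, if_neg h, aeval_X, Function.comp_apply, Equiv.symm_apply_apply]
  rcases Y.eq_empty_or_nonempty with rfl | hne
  · have e : Fin 2 ≃ V := ε.symm.trans (Equiv.subtypeUnivEquiv fun i => Finset.notMem_empty i)
    set e' : Fin 2 ≃ V := ε.symm.trans (Equiv.subtypeUnivEquiv fun i => Finset.notMem_empty i)
    have h1 := TS.equiv e' g' (TS.curve g')
    have h2 : rename e' g' = dq ∅ c + g := by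
      unfold dq
      rw [Finset.sum_empty, zero_add]
      exact e1
    rwa [h2] at h1
  · obtain ⟨y0, hy0⟩ := hne
    set q : MvPolynomial {i : V // i ∈ Y} K :=
      ∑ y : {i : V // i ∈ Y}, (C (c y) * X y ^ 2 : MvPolynomial {i : V // i ∈ Y} K) with hq
    have hwh : q.IsWeightedHomogeneous (fun _ => 1) 2 := by
      have : q ∈ weightedHomogeneousSubmodule K (fun _ : {i : V // i ∈ Y} => 1) 2 := by
        rw [hq]
        refine Submodule.sum_mem _ fun y _ => ?_
        rw [mem_weightedHomogeneousSubmodule]
        have h1 := (isWeightedHomogeneous_C (R := K) (fun _ : {i : V // i ∈ Y} => 1) (c y)).mul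
          ((isWeightedHomogeneous_X K (fun _ : {i : V // i ∈ Y} => 1) y).pow 2)
        simpa using h1
      exact (mem_weightedHomogeneousSubmodule _ _ _ _).1 this
    have : Nonempty {i : V // i ∈ Y} := ⟨⟨y0, hy0⟩⟩
    have h1 := TS.add q g' (TS.wh q (fun _ => 1) 2 (fun _ => one_pos) two_pos hwh) (TS.curve g')
    set e' : {i : V // i ∈ Y} ⊕ Fin 2 ≃ V :=
      (Equiv.sumCongr (Equiv.refl _) ε.symm).trans (Equiv.sumCompl fun i => i ∈ Y) with he'
    have h2 := TS.equiv e' _ h1
    have h3 : rename e' (rename Sum.inl q + rename Sum.inr g') = dq Y c + g := by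
      rw [map_add, rename_rename, rename_rename]
      congr 1
      rw [hq, map_sum]
      unfold dq
      rw [← Finset.sum_coe_sort Y]
      refine Finset.sum_congr rfl fun y _ => ?_
      rw [map_mul, map_pow, rename_C, rename_X]
      rfl
    rwa [h3] at h2

/-- **Isolated critical points of corank at most two are Thom-Sebastiani sums of a plane curve
singularity and a sum of squares.** -/
theorem corank_two (h2 : (2 : K) ≠ 0) (f : MvPolynomial V K) (hf : f ∈ mI V K ^ 2) {M : ℕ}
    (hM1 : 1 ≤ M) (hM : IsoC f M) (hV : 2 ≤ Fintype.card V)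
    (hr : Fintype.card V ≤ (hes f).rank + 2) :
    ∃ F : MvPolynomial V K, TS K F ∧ (∃ M, IsoC F M) ∧ ∀ n, JEq f F n := by
  classical
  obtain ⟨L, d, hL, hd⟩ := diagonalize h2 ((2 : K)⁻¹ • hes f) ((hes_symm f).smul _)
  have hrank : (hes f).rank = Fintype.card {i // d i ≠ 0} := by
    have h1 : (L * ((2 : K)⁻¹ • hes f) * L.transpose).rank = (hes f).rank := by
      rw [Matrix.rank_mul_eq_left_of_isUnit_det _ _ (by rwa [Matrix.det_transpose]),
        Matrix.rank_mul_eq_right_of_isUnit_det _ _ hL]
      exact Matrix.rank_smul_of_mem_nonZeroDivisors _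
        (mem_nonZeroDivisors_of_ne_zero (inv_ne_zero h2))
    rw [← h1, hd, Matrix.rank_diagonal]
  have hcard : Fintype.card V - 2 ≤ (Finset.univ.filter fun i => d i ≠ 0).card := by
    rw [← Fintype.card_subtype]
    omega
  obtain ⟨Y, hY1, hY2⟩ := Finset.exists_subset_card_eq hcard
  have hd0 : ∀ y ∈ Y, d y ≠ 0 := fun y hy => (Finset.mem_filter.1 (hY1 hy)).2
  have hYc : (Finset.univ \ Y).card = 2 := by
    rw [Finset.card_sdiff_of_subset (Finset.subset_univ _), Finset.card_univ, hY2]
    omega
  set g0 : MvPolynomial V K := ∑ i ∈ Finset.univ \ Y, C (d i) * X i ^ 2 with hg0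
  have hg0r : rst Y g0 = g0 := by
    rw [hg0, map_sum]
    refine Finset.sum_congr rfl fun i hi => ?_
    unfold rst
    rw [map_mul, map_pow, aeval_X, aeval_C, algebraMap_eq, if_neg (Finset.mem_sdiff.1 hi).2]
  have hsum : dq Y d + g0 = qf (Matrix.diagonal d) := by
    rw [qf_diagonal, hg0]
    unfold dq
    rw [add_comm]
    exact Finset.sum_sdiff (Finset.subset_univ Y)
  have h3 : JEq f (dq Y d + g0) 3 := by
    refine ⟨lin L, nonDeg_lin L hL, ?_⟩
    rw [hsum, ← hd, ← aeval_qf, ← map_sub]
    exact aeval_mem _ (nonDeg_lin L hL).mem 3 (second_order h2 f hf)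
  obtain ⟨g, hg, h4⟩ := split_jet h2 d hd0 f g0 hg0r h3 (2 * M + 2)
  obtain ⟨h5, h6⟩ := jeq_all hM1 hM (by omega) h4
  exact ⟨dq Y d + g, ts_split Y hYc d g hg, ⟨M, h5⟩, h6⟩

end Pool.Agent.J4H50.IG
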