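import Pool.Agent.J4H50.IG.Sw1
import Pool.Agent.J4H50.IG.Dist
import Pool.Agent.J4H50.IG.Est
import Pool.Agent.N138.RF.D
import Pool.Agent.N138.RF.L2
import Pool.Agent.N138.RF.G5
import Pool.Agent.N138.RF.Wh
import Pool.Agent.N138.RF.S

set_option autoImplicit false
set_option linter.unusedSectionVars false
set_option linter.unusedVariables false

/-! # The distribution of a semi-weighted-homogeneous polynomial -/

namespace Pool.Agent.J4H50.IG

open MvPolynomial MeasureTheory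
open Pool.Agent.W427.SMC (msZ bsZ mu)
open Pool.Agent.Y230.PT (msK bsK inc)
open Pool.Agent.N138.SU Pool.Agent.N138.SV Pool.Agent.N138.RF
open Pool.Agent.N138.SU.W1 (As meas_As map_pi)
open Pool.Agent.N138.RF.S1 Pool.Agent.N138.RF.S2
open scoped ENNReal

attribute [local instance] msK bsK msZ bsZ

variable {p : ℕ} [Fact p.Prime] {τ : Type} [Fintype τ]

theorem As_iff (w : τ → ℕ) (x : τ → ℤ_[p]) :
    x ∈ As p w ↔ ∃ y : τ → ℤ_[p], x = fun i => (p : ℤ_[p]) ^ w i * y i := by
  constructor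
  · intro h
    choose y hy using h
    exact ⟨y, funext hy⟩
  · rintro ⟨y, rfl⟩ i
    exact dvd_mul_right _ _

/-- the scaled integral -/
theorem int_As (w : τ → ℕ) (f : (τ → ℤ_[p]) → ℂ) (hf : Measurable f) :
    ∫ x, (As p w).indicator f x ∂(hm p τ) =
      ((p : ℂ) ^ (∑ i, w i))⁻¹ * ∫ y, f (fun i => (p : ℤ_[p]) ^ w i * y i) ∂(hm p τ) := by
  have hF : Measurable (fun (y : τ → ℤ_[p]) i => (p : ℤ_[p]) ^ w i * y i) :=
    measurable_pi_lambda _ fun i =>
      (continuous_const.mul continuous_id).measurable.comp (measurable_pi_apply i)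
  have h1 := integral_map (μ := hm p τ) hF.aemeasurable (f := f) hf.aestronglyMeasurable
  rw [map_pi, integral_smul_measure] at h1
  rw [integral_indicator (meas_As w), ← h1]
  have hp0 : (p : ℂ) ^ (∑ i, w i) ≠ 0 :=
    pow_ne_zero _ (by exact_mod_cast (Fact.out : p.Prime).ne_zero)
  have h2 : ((p : ℝ≥0∞) ^ (∑ i, w i)).toReal = (p : ℝ) ^ (∑ i, w i) := by
    rw [ENNReal.toReal_pow, ENNReal.toReal_natCast]
  rw [h2, Complex.real_smul]
  push_cast
  rw [inv_mul_cancel_left₀ hp0]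

/-- the gradient is bounded below away from the origin -/
theorem grad_low (w : τ → ℕ) (g : MvPolynomial τ ℤ_[p])
    (hcr : ∀ x : τ → ℤ_[p], (∀ i, eval x (pderiv i g) = 0) → x = 0) :
    ∃ c : ℕ, ∀ x : τ → ℤ_[p], x ∉ As p w → ∃ i, ((p : ℝ)⁻¹) ^ c ≤ ‖eval x (pderiv i g)‖ := by
  classical
  have hcl : IsClosed (As p w)ᶜ := by
    have : IsOpen (As p w) := by
      have h1 : As p w = ⋂ i, {y : τ → ℤ_[p] | ‖y i‖ ≤ ((p : ℝ)⁻¹) ^ w i} := by
        ext y
        simp only [Set.mem_iInter, As]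
        refine forall_congr' fun i => ?_
        exact (Pool.Agent.N316.SU.norm_le_iff (y i) (w i)).symm
      rw [h1]
      refine isOpen_iInter_of_finite fun i => ?_
      have h2 : {y : τ → ℤ_[p] | ‖y i‖ ≤ ((p : ℝ)⁻¹) ^ w i} =
          (fun y : τ → ℤ_[p] => y i) ⁻¹' Metric.closedBall 0 (((p : ℝ)⁻¹) ^ w i) := by
        ext y
        simp
      rw [h2]
      exact (IsUltrametricDist.isOpen_closedBall _ (pow_pos inv_pos' _).ne').preimage
        (continuous_apply i)
    exact this.isClosed_compl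
  have hK : IsCompact ((As p w)ᶜ : Set (τ → ℤ_[p])) := hcl.isCompact
  have hcont : Continuous fun x : τ → ℤ_[p] => ∑ i, ‖eval x (pderiv i g)‖ :=
    continuous_finsetSum _ fun i _ => (MvPolynomial.continuous_eval _).norm
  rcases Set.eq_empty_or_nonempty ((As p w)ᶜ : Set (τ → ℤ_[p])) with he | hne
  · exact ⟨0, fun x hx => absurd (show x ∈ (As p w)ᶜ from hx) (by rw [he]; simp)⟩
  obtain ⟨x0, hx0, hmin⟩ := hK.exists_isMinOn hne hcont.continuousOn
  have hpos : 0 < ∑ i, ‖eval x0 (pderiv i g)‖ := by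
    rcases (Finset.sum_nonneg fun i _ => norm_nonneg (eval x0 (pderiv i g))).lt_or_eq with h | h
    · exact h
    · exfalso
      apply hx0
      have h1 : ∀ i, eval x0 (pderiv i g) = 0 := fun i =>
        norm_eq_zero.1 ((Finset.sum_eq_zero_iff_of_nonneg fun i _ => norm_nonneg _).1 h.symm i
          (Finset.mem_univ _))
      rw [hcr x0 h1]
      intro i
      exact dvd_zero _
  obtain ⟨c, hc⟩ := exists_pow_lt_of_lt_one (show (0 : ℝ) < (∑ i, ‖eval x0 (pderiv i g)‖) /
    (Fintype.card τ + 1) by positivity) (inv_lt_one' (p := p))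
  refine ⟨c, fun x hx => ?_⟩
  by_contra hcon
  push Not at hcon
  have h1 : ∑ i, ‖eval x (pderiv i g)‖ ≤ (Fintype.card τ : ℝ) * ((p : ℝ)⁻¹) ^ c := by
    calc ∑ i, ‖eval x (pderiv i g)‖ ≤ ∑ _i : τ, ((p : ℝ)⁻¹) ^ c :=
          Finset.sum_le_sum fun i _ => (hcon i).le
      _ = _ := by rw [Finset.sum_const, Finset.card_univ, nsmul_eq_mul]
  have h2 : ∑ i, ‖eval x0 (pderiv i g)‖ ≤ ∑ i, ‖eval x (pderiv i g)‖ := hmin hx
  rw [lt_div_iff₀ (by positivity)] at hc
  have h3 : (0 : ℝ) < ((p : ℝ)⁻¹) ^ c := pow_pos inv_pos' _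
  nlinarith

open Pool.Agent.N138.RF.G5 (sub pderiv_sub) in
/-- away from the origin -/
theorem int_U [Nonempty τ] (w : τ → ℕ) (g : MvPolynomial τ ℤ_[p]) (c : ℕ)
    (hc : ∀ x : τ → ℤ_[p], x ∉ As p w → ∃ i, ((p : ℝ)⁻¹) ^ c ≤ ‖eval x (pderiv i g)‖) :
    ∃ k0 : ℕ, ∀ k, k0 ≤ k → ∀ (R : MvPolynomial τ ℤ_[p]) (h : ℤ_[p] → ℂ), Measurable h →
      (∃ B : ℝ, ∀ z, ‖h z‖ ≤ B) →
      ∫ x, ((As p w)ᶜ).indicator (fun x => h (eval x g) -
        h (eval x (g + C ((p : ℤ_[p]) ^ k) * R))) x ∂(hm p τ) = 0 := by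
  classical
  set K := c + 1 + ∑ i, w i with hK
  have hwK : ∀ i, w i ≤ K := fun i =>
    (Finset.single_le_sum (f := w) (fun _ _ => Nat.zero_le _) (Finset.mem_univ i)).trans
      (Nat.le_add_left _ _)
  refine ⟨2 * (K + c) + 1, fun k hk R h hh hb => ?_⟩
  obtain ⟨B0, hB⟩ := hb
  have hm1 : ∀ Q : MvPolynomial τ ℤ_[p], Measurable fun x : τ → ℤ_[p] => h (eval x Q) :=
    fun Q => hh.comp (MvPolynomial.continuous_eval Q).measurable
  obtain ⟨S, hS⟩ := Pool.Agent.N138.RF.Du.t p τ K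
  have hmeas : Measurable (((As p w)ᶜ).indicator (fun x => h (eval x g) -
      h (eval x (g + C ((p : ℤ_[p]) ^ k) * R)))) :=
    ((hm1 _).sub (hm1 _)).indicator (meas_As w).compl
  have h1 := hS _ hmeas ⟨B0 + B0, fun z => (norm_indicator_le_norm_self _ _).trans
    ((norm_sub_le _ _).trans (add_le_add (hB _) (hB _)))⟩
  refine h1.trans (Finset.sum_eq_zero fun a _ => ?_)
  refine mul_eq_zero_of_right _ ?_
  by_cases ha : a ∈ As p w
  · have h2 : ∀ y : τ → ℤ_[p], (fun i => a i + (p : ℤ_[p]) ^ K * y i) ∈ As p w := fun y i =>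
      dvd_add (ha i) (Dvd.dvd.mul_right (pow_dvd_pow _ (hwK i)) _)
    have h3 : ∀ y : τ → ℤ_[p], ((As p w)ᶜ).indicator (fun x => h (eval x g) -
        h (eval x (g + C ((p : ℤ_[p]) ^ k) * R))) (fun i => a i + (p : ℤ_[p]) ^ K * y i) = 0 :=
      fun y => Set.indicator_of_notMem (fun h4 : _ ∈ (As p w)ᶜ => h4 (h2 y)) _
    exact (integral_congr_ae (Filter.Eventually.of_forall h3)).trans (integral_zero _ _)
  · have h2 : ∀ y : τ → ℤ_[p], (fun i => a i + (p : ℤ_[p]) ^ K * y i) ∉ As p w := by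
      intro y h3
      apply ha
      intro i
      have h4 := dvd_sub (h3 i) (Dvd.dvd.mul_right (pow_dvd_pow (p : ℤ_[p]) (hwK i)) (y i))
      rwa [add_sub_cancel_right] at h4
    have hev : ∀ (Q : MvPolynomial τ ℤ_[p]) (x : τ → ℤ_[p]),
        eval x (sub ((p : ℤ_[p]) ^ K) a Q) = eval (fun i => a i + (p : ℤ_[p]) ^ K * x i) Q :=
      fun Q x => Pool.Agent.N138.RF.G5.eval_sub _ _ _ _
    have h3 : ∀ y : τ → ℤ_[p], ((As p w)ᶜ).indicator (fun x => h (eval x g) -
        h (eval x (g + C ((p : ℤ_[p]) ^ k) * R))) (fun i => a i + (p : ℤ_[p]) ^ K * y i) =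
        h (eval y (sub ((p : ℤ_[p]) ^ K) a g)) -
          h (eval y (sub ((p : ℤ_[p]) ^ K) a (g + C ((p : ℤ_[p]) ^ k) * R))) := by
      intro y
      rw [Set.indicator_of_mem (show _ ∈ (As p w)ᶜ from h2 y), hev, hev]
    refine (integral_congr_ae (Filter.Eventually.of_forall h3)).trans ?_
    have hint : ∀ Q : MvPolynomial τ ℤ_[p], Integrable (fun x : τ → ℤ_[p] => h (eval x Q))
        (hm p τ) := fun Q =>
      Integrable.of_bound (hm1 Q).aestronglyMeasurable B0 (Filter.Eventually.of_forall fun t => hB _)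
    rw [integral_sub (hint _) (hint _), sub_eq_zero]
    have hpK : ‖(p : ℤ_[p]) ^ K‖ = ((p : ℝ)⁻¹) ^ K := by rw [norm_pow, PadicInt.norm_p]
    have hpk : ‖(p : ℤ_[p]) ^ k‖ = ((p : ℝ)⁻¹) ^ k := by rw [norm_pow, PadicInt.norm_p]
    have hgr : ∀ x : τ → ℤ_[p], ∃ i, ((p : ℝ)⁻¹) ^ (K + c) ≤
        ‖eval x (pderiv i (sub ((p : ℤ_[p]) ^ K) a g))‖ := by
      intro x
      obtain ⟨i, hi⟩ := hc _ (h2 x)
      refine ⟨i, ?_⟩
      rw [pderiv_sub, map_mul, eval_C, hev, norm_mul, hpK, pow_add]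
      exact mul_le_mul_of_nonneg_left hi (pow_pos inv_pos' _).le
    have hlay : ∀ m, ∀ x ∈ lay (sub ((p : ℤ_[p]) ^ K) a g) m, m ≤ K + c := by
      intro m x hx
      obtain ⟨i, hi⟩ := hgr x
      by_contra hlt
      push Not at hlt
      exact absurd (hi.trans (hx.2 i)) (not_le.2 (pinv_lt hlt))
    refine same_dist _ _ (fun x hx => ?_) (fun m x hx => ?_) (fun m x hx i => ?_) h hh ⟨B0, hB⟩
    · obtain ⟨i, hi⟩ := hgr x
      rw [hx i, norm_zero] at hi
      exact absurd hi (not_le.2 (pow_pos inv_pos' _))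
    · have h4 := hlay m x hx
      rw [map_sub, hev, hev, map_add, map_mul, eval_C, add_sub_cancel_left, norm_mul, hpk]
      refine (mul_le_of_le_one_right (pow_pos inv_pos' _).le (PadicInt.norm_le_one _)).trans ?_
      exact pinv_le (by omega)
    · have h4 := hlay m x hx
      rw [map_sub, map_sub, pderiv_sub, pderiv_sub, map_mul, map_mul, eval_C, hev, hev, map_add,
        map_add, pderiv_C_mul, map_mul, eval_C, ← mul_sub, add_sub_cancel_left, norm_mul,
        norm_mul, hpk]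
      refine (mul_le_of_le_one_left (by positivity) (PadicInt.norm_le_one _)).trans ?_
      refine (mul_le_of_le_one_right (pow_pos inv_pos' _).le (PadicInt.norm_le_one _)).trans ?_
      exact pinv_le (by omega)

section Wsc

variable {A : Type} [CommRing A]

/-- the weighted dilation -/
noncomputable def wsc (t : A) (w : τ → ℕ) (F : MvPolynomial τ A) : MvPolynomial τ A :=
  aeval (fun i => C (t ^ w i) * X i) F

theorem coeff_wsc (t : A) (w : τ → ℕ) (F : MvPolynomial τ A) (m : τ →₀ ℕ) :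
    coeff m (wsc t w F) = coeff m F * t ^ Finsupp.weight w m := by
  classical
  induction F using MvPolynomial.induction_on' with
  | add u v hu hv =>
    have : wsc t w (u + v) = wsc t w u + wsc t w v := by
      unfold wsc
      rw [map_add]
    rw [this, coeff_add, hu, hv, coeff_add, add_mul]
  | monomial s a =>
    have h1 : wsc t w (monomial s a) = monomial s (a * t ^ Finsupp.weight w s) := by
      unfold wsc
      rw [aeval_monomial, algebraMap_eq]
      have h2 : (s.prod fun i k => (C (t ^ w i) * X i : MvPolynomial τ A) ^ k) =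
          C (t ^ Finsupp.weight w s) * s.prod fun i k => (X i : MvPolynomial τ A) ^ k := by
        rw [Finsupp.prod, Finsupp.prod, Finsupp.weight_apply, Finsupp.sum,
          ← Finset.prod_pow_eq_pow_sum, map_prod, ← Finset.prod_mul_distrib]
        refine Finset.prod_congr rfl fun i _ => ?_
        rw [mul_pow, ← map_pow, ← pow_mul, smul_eq_mul, mul_comm (w i)]
      rw [h2, ← mul_assoc, ← map_mul, monomial_eq]
    rw [h1, coeff_monomial, coeff_monomial]
    split_ifs with h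
    · rw [h]
    · rw [zero_mul]

theorem wsc_ord (t : A) (w : τ → ℕ) (d : ℕ) (F : MvPolynomial τ A) (hF : Ord w d F) :
    ∃ F' : MvPolynomial τ A, Ord w d F' ∧ wsc t w F = C (t ^ d) * F' := by
  classical
  set F' : MvPolynomial τ A := ∑ m ∈ F.support,
    monomial m (coeff m F * t ^ (Finsupp.weight w m - d)) with hF'
  have h1 : ∀ m, coeff m F' = coeff m F * t ^ (Finsupp.weight w m - d) := by
    intro m
    rw [hF', coeff_sum]
    simp only [coeff_monomial]
    rw [Finset.sum_ite_eq']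
    split_ifs with h
    · rfl
    · rw [notMem_support_iff.1 h, zero_mul]
  refine ⟨F', fun m hm => hF m fun h => hm (by rw [h1, h, zero_mul]), ?_⟩
  ext m
  rw [coeff_wsc, coeff_C_mul, h1]
  by_cases hm : coeff m F = 0
  · rw [hm, zero_mul, zero_mul, mul_zero]
  · have h2 := hF m hm
    have h3 : t ^ Finsupp.weight w m = t ^ d * t ^ (Finsupp.weight w m - d) := by
      rw [← pow_add, Nat.add_sub_cancel' h2]
    rw [h3]
    ring

theorem wsc_wh (t : A) (w : τ → ℕ) (D : ℕ) (F : MvPolynomial τ A)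
    (hF : F.IsWeightedHomogeneous w D) : wsc t w F = C (t ^ D) * F := by
  ext m
  rw [coeff_wsc, coeff_C_mul]
  by_cases hm : coeff m F = 0
  · rw [hm, zero_mul, mul_zero]
  · rw [hF hm, mul_comm]

theorem eval_wsc (t : A) (w : τ → ℕ) (F : MvPolynomial τ A) (x : τ → A) :
    eval x (wsc t w F) = eval (fun i => t ^ w i * x i) F := by
  unfold wsc
  induction F using MvPolynomial.induction_on with
  | C a => simp
  | add p q hp hq => simp only [map_add, hp, hq]
  | mul_X p i hp =>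
    rw [map_mul, map_mul, hp, aeval_X, map_mul, map_mul, eval_C, eval_X, eval_X]

end Wsc

/-- **The distribution of a semi-weighted-homogeneous polynomial.** -/
theorem dist_swh [Nonempty τ] (w : τ → ℕ) (D : ℕ) (hw : ∀ i, 0 < w i)
    (g : MvPolynomial τ ℤ_[p]) (hg : g.IsWeightedHomogeneous w D)
    (hcr : ∀ x : τ → ℤ_[p], (∀ i, eval x (pderiv i g) = 0) → x = 0) :
    ∃ k0 : ℕ, ∀ k, k0 ≤ k → ∀ R : MvPolynomial τ ℤ_[p], Ord w (D + 1) R →
      ∀ h : ℤ_[p] → ℂ, Measurable h → (∃ B : ℝ, ∀ z, ‖h z‖ ≤ B) →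
      ∫ x, h (eval x g) ∂(hm p τ) = ∫ x, h (eval x (g + C ((p : ℤ_[p]) ^ k) * R)) ∂(hm p τ) := by
  obtain ⟨c, hc⟩ := grad_low w g hcr
  obtain ⟨k0, hk0⟩ := int_U w g c hc
  have hW : 1 ≤ ∑ i, w i := Finset.sum_pos (fun i _ => hw i) Finset.univ_nonempty
  set q : ℝ := ((p : ℝ) ^ (∑ i, w i))⁻¹ with hq
  have hp2 : (1 : ℝ) < p := by exact_mod_cast (Fact.out : p.Prime).one_lt
  have hq1 : q < 1 := inv_lt_one_of_one_lt₀ (one_lt_pow₀ hp2 (by omega))
  have hq0 : 0 ≤ q := inv_nonneg.2 (by positivity)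
  have key : ∀ n k, k0 ≤ k → ∀ R : MvPolynomial τ ℤ_[p], Ord w (D + 1) R →
      ∀ h : ℤ_[p] → ℂ, Measurable h → ∀ B : ℝ, (∀ z, ‖h z‖ ≤ B) →
      ‖∫ x, (h (eval x g) - h (eval x (g + C ((p : ℤ_[p]) ^ k) * R))) ∂(hm p τ)‖ ≤
        q ^ n * (B + B) := by
    intro n
    induction n with
    | zero =>
      intro k hk R hR h hh B hB
      rw [pow_zero, one_mul]
      refine (norm_integral_le_of_norm_le_const (Filter.Eventually.of_forall fun x =>
        (norm_sub_le _ _).trans (add_le_add (hB _) (hB _)))).trans ?_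
      simp
    | succ n ih =>
      intro k hk R hR h hh B hB
      have hm1 : ∀ Q : MvPolynomial τ ℤ_[p], Measurable fun x : τ → ℤ_[p] => h (eval x Q) :=
        fun Q => hh.comp (MvPolynomial.continuous_eval Q).measurable
      set F : (τ → ℤ_[p]) → ℂ := fun x => h (eval x g) -
        h (eval x (g + C ((p : ℤ_[p]) ^ k) * R)) with hF
      have hFm : Measurable F := (hm1 _).sub (hm1 _)
      have hFb : ∀ x, ‖F x‖ ≤ B + B := fun x => (norm_sub_le _ _).trans (add_le_add (hB _) (hB _))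
      have hFi : Integrable F (hm p τ) :=
        Integrable.of_bound hFm.aestronglyMeasurable _ (Filter.Eventually.of_forall hFb)
      have h1 : ∫ x, F x ∂(hm p τ) = ∫ x, (As p w).indicator F x ∂(hm p τ) +
          ∫ x, ((As p w)ᶜ).indicator F x ∂(hm p τ) := by
        rw [← integral_add (hFi.indicator (meas_As w)) (hFi.indicator (meas_As w).compl)]
        refine integral_congr_ae (Filter.Eventually.of_forall fun x => ?_)
        exact (congrFun (Set.indicator_self_add_compl (As p w) F) x).symm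
      rw [h1, hk0 k hk R h hh ⟨B, hB⟩, add_zero, int_As w F hFm]
      obtain ⟨R', hR', hRR⟩ := wsc_ord (p : ℤ_[p]) w (D + 1) R hR
      have h2 : ∀ y : τ → ℤ_[p], F (fun i => (p : ℤ_[p]) ^ w i * y i) =
          h ((p : ℤ_[p]) ^ D * eval y g) -
            h ((p : ℤ_[p]) ^ D * eval y (g + C ((p : ℤ_[p]) ^ (k + 1)) * R')) := by
        intro y
        rw [hF]
        beta_reduce
        rw [← eval_wsc, ← eval_wsc, wsc_wh _ _ _ _ hg]
        have h3 : wsc (p : ℤ_[p]) w (g + C ((p : ℤ_[p]) ^ k) * R) =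
            C ((p : ℤ_[p]) ^ D) * (g + C ((p : ℤ_[p]) ^ (k + 1)) * R') := by
          have h4 : wsc (p : ℤ_[p]) w (g + C ((p : ℤ_[p]) ^ k) * R) =
              wsc (p : ℤ_[p]) w g + C ((p : ℤ_[p]) ^ k) * wsc (p : ℤ_[p]) w R := by
            unfold wsc
            rw [map_add, map_mul, aeval_C, algebraMap_eq]
          rw [h4, hRR, wsc_wh _ _ _ _ hg, pow_succ (p : ℤ_[p]) D, pow_succ (p : ℤ_[p]) k, map_mul,
            map_mul]
          ring
        rw [h3, map_mul, map_mul, eval_C]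
      have h3 := ih (k + 1) (by omega) R' hR' (fun z => h ((p : ℤ_[p]) ^ D * z))
        (hh.comp (continuous_const.mul continuous_id).measurable) B (fun z => hB _)
      rw [norm_mul]
      have h4 : ‖((p : ℂ) ^ (∑ i, w i))⁻¹‖ = q := by
        rw [hq, norm_inv, norm_pow, Complex.norm_natCast]
      rw [h4, pow_succ, mul_comm (q ^ n) q, mul_assoc]
      refine mul_le_mul_of_nonneg_left ?_ hq0
      refine le_trans (le_of_eq ?_) h3
      congr 1
      exact integral_congr_ae (Filter.Eventually.of_forall h2)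
  refine ⟨k0, fun k hk R hR h hh hb => ?_⟩
  obtain ⟨B, hB⟩ := hb
  have hm1 : ∀ Q : MvPolynomial τ ℤ_[p], Measurable fun x : τ → ℤ_[p] => h (eval x Q) :=
    fun Q => hh.comp (MvPolynomial.continuous_eval Q).measurable
  have hint : ∀ Q : MvPolynomial τ ℤ_[p], Integrable (fun x : τ → ℤ_[p] => h (eval x Q))
      (hm p τ) := fun Q =>
    Integrable.of_bound (hm1 Q).aestronglyMeasurable B (Filter.Eventually.of_forall fun t => hB _)
  rw [← sub_eq_zero, ← integral_sub (hint _) (hint _), ← norm_eq_zero]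
  refine le_antisymm ?_ (norm_nonneg _)
  have h1 : Filter.Tendsto (fun n : ℕ => q ^ n * (B + B)) Filter.atTop (nhds (0 * (B + B))) :=
    (tendsto_pow_atTop_nhds_zero_of_lt_one hq0 hq1).mul_const _
  rw [zero_mul] at h1
  exact ge_of_tendsto' h1 fun n => key n k hk R hR h hh B hB

end Pool.Agent.J4H50.IG
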