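import Pool.Agent.J4H50.IG.Sw2
import Pool.Agent.J4H50.IG.LocE
import Pool.Agent.J4H50.IG.Ts
import Pool.Agent.N138.BF.Fin

set_option autoImplicit false
set_option linter.unusedSectionVars false
set_option linter.unusedVariables false

/-! # Semi-weighted-homogeneous polynomials are good -/

namespace Pool.Agent.J4H50.IG

open MvPolynomial MeasureTheory
open Pool.Agent.W427.SMC (msZ bsZ mu)
open Pool.Agent.Y230.PT (msK bsK inc)
open Pool.Agent.Y230.PS (EP)
open Pool.Agent.N138.SU Pool.Agent.N138.SV Pool.Agent.N138.RF Pool.Agent.N138.BF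
open Pool.Agent.N138.SU.W1 (As meas_As map_pi)
open Pool.Agent.N138.RF.S1 Pool.Agent.N138.RF.S2

attribute [local instance] msK bsK msZ bsZ

variable {p : ℕ} [Fact p.Prime]

theorem Gd_smul {Y : Type} [MeasurableSpace Y] (ν : Measure Y) [IsProbabilityMeasure ν] (φ : Y → ℤ_[p]) (a : ℕ)
    {m : ℂ → ℕ∞} (h : Gd ν φ m) : Gd ν (fun y => (p : ℤ_[p]) ^ a * φ y) m := by
  obtain ⟨⟨N, hN⟩, hE⟩ := h
  refine ⟨⟨N, fun v hv h hm hb => ?_⟩, fun χ => ?_⟩
  · obtain ⟨B, hB⟩ := hb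
    have h1 := hN v hv (fun z => h ((p : ℤ_[p]) ^ a * z))
      (hm.comp (continuous_const.mul continuous_id).measurable) ⟨B, fun z => hB _⟩
    beta_reduce at h1
    rw [← h1]
    refine integral_congr_ae (Filter.Eventually.of_forall fun y => ?_)
    beta_reduce
    congr 1
    ring
  · refine Pool.Agent.N138.SU.B1.EP_of_shift m a _ ?_
    refine (congrArg (· ∈ EP m) (funext fun e => ?_)).mp (hE χ)
    exact (Eh_scale ν φ a χ e).symm

theorem FB_smul {τ : Type} (g : MvPolynomial τ ℂ) (κ : ℂ) (hκ : κ ≠ 0) (e : ℂ) (k : ℕ)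
    (h : FB g e k) : FB (C κ * g) e k := by
  intro b hb
  refine h b ?_
  have h1 := VW.v _ κ⁻¹ 1 (fun _ => 0) b (inv_ne_zero hκ) one_ne_zero hb
  have e1 : (fun i : τ => C (1 : ℂ) * X i + C ((fun _ : τ => (0 : ℂ)) i)) = X := by
    funext i
    simp
  rw [e1, aeval_X_left, AlgHom.id_apply, ← mul_assoc, ← map_mul, inv_mul_cancel₀ hκ, map_one,
    one_mul] at h1
  exact h1

theorem GB_smul (emb : ℚ_[p] →+* ℂ) {τ : Type} [Fintype τ] (F : MvPolynomial τ ℚ_[p]) (a : ℕ)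
    (h : GB emb F) : GB emb (C ((p : ℚ_[p]) ^ a) * F) := by
  obtain ⟨φ, hM, hloc⟩ := h
  have hpa : (p : ℚ_[p]) ^ a ≠ 0 :=
    pow_ne_zero _ (by exact_mod_cast (Fact.out : p.Prime).ne_zero)
  refine ⟨fun x => (p : ℤ_[p]) ^ a * φ x, fun x => ?_, fun P => ?_⟩
  · rw [inc_mul, inc_p, hM, map_mul, eval_C]
  · obtain ⟨k0, hk0⟩ := hloc P
    refine ⟨k0, fun b k hk hb => ?_⟩
    have h1 := Gd_smul (hm p τ) _ a (hk0 b k hk hb)
    have e1 : (fun y => bal (fun x => (p : ℤ_[p]) ^ a * φ x) b k y - (p : ℤ_[p]) ^ a * φ P) =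
        fun y => (p : ℤ_[p]) ^ a * (bal φ b k y - φ P) := by
      funext y
      unfold bal
      ring
    rw [e1]
    refine Pool.Agent.N138.RF.G5.Gd_mono (fun T _ => ?_) h1
    refine mB_mono (fun e k he => ?_) T
    have e2 : map emb (C ((p : ℚ_[p]) ^ a) * F) - C (emb (inc p ((p : ℤ_[p]) ^ a * φ P))) =
        C (emb ((p : ℚ_[p]) ^ a)) * (map emb F - C (emb (inc p (φ P)))) := by
      rw [map_mul, map_C, inc_mul, inc_p, map_mul, map_mul]
      ring
    rw [e2]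
    exact FB_smul _ _ (fun h0 => hpa ((map_eq_zero emb).1 h0)) e k he

variable {τ : Type} [Fintype τ]

/-- polynomials without critical points -/
theorem gd_nc (Q : MvPolynomial τ ℤ_[p]) (h : ∀ x : τ → ℤ_[p], ∃ i, eval x (pderiv i Q) ≠ 0)
    (l : ℤ_[p]) (m : ℂ → ℕ∞) : Gd (hm p τ) (fun y => eval y Q - l) m := by
  refine Pool.Agent.N138.RF.G5.Gd_mono (fun T _ => bot_le)
    (Pool.Agent.N138.RF.S.t p (map (cz p) Q) (fun y => eval y Q)
      (Pool.Agent.N138.RF.G5.inc_eval Q) (fun x => ?_) l)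
  obtain ⟨i, hi⟩ := h x
  refine ⟨i, ?_⟩
  rw [pderiv_map]
  have h1 := Pool.Agent.N138.RF.G5.inc_eval (pderiv i Q) x
  rw [← h1]
  exact fun h2 => hi (inc_inj (h2.trans PadicInt.coe_zero.symm))

/-- diagonal affine substitutions -/
theorem gd_nc' (H : MvPolynomial τ ℤ_[p]) (a : τ → ℤ_[p]) (e : τ → ℕ)
    (h : ∀ y : τ → ℤ_[p], ∃ i, eval (fun j => a j + (p : ℤ_[p]) ^ e j * y j) (pderiv i H) ≠ 0)
    (l : ℤ_[p]) (m : ℂ → ℕ∞) :
    Gd (hm p τ) (fun y => eval (fun j => a j + (p : ℤ_[p]) ^ e j * y j) H - l) m := by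
  classical
  set Q : MvPolynomial τ ℤ_[p] := aeval (fun j => C ((p : ℤ_[p]) ^ e j) * X j + C (a j)) H with hQ
  have hev : ∀ (F : MvPolynomial τ ℤ_[p]) (y : τ → ℤ_[p]),
      eval y (aeval (fun j => C ((p : ℤ_[p]) ^ e j) * X j + C (a j)) F) =
        eval (fun j => a j + (p : ℤ_[p]) ^ e j * y j) F := by
    intro F y
    induction F using MvPolynomial.induction_on with
    | C c => simp
    | add u v hu hv => rw [map_add, map_add, map_add, hu, hv]
    | mul_X u i hu =>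
      rw [map_mul, map_mul, map_mul, hu, aeval_X, eval_X, map_add, map_mul, eval_C, eval_C,
        eval_X]
      ring
  have h1 := gd_nc Q (fun x => ?_) l m
  · simpa only [hQ, hev] using h1
  · obtain ⟨i, hi⟩ := h x
    refine ⟨i, ?_⟩
    have h2 : pderiv i Q = aeval (fun j => C ((p : ℤ_[p]) ^ e j) * X j + C (a j)) (pderiv i H) *
        C ((p : ℤ_[p]) ^ e i) := by
      rw [hQ, chain, Finset.sum_eq_single i]
      · congr 1
        rw [map_add, pderiv_C_mul, pderiv_X_self, pderiv_C, mul_one, add_zero]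
      · intro j _ hj
        rw [map_add, pderiv_C_mul, pderiv_X_of_ne hj, pderiv_C, mul_zero, add_zero, mul_zero]
      · intro hi
        exact absurd (Finset.mem_univ _) hi
    rw [h2, map_mul, hev, eval_C]
    exact mul_ne_zero hi (pow_ne_zero _ (by exact_mod_cast (Fact.out : p.Prime).ne_zero))

theorem pderiv_wsc {A : Type} [CommRing A] (t : A) (w : τ → ℕ) (F : MvPolynomial τ A) (i : τ) :
    pderiv i (wsc t w F) = C (t ^ w i) * wsc t w (pderiv i F) := by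
  classical
  ext m
  rw [coeff_C_mul, coeff_wsc, coeff_pderiv, coeff_pderiv, coeff_wsc, map_add,
    Finsupp.weight_single, one_smul, pow_add]
  ring

theorem wsc_sum (w : τ → ℕ) (D : ℕ) (g : MvPolynomial τ ℤ_[p])
    (hg : g.IsWeightedHomogeneous w D) (k n : ℕ) (R : MvPolynomial τ ℤ_[p])
    (hR : Ord w (D + 1) R) : ∃ R' : MvPolynomial τ ℤ_[p], Ord w (D + 1) R' ∧
      wsc ((p : ℤ_[p]) ^ n) w (g + C ((p : ℤ_[p]) ^ k) * R) =
        C ((p : ℤ_[p]) ^ (n * D)) * (g + C ((p : ℤ_[p]) ^ (k + n)) * R') := by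
  obtain ⟨R', hR', hRR⟩ := wsc_ord ((p : ℤ_[p]) ^ n) w (D + 1) R hR
  refine ⟨R', hR', ?_⟩
  have h4 : wsc ((p : ℤ_[p]) ^ n) w (g + C ((p : ℤ_[p]) ^ k) * R) =
      wsc ((p : ℤ_[p]) ^ n) w g + C ((p : ℤ_[p]) ^ k) * wsc ((p : ℤ_[p]) ^ n) w R := by
    unfold wsc
    rw [map_add, map_mul, aeval_C, algebraMap_eq]
  rw [h4, hRR, wsc_wh _ _ _ _ hg, ← pow_mul, ← pow_mul, Nat.mul_succ, pow_add, pow_add (p : ℤ_[p]) k n,
    map_mul, map_mul]
  ring

/-- the critical points of a semi-weighted-homogeneous polynomial near its principal part -/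
theorem crit_swh (w : τ → ℕ) (D : ℕ) (hw : ∀ i, 0 < w i)
    (g : MvPolynomial τ ℤ_[p]) (hg : g.IsWeightedHomogeneous w D)
    (hcr : ∀ x : τ → ℤ_[p], (∀ i, eval x (pderiv i g) = 0) → x = 0) :
    ∃ k0 : ℕ, ∀ k, k0 ≤ k → ∀ R : MvPolynomial τ ℤ_[p], Ord w (D + 1) R → ∀ x : τ → ℤ_[p],
      (∀ i, eval x (pderiv i (g + C ((p : ℤ_[p]) ^ k) * R)) = 0) → x = 0 := by
  obtain ⟨c, hc⟩ := grad_low w g hcr
  refine ⟨c + 1, fun k hk R hR x hx => ?_⟩
  by_contra hx0
  have hex : ∃ n : ℕ, ¬ x ∈ As p (fun i => n * w i) := by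
    by_contra hall
    push Not at hall
    apply hx0
    funext i
    by_contra hi
    obtain ⟨n, hn⟩ := exists_pow_lt_of_lt_one (norm_pos_iff.2 hi) (inv_lt_one' (p := p))
    have h1 := (Pool.Agent.N316.SU.norm_le_iff (x i) (n * w i)).2 (hall n i)
    have h2 : ((p : ℝ)⁻¹) ^ (n * w i) ≤ ((p : ℝ)⁻¹) ^ n := pinv_le (Nat.le_mul_of_pos_right n (hw i))
    exact absurd (h1.trans h2) (not_le.2 hn)
  classical
  have hn1 := Nat.find_spec hex
  set n1 := Nat.find hex with hn1d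
  have hn0 : n1 ≠ 0 := by
    intro h0
    rw [h0] at hn1
    apply hn1
    intro i
    beta_reduce
    rw [Nat.zero_mul, pow_zero]
    exact one_dvd _
  obtain ⟨n, hn⟩ := Nat.exists_eq_succ_of_ne_zero hn0
  have hmem : x ∈ As p (fun i => n * w i) := by
    by_contra h
    have := Nat.find_min' hex h
    omega
  obtain ⟨y, hy⟩ := (As_iff _ _).1 hmem
  have hyA : y ∉ As p w := by
    intro h
    apply hn1
    intro i
    obtain ⟨z, hz⟩ := h i
    rw [hy]
    beta_reduce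
    rw [hz, hn, Nat.succ_mul, pow_add]
    exact mul_dvd_mul_left _ (dvd_mul_right _ _)
  obtain ⟨R', hR', hRR⟩ := wsc_sum w D g hg k n R hR
  obtain ⟨i, hi⟩ := hc y hyA
  have h1 := congrArg (fun Q => eval y (pderiv i Q)) hRR
  beta_reduce at h1
  rw [pderiv_wsc, map_mul, eval_C, eval_wsc, pderiv_C_mul, map_mul, eval_C] at h1
  have h2 : (fun i => ((p : ℤ_[p]) ^ n) ^ w i * y i) = x := by
    rw [hy]
    funext i
    rw [← pow_mul]
  rw [h2, hx i, mul_zero] at h1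
  have h3 := (mul_eq_zero.1 h1.symm).resolve_left
    (pow_ne_zero _ (by exact_mod_cast (Fact.out : p.Prime).ne_zero))
  rw [map_add, map_add, pderiv_C_mul, map_mul, eval_C] at h3
  have h4 : eval y (pderiv i g) = -((p : ℤ_[p]) ^ (k + n) * eval y (pderiv i R')) := by
    linear_combination h3
  rw [h4, norm_neg, norm_mul, norm_pow, PadicInt.norm_p] at hi
  have h5 : ((p : ℝ)⁻¹) ^ (k + n) * ‖eval y (pderiv i R')‖ ≤ ((p : ℝ)⁻¹) ^ (k + n) :=
    mul_le_of_le_one_right (pow_pos inv_pos' _).le (PadicInt.norm_le_one _)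
  exact absurd (hi.trans h5) (not_le.2 (pinv_lt (by omega)))

end Pool.Agent.J4H50.IG
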