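import Pool.Agent.J4H50.IG.Sw3

set_option autoImplicit false
set_option linter.unusedSectionVars false
set_option linter.unusedVariables false

/-! # Semi-weighted-homogeneous polynomials are good -/

namespace Pool.Agent.J4H50.IG

open MvPolynomial MeasureTheory
open Pool.Agent.W427.SMC (msZ bsZ mu)
open Pool.Agent.Y230.PT (msK bsK inc rr)
open Pool.Agent.Y230.PS (EP)
open Pool.Agent.N138.SU Pool.Agent.N138.SV Pool.Agent.N138.RF Pool.Agent.N138.BF
open Pool.Agent.N138.SU.W1 (As meas_As map_pi)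
open Pool.Agent.N138.RF.S1 Pool.Agent.N138.RF.S2

attribute [local instance] msK bsK msZ bsZ

/-- the weight of a semi-weighted-homogeneous polynomial gives a root -/
theorem fb_swh {τ : Type} [Fintype τ] [Nonempty τ] (G0 G1 : MvPolynomial τ ℂ) (w : τ → ℕ) (D : ℕ)
    (hw : ∀ i, 0 < w i) (hD : 0 < D) (hG : G0.IsWeightedHomogeneous w D)
    (hG1 : Ord w (D + 1) G1)
    (h0 : ∀ i, constantCoeff (pderiv i G0) = 0) (h1 : ∀ i, constantCoeff (pderiv i G1) = 0)
    (hz : ∀ z : τ → ℂ, (∀ i, eval z (pderiv i G0) = 0) → z = 0) :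
    FB (G0 + G1) (-(((∑ i, w i : ℕ) : ℂ) / (D : ℂ))) 1 := by
  have hn : 0 < ∑ i, w i := Finset.sum_pos (fun i _ => hw i) Finset.univ_nonempty
  have he : (-(((∑ i, w i : ℕ) : ℂ) / (D : ℂ))) ≠ 0 :=
    neg_ne_zero.2 (div_ne_zero (Nat.cast_ne_zero.2 hn.ne') (Nat.cast_ne_zero.2 hD.ne'))
  intro b hb
  obtain ⟨b', hb', hb2⟩ := Pool.Agent.N138.SV.A1.t (G0 + G1) _ he
    (per_swh G0 G1 w D hw hD hG hG1 h0 h1 hz) b hb
  rw [hb']
  apply Pool.Agent.Y230.TH.dvd_dl
  rw [pow_one]
  exact Polynomial.dvd_iff_isRoot.2 hb2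

variable {p : ℕ} [Fact p.Prime] {τ : Type} [Fintype τ]

theorem Ord.map {A B : Type} [CommRing A] [CommRing B] (φ : A →+* B) {w : τ → ℕ} {k : ℕ}
    {F : MvPolynomial τ A} (h : Ord w k F) : Ord w k (MvPolynomial.map φ F) := by
  intro m hm
  rw [coeff_map] at hm
  exact h m fun h0 => hm (by rw [h0, map_zero])

theorem Ord.C_mul {A : Type} [CommRing A] (c : A) {w : τ → ℕ} {k : ℕ}
    {F : MvPolynomial τ A} (h : Ord w k F) : Ord w k (C c * F) := by
  intro m hm
  rw [coeff_C_mul] at hm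
  exact h m (right_ne_zero_of_mul hm)

/-- the balls around the origin -/
theorem ball_swh [DecidableEq τ] (w : τ → ℕ) (D : ℕ) (hw : ∀ i, 0 < w i)
    (g : MvPolynomial τ ℤ_[p]) (hg : g.IsWeightedHomogeneous w D) (k : ℕ)
    (R : MvPolynomial τ ℤ_[p]) (hR : Ord w (D + 1) R)
    (hcr : ∀ x : τ → ℤ_[p], (∀ i, eval x (pderiv i (g + C ((p : ℤ_[p]) ^ k) * R)) = 0) → x = 0)
    (m : ℂ → ℕ∞)
    (hGd : ∀ (n : ℕ) (R' : MvPolynomial τ ℤ_[p]), Ord w (D + 1) R' →
      Gd (hm p τ) (fun y => eval y (g + C ((p : ℤ_[p]) ^ (k + n)) * R')) m) (n : ℕ) :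
    Gd (hm p τ) (fun y => eval (fun i => (p : ℤ_[p]) ^ n * y i) (g + C ((p : ℤ_[p]) ^ k) * R)) m := by
  set H := g + C ((p : ℤ_[p]) ^ k) * R with hH
  have hpz : (p : ℤ_[p]) ≠ 0 := by exact_mod_cast (Fact.out : p.Prime).ne_zero
  set e : τ → ℕ := fun i => n * w i - n with he
  have hen : ∀ i, n + e i = n * w i := fun i =>
    Nat.add_sub_cancel' (Nat.le_mul_of_pos_right n (hw i))
  set κ := ∑ i, e i with hκ
  have hle : ∀ i, e i ≤ κ := fun i =>
    Finset.single_le_sum (f := e) (fun _ _ => Nat.zero_le _) (Finset.mem_univ i)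
  set N : Matrix τ τ ℤ_[p] := Matrix.diagonal fun i => (p : ℤ_[p]) ^ e i with hN
  set L : Matrix τ τ ℤ_[p] := Matrix.diagonal fun i => (p : ℤ_[p]) ^ (κ - e i) with hL
  have hLN : L * N = ((p : ℤ_[p]) ^ κ) • (1 : Matrix τ τ ℤ_[p]) := by
    rw [hL, hN, Matrix.diagonal_mul_diagonal, ← Matrix.diagonal_one, ← Matrix.diagonal_smul]
    congr 1
    funext i
    rw [← pow_add, Nat.sub_add_cancel (hle i), Pi.smul_apply, smul_eq_mul, mul_one]
  have hvm : ∀ y i, vm N y i = (p : ℤ_[p]) ^ e i * y i := by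
    intro y i
    have h1 : vm N y i = ∑ j, y j * N j i := rfl
    rw [h1, Finset.sum_eq_single i]
    · rw [hN, Matrix.diagonal_apply_eq, mul_comm]
    · intro j _ hj
      rw [hN, Matrix.diagonal_apply_ne _ hj, mul_zero]
    · intro h
      exact absurd (Finset.mem_univ _) h
  obtain ⟨S, c, hS⟩ := lattice (vm N) (vm_cont N) (vm_fin N L κ hLN)
  have hφm : Measurable fun y : τ → ℤ_[p] => eval (fun i => (p : ℤ_[p]) ^ n * y i) H := by
    refine (MvPolynomial.continuous_eval H).measurable.comp ?_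
    exact (continuous_pi fun i => continuous_const.mul (continuous_apply i)).measurable
  have hψ : ∀ a : τ → ℤ_[p], (fun y => eval (fun i => (p : ℤ_[p]) ^ n * (a + vm N y) i) H) =
      fun y => eval (fun i => (p : ℤ_[p]) ^ n * a i + (p : ℤ_[p]) ^ (n + e i) * y i) H := by
    intro a
    funext y
    congr 1
    refine congrArg eval (funext fun i => ?_)
    rw [Pi.add_apply, hvm, pow_add]
    ring
  refine Pool.Agent.N138.RF.L5.t p (hm p τ) _ hφm (hm p τ) S (fun _ => c)
    (fun a y => eval (fun i => (p : ℤ_[p]) ^ n * (a + vm N y) i) H) (fun a _ => ?_) ?_ m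
    (fun a _ => ?_)
  · refine (MvPolynomial.continuous_eval H).measurable.comp ?_
    exact (continuous_pi fun i => continuous_const.mul ((continuous_apply i).comp
      (continuous_const.add (vm_cont N)))).measurable
  · intro h hh hb
    exact hS (fun y => h (eval (fun i => (p : ℤ_[p]) ^ n * y i) H)) (hh.comp hφm) (by
      obtain ⟨B, hB⟩ := hb
      exact ⟨B, fun z => hB _⟩)
  · rw [hψ]
    by_cases h0 : ∃ y0 : τ → ℤ_[p], ∀ i, (p : ℤ_[p]) ^ n * a i + (p : ℤ_[p]) ^ (n + e i) * y0 i = 0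
    · obtain ⟨y0, hy0⟩ := h0
      obtain ⟨R', hR', hRR⟩ := wsc_sum w D g hg k n R hR
      have h1 := Gd_smul (hm p τ) _ (n * D) (hGd n R' hR')
      have h2 := Pool.Agent.N138.RF.G5.Gd_trans _ (-y0) m h1
      refine (congrArg (fun f => Gd (hm p τ) f m) (funext fun y => ?_)).mp h2
      have h3 : eval (-y0 + y) (wsc ((p : ℤ_[p]) ^ n) w H) =
          (p : ℤ_[p]) ^ (n * D) * eval (-y0 + y) (g + C ((p : ℤ_[p]) ^ (k + n)) * R') := by
        rw [hRR, map_mul, eval_C]
      rw [← h3, eval_wsc]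
      refine congrArg (fun z => eval z H) (funext fun i => ?_)
      rw [Pi.add_apply, Pi.neg_apply, ← pow_mul, ← hen]
      linear_combination -hy0 i
    · push Not at h0
      have h1 := gd_nc' H (fun i => (p : ℤ_[p]) ^ n * a i) (fun i => n + e i) (fun y => ?_) 0 m
      · simpa only [sub_zero] using h1
      · by_contra hcon
        push Not at hcon
        obtain ⟨i, hi⟩ := h0 y
        exact hi (congrFun (hcr _ hcon) i)

/-- **Semi-weighted-homogeneous polynomials are good.** -/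
theorem gb_swh [Nonempty τ] (emb : ℚ_[p] →+* ℂ) (w : τ → ℕ) (D : ℕ) (hw : ∀ i, 0 < w i)
    (hD : 0 < D) (g : MvPolynomial τ ℤ_[p]) (hg : g.IsWeightedHomogeneous w D)
    (hgc : ∀ i, constantCoeff (pderiv i g) = 0) {M : ℕ} (hM : IsoC (map (cz p) g) M) :
    ∃ k0 : ℕ, ∀ k, k0 ≤ k → ∀ R : MvPolynomial τ ℤ_[p], Ord w (D + 1) R →
      (∀ i, constantCoeff (pderiv i R) = 0) → GB emb (map (cz p) (g + C ((p : ℤ_[p]) ^ k) * R)) := by
  classical
  have hgQ : (map (cz p) g).IsWeightedHomogeneous w D := by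
    intro s hs
    rw [coeff_map] at hs
    exact hg fun h => hs (by rw [h, map_zero])
  have hgC : (map emb (map (cz p) g)).IsWeightedHomogeneous w D := by
    intro s hs
    rw [coeff_map] at hs
    exact hgQ fun h => hs (by rw [h, map_zero])
  have hz : ∀ z : τ → ℚ_[p], (∀ i, eval z (pderiv i (map (cz p) g)) = 0) → z = 0 :=
    fun z hz => wh_crit _ w D hw hgQ hM z hz
  have hcr : ∀ x : τ → ℤ_[p], (∀ i, eval x (pderiv i g) = 0) → x = 0 := by
    intro x hx
    have h1 := hz (fun i => inc p (x i)) (fun i => by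
      have h2 := Pool.Agent.N138.RF.G5.inc_eval (pderiv i g) x
      rw [pderiv_map]
      refine h2.symm.trans ?_
      rw [hx i]
      exact PadicInt.coe_zero)
    funext i
    exact inc_inj ((congrFun h1 i).trans PadicInt.coe_zero.symm)
  obtain ⟨k1, hk1⟩ := dist_swh w D hw g hg hcr
  obtain ⟨k2, hk2⟩ := crit_swh w D hw g hg hcr
  refine ⟨max k1 k2, fun k hk R hR hRc => ?_⟩
  set H := g + C ((p : ℤ_[p]) ^ k) * R with hH
  have hcrH := hk2 k ((le_max_right _ _).trans hk) R hR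
  set m0 : ℂ → ℕ∞ := fun T => if T ^ D = (p : ℂ) ^ (∑ i, w i) then 1 else 0 with hm0
  have hGd0 : ∀ (n : ℕ) (R' : MvPolynomial τ ℤ_[p]), Ord w (D + 1) R' →
      Gd (hm p τ) (fun y => eval y (g + C ((p : ℤ_[p]) ^ (k + n)) * R')) m0 := by
    intro n R' hR'
    have h1 := Pool.Agent.N138.RF.Wh.t p g w D hw hD hg (fun z h => hz z fun i => by
      rw [pderiv_map, eval_map]
      exact h i)
    refine Pool.Agent.N138.RF.L2.Gd_congr (ν := hm p τ) (φ := fun y => eval y g) ?_ ?_
    · intro h hh hb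
      exact hk1 (k + n) ((le_max_left _ _).trans (hk.trans (Nat.le_add_right _ _))) R' hR' h hh hb
    · refine Pool.Agent.N138.RF.G5.Gd_mono (fun T _ => ?_) h1
      rw [hm0]
  have h00 : eval (0 : τ → ℤ_[p]) H = 0 := by
    rw [eval_zero, hH, map_add, map_mul]
    have h1 : constantCoeff g = 0 := by
      by_contra hne
      rw [constantCoeff_eq] at hne
      have h2 := hg hne
      rw [map_zero] at h2
      omega
    have h2 : constantCoeff R = 0 := by
      by_contra hne
      rw [constantCoeff_eq] at hne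
      have h2 := hR 0 hne
      rw [map_zero] at h2
      omega
    rw [h1, h2, mul_zero, add_zero]
  have hmB : ∀ T : ℂ, T ≠ 0 → m0 T ≤ mB p (map emb (map (cz p) H) -
      C (emb (inc p (eval 0 H)))) T := by
    intro T hT
    rw [hm0]
    beta_reduce
    by_cases hTD : T ^ D = (p : ℂ) ^ (∑ i, w i)
    · rw [if_pos hTD]
      have hn : 1 ≤ ∑ i, w i := Finset.sum_pos (fun i _ => hw i) Finset.univ_nonempty
      have hT1 : 1 < ‖T‖ := by
        by_contra hcon
        exact Pool.Agent.Y230.PT.not_crit_small (not_lt.1 hcon) D _ hn hTD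
      have h3 := Pool.Agent.Y230.PT.crit_r hT D _ hTD
      have hD0 : (D : ℂ) ≠ 0 := by exact_mod_cast hD.ne'
      have h4 : ((Pool.Agent.Y230.PT.rr p T : ℝ) : ℂ) = -(((∑ i, w i : ℕ) : ℂ) / (D : ℂ)) := by
        rw [← neg_div, eq_div_iff hD0]
        linear_combination h3
      refine Pool.Agent.N138.BF.G5.one_le_mB hT1 ?_
      have h6 : inc p (0 : ℤ_[p]) = 0 := rfl
      rw [h00, h6, map_zero, C_0, sub_zero, h4, hH, map_add, map_add]
      refine fb_swh _ _ w D hw hD hgC ?_ ?_ ?_ ?_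
      · exact ((hR.C_mul _).map (cz p)).map emb
      · intro i
        rw [pderiv_map, pderiv_map, constantCoeff_map, constantCoeff_map, hgc i, map_zero, map_zero]
      · intro i
        rw [pderiv_map, pderiv_map, constantCoeff_map, constantCoeff_map, pderiv_C_mul, map_mul,
          hRc i, mul_zero, map_zero, map_zero]
      · exact fun z h => wh_crit _ w D hw hgC (hM.map emb) z h
    · rw [if_neg hTD]
      exact bot_le
  refine ⟨fun x => eval x H, Pool.Agent.N138.RF.G5.inc_eval H, fun P => ?_⟩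
  have hbal : ∀ (a : τ → ℤ_[p]) (k' : ℕ) (y : τ → ℤ_[p]), bal (fun x => eval x H) a k' y =
      eval (fun i => a i + (p : ℤ_[p]) ^ k' * y i) H := fun a k' y => rfl
  have hnc : ∀ (a : τ → ℤ_[p]) (k' : ℕ) (l : ℤ_[p]) (m : ℂ → ℕ∞),
      (∀ y : τ → ℤ_[p], (fun i => a i + (p : ℤ_[p]) ^ k' * y i) ≠ 0) →
      Gd (hm p τ) (fun y => bal (fun x => eval x H) a k' y - l) m := by
    intro a k' l m hno
    refine gd_nc' H a (fun _ => k') (fun y => ?_) l m
    by_contra hcon
    push Not at hcon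
    exact hno y (hcrH _ hcon)
  by_cases hP : P = 0
  · refine ⟨0, fun a k' _ _ => ?_⟩
    rw [hP]
    by_cases h0 : ∃ y0 : τ → ℤ_[p], (fun i => a i + (p : ℤ_[p]) ^ k' * y0 i) = 0
    · obtain ⟨y0, hy0⟩ := h0
      have h1 := ball_swh w D hw g hg k R hR hcrH m0 hGd0 k'
      have h2 := Pool.Agent.N138.RF.G5.Gd_trans _ (-y0) m0 h1
      have h3 := Pool.Agent.N138.RF.G5.Gd_mono hmB h2
      refine (congrArg (fun f => Gd (hm p τ) f (mB p (map emb (map (cz p) H) -
        C (emb (inc p (eval 0 H)))))) (funext fun y => ?_)).mp h3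
      beta_reduce
      rw [h00, sub_zero, hbal, ← hH]
      refine congrArg (fun z => eval z H) (funext fun i => ?_)
      rw [Pi.add_apply, Pi.neg_apply]
      have := congrFun hy0 i
      beta_reduce at this
      rw [Pi.zero_apply] at this
      linear_combination -this
    · push Not at h0
      exact hnc a k' _ _ h0
  · obtain ⟨i, hi⟩ := Function.ne_iff.1 hP
    obtain ⟨k3, hk3⟩ := exists_pow_lt_of_lt_one (norm_pos_iff.2 hi) (inv_lt_one' (p := p))
    refine ⟨k3, fun a k' hk' ha => hnc a k' _ _ fun y hy => ?_⟩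
    have h1 := congrFun hy i
    beta_reduce at h1
    rw [Pi.zero_apply] at h1
    have h2 : P i = -((a i - P i) + (p : ℤ_[p]) ^ k' * y i) + 0 := by linear_combination h1
    have h3 : ‖P i‖ ≤ ((p : ℝ)⁻¹) ^ k3 := by
      rw [h2, add_zero, norm_neg]
      refine (PadicInt.nonarchimedean _ _).trans (max_le (ha i) ?_)
      rw [norm_mul, norm_pow, PadicInt.norm_p]
      exact (mul_le_of_le_one_right (pow_pos inv_pos' _).le (PadicInt.norm_le_one _)).trans
        (pinv_le hk')
    exact absurd h3 (not_le.2 hk3)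

end Pool.Agent.J4H50.IG
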