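import Pool.Agent.J4H50.IG.Ts
import Pool.Agent.J4H50.IG.Est
import Pool.Agent.J4H50.IG.Sw4

set_option autoImplicit false
set_option linter.unusedSectionVars false
set_option linter.unusedVariables false

/-! # Thom-Sebastiani sums are good, after the addition of large powers of some variables -/

namespace Pool.Agent.J4H50.IG

open MvPolynomial MeasureTheory
open Pool.Agent.W427.SMC (msZ bsZ mu)
open Pool.Agent.Y230.PT (msK bsK inc)
open Pool.Agent.N138.SU Pool.Agent.N138.SV Pool.Agent.N138.RF Pool.Agent.N138.BF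

attribute [local instance] msK bsK msZ bsZ

variable {p : ℕ} [Fact p.Prime]

theorem norm_pk (κ s : ℕ) (h : s ≤ κ) (a : ℚ_[p]) (ha : ‖(p : ℚ_[p]) ^ s * a‖ ≤ 1) :
    ‖(p : ℚ_[p]) ^ κ * a‖ ≤ 1 := by
  have h1 : (p : ℚ_[p]) ^ κ * a = (p : ℚ_[p]) ^ (κ - s) * ((p : ℚ_[p]) ^ s * a) := by
    rw [← mul_assoc, ← pow_add, Nat.sub_add_cancel h]
  rw [h1, norm_mul]
  exact mul_le_one₀ (norm_p_pow_le _) (norm_nonneg _) ha

/-- multiples with integral coefficients -/
theorem exists_lift {V : Type} (q : MvPolynomial V ℚ_[p]) : ∃ κ0 : ℕ, ∀ κ : ℕ, κ0 ≤ κ →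
    ∃ η : MvPolynomial V ℤ_[p], map (cz p) η = C ((p : ℚ_[p]) ^ κ) * q := by
  induction q using MvPolynomial.induction_on with
  | C a =>
    obtain ⟨s, hs⟩ := exists_pow_mul_le a
    refine ⟨s, fun κ hκ => ⟨C ⟨(p : ℚ_[p]) ^ κ * a, norm_pk κ s hκ a hs⟩, ?_⟩⟩
    rw [map_C, ← map_mul]
    rfl
  | add q r hq hr =>
    obtain ⟨κ1, h1⟩ := hq
    obtain ⟨κ2, h2⟩ := hr
    refine ⟨max κ1 κ2, fun κ hκ => ?_⟩
    obtain ⟨η1, e1⟩ := h1 κ ((le_max_left _ _).trans hκ)
    obtain ⟨η2, e2⟩ := h2 κ ((le_max_right _ _).trans hκ)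
    exact ⟨η1 + η2, by rw [map_add, e1, e2, mul_add]⟩
  | mul_X q i hq =>
    obtain ⟨κ1, h1⟩ := hq
    refine ⟨κ1, fun κ hκ => ?_⟩
    obtain ⟨η, e⟩ := h1 κ hκ
    exact ⟨η * X i, by rw [map_mul, e, map_X, mul_assoc]⟩

/-- diagonal substitutions -/
noncomputable def dsc {V K : Type} [Field K] (l : V → K) (F : MvPolynomial V K) :
    MvPolynomial V K :=
  aeval (fun i => C (l i) * X i) F

theorem dsc_one {V K : Type} [Field K] (F : MvPolynomial V K) : dsc (fun _ => 1) F = F := by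
  unfold dsc
  have : (fun i : V => C (1 : K) * X i) = X := by
    funext i
    rw [map_one, one_mul]
  rw [this, aeval_X_left, AlgHom.id_apply]

/-- the perturbed polynomial -/
noncomputable def pert {V : Type} (l : V → ℚ_[p]) (κ N : ℕ) (S : Finset V) (T : V → ℤ_[p])
    (F : MvPolynomial V ℚ_[p]) : MvPolynomial V ℚ_[p] :=
  dsc l (C ((p : ℚ_[p]) ^ κ) * F) + ∑ j ∈ S, C (inc p (T j)) * X j ^ N

/-- the statement of the induction -/
def Gs (emb : ℚ_[p] →+* ℂ) {V : Type} [Fintype V] (F : MvPolynomial V ℚ_[p]) : Prop :=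
  ∃ κ0 : ℕ, ∀ κ : ℕ, κ0 ≤ κ → ∃ l : V → ℚ_[p], (∀ i, l i ≠ 0) ∧ ∃ (S : Finset V) (N0 c : ℕ),
    ∀ N : ℕ, N0 ≤ N → ∀ T : V → ℤ_[p], (∀ j ∈ S, T j ≠ 0) → (∀ j ∈ S, (p : ℤ_[p]) ^ c ∣ T j) →
    GB emb (pert l κ N S T F) ∧
    ∀ z : V → ℂ, (∀ j ∈ S, z j = 0) →
      (∀ i, eval z (pderiv i (map emb (pert l κ N S T F))) = 0) → z = 0

theorem Gs_curve (emb : ℚ_[p] →+* ℂ) (F : MvPolynomial (Fin 2) ℚ_[p]) : Gs emb F := by
  obtain ⟨κ0, hκ0⟩ := exists_lift F
  refine ⟨κ0, fun κ hκ => ⟨fun _ => 1, fun _ => one_ne_zero, Finset.univ, F.totalDegree + 1, 0,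
    fun N hN T hT _ => ⟨?_, ?_⟩⟩⟩
  · obtain ⟨η, hη⟩ := hκ0 κ hκ
    have e1 : map (cz p) (η + ∑ j, C (T j) * X j ^ N) = pert (fun _ => 1) κ N Finset.univ T F := by
      unfold pert
      rw [dsc_one, map_add, hη, map_sum]
      congr 1
      refine Finset.sum_congr rfl fun j _ => ?_
      rw [map_mul, map_pow, map_X, map_C]
      rfl
    refine G4.t Pool.Agent.N138.RF.C5.t Cu.t VW.v p emb (pert (fun _ => 1) κ N Finset.univ T F)
      (fun x => eval x (η + ∑ j, C (T j) * X j ^ N)) ?_ ?_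
    · intro x
      rw [Pool.Agent.N138.RF.G5.inc_eval, e1]
    · intro c hc
      have h1 := congrArg (coeff (Finsupp.single 0 N)) hc
      unfold pert at h1
      have h2 : coeff (Finsupp.single 0 N) (C ((p : ℚ_[p]) ^ κ) * F) = 0 := by
        rw [coeff_C_mul, coeff_eq_zero_of_totalDegree_lt, mul_zero]
        rw [← Finsupp.degree_apply, Finsupp.degree_single]
        omega
      rw [dsc_one, coeff_add, h2, zero_add, coeff_sum, Fin.sum_univ_two, coeff_C_mul, coeff_C_mul,
        coeff_X_pow, coeff_X_pow, if_pos rfl, if_neg, mul_one, mul_zero, add_zero, coeff_C,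
        if_neg] at h1
      · exact hT 0 (Finset.mem_univ _) (inc_inj (h1.trans PadicInt.coe_zero.symm))
      · intro h
        have := congrArg (fun s => s 0) h
        simp at this
        omega
      · intro h
        have := congrArg (fun s => s 0) h
        simp at this
        omega
  · intro z hz _
    funext j
    exact hz j (Finset.mem_univ _)

theorem Gs_wh (emb : ℚ_[p] →+* ℂ) {τ : Type} [Fintype τ] [Nonempty τ] (G : MvPolynomial τ ℚ_[p])
    (w : τ → ℕ) (D : ℕ) (hw : ∀ i, 0 < w i) (hD : 0 < D) (hG : G.IsWeightedHomogeneous w D)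
    (hc : ∀ i, constantCoeff (pderiv i G) = 0) {M : ℕ} (hM : IsoC G M) : Gs emb G := by
  obtain ⟨κ0, hκ0⟩ := exists_lift G
  refine ⟨κ0, fun κ hκ => ⟨fun _ => 1, fun _ => one_ne_zero, ∅, 0, 0, fun N hN T hT _ => ?_⟩⟩
  obtain ⟨η, hη⟩ := hκ0 κ hκ
  have e1 : pert (fun _ => 1) κ N ∅ T G = map (cz p) η := by
    unfold pert
    rw [dsc_one, Finset.sum_empty, add_zero, hη]
  have hpk : (p : ℚ_[p]) ^ κ ≠ 0 :=
    pow_ne_zero _ (by exact_mod_cast (Fact.out : p.Prime).ne_zero)
  have hM2 : IsoC (map (cz p) η) M := by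
    rw [hη]
    exact hM.smul (IsUnit.mk0 _ hpk)
  have hWH : (map (cz p) η).IsWeightedHomogeneous w D := by
    rw [hη]
    intro s hs
    rw [coeff_C_mul] at hs
    exact hG fun h => hs (by rw [h, mul_zero])
  have hWC : (map emb (map (cz p) η)).IsWeightedHomogeneous w D := by
    intro s hs
    rw [coeff_map] at hs
    exact hWH fun h => hs (by rw [h, map_zero])
  have hiso : ∀ z : τ → ℂ, (∀ i, eval z (pderiv i (map emb (map (cz p) η))) = 0) → z = 0 :=
    fun z hz => wh_crit _ w D hw hWC (hM2.map emb) z hz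
  rw [e1]
  refine ⟨?_, fun z _ hz => hiso z hz⟩
  refine G5.t Pool.Agent.N138.RF.S.t Pool.Agent.N138.RF.Wh.t VW.v p emb η w D hw hD ?_ ?_ ?_
  · intro s hs
    refine hWH ?_
    rw [coeff_map]
    intro h
    exact hs (inc_inj (h.trans PadicInt.coe_zero.symm))
  · intro i
    have h1 : cz p (constantCoeff (pderiv i η)) = 0 := by
      rw [← constantCoeff_map, ← pderiv_map, hη, Derivation.leibniz, pderiv_C, smul_zero, add_zero,
        smul_eq_mul, map_mul, hc, mul_zero]
    exact inc_inj (h1.trans PadicInt.coe_zero.symm)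
  · intro z hz
    refine hiso z fun i => ?_
    have := hz i
    rwa [← map_map] at this

theorem cc_pd {A τ : Type} [CommRing A] (F : MvPolynomial τ A) (i : τ) :
    constantCoeff (pderiv i F) = coeff (Finsupp.single i 1) F := by
  classical
  rw [constantCoeff_eq, coeff_pderiv]
  simp

/-- the parts of a semi-weighted-homogeneous polynomial with a critical point at the origin -/
theorem crit_parts {A τ : Type} [CommRing A] (G0 G1 : MvPolynomial τ A) (w : τ → ℕ) (D : ℕ)
    (hG0 : G0.IsWeightedHomogeneous w D) (hG1 : Ord w (D + 1) G1)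
    (hc : ∀ i, constantCoeff (pderiv i (G0 + G1)) = 0) :
    (∀ i, constantCoeff (pderiv i G0) = 0) ∧ ∀ i, constantCoeff (pderiv i G1) = 0 := by
  have h1 : ∀ i, constantCoeff (pderiv i G0) = 0 := by
    intro i
    rw [cc_pd]
    by_contra h0
    have h2 := hG0 h0
    rw [Finsupp.weight_single, one_smul] at h2
    have h3 : coeff (Finsupp.single i 1) G1 = 0 := by
      by_contra h4
      have h5 := hG1 _ h4
      rw [Finsupp.weight_single, one_smul] at h5
      omega
    have h4 := hc i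
    rw [cc_pd, coeff_add, h3, add_zero] at h4
    exact h0 h4
  refine ⟨h1, fun i => ?_⟩
  have := hc i
  rwa [map_add, map_add, h1, zero_add] at this

theorem Ord.add {A τ : Type} [CommRing A] {w : τ → ℕ} {k : ℕ} {F G : MvPolynomial τ A}
    (hF : Ord w k F) (hG : Ord w k G) : Ord w k (F + G) := by
  intro m hm
  by_contra hlt
  apply hm
  rw [coeff_add]
  have h1 : coeff m F = 0 := by
    by_contra h
    exact hlt (hF m h)
  have h2 : coeff m G = 0 := by
    by_contra h
    exact hlt (hG m h)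
  rw [h1, h2, add_zero]

theorem Ord.sum {A τ ι : Type} [CommRing A] {w : τ → ℕ} {k : ℕ} (S : Finset ι)
    {F : ι → MvPolynomial τ A} (hF : ∀ i ∈ S, Ord w k (F i)) : Ord w k (∑ i ∈ S, F i) := by
  classical
  intro m hm
  rw [coeff_sum] at hm
  obtain ⟨i, hi, h⟩ := Finset.exists_ne_zero_of_sum_ne_zero hm
  exact hF i hi m h

theorem map_wsc {A B τ : Type} [CommRing A] [CommRing B] (φ : A →+* B) (t : A) (w : τ → ℕ)
    (F : MvPolynomial τ A) : MvPolynomial.map φ (wsc t w F) = wsc (φ t) w (MvPolynomial.map φ F) := by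
  unfold wsc
  rw [map_aeval']
  congr 2
  funext i
  rw [map_mul, map_C, map_X, map_pow]

theorem Gs_swh (emb : ℚ_[p] →+* ℂ) {τ : Type} [Fintype τ] [Nonempty τ]
    (G0 G1 : MvPolynomial τ ℚ_[p]) (w : τ → ℕ) (D : ℕ) (hw : ∀ i, 0 < w i) (hD : 0 < D)
    (hG0 : G0.IsWeightedHomogeneous w D) (hG1 : Ord w (D + 1) G1) {M0 : ℕ} (hM0 : IsoC G0 M0)
    (hc : ∀ i, constantCoeff (pderiv i (G0 + G1)) = 0) : Gs emb (G0 + G1) := by
  classical
  obtain ⟨hc0, hc1⟩ := crit_parts G0 G1 w D hG0 hG1 hc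
  obtain ⟨κ1, hκ1⟩ := exists_lift G0
  obtain ⟨κ2, hκ2⟩ := exists_lift G1
  refine ⟨max κ1 κ2, fun κ hκ => ?_⟩
  obtain ⟨g0, hg0⟩ := hκ1 κ ((le_max_left _ _).trans hκ)
  obtain ⟨g1, hg1⟩ := hκ2 κ ((le_max_right _ _).trans hκ)
  have hp0 : (p : ℚ_[p]) ≠ 0 := by exact_mod_cast (Fact.out : p.Prime).ne_zero
  have hpz : (p : ℤ_[p]) ≠ 0 := by exact_mod_cast (Fact.out : p.Prime).ne_zero
  have hpk : (p : ℚ_[p]) ^ κ ≠ 0 := pow_ne_zero _ hp0
  have hzero : ∀ x : ℤ_[p], cz p x = 0 → x = 0 := fun x hx =>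
    inc_inj (hx.trans PadicInt.coe_zero.symm)
  have hWH : g0.IsWeightedHomogeneous w D := by
    intro s hs
    refine hG0 (d := s) fun h => hs (hzero _ ?_)
    rw [← coeff_map, hg0, coeff_C_mul, h, mul_zero]
  have hOrd : Ord w (D + 1) g1 := by
    intro s hs
    refine hG1 s fun h => hs (hzero _ ?_)
    rw [← coeff_map, hg1, coeff_C_mul, h, mul_zero]
  have hgc0 : ∀ i, constantCoeff (pderiv i g0) = 0 := by
    intro i
    refine hzero _ ?_
    rw [← constantCoeff_map, ← pderiv_map, hg0, pderiv_C_mul, map_mul, hc0, mul_zero]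
  have hgc1 : ∀ i, constantCoeff (pderiv i g1) = 0 := by
    intro i
    refine hzero _ ?_
    rw [← constantCoeff_map, ← pderiv_map, hg1, pderiv_C_mul, map_mul, hc1, mul_zero]
  have hM2 : IsoC (map (cz p) g0) M0 := by
    rw [hg0]
    exact hM0.smul (IsUnit.mk0 _ hpk)
  obtain ⟨k, hk⟩ := gb_swh emb w D hw hD g0 hWH hgc0 hM2
  obtain ⟨R, hR, hRR⟩ := wsc_ord ((p : ℤ_[p]) ^ k) w (D + 1) g1 hOrd
  have hRc : ∀ i, constantCoeff (pderiv i R) = 0 := by
    intro i
    have h1 := congrArg (fun Q => eval 0 (pderiv i Q)) hRR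
    beta_reduce at h1
    rw [pderiv_wsc, map_mul, eval_C, eval_wsc, pderiv_C_mul, map_mul, eval_C] at h1
    have h2 : (fun i : τ => ((p : ℤ_[p]) ^ k) ^ w i * (0 : τ → ℤ_[p]) i) = 0 := by
      funext i
      rw [Pi.zero_apply, mul_zero]
    rw [h2, eval_zero, hgc1, mul_zero] at h1
    exact (mul_eq_zero.1 h1.symm).resolve_left (pow_ne_zero _ (pow_ne_zero _ hpz))
  refine ⟨fun i => ((p : ℚ_[p]) ^ k) ^ w i, fun i => pow_ne_zero _ (pow_ne_zero _ hp0),
    Finset.univ, D + 2, k * D + k, fun N hN T hT hdvd => ⟨?_, fun z hz _ => ?_⟩⟩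
  swap
  · funext i
    exact hz i (Finset.mem_univ _)
  choose! t ht using hdvd
  set R1 : MvPolynomial τ ℤ_[p] := R + ∑ j, C (t j) * X j ^ N with hR1
  have hR1o : Ord w (D + 1) R1 := by
    refine hR.add (Ord.sum _ fun j _ => Ord.C_mul _ ?_)
    have h1 : Ord w (w j) (X j : MvPolynomial τ ℤ_[p]) := by
      intro m hm
      rw [coeff_X] at hm
      split_ifs at hm with h
      · rw [← h, Finsupp.weight_single, one_smul]
      · exact absurd rfl hm
    refine (h1.pow N).mono ?_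
    have := Nat.le_mul_of_pos_right N (hw j)
    omega
  have hR1c : ∀ i, constantCoeff (pderiv i R1) = 0 := by
    intro i
    rw [hR1, map_add, map_add, hRc, zero_add, map_sum, map_sum]
    refine Finset.sum_eq_zero fun j _ => ?_
    rw [pderiv_C_mul, map_mul, Derivation.leibniz_pow, smul_eq_mul, map_nsmul, map_mul, map_pow,
      constantCoeff_X, zero_pow (by omega), zero_mul, smul_zero, mul_zero]
  have h1 := GB_smul emb _ (k * D) (hk k le_rfl R1 hR1o hR1c)
  have h2 : C ((p : ℚ_[p]) ^ (k * D)) * map (cz p) (g0 + C ((p : ℤ_[p]) ^ k) * R1) =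
      pert (fun i => ((p : ℚ_[p]) ^ k) ^ w i) κ N Finset.univ T (G0 + G1) := by
    unfold pert
    have e1 : dsc (fun i => ((p : ℚ_[p]) ^ k) ^ w i) (C ((p : ℚ_[p]) ^ κ) * (G0 + G1)) =
        map (cz p) (wsc ((p : ℤ_[p]) ^ k) w (g0 + g1)) := by
      rw [map_wsc, map_add (map (cz p)), hg0, hg1, ← mul_add]
      unfold wsc dsc
      rw [map_pow (cz p), map_natCast (cz p)]
    have e2 : wsc ((p : ℤ_[p]) ^ k) w (g0 + g1) = C ((p : ℤ_[p]) ^ (k * D)) *
        (g0 + C ((p : ℤ_[p]) ^ k) * R) := by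
      have e3 : wsc ((p : ℤ_[p]) ^ k) w (g0 + g1) =
          wsc ((p : ℤ_[p]) ^ k) w g0 + wsc ((p : ℤ_[p]) ^ k) w g1 := by
        unfold wsc
        rw [map_add]
      rw [e3, hRR, wsc_wh _ _ _ _ hWH, ← pow_mul, ← pow_mul, Nat.mul_succ, pow_add, map_mul]
      ring
    have e4 : ∑ j, C (inc p (T j)) * (X j : MvPolynomial τ ℚ_[p]) ^ N =
        map (cz p) (C ((p : ℤ_[p]) ^ (k * D + k)) * ∑ j, C (t j) * X j ^ N) := by
      rw [map_mul, map_sum, Finset.mul_sum]
      refine Finset.sum_congr rfl fun j _ => ?_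
      have a1 : map (cz p) (C (t j) * (X j : MvPolynomial τ ℤ_[p]) ^ N) =
          C (cz p (t j)) * X j ^ N := by
        rw [map_mul, map_C, map_pow, map_X]
      have a2 : map (cz p) (C ((p : ℤ_[p]) ^ (k * D + k)) : MvPolynomial τ ℤ_[p]) =
          C (cz p ((p : ℤ_[p]) ^ (k * D + k))) := map_C _ _
      have a3 : inc p (T j) = cz p ((p : ℤ_[p]) ^ (k * D + k)) * cz p (t j) := by
        rw [← map_mul (cz p), ← ht j (Finset.mem_univ _)]
        rfl
      rw [a1, a2, a3, map_mul C]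
      ring
    rw [e1, e2, e4, ← map_add, hR1]
    have e5 : C ((p : ℚ_[p]) ^ (k * D)) = map (cz p) (C ((p : ℤ_[p]) ^ (k * D)) :
        MvPolynomial τ ℤ_[p]) := by
      refine Eq.trans ?_ (map_C (cz p) ((p : ℤ_[p]) ^ (k * D))).symm
      congr 1
    rw [e5, ← map_mul]
    congr 1
    rw [pow_add (p : ℤ_[p]) (k * D) k, map_mul C]
    ring
  rw [h2] at h1
  exact h1

theorem pert_add {V W : Type} (l : V → ℚ_[p]) (l' : W → ℚ_[p]) (κ N : ℕ) (S : Finset V)
    (S' : Finset W) (T : V ⊕ W → ℤ_[p])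
    (F : MvPolynomial V ℚ_[p]) (G : MvPolynomial W ℚ_[p]) :
    pert (Sum.elim l l') κ N (S.disjSum S') T (rename Sum.inl F + rename Sum.inr G) =
      rename Sum.inl (pert l κ N S (T ∘ Sum.inl) F) +
        rename Sum.inr (pert l' κ N S' (T ∘ Sum.inr) G) := by
  unfold pert
  have e1 : dsc (Sum.elim l l') (C ((p : ℚ_[p]) ^ κ) * (rename Sum.inl F + rename Sum.inr G)) =
      rename Sum.inl (dsc l (C ((p : ℚ_[p]) ^ κ) * F)) +
        rename Sum.inr (dsc l' (C ((p : ℚ_[p]) ^ κ) * G)) := by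
    have e2 : ∀ F : MvPolynomial V ℚ_[p], dsc (Sum.elim l l') (rename Sum.inl F) =
        rename (Sum.inl : V → V ⊕ W) (dsc l F) := by
      intro F
      induction F using MvPolynomial.induction_on with
      | C a => simp [dsc]
      | add u v hu hv =>
        have a1 : dsc (Sum.elim l l') (rename Sum.inl (u + v)) =
          dsc (Sum.elim l l') (rename Sum.inl u) + dsc (Sum.elim l l') (rename Sum.inl v) := by
          unfold dsc
          rw [map_add, map_add]
        have a2 : dsc l (u + v) = dsc l u + dsc l v := by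
          unfold dsc
          rw [map_add]
        rw [a1, a2, hu, hv, map_add]
      | mul_X u i hu =>
        have a1 : dsc (Sum.elim l l') (rename Sum.inl (u * X i)) =
          dsc (Sum.elim l l') (rename Sum.inl u) * (C (l i) * X (Sum.inl i)) := by
          unfold dsc
          rw [map_mul, map_mul, rename_X, aeval_X, Sum.elim_inl]
        have a2 : dsc l (u * X i) = dsc l u * (C (l i) * X i) := by
          unfold dsc
          rw [map_mul, aeval_X]
        rw [a1, a2, hu, map_mul, map_mul, rename_C, rename_X]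
    have e3 : ∀ F : MvPolynomial W ℚ_[p], dsc (Sum.elim l l') (rename Sum.inr F) =
        rename (Sum.inr : W → V ⊕ W) (dsc l' F) := by
      intro F
      induction F using MvPolynomial.induction_on with
      | C a => simp [dsc]
      | add u v hu hv =>
        have a1 : dsc (Sum.elim l l') (rename Sum.inr (u + v)) =
          dsc (Sum.elim l l') (rename Sum.inr u) + dsc (Sum.elim l l') (rename Sum.inr v) := by
          unfold dsc
          rw [map_add, map_add]
        have a2 : dsc l' (u + v) = dsc l' u + dsc l' v := by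
          unfold dsc
          rw [map_add]
        rw [a1, a2, hu, hv, map_add]
      | mul_X u i hu =>
        have a1 : dsc (Sum.elim l l') (rename Sum.inr (u * X i)) =
          dsc (Sum.elim l l') (rename Sum.inr u) * (C (l' i) * X (Sum.inr i)) := by
          unfold dsc
          rw [map_mul, map_mul, rename_X, aeval_X, Sum.elim_inr]
        have a2 : dsc l' (u * X i) = dsc l' u * (C (l' i) * X i) := by
          unfold dsc
          rw [map_mul, aeval_X]
        rw [a1, a2, hu, map_mul, map_mul, rename_C, rename_X]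
    have e4 : C ((p : ℚ_[p]) ^ κ) * (rename Sum.inl F + rename Sum.inr G) =
        (rename Sum.inl (C ((p : ℚ_[p]) ^ κ) * F) + rename Sum.inr (C ((p : ℚ_[p]) ^ κ) * G) :
          MvPolynomial (V ⊕ W) ℚ_[p]) := by
      rw [map_mul, map_mul, rename_C, rename_C, mul_add]
    rw [e4, ← e2, ← e3]
    unfold dsc
    rw [map_add]
  rw [e1, Finset.sum_disjSum]
  simp only [map_add, map_mul, map_sum, map_pow, rename_X, rename_C, Function.comp_apply]
  ring

theorem f0' : StF0 := Pool.Agent.N138.BF.F.f0 Pool.Agent.N138.BF.A.t Pool.Agent.N138.BF.C.t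
  Pool.Agent.N138.BF.T.t Pool.Agent.N138.BF.P0.t

theorem Gs_add (emb : ℚ_[p] →+* ℂ) {V W : Type} [Fintype V] [Fintype W] (F : MvPolynomial V ℚ_[p])
    (G : MvPolynomial W ℚ_[p]) (hF : Gs emb F) (hG : Gs emb G) :
    Gs emb (rename Sum.inl F + rename Sum.inr G : MvPolynomial (V ⊕ W) ℚ_[p]) := by
  obtain ⟨κ0, h⟩ := hF
  obtain ⟨κ0', h'⟩ := hG
  refine ⟨max κ0 κ0', fun κ hκ => ?_⟩
  obtain ⟨l, hl, S, N0, c, h⟩ := h κ ((le_max_left _ _).trans hκ)
  obtain ⟨l', hl', S', N0', c', h'⟩ := h' κ ((le_max_right _ _).trans hκ)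
  refine ⟨Sum.elim l l', ?_, S.disjSum S', max N0 N0', max c c', fun N hN T hT hd => ?_⟩
  · rintro (i | i)
    · exact hl i
    · exact hl' i
  obtain ⟨h1, h2⟩ := h N ((le_max_left _ _).trans hN)
    (T ∘ Sum.inl) (fun j hj => hT _ (Finset.inl_mem_disjSum.2 hj)) fun j hj =>
      (pow_dvd_pow _ (le_max_left _ _)).trans (hd _ (Finset.inl_mem_disjSum.2 hj))
  obtain ⟨h1', h2'⟩ := h' N ((le_max_right _ _).trans hN)
    (T ∘ Sum.inr) (fun j hj => hT _ (Finset.inr_mem_disjSum.2 hj)) fun j hj =>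
      (pow_dvd_pow _ (le_max_right _ _)).trans (hd _ (Finset.inr_mem_disjSum.2 hj))
  rw [pert_add]
  refine ⟨G1.t Pool.Agent.N138.RF.L1.t f0' p emb _ _ h1 h1',
    fun z hz hc => ?_⟩
  have e0 : map emb (rename Sum.inl (pert l κ N S (T ∘ Sum.inl) F) +
      rename Sum.inr (pert l' κ N S' (T ∘ Sum.inr) G) : MvPolynomial (V ⊕ W) ℚ_[p]) =
      rename Sum.inl (map emb (pert l κ N S (T ∘ Sum.inl) F)) +
        rename Sum.inr (map emb (pert l' κ N S' (T ∘ Sum.inr) G)) := by
    rw [map_add, map_rename, map_rename]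
  rw [e0] at hc
  have e1 := h2 (fun i => z (Sum.inl i)) (fun j hj => hz _ (Finset.inl_mem_disjSum.2 hj))
    fun i => by
      have := hc (Sum.inl i)
      rw [pd_inl, eval_rename] at this
      exact this
  have e2 := h2' (fun i => z (Sum.inr i)) (fun j hj => hz _ (Finset.inr_mem_disjSum.2 hj))
    fun i => by
      have := hc (Sum.inr i)
      rw [pd_inr, eval_rename] at this
      exact this
  funext i
  rcases i with i | i
  · exact congrFun e1 i
  · exact congrFun e2 i

theorem pert_equiv {V W : Type} (e : V ≃ W) (l : V → ℚ_[p]) (κ N : ℕ) (S : Finset V)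
    (T : W → ℤ_[p]) (F : MvPolynomial V ℚ_[p]) :
    pert (l ∘ e.symm) κ N (S.map e.toEmbedding) T (rename e F) =
      rename e (pert l κ N S (T ∘ e) F) := by
  unfold pert
  have e1 : dsc (l ∘ e.symm) (C ((p : ℚ_[p]) ^ κ) * rename e F) =
      rename e (dsc l (C ((p : ℚ_[p]) ^ κ) * F)) := by
    have e2 : ∀ F : MvPolynomial V ℚ_[p], dsc (l ∘ e.symm) (rename e F) = rename e (dsc l F) := by
      intro F
      induction F using MvPolynomial.induction_on with
      | C a => simp [dsc]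
      | add u v hu hv =>
        have a1 : dsc (l ∘ e.symm) (rename e (u + v)) =
          dsc (l ∘ e.symm) (rename e u) + dsc (l ∘ e.symm) (rename e v) := by
          unfold dsc
          rw [map_add, map_add]
        have a2 : dsc l (u + v) = dsc l u + dsc l v := by
          unfold dsc
          rw [map_add]
        rw [a1, a2, hu, hv, map_add]
      | mul_X u i hu =>
        have a1 : dsc (l ∘ e.symm) (rename e (u * X i)) =
          dsc (l ∘ e.symm) (rename e u) * (C (l i) * X (e i)) := by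
          unfold dsc
          rw [map_mul, map_mul, rename_X, aeval_X, Function.comp_apply, Equiv.symm_apply_apply]
        have a2 : dsc l (u * X i) = dsc l u * (C (l i) * X i) := by
          unfold dsc
          rw [map_mul, aeval_X]
        rw [a1, a2, hu, map_mul, map_mul, rename_C, rename_X]
    have e4 : C ((p : ℚ_[p]) ^ κ) * rename e F = rename e (C ((p : ℚ_[p]) ^ κ) * F) := by
      rw [map_mul, rename_C]
    rw [e4, e2]
  rw [e1, Finset.sum_map]
  simp only [map_add, map_mul, map_sum, map_pow, rename_X, rename_C, Function.comp_apply,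
    Equiv.coe_toEmbedding]

theorem Gs_equiv (emb : ℚ_[p] →+* ℂ) {V W : Type} [Fintype V] [Fintype W] (e : V ≃ W)
    (F : MvPolynomial V ℚ_[p]) (hF : Gs emb F) : Gs emb (rename e F) := by
  obtain ⟨κ0, h⟩ := hF
  refine ⟨κ0, fun κ hκ => ?_⟩
  obtain ⟨l, hl, S, N0, c, h⟩ := h κ hκ
  refine ⟨l ∘ e.symm, fun i => hl _, S.map e.toEmbedding, N0, c, fun N hN T hT hd => ?_⟩
  obtain ⟨h1, h2⟩ := h N hN (T ∘ e) (fun j hj => hT _ (Finset.mem_map_of_mem _ hj))
    fun j hj => hd _ (Finset.mem_map_of_mem _ hj)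
  rw [pert_equiv]
  refine ⟨E1.GB_equiv VW.w emb e _ h1, fun z hz hc => ?_⟩
  rw [map_rename] at hc
  have e1 := h2 (fun i => z (e i)) (fun j hj => hz _ (Finset.mem_map_of_mem _ hj)) fun i => by
    have := hc (e i)
    rw [pderiv_rename e.injective, eval_rename] at this
    exact this
  funext i
  have := congrFun e1 (e.symm i)
  simpa using this

/-- the sums are good after a perturbation -/
theorem Gs_of (emb : ℚ_[p] →+* ℂ) {V : Type} {F : MvPolynomial V ℚ_[p]} (h : TS ℚ_[p] F) :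
    ∀ (_ : Fintype V) (M : ℕ), IsoC F M → (∀ i, constantCoeff (pderiv i F) = 0) → Gs emb F := by
  induction h with
  | curve F =>
    intro inst M _ _
    have : inst = Fin.fintype 2 := Subsingleton.elim _ _
    subst this
    exact Gs_curve emb F
  | wh G w D hw hD hG =>
    intro inst M hM hc
    exact Gs_wh emb G w D hw hD hG hc hM
  | swh G0 G1 w D hw hD hG0 hG1 hiso =>
    intro inst M hM hc
    obtain ⟨M0, hM0⟩ := hiso
    exact Gs_swh emb G0 G1 w D hw hD hG0 hG1 hM0 hc
  | add F G hF hG ihF ihG =>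
    rename_i V W
    intro inst M hM hc
    have i1 : Fintype V := Fintype.ofInjective (Sum.inl : V → V ⊕ W) Sum.inl_injective
    have i2 : Fintype W := Fintype.ofInjective (Sum.inr : W → V ⊕ W) Sum.inr_injective
    have : inst = instFintypeSum V W := Subsingleton.elim _ _
    subst this
    exact Gs_add emb F G (ihF i1 M (iso_inl F G (crit_inr F G hc) hM) (crit_inl F G hc))
      (ihG i2 M (iso_inr F G (crit_inl F G hc) hM) (crit_inr F G hc))
  | equiv e F hF ih =>
    rename_i V W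
    intro inst M hM hc
    have i1 : Fintype V := Fintype.ofInjective e e.injective
    exact Gs_equiv emb e F (ih i1 M (iso_equiv e F hM) (crit_equiv e F hc))

end Pool.Agent.J4H50.IG
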